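import Pool.Agent.Work.MP_a2bf38_gt.G.Lev

/-!
# Kähler-Ricci flows on compact complex manifolds: definitions

`M` is a compact complex manifold, given by a family of charts `e c` with values in `ℂ^n`,
`ℂ^n = ℝ^n × ℝ^n` (`Cn n`).  A Kähler-Ricci flow is given by local potentials `ψ c (t, z)`:
`ω = i ∂ ∂bar ψ`, `∂ψ/∂t = log det (∂_j ∂_kbar ψ)`.
-/

open scoped ContDiff ENNReal ComplexOrder
open Set Pool.Agent.ToricKRF Pool.Agent.ToricKRF.G

namespace Pool.Agent.KRFS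

/-- The map `H` is smooth and complex differentiable at the points of the open set `S`. -/
def HolOn {n m : ℕ} (H : Cn n → Cn m) (S : Set (Cn n)) : Prop :=
  ContDiffOn ℝ ∞ H S ∧ ∀ z ∈ S, ∀ u, fderiv ℝ H z (J u) = J (fderiv ℝ H z u)

/-- `∑ |z_k|^2` -/
def nsq {n : ℕ} (z : Cn n) : ℝ := z.1 ⬝ᵥ z.1 + z.2 ⬝ᵥ z.2

/-- The Levi form `∑ f_{k lbar} u_k ubar_l` of a function on `ℂ^n`. -/
noncomputable def levz {n : ℕ} (f : Cn n → ℝ) (u z : Cn n) : ℝ :=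
  (D u (D u f) z + D (J u) (D (J u) f) z) / 4

section

variable {M : Type} [TopologicalSpace M] {n : ℕ} {κ : Type}
  (e : κ → OpenPartialHomeomorph M (Cn n))

/-- The domain of the change of charts. -/
def dom (c c' : κ) : Set (Cn n) := {z | z ∈ (e c).target ∧ (e c).symm z ∈ (e c').source}

/-- The change of charts. -/
def tr (c c' : κ) (z : Cn n) : Cn n := e c' ((e c).symm z)

/-- The charts `e c` form a holomorphic atlas of `M`. -/
structure IsAtlas : Prop where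
  cover : ∀ p : M, ∃ c, p ∈ (e c).source
  holo : ∀ c c', HolOn (tr e c c') (dom e c c')

/-- `ψ c (t, z)`, `t ∈ [0,T)`, are local potentials of a solution `ω(t) = i ∂ ∂bar ψ c` of the
Kähler-Ricci flow on `M`. -/
structure IsKRF (T : ℝ) (ψ : κ → ℝ × Cn n → ℝ) : Prop where
  smooth : ∀ c, ∃ U : Set (ℝ × Cn n), IsOpen U ∧ Ico 0 T ×ˢ (e c).target ⊆ U ∧
    ContDiffOn ℝ ∞ (ψ c) U
  pos : ∀ c, ∀ t ∈ Ico 0 T, ∀ z ∈ (e c).target, (cHess (ψ c) (t, z)).PosDef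
  compat : ∀ c c', ∀ t ∈ Ico 0 T, ∀ z ∈ dom e c c', ∀ u,
    lev (ψ c) u (t, z) = lev (ψ c') (fderiv ℝ (tr e c c') z u) (t, tr e c c' z)
  flow : ∀ c, ∀ t ∈ Ioo 0 T, ∀ z ∈ (e c).target,
    dt (ψ c) (t, z) = Real.log (cHess (ψ c) (t, z)).det.re

/-- `Ω c` are the densities of a smooth positive volume form on `M`: they transform like
`det (∂_j ∂_kbar ψ)`. -/
structure IsVolume (ψ : κ → ℝ × Cn n → ℝ) (Ω : κ → Cn n → ℝ) : Prop where
  smooth : ∀ c, ContDiffOn ℝ ∞ (Ω c) (e c).target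
  pos : ∀ c, ∀ z ∈ (e c).target, 0 < Ω c z
  compat : ∀ c c', ∀ z ∈ dom e c c',
    Ω c z * (cHess (ψ c') (0, tr e c c' z)).det.re = Ω c' (tr e c c' z) *
      (cHess (ψ c) (0, z)).det.re

/-- `γ` is a `C^1` curve in the chart `c` from `p` to `q`. -/
structure ChartCurve (c : κ) (γ : ℝ → Cn n) (p q : M) : Prop where
  smooth : ContDiffOn ℝ 1 γ (Icc 0 1)
  mem : ∀ s ∈ Icc (0 : ℝ) 1, γ s ∈ (e c).target
  left : p ∈ (e c).source ∧ γ 0 = e c p
  right : q ∈ (e c).source ∧ γ 1 = e c q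

/-- The length at time `t` of a curve in the chart `c`, for the Riemannian metric
`2 Re ∑ ψ_{k lbar} dz_k dzbar_l`. -/
noncomputable def clen (ψ : κ → ℝ × Cn n → ℝ) (t : ℝ) (c : κ) (γ : ℝ → Cn n) : ℝ :=
  ∫ s in (0 : ℝ)..1, √(2 * lev (ψ c) (deriv γ s) (t, γ s))

/-- The distance at time `t`: the infimum of the lengths of the piecewise `C^1` curves from `p` to
`q`, made of pieces `γ i` in charts. -/
noncomputable def rdist (ψ : κ → ℝ × Cn n → ℝ) (t : ℝ) (p q : M) : ℝ≥0∞ :=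
  ⨅ (m : ℕ) (x : ℕ → M) (c : ℕ → κ) (γ : ℕ → ℝ → Cn n)
    (_ : x 0 = p ∧ x m = q ∧ ∀ i < m, ChartCurve e (c i) (γ i) (x i) (x (i + 1))),
    ∑ i ∈ Finset.range m, ENNReal.ofReal (clen ψ t (c i) (γ i))

/-- The diameter at time `t`. -/
noncomputable def rdiam (ψ : κ → ℝ × Cn n → ℝ) (t : ℝ) : ℝ≥0∞ :=
  ⨆ (p : M) (q : M), rdist e ψ t p q

end

end Pool.Agent.KRFS
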