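import Pool.Agent.Work.MP_a2bf38_gt.H.Defs
import Pool.Agent.Work.MP_a2bf38_gt.G.Evol

/-!
# Determinants of complex Hessians: change of coordinates, comparison
-/

open scoped ContDiff ENNReal ComplexOrder
open Set Filter Topology Pool.Agent.ToricKRF Pool.Agent.ToricKRF.G

namespace Pool.Agent.KRFS.Bd

section transform

variable {n : ℕ} {f f' : ℝ × Cn n → ℝ} {U U' : Set (ℝ × Cn n)}

theorem sf_add_left (f : ℝ × Cn n → ℝ) (u u' w : Cn n) (p : ℝ × Cn n) :
    sf f (u + u') w p = sf f u w p + sf f u' w p := by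
  unfold sf
  rw [J_add]
  have h1 : ((0 : ℝ), u + u') = ((0 : ℝ), u) + ((0 : ℝ), u') := by simp
  have h2 : ((0 : ℝ), J u + J u') = ((0 : ℝ), J u) + ((0 : ℝ), J u') := by simp
  rw [h1, h2, D_dir_add, D_dir_add]
  ring

theorem sf_symm (hU : IsOpen U) (hf : ContDiffOn ℝ ∞ f U) {p : ℝ × Cn n} (hp : p ∈ U)
    (u w : Cn n) : sf f u w p = sf f w u p := by
  have := congrArg Complex.re (hf_conj hU hf hp u w)
  rw [Complex.conj_re] at this
  exact this

theorem lev_add_dir (hU : IsOpen U) (hf : ContDiffOn ℝ ∞ f U) {p : ℝ × Cn n} (hp : p ∈ U)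
    (u w : Cn n) : lev f (u + w) p = lev f u p + lev f w p + 2 * sf f u w p := by
  rw [lev_eq_sf, lev_eq_sf, lev_eq_sf, sf_add_left, sf_symm hU hf hp u (u + w),
    sf_symm hU hf hp w (u + w), sf_add_left, sf_add_left, sf_symm hU hf hp w u]
  ring

theorem cHess_eq_hf (hU : IsOpen U) (hf : ContDiffOn ℝ ∞ f U) {p : ℝ × Cn n} (hp : p ∈ U)
    (k l : Fin n) : cHess f p k l =
      Pool.Agent.ToricKRF.G.hf f (Pi.single k 1, 0) (Pi.single l 1, 0) p := by
  rw [hf_eq hU hf hp]
  have h : ∀ (k k' : Fin n), cc ((Pi.single k 1, 0) : Cn n) k' = if k' = k then 1 else 0 := by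
    intro k k'
    apply Complex.ext
    · simp only [cc, Pi.single_apply]
      split_ifs <;> simp
    · simp only [cc, Pi.zero_apply]
      split_ifs <;> simp
  simp [h]

/-- the determinants of the complex Hessians under a complex linear map which preserves the
Levi forms -/
theorem det_transform (hU : IsOpen U) (hf : ContDiffOn ℝ ∞ f U) (hU' : IsOpen U')
    (hf' : ContDiffOn ℝ ∞ f' U') {p p' : ℝ × Cn n} (hp : p ∈ U) (hp' : p' ∈ U')
    (L : Cn n →L[ℝ] Cn n) (hL : ∀ u, L (J u) = J (L u)) (h : ∀ u, lev f u p = lev f' (L u) p') :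
    (cHess f p).det.re = Complex.normSq
      (Matrix.of fun k a => cc (L ((Pi.single k 1, 0) : Cn n)) a).det * (cHess f' p').det.re := by
  have h1 : ∀ u w, sf f u w p = sf f' (L u) (L w) p' := by
    intro u w
    have e1 := lev_add_dir hU hf hp u w
    have e2 := lev_add_dir hU' hf' hp' (L u) (L w)
    rw [← map_add, ← h, ← h, ← h] at e2
    linarith
  have h2 : ∀ u w, Pool.Agent.ToricKRF.G.hf f u w p =
      Pool.Agent.ToricKRF.G.hf f' (L u) (L w) p' := by
    intro u w
    unfold Pool.Agent.ToricKRF.G.hf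
    rw [h1, h1, hL]
  set B : Matrix (Fin n) (Fin n) ℂ :=
    Matrix.of fun k a => cc (L ((Pi.single k 1, 0) : Cn n)) a with hB
  have h3 : cHess f p = B * cHess f' p' * B.conjTranspose := by
    ext k l
    rw [cHess_eq_hf hU hf hp, h2, hf_eq hU' hf' hp', Matrix.mul_apply, Finset.sum_comm]
    refine Finset.sum_congr rfl fun b _ => ?_
    rw [Matrix.mul_apply, Finset.sum_mul]
    refine Finset.sum_congr rfl fun a _ => ?_
    rw [Matrix.conjTranspose_apply, RCLike.star_def, hB]
    simp only [Matrix.of_apply]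
    ring
  rw [h3, Matrix.det_mul, Matrix.det_mul, Matrix.det_conjTranspose, RCLike.star_def]
  have : B.det * (cHess f' p').det * (starRingEnd ℂ) B.det =
      (Complex.normSq B.det : ℂ) * (cHess f' p').det := by
    rw [← Complex.mul_conj]
    ring
  rw [this, Complex.re_ofReal_mul]

end transform

section compare

variable {n : ℕ}

/-- comparison of determinants of positive definite matrices -/
theorem det_re_le {A B : Matrix (Fin n) (Fin n) ℂ} (hA : A.PosDef) (hB : B.PosDef) {C : ℝ}
    (h : ∀ x : Fin n → ℂ, (star x ⬝ᵥ A.mulVec x).re ≤ C * (star x ⬝ᵥ B.mulVec x).re) :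
    A.det.re ≤ C ^ n * B.det.re := by
  open scoped MatrixOrder in
  obtain ⟨y, hy⟩ := CStarAlgebra.nonneg_iff_eq_star_mul_self.mp hB.posSemidef.nonneg
  have hy' : B = y.conjTranspose * y := by
    rw [hy, Matrix.star_eq_conjTranspose]
  have hdet : IsUnit y.conjTranspose.det := by
    have h1 : IsUnit B.det := (Matrix.isUnit_iff_isUnit_det _).mp hB.isUnit
    rw [hy', Matrix.det_mul] at h1
    exact isUnit_of_mul_isUnit_left h1
  set N : Matrix (Fin n) (Fin n) ℂ := (y.conjTranspose)⁻¹ with hN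
  have hN1 : N * y.conjTranspose = 1 := Matrix.nonsing_inv_mul _ hdet
  have hN2 : y * N.conjTranspose = 1 := by
    rw [← Matrix.conjTranspose_conjTranspose y, ← Matrix.conjTranspose_mul, hN1,
      Matrix.conjTranspose_one]
  have hN3 : N * B * N.conjTranspose = 1 := by
    rw [hy', ← Matrix.mul_assoc, hN1, Matrix.one_mul, hN2]
  set A' : Matrix (Fin n) (Fin n) ℂ := N * A * N.conjTranspose with hA'
  have hAh : A'.IsHermitian := by
    rw [hA', Matrix.IsHermitian, Matrix.conjTranspose_mul, Matrix.conjTranspose_mul,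
      Matrix.conjTranspose_conjTranspose, hA.isHermitian.eq, Matrix.mul_assoc]
  have hform : ∀ (X : Matrix (Fin n) (Fin n) ℂ) (v : Fin n → ℂ),
      star v ⬝ᵥ (N * X * N.conjTranspose).mulVec v =
        star (N.conjTranspose.mulVec v) ⬝ᵥ X.mulVec (N.conjTranspose.mulVec v) := by
    intro X v
    rw [Matrix.star_mulVec, Matrix.conjTranspose_conjTranspose, ← Matrix.mulVec_mulVec,
      ← Matrix.mulVec_mulVec, Matrix.dotProduct_mulVec]
  have hle : ∀ i, hAh.eigenvalues i ≤ C := by
    intro i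
    set v : Fin n → ℂ := ⇑(hAh.eigenvectorBasis i) with hv
    have h1 : hAh.eigenvalues i = (star v ⬝ᵥ A'.mulVec v).re := hAh.eigenvalues_eq i
    have h2 : (star v ⬝ᵥ v).re = 1 := by
      have e1 : inner ℂ (hAh.eigenvectorBasis i) (hAh.eigenvectorBasis i) = (1 : ℂ) := by
        rw [inner_self_eq_norm_sq_to_K, hAh.eigenvectorBasis.orthonormal.1 i]
        simp
      rw [EuclideanSpace.inner_eq_star_dotProduct, dotProduct_comm] at e1
      rw [e1]
      rfl
    have h3 := h (N.conjTranspose.mulVec v)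
    rw [← hform A v, ← hform B v, hN3, Matrix.one_mulVec, h2, mul_one, ← h1] at h3
    exact h3
  have hApos : A'.PosSemidef := by
    rw [hA']
    exact hA.posSemidef.mul_mul_conjTranspose_same N
  have h0 : ∀ i, 0 ≤ hAh.eigenvalues i := fun i => hApos.eigenvalues_nonneg i
  have hd : A'.det.re ≤ C ^ n := by
    rw [hAh.det_eq_prod_eigenvalues]
    have e1 : (∏ i, (hAh.eigenvalues i : ℂ)) = ((∏ i, hAh.eigenvalues i : ℝ) : ℂ) := by
      push_cast
      rfl
    have e2 : (∏ i, hAh.eigenvalues i) ≤ C ^ n := by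
      calc (∏ i, hAh.eigenvalues i) ≤ ∏ _i : Fin n, C :=
            Finset.prod_le_prod (fun i _ => h0 i) fun i _ => hle i
        _ = C ^ n := by simp
    calc (∏ i, ((hAh.eigenvalues i : ℝ) : ℂ)).re = ∏ i, hAh.eigenvalues i := by
          rw [e1, Complex.ofReal_re]
      _ ≤ C ^ n := e2
  have hmulre : ∀ X : Matrix (Fin n) (Fin n) ℂ, (N * X * N.conjTranspose).det.re =
      Complex.normSq N.det * X.det.re := by
    intro X
    rw [Matrix.det_mul, Matrix.det_mul, Matrix.det_conjTranspose, RCLike.star_def]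
    have : N.det * X.det * (starRingEnd ℂ) N.det = (Complex.normSq N.det : ℂ) * X.det := by
      rw [← Complex.mul_conj]
      ring
    rw [this, Complex.re_ofReal_mul]
  have hB1 : Complex.normSq N.det * B.det.re = 1 := by
    rw [← hmulre, hN3, Matrix.det_one, Complex.one_re]
  have hBpos : 0 < B.det.re := (Complex.pos_iff.1 hB.det_pos).1
  have hA1 : A'.det.re = Complex.normSq N.det * A.det.re := hmulre A
  rw [hA1] at hd
  calc A.det.re = (Complex.normSq N.det * A.det.re) * B.det.re := by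
        rw [mul_right_comm, hB1, one_mul]
    _ ≤ C ^ n * B.det.re := mul_le_mul_of_nonneg_right hd hBpos.le

theorem lev_eq_form {f : ℝ × Cn n → ℝ} {U : Set (ℝ × Cn n)} (hU : IsOpen U)
    (hf : ContDiffOn ℝ ∞ f U) {p : ℝ × Cn n} (hp : p ∈ U) (x : Fin n → ℂ) :
    lev f ((fun k => (x k).re, fun k => -(x k).im) : Cn n) p =
      (star x ⬝ᵥ (cHess f p).mulVec x).re := by
  rw [lev_eq_sf, sf_eq_re hU hf hp]
  congr 1
  have hc : ∀ k, cc ((fun k => (x k).re, fun k => -(x k).im) : Cn n) k = star (x k) := by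
    intro k
    rfl
  simp only [dotProduct, Matrix.mulVec, Pi.star_apply]
  refine Finset.sum_congr rfl fun k _ => ?_
  rw [Finset.mul_sum]
  refine Finset.sum_congr rfl fun l _ => ?_
  rw [hc, hc, ← RCLike.star_def, star_star]
  ring

/-- comparison of determinants from the comparison of the Levi forms -/
theorem det_le_of_lev_le {f g : ℝ × Cn n → ℝ} {U V : Set (ℝ × Cn n)} (hU : IsOpen U)
    (hf : ContDiffOn ℝ ∞ f U) (hV : IsOpen V) (hg : ContDiffOn ℝ ∞ g V) {p p' : ℝ × Cn n}
    (hp : p ∈ U) (hp' : p' ∈ V) (hfp : (cHess f p).PosDef) (hgp : (cHess g p').PosDef) {C : ℝ}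
    (h : ∀ u, lev f u p ≤ C * lev g u p') :
    (cHess f p).det.re ≤ C ^ n * (cHess g p').det.re := by
  refine det_re_le hfp hgp fun x => ?_
  rw [← lev_eq_form hU hf hp, ← lev_eq_form hV hg hp']
  exact h _

end compare

end Pool.Agent.KRFS.Bd
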