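import Pool.Agent.Work.MP_a2bf38_gt.H.Setup
import Pool.Agent.Work.MP_a2bf38_gt.G.Herm
import Pool.Agent.Work.MP_a2bf38_gt.LCalc
import Pool.Agent.Work.MP_a2bf38_gt.MaxP

/-!
# The chain rule for the Levi form and the maximum principle on a compact manifold
-/

open scoped ContDiff ENNReal ComplexOrder
open Set Filter Topology Pool.Agent.ToricKRF Pool.Agent.ToricKRF.G

namespace Pool.Agent.KRFS

section Second

variable {V V' : Type*} [NormedAddCommGroup V] [NormedSpace ℝ V] [NormedAddCommGroup V']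
  [NormedSpace ℝ V']

theorem D_D_eq {f : V → ℝ} {p : V} (hf : ContDiffAt ℝ 2 f p) (a b : V) :
    D a (D b f) p = fderiv ℝ (fderiv ℝ f) p a b := by
  have h2 : DifferentiableAt ℝ (fderiv ℝ f) p :=
    (hf.fderiv_right (m := 1) (by norm_num)).differentiableAt (by norm_num)
  change fderiv ℝ (fun y => (fderiv ℝ f y) b) p a = _
  rw [fderiv_clm_apply h2 (differentiableAt_const b)]
  simp

theorem D_D_comp {f : V → ℝ} {H : V' → V} {p : V'} (hf : ContDiffAt ℝ 2 f (H p))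
    (hH : ContDiffAt ℝ 2 H p) (w : V') :
    D w (D w (fun q => f (H q))) p =
      fderiv ℝ (fderiv ℝ f) (H p) (fderiv ℝ H p w) (fderiv ℝ H p w) +
        fderiv ℝ f (H p) (fderiv ℝ (fun q => fderiv ℝ H q w) p w) := by
  have hev : D w (fun q => f (H q)) =ᶠ[𝓝 p] fun q => (fderiv ℝ f (H q)) (fderiv ℝ H q w) := by
    have h1 : ∀ᶠ q in 𝓝 p, DifferentiableAt ℝ f (H q) :=
      hH.continuousAt.eventually ((hf.eventually (by simp)).mono fun y hy =>
        hy.differentiableAt (by norm_num))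
    have h2 : ∀ᶠ q in 𝓝 p, DifferentiableAt ℝ H q :=
      (hH.eventually (by simp)).mono fun y hy => hy.differentiableAt (by norm_num)
    filter_upwards [h1, h2] with q h1 h2
    change fderiv ℝ (f ∘ H) q w = _
    rw [fderiv_comp q h1 h2]
    rfl
  have hf' : DifferentiableAt ℝ (fderiv ℝ f) (H p) :=
    (hf.fderiv_right (m := 1) (by norm_num)).differentiableAt (by norm_num)
  have hH' : DifferentiableAt ℝ (fun q => fderiv ℝ H q w) p :=
    ((hH.fderiv_right (m := 1) (by norm_num)).differentiableAt (by norm_num)).clm_apply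
      (differentiableAt_const w)
  have hHd : DifferentiableAt ℝ H p := hH.differentiableAt (by norm_num)
  have hc : DifferentiableAt ℝ (fun q => fderiv ℝ f (H q)) p := hf'.comp p hHd
  change fderiv ℝ (D w (fun q => f (H q))) p w = _
  rw [hev.fderiv_eq, fderiv_clm_apply hc hH']
  have h3 : fderiv ℝ (fun q => fderiv ℝ f (H q)) p =
      (fderiv ℝ (fderiv ℝ f) (H p)).comp (fderiv ℝ H p) := fderiv_comp p hf' hHd
  rw [h3]
  simp [add_comm]

theorem D_slice' {E : Type*} [NormedAddCommGroup E] [NormedSpace ℝ E] {f : ℝ × E → ℝ} {t : ℝ}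
    {x : E} (hf : DifferentiableAt ℝ f (t, x)) (w : E) :
    D (0, w) f (t, x) = D w (fun y => f (t, y)) x := by
  simp only [D]
  have h1 : HasFDerivAt (fun y : E => ((t, y) : ℝ × E)) (ContinuousLinearMap.inr ℝ ℝ E) x :=
    (hasFDerivAt_const t x).prodMk (hasFDerivAt_id (𝕜 := ℝ) x)
  have h2 := (hf.hasFDerivAt.comp x h1).fderiv
  have h4 : (fun y => f (t, y)) = f ∘ fun y => (t, y) := rfl
  rw [h4, h2]
  simp

end Second

section Chain

variable {n m : ℕ}

theorem J_continuous : Continuous (J : Cn n → Cn n) := by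
  unfold J
  fun_prop

/-- multiplication by `i` as a continuous linear map -/
def Jl (n : ℕ) : Cn n →L[ℝ] Cn n where
  toFun := J
  map_add' := J_add
  map_smul' := fun c u => J_smul c u
  cont := J_continuous

theorem Jl_apply (u : Cn n) : Jl n u = J u := rfl

theorem two_le_infty : (2 : WithTop ℕ∞) ≤ ((⊤ : ℕ∞) : WithTop ℕ∞) := WithTop.coe_le_coe.2 le_top

/-- `H''(iu, iu) = - H''(u, u)` for holomorphic `H` -/
theorem HolOn.second {H : Cn n → Cn m} {S : Set (Cn n)} (hS : IsOpen S) (hH : HolOn H S)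
    {z : Cn n} (hz : z ∈ S) (u : Cn n) :
    fderiv ℝ (fun q => fderiv ℝ H q (J u)) z (J u) = -fderiv ℝ (fun q => fderiv ℝ H q u) z u := by
  have hHz : ContDiffAt ℝ 2 H z := (hH.1.contDiffAt (hS.mem_nhds hz)).of_le two_le_infty
  have hd : DifferentiableAt ℝ (fderiv ℝ H) z :=
    (hHz.fderiv_right (m := 1) (by norm_num)).differentiableAt (by norm_num)
  have key : ∀ a b : Cn n, fderiv ℝ (fun q => fderiv ℝ H q b) z a =
      fderiv ℝ (fderiv ℝ H) z a b := by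
    intro a b
    rw [fderiv_clm_apply hd (differentiableAt_const b)]
    simp
  have hs : IsSymmSndFDerivAt ℝ H z := by
    apply hHz.isSymmSndFDerivAt
    rw [minSmoothness_of_isRCLikeNormedField]
  have hJ : ∀ a b : Cn n, fderiv ℝ (fun q => fderiv ℝ H q (J b)) z a =
      J (fderiv ℝ (fun q => fderiv ℝ H q b) z a) := by
    intro a b
    have h1 : (fun q => fderiv ℝ H q (J b)) =ᶠ[𝓝 z] fun q => Jl m (fderiv ℝ H q b) := by
      filter_upwards [hS.mem_nhds hz] with q hq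
      exact hH.2 q hq b
    have h2 : DifferentiableAt ℝ (fun q => fderiv ℝ H q b) z := hd.clm_apply (differentiableAt_const b)
    have h3 := ((Jl m).hasFDerivAt.comp z h2.hasFDerivAt).fderiv
    rw [h1.fderiv_eq]
    change fderiv ℝ ((Jl m) ∘ fun q => fderiv ℝ H q b) z a = _
    rw [h3]
    rfl
  rw [hJ, key, hs, ← key, hJ, J_J]

theorem levz_comp {f : Cn m → ℝ} {S' : Set (Cn m)} (hS' : IsOpen S') (hf : ContDiffOn ℝ ∞ f S')
    {H : Cn n → Cn m} {S : Set (Cn n)} (hS : IsOpen S) (hH : HolOn H S) {z : Cn n} (hz : z ∈ S)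
    (hp : H z ∈ S') (u : Cn n) :
    levz (fun x => f (H x)) u z = levz f (fderiv ℝ H z u) (H z) := by
  have hfz : ContDiffAt ℝ 2 f (H z) := (hf.contDiffAt (hS'.mem_nhds hp)).of_le two_le_infty
  have hHz : ContDiffAt ℝ 2 H z := (hH.1.contDiffAt (hS.mem_nhds hz)).of_le two_le_infty
  have hJ := hH.2 z hz u
  unfold levz
  rw [D_D_comp hfz hHz, D_D_comp hfz hHz, hH.second hS hz u, hJ, D_D_eq hfz, D_D_eq hfz, map_neg]
  ring

theorem levz_slice {f : ℝ × Cn n → ℝ} {U : Set (ℝ × Cn n)} (hU : IsOpen U)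
    (hf : ContDiffOn ℝ ∞ f U) {t : ℝ} {z : Cn n} (hp : (t, z) ∈ U) (u : Cn n) :
    levz (fun x => f (t, x)) u z = lev f u (t, z) := by
  have hev : ∀ᶠ x in 𝓝 z, (t, x) ∈ U :=
    (Continuous.prodMk_right t).continuousAt.eventually_mem (hU.mem_nhds hp)
  have h1 : ∀ w, D w (fun x => f (t, x)) =ᶠ[𝓝 z] fun x => D (0, w) f (t, x) := by
    intro w
    filter_upwards [hev] with x hx
    exact (D_slice' (diffAt_of_contDiffOn hU hf hx) w).symm
  have h2 : ∀ w, D w (D w fun x => f (t, x)) z = D (0, w) (D (0, w) f) (t, z) := by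
    intro w
    rw [LC.D_congr w (h1 w)]
    exact (D_slice' (diffAt_of_contDiffOn hU (contDiffOn_D hU hf _) hp) w).symm
  unfold levz lev
  rw [h2, h2]

theorem lev_snd {g : Cn n → ℝ} {S : Set (Cn n)} (hS : IsOpen S) (hg : ContDiffOn ℝ ∞ g S) {t : ℝ}
    {z : Cn n} (hz : z ∈ S) (u : Cn n) : lev (fun q => g q.2) u (t, z) = levz g u z := by
  have hU : IsOpen ((univ : Set ℝ) ×ˢ S) := isOpen_univ.prod hS
  have hf : ContDiffOn ℝ ∞ (fun q : ℝ × Cn n => g q.2) (univ ×ˢ S) :=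
    hg.comp contDiffOn_snd fun q hq => hq.2
  exact (levz_slice hU hf ⟨mem_univ _, hz⟩ u).symm

theorem lev_comp {f : ℝ × Cn m → ℝ} {U : Set (ℝ × Cn m)} (hU : IsOpen U)
    (hf : ContDiffOn ℝ ∞ f U) {H : Cn n → Cn m} {S : Set (Cn n)} (hS : IsOpen S) (hH : HolOn H S)
    {t : ℝ} {z : Cn n} (hz : z ∈ S) (hp : (t, H z) ∈ U) (u : Cn n) :
    lev (fun q => f (q.1, H q.2)) u (t, z) = lev f (fderiv ℝ H z u) (t, H z) := by
  have hSo : IsOpen ((univ : Set ℝ) ×ˢ S) := isOpen_univ.prod hS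
  have hHs : ContDiffOn ℝ ∞ (fun q : ℝ × Cn n => (q.1, H q.2)) (univ ×ˢ S) :=
    contDiffOn_fst.prodMk (hH.1.comp contDiffOn_snd fun q hq => hq.2)
  have hU' : IsOpen ((univ ×ˢ S) ∩ (fun q : ℝ × Cn n => (q.1, H q.2)) ⁻¹' U) :=
    hHs.continuousOn.isOpen_inter_preimage hSo hU
  have hg : ContDiffOn ℝ ∞ (fun q : ℝ × Cn n => f (q.1, H q.2))
      ((univ ×ˢ S) ∩ (fun q : ℝ × Cn n => (q.1, H q.2)) ⁻¹' U) :=
    hf.comp (hHs.mono inter_subset_left) fun q hq => hq.2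
  rw [← levz_slice hU' hg ⟨⟨mem_univ _, hz⟩, hp⟩, ← levz_slice hU hf hp]
  have hSl : IsOpen ((fun y : Cn m => (t, y)) ⁻¹' U) := hU.preimage (by fun_prop)
  have hfl : ContDiffOn ℝ ∞ (fun y : Cn m => f (t, y)) ((fun y : Cn m => (t, y)) ⁻¹' U) :=
    hf.comp (contDiffOn_const.prodMk contDiffOn_id) fun y hy => hy
  exact levz_comp hSl hfl hS hH hz hp u

theorem lev_nonpos_of_max {g : ℝ × Cn n → ℝ} {t : ℝ} {z : Cn n} (hg : ContDiffAt ℝ ∞ g (t, z))
    (hmax : ∀ᶠ x in 𝓝 z, g (t, x) ≤ g (t, z)) (u : Cn n) : lev g u (t, z) ≤ 0 := by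
  have hg2 : ContDiffAt ℝ 2 g (t, z) := hg.of_le two_le_infty
  have key : ∀ w : Cn n, D (0, w) (D (0, w) g) (t, z) ≤ 0 := by
    intro w
    obtain ⟨h1, -, h3⟩ := line_facts ((0 : ℝ), w) hg2
    change fderiv ℝ (fun q => fderiv ℝ g q (0, w)) (t, z) (0, w) ≤ 0
    rw [← h3]
    apply deriv_deriv_nonpos_of_isLocalMax h1
    have hc : Tendsto (fun s : ℝ => z + s • w) (𝓝 0) (𝓝 z) := by
      have : Continuous fun s : ℝ => z + s • w := by fun_prop
      simpa using this.tendsto 0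
    filter_upwards [hc.eventually hmax] with s hs
    simpa using hs
  unfold lev
  have h1 := key u
  have h2 := key (J u)
  linarith

theorem dt_nonneg_of_max {g : ℝ × Cn n → ℝ} {t : ℝ} {z : Cn n} (hg : ContDiffAt ℝ ∞ g (t, z))
    (hmax : ∀ᶠ r in 𝓝[<] t, g (r, z) ≤ g (t, z)) : 0 ≤ dt g (t, z) := by
  have hg2 : ContDiffAt ℝ 2 g (t, z) := hg.of_le two_le_infty
  obtain ⟨g1, g2, -⟩ := line_facts ((1 : ℝ), (0 : Cn n)) hg2
  obtain ⟨c, hc, hcm⟩ := (mem_nhdsLT_iff_exists_Ioo_subset).1 hmax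
  change 0 ≤ fderiv ℝ g (t, z) (1, 0)
  rw [← g2]
  have hct : c < t := hc
  apply deriv_nonneg_of_left_max (c := (c - t) / 2) (by linarith)
    (g1.differentiableAt (by norm_num))
  intro s hs
  rcases eq_or_lt_of_le hs.2 with h0 | h0
  · rw [h0]
  · have := hcm (show t + s ∈ Ioo c t from ⟨by linarith [hs.1], by linarith⟩)
    simpa using this

theorem dt_sub_time {f : ℝ × Cn n → ℝ} {p : ℝ × Cn n} (hf : DifferentiableAt ℝ f p) (ε : ℝ) :
    dt (fun q => f q - ε * q.1) p = dt f p - ε := by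
  unfold G.dt
  have h1 : DifferentiableAt ℝ (fun q : ℝ × Cn n => ε * q.1) p := by fun_prop
  rw [D_sub hf h1]
  congr 1
  have h2 : DifferentiableAt ℝ (fun q : ℝ × Cn n => q.1) p := by fun_prop
  rw [D_const_mul _ h2]
  have h3 : fderiv ℝ (fun q : ℝ × Cn n => q.1) p = ContinuousLinearMap.fst ℝ ℝ (Cn n) :=
    hasFDerivAt_fst.fderiv
  simp [D, h3]

variable {M : Type} [TopologicalSpace M] {κ : Type} {e : κ → OpenPartialHomeomorph M (Cn n)}

theorem isOpen_dom (c c' : κ) : IsOpen (dom e c c') :=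
  (e c).isOpen_inter_preimage_symm (e c').open_source

theorem mem_dom {c c' : κ} {p : M} (hp : p ∈ (e c).source) (hp' : p ∈ (e c').source) :
    e c p ∈ dom e c c' :=
  ⟨(e c).map_source hp, by rwa [(e c).left_inv hp]⟩

theorem tr_apply {c c' : κ} {p : M} (hp : p ∈ (e c).source) : tr e c c' (e c p) = e c' p := by
  rw [tr, (e c).left_inv hp]

/-- a smooth function on `[0,T) × M`, in charts -/
structure IsFun (e : κ → OpenPartialHomeomorph M (Cn n)) (T : ℝ) (f : κ → ℝ × Cn n → ℝ) :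
    Prop where
  smooth : ∀ c, ∃ U : Set (ℝ × Cn n), IsOpen U ∧ Ico 0 T ×ˢ (e c).target ⊆ U ∧
    ContDiffOn ℝ ∞ (f c) U
  compat : ∀ c c', ∀ t ∈ Ico 0 T, ∀ z ∈ dom e c c', f c (t, z) = f c' (t, tr e c c' z)

theorem IsFun.eq_of_mem {T : ℝ} {f : κ → ℝ × Cn n → ℝ} (hf : IsFun e T f) {c c' : κ} {t : ℝ}
    (ht : t ∈ Ico 0 T) {p : M} (hp : p ∈ (e c).source) (hp' : p ∈ (e c').source) :
    f c (t, e c p) = f c' (t, e c' p) := by
  rw [hf.compat c c' t ht _ (mem_dom hp hp'), tr_apply hp]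

theorem IsFun.contDiffAt {T : ℝ} {f : κ → ℝ × Cn n → ℝ} (hf : IsFun e T f) {c : κ} {t : ℝ}
    (ht : t ∈ Ico 0 T) {z : Cn n} (hz : z ∈ (e c).target) : ContDiffAt ℝ ∞ (f c) (t, z) := by
  obtain ⟨U, hU, hsub, hs⟩ := hf.smooth c
  exact hs.contDiffAt (hU.mem_nhds (hsub ⟨ht, hz⟩))

/-- the function on `[0,T) × M` of `f` -/
noncomputable def glob (he : IsAtlas e) (f : κ → ℝ × Cn n → ℝ) : ℝ × M → ℝ := fun q =>
  f (he.cover q.2).choose (q.1, e (he.cover q.2).choose q.2)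

theorem glob_eq (he : IsAtlas e) {T : ℝ} {f : κ → ℝ × Cn n → ℝ} (hf : IsFun e T f) {c : κ} {t : ℝ}
    (ht : t ∈ Ico 0 T) {p : M} (hp : p ∈ (e c).source) : glob he f (t, p) = f c (t, e c p) :=
  hf.eq_of_mem ht (he.cover p).choose_spec hp

theorem glob_continuousOn (he : IsAtlas e) {T : ℝ} {f : κ → ℝ × Cn n → ℝ} (hf : IsFun e T f) :
    ContinuousOn (glob he f) (Ico 0 T ×ˢ univ) := by
  rintro ⟨t, p⟩ ⟨ht, -⟩
  obtain ⟨c, hc⟩ := he.cover p
  have h1 : ContinuousAt (fun q : ℝ × M => f c (q.1, e c q.2)) (t, p) := by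
    have h2 : ContinuousAt (fun q : ℝ × M => (q.1, e c q.2)) (t, p) :=
      continuousAt_fst.prodMk (((e c).continuousAt hc).comp continuousAt_snd)
    exact ContinuousAt.comp (f := fun q : ℝ × M => (q.1, e c q.2)) (g := f c)
      (hf.contDiffAt ht ((e c).map_source hc)).continuousAt h2
  refine h1.continuousWithinAt.congr_of_eventuallyEq ?_ (glob_eq he hf ht hc)
  have hev : ∀ᶠ q : ℝ × M in 𝓝[Ico 0 T ×ˢ univ] (t, p), q.2 ∈ (e c).source :=
    (continuousAt_snd.eventually_mem ((e c).open_source.mem_nhds hc)).filter_mono nhdsWithin_le_nhds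
  filter_upwards [hev, self_mem_nhdsWithin] with q hq hq'
  exact glob_eq he hf hq'.1 hq

/-- **The maximum principle on a compact manifold.** -/
theorem max_principle [CompactSpace M] (he : IsAtlas e) {T : ℝ} {f : κ → ℝ × Cn n → ℝ}
    (hf : IsFun e T f) {t' : ℝ} (ht' : t' ∈ Ico 0 T) {K : ℝ}
    (h0 : ∀ c, ∀ z ∈ (e c).target, f c (0, z) ≤ K)
    (hint : ∀ c, ∀ t ∈ Ioc 0 t', ∀ z ∈ (e c).target, (∀ u, lev (f c) u (t, z) ≤ 0) →
      G.dt (f c) (t, z) ≤ 0) :
    ∀ c, ∀ t ∈ Icc 0 t', ∀ z ∈ (e c).target, f c (t, z) ≤ K := by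
  intro c₁ t₁ ht₁ z₁ hz₁
  by_contra hcon
  push Not at hcon
  set p₁ : M := (e c₁).symm z₁ with hp₁
  have hp₁s : p₁ ∈ (e c₁).source := (e c₁).map_target hz₁
  have hz₁' : e c₁ p₁ = z₁ := (e c₁).right_inv hz₁
  have hsub : Icc 0 t' ×ˢ (univ : Set M) ⊆ Ico 0 T ×ˢ univ := fun q hq =>
    ⟨⟨hq.1.1, lt_of_le_of_lt hq.1.2 ht'.2⟩, hq.2⟩
  have hIco : ∀ t ∈ Icc 0 t', t ∈ Ico 0 T := fun t ht => ⟨ht.1, lt_of_le_of_lt ht.2 ht'.2⟩
  -- the perturbation
  obtain ⟨ε, hε, hεK⟩ : ∃ ε > 0, K < f c₁ (t₁, z₁) - ε * t₁ := by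
    refine ⟨(f c₁ (t₁, z₁) - K) / (2 * (t₁ + 1)), ?_, ?_⟩
    · have := ht₁.1
      apply div_pos <;> linarith
    · have h1 := ht₁.1
      have h2 : (f c₁ (t₁, z₁) - K) / (2 * (t₁ + 1)) * t₁ ≤ (f c₁ (t₁, z₁) - K) / 2 := by
        rw [div_mul_eq_mul_div, div_le_div_iff₀ (by positivity) (by norm_num)]
        nlinarith
      linarith
  set v : ℝ × M → ℝ := fun q => glob he f q - ε * q.1 with hv
  have hvc : ContinuousOn v (Icc 0 t' ×ˢ (univ : Set M)) :=
    ((glob_continuousOn he hf).mono hsub).sub (by fun_prop)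
  have hcomp : IsCompact (Icc 0 t' ×ˢ (univ : Set M)) := isCompact_Icc.prod isCompact_univ
  obtain ⟨⟨t, p⟩, hpQ, hpmax⟩ := hcomp.exists_isMaxOn ⟨(t₁, p₁), ht₁, mem_univ _⟩ hvc
  have htI : t ∈ Icc 0 t' := hpQ.1
  have hmax : ∀ r ∈ Icc 0 t', ∀ q, v (r, q) ≤ v (t, p) := fun r hr q => hpmax ⟨hr, mem_univ _⟩
  have hbig : K < v (t, p) := by
    refine lt_of_lt_of_le ?_ (hmax t₁ ht₁ p₁)
    simp only [hv, glob_eq he hf (hIco t₁ ht₁) hp₁s, hz₁']
    exact hεK
  obtain ⟨c, hc⟩ := he.cover p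
  set z : Cn n := e c p with hz
  have hzt : z ∈ (e c).target := (e c).map_source hc
  have hvz : ∀ r ∈ Icc 0 t', ∀ x ∈ (e c).target, f c (r, x) - ε * r ≤ f c (t, z) - ε * t := by
    intro r hr x hx
    have h1 := hmax r hr ((e c).symm x)
    simp only [hv, glob_eq he hf (hIco r hr) ((e c).map_target hx),
      glob_eq he hf (hIco t htI) hc, (e c).right_inv hx] at h1
    exact h1
  have htpos : 0 < t := by
    rcases htI.1.eq_or_lt with h | h
    · exfalso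
      have h1 : v (t, p) = f c (0, z) := by
        simp only [hv, ← h]
        rw [glob_eq he hf (hIco 0 ⟨le_rfl, ht'.1⟩) hc]
        ring
      rw [h1] at hbig
      exact absurd (h0 c z hzt) (not_le.2 hbig)
    · exact h
  have hcd := hf.contDiffAt (hIco t htI) hzt
  have hlev : ∀ u, lev (f c) u (t, z) ≤ 0 := by
    intro u
    refine lev_nonpos_of_max hcd ?_ u
    filter_upwards [(e c).open_target.mem_nhds hzt] with x hx
    have := hvz t htI x hx
    linarith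
  have h1 := hint c t ⟨htpos, htI.2⟩ z hzt hlev
  have hcd' : ContDiffAt ℝ ∞ (fun q : ℝ × Cn n => f c q - ε * q.1) (t, z) :=
    hcd.sub (contDiffAt_const.mul contDiffAt_fst)
  have h2 := dt_nonneg_of_max hcd' (by
    have hev : Ioo 0 t ∈ 𝓝[<] t := Ioo_mem_nhdsLT htpos
    filter_upwards [hev] with r hr
    exact hvz r ⟨hr.1.le, hr.2.le.trans htI.2⟩ z hzt)
  rw [dt_sub_time ((hcd.of_le two_le_infty).differentiableAt (by norm_num))] at h2
  linarith

end Chain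

end Pool.Agent.KRFS
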