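import Pool.Agent.Work.MP_a2bf38_gt.H.Chain

/-!
# Positive semidefinite Hermitian forms and generating vector fields
-/

open scoped ContDiff ENNReal ComplexOrder
open Set Filter Topology Pool.Agent.ToricKRF Pool.Agent.ToricKRF.G

namespace Pool.Agent.KRFS

/-- what we use of the function `u ↦ g(u, ubar)` -/
structure IsQ {n : ℕ} (Q : Cn n → ℝ) : Prop where
  cont : Continuous Q
  add_le : ∀ x y, Q (x + y) ≤ 2 * Q x + 2 * Q y
  smul : ∀ (r : ℝ) x, Q (r • x) = r ^ 2 * Q x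
  nonneg : ∀ x, 0 ≤ Q x
  map_J : ∀ x, Q (J x) = Q x

theorem IsQ.zero {n : ℕ} {Q : Cn n → ℝ} (hQ : IsQ Q) : Q 0 = 0 := by
  have := hQ.smul 0 0
  simpa using this

theorem IsQ.sum_le {n : ℕ} {Q : Cn n → ℝ} (hQ : IsQ Q) {α : Type*} (S : Finset α)
    (v : α → Cn n) : Q (∑ m ∈ S, v m) ≤ 2 ^ S.card * ∑ m ∈ S, Q (v m) := by
  classical
  induction S using Finset.induction_on with
  | empty => simp [hQ.zero]
  | insert a S ha ih =>
    rw [Finset.sum_insert ha, Finset.sum_insert ha, Finset.card_insert_of_notMem ha]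
    have h1 := hQ.add_le (v a) (∑ m ∈ S, v m)
    have h2 : (1 : ℝ) ≤ 2 ^ S.card := one_le_pow₀ (by norm_num)
    have h3 := hQ.nonneg (v a)
    have h4 : 0 ≤ ∑ m ∈ S, Q (v m) := Finset.sum_nonneg fun m _ => hQ.nonneg _
    have h5 : Q (v a) ≤ 2 ^ S.card * Q (v a) := le_mul_of_one_le_left h3 h2
    rw [pow_succ]
    nlinarith

section quad

variable {n : ℕ} {ψ : ℝ × Cn n → ℝ} {p : ℝ × Cn n}

/-- the Levi form at a point is a quadratic form -/
theorem lev_eq_bilin (hψ : ContDiffAt ℝ 2 ψ p) (u : Cn n) : lev ψ u p =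
    (fderiv ℝ (fderiv ℝ ψ) p (0, u) (0, u) + fderiv ℝ (fderiv ℝ ψ) p (0, J u) (0, J u)) / 4 := by
  unfold lev
  rw [D_D_eq hψ, D_D_eq hψ]

theorem zero_pair_add (u v : Cn n) : ((0 : ℝ), u + v) = ((0 : ℝ), u) + ((0 : ℝ), v) := by simp

theorem zero_pair_sub (u v : Cn n) : ((0 : ℝ), u - v) = ((0 : ℝ), u) - ((0 : ℝ), v) := by simp

theorem zero_pair_smul (r : ℝ) (u : Cn n) : ((0 : ℝ), r • u) = r • ((0 : ℝ), u) := by simp

theorem J_sub (u v : Cn n) : J (u - v) = J u - J v := by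
  rw [sub_eq_add_neg, J_add, sub_eq_add_neg]
  rfl

theorem lev_parallelogram (hψ : ContDiffAt ℝ 2 ψ p) (u v : Cn n) :
    lev ψ (u + v) p + lev ψ (u - v) p = 2 * lev ψ u p + 2 * lev ψ v p := by
  rw [lev_eq_bilin hψ, lev_eq_bilin hψ, lev_eq_bilin hψ, lev_eq_bilin hψ, J_add, J_sub,
    zero_pair_add, zero_pair_add, zero_pair_sub, zero_pair_sub]
  simp only [map_add, map_sub, add_apply, sub_apply]
  ring

theorem lev_smul (hψ : ContDiffAt ℝ 2 ψ p) (r : ℝ) (u : Cn n) :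
    lev ψ (r • u) p = r ^ 2 * lev ψ u p := by
  rw [lev_eq_bilin hψ, lev_eq_bilin hψ, J_smul, zero_pair_smul, zero_pair_smul]
  simp only [map_smul, smul_apply, smul_eq_mul]
  ring

theorem lev_J (hψ : ContDiffAt ℝ 2 ψ p) (u : Cn n) : lev ψ (J u) p = lev ψ u p := by
  rw [lev_eq_bilin hψ, lev_eq_bilin hψ, J_J]
  have h : ((0 : ℝ), -u) = -((0 : ℝ), u) := by simp
  rw [h]
  simp only [map_neg, neg_apply, neg_neg]
  ring

theorem lev_continuous (hψ : ContDiffAt ℝ 2 ψ p) : Continuous fun u => lev ψ u p := by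
  have h : (fun u => lev ψ u p) = fun u => (fderiv ℝ (fderiv ℝ ψ) p (0, u) (0, u) +
      fderiv ℝ (fderiv ℝ ψ) p (0, J u) (0, J u)) / 4 := by
    funext u
    exact lev_eq_bilin hψ u
  rw [h]
  have hJ : Continuous (J : Cn n → Cn n) := J_continuous
  fun_prop

theorem isQ_lev (hψ : ContDiffAt ℝ 2 ψ p) (hpos : ∀ u, 0 ≤ lev ψ u p) :
    IsQ fun u => lev ψ u p where
  cont := lev_continuous hψ
  add_le := fun x y => by
    have h1 := lev_parallelogram hψ x y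
    have h2 := hpos (x - y)
    linarith
  smul := fun r x => lev_smul hψ r x
  nonneg := hpos
  map_J := fun x => lev_J hψ x

theorem contDiffOn_lev_field {U : Set (ℝ × Cn n)} (hU : IsOpen U) (hψ : ContDiffOn ℝ ∞ ψ U)
    {ξ : Cn n → Cn n} {S : Set (Cn n)} (hξ : ContDiffOn ℝ ∞ ξ S) :
    ContDiffOn ℝ ∞ (fun q => lev ψ (ξ q.2) q) (U ∩ univ ×ˢ S) := by
  have h1 : ContDiffOn ℝ ∞ (fderiv ℝ ψ) U :=
    ((contDiffOn_infty_iff_fderiv_of_isOpen hU).1 hψ).2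
  have h2 : ContDiffOn ℝ ∞ (fderiv ℝ (fderiv ℝ ψ)) U :=
    ((contDiffOn_infty_iff_fderiv_of_isOpen hU).1 h1).2
  have h3 : ContDiffOn ℝ ∞ (fderiv ℝ (fderiv ℝ ψ)) (U ∩ univ ×ˢ S) := h2.mono inter_subset_left
  have h4 : ContDiffOn ℝ ∞ (fun q : ℝ × Cn n => ξ q.2) (U ∩ univ ×ˢ S) :=
    hξ.comp contDiffOn_snd fun q hq => hq.2.2
  have h5 : ContDiffOn ℝ ∞ (fun q : ℝ × Cn n => ((0 : ℝ), ξ q.2)) (U ∩ univ ×ˢ S) :=
    contDiffOn_const.prodMk h4
  have h6 : ContDiffOn ℝ ∞ (fun q : ℝ × Cn n => ((0 : ℝ), J (ξ q.2))) (U ∩ univ ×ˢ S) :=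
    contDiffOn_const.prodMk ((Jl n).contDiff.comp_contDiffOn h4)
  have h7 : ContDiffOn ℝ ∞ (fun q : ℝ × Cn n =>
      (fderiv ℝ (fderiv ℝ ψ) q (0, ξ q.2) (0, ξ q.2) +
        fderiv ℝ (fderiv ℝ ψ) q (0, J (ξ q.2)) (0, J (ξ q.2))) / 4) (U ∩ univ ×ˢ S) :=
    (((h3.clm_apply h5).clm_apply h5).add ((h3.clm_apply h6).clm_apply h6)).div_const _
  refine h7.congr fun q hq => ?_
  exact lev_eq_bilin ((hψ.contDiffAt (hU.mem_nhds hq.1)).of_le two_le_infty) _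

end quad

section local_gen

variable {n : ℕ} {F : Type} [Fintype F]

/-- the combination `∑ a_k v_k + b_k J v_k` -/
noncomputable def comb (v : F → Cn n) : ((F → ℝ) × (F → ℝ)) →ₗ[ℝ] Cn n where
  toFun := fun ab => ∑ k, (ab.1 k • v k + ab.2 k • J (v k))
  map_add' := fun x y => by
    rw [← Finset.sum_add_distrib]
    refine Finset.sum_congr rfl fun k _ => ?_
    simp only [Prod.fst_add, Prod.snd_add, Pi.add_apply, add_smul]
    abel
  map_smul' := fun r x => by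
    rw [RingHom.id_apply, Finset.smul_sum]
    refine Finset.sum_congr rfl fun k _ => ?_
    simp only [Prod.smul_fst, Prod.smul_snd, Pi.smul_apply, smul_add, smul_smul, smul_eq_mul]

theorem comb_apply (v : F → Cn n) (ab : (F → ℝ) × (F → ℝ)) :
    comb v ab = ∑ k, (ab.1 k • v k + ab.2 k • J (v k)) := rfl

theorem IsQ.comb_le {Q : Cn n → ℝ} (hQ : IsQ Q) (v : F → Cn n) {ab : (F → ℝ) × (F → ℝ)} {r : ℝ}
    (h : ‖ab‖ ≤ r) : Q (comb v ab) ≤ 2 ^ Fintype.card F * (4 * r ^ 2) * ∑ k, Q (v k) := by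
  rw [comb_apply]
  refine (hQ.sum_le _ _).trans ?_
  rw [Finset.card_univ, mul_assoc]
  refine mul_le_mul_of_nonneg_left ?_ (by positivity)
  rw [Finset.mul_sum]
  refine Finset.sum_le_sum fun k _ => ?_
  have h1 := hQ.add_le (ab.1 k • v k) (ab.2 k • J (v k))
  rw [hQ.smul, hQ.smul, hQ.map_J] at h1
  have e1 : |ab.1 k| ≤ r := ((norm_le_pi_norm ab.1 k).trans (norm_fst_le ab)).trans h
  have e2 : |ab.2 k| ≤ r := ((norm_le_pi_norm ab.2 k).trans (norm_snd_le ab)).trans h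
  have f1 : ab.1 k ^ 2 ≤ r ^ 2 := by
    rw [← sq_abs]
    exact pow_le_pow_left₀ (abs_nonneg _) e1 2
  have f2 : ab.2 k ^ 2 ≤ r ^ 2 := by
    rw [← sq_abs]
    exact pow_le_pow_left₀ (abs_nonneg _) e2 2
  have h3 := hQ.nonneg (v k)
  nlinarith [mul_le_mul_of_nonneg_right f1 h3, mul_le_mul_of_nonneg_right f2 h3]

/-- approximate spanning is enough -/
theorem IsQ.le_of_approx {Q : Cn n → ℝ} (hQ : IsQ Q) (v : F → Cn n) {r : ℝ}
    (h : ∀ u : Cn n, ‖u‖ ≤ 1 → ∃ ab : (F → ℝ) × (F → ℝ), ‖ab‖ ≤ r ∧ ‖u - comb v ab‖ ≤ 1 / 2)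
    (u : Cn n) : Q u ≤ 4 * (2 ^ Fintype.card F * (4 * r ^ 2)) * ‖u‖ ^ 2 * ∑ k, Q (v k) := by
  obtain ⟨m, hm, hmax⟩ := (isCompact_closedBall (0 : Cn n) 1).exists_isMaxOn
    ⟨0, Metric.mem_closedBall_self zero_le_one⟩ hQ.cont.continuousOn
  have hm1 : ‖m‖ ≤ 1 := by simpa using hm
  have hmax' : ∀ x : Cn n, ‖x‖ ≤ 1 → Q x ≤ Q m := fun x hx => hmax (by simpa using hx)
  obtain ⟨ab, hab, hd⟩ := h m hm1
  have h1 := hQ.add_le (comb v ab) (m - comb v ab)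
  have h2 : comb v ab + (m - comb v ab) = m := by abel
  rw [h2] at h1
  have h3 : Q (m - comb v ab) = 1 / 4 * Q ((2 : ℝ) • (m - comb v ab)) := by
    rw [hQ.smul]
    ring
  have h4 : Q ((2 : ℝ) • (m - comb v ab)) ≤ Q m := by
    apply hmax'
    rw [norm_smul]
    simp only [Real.norm_ofNat]
    linarith
  have h5 := hQ.comb_le v hab
  have h6 : Q m ≤ 4 * (2 ^ Fintype.card F * (4 * r ^ 2)) * ∑ k, Q (v k) := by
    rw [mul_assoc]
    linarith
  rcases eq_or_ne u 0 with hu | hu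
  · rw [hu, hQ.zero]
    simp
  · have hn : 0 < ‖u‖ := norm_pos_iff.2 hu
    have h7 : Q u = ‖u‖ ^ 2 * Q (‖u‖⁻¹ • u) := by
      rw [hQ.smul]
      field_simp
    have h8 : Q (‖u‖⁻¹ • u) ≤ Q m := by
      apply hmax'
      rw [norm_smul, norm_inv, norm_norm, inv_mul_cancel₀ hn.ne']
    rw [h7]
    calc ‖u‖ ^ 2 * Q (‖u‖⁻¹ • u) ≤ ‖u‖ ^ 2 * (4 * (2 ^ Fintype.card F * (4 * r ^ 2)) *
        ∑ k, Q (v k)) := mul_le_mul_of_nonneg_left (h8.trans h6) (by positivity)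
      _ = _ := by ring

theorem gen_local {v : F → Cn n → Cn n} {z₀ : Cn n} (hv : ∀ k, ContinuousAt (v k) z₀)
    (hgen : ∀ u : Cn n, ∃ a b : F → ℝ, u = ∑ k, (a k • v k z₀ + b k • J (v k z₀))) :
    ∃ C > 0, ∀ᶠ z in 𝓝 z₀, ∀ Q : Cn n → ℝ, IsQ Q → ∀ u,
      Q u ≤ C * ‖u‖ ^ 2 * ∑ k, Q (v k z) := by
  have hsurj : LinearMap.range (comb fun k => v k z₀) = ⊤ := by
    rw [LinearMap.range_eq_top]
    intro u
    obtain ⟨a, b, hab⟩ := hgen u
    exact ⟨(a, b), hab.symm⟩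
  obtain ⟨R, hR⟩ := LinearMap.exists_rightInverse_of_surjective _ hsurj
  set R' : Cn n →L[ℝ] (F → ℝ) × (F → ℝ) := LinearMap.toContinuousLinearMap R with hR'
  set r : ℝ := ‖R'‖ with hr
  have hRu : ∀ u : Cn n, ‖u‖ ≤ 1 → ‖R u‖ ≤ r := by
    intro u hu
    have h1 : ‖R' u‖ ≤ ‖R'‖ * ‖u‖ := R'.le_opNorm u
    have h2 : R' u = R u := rfl
    rw [h2] at h1
    exact h1.trans (mul_le_of_le_one_right (norm_nonneg _) hu)
  have hev : ∀ᶠ z in 𝓝 z₀, ∀ k, ‖v k z₀ - v k z‖ ≤ 1 / (4 * (r + 1) * (Fintype.card F + 1)) ∧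
      ‖J (v k z₀) - J (v k z)‖ ≤ 1 / (4 * (r + 1) * (Fintype.card F + 1)) := by
    rw [eventually_all]
    intro k
    have hpos : 0 < 1 / (4 * (r + 1) * ((Fintype.card F : ℝ) + 1)) := by
      have : 0 ≤ r := norm_nonneg _
      positivity
    have h1 := Metric.continuousAt_iff'.1 (hv k) _ hpos
    have h2 : ContinuousAt (fun z => J (v k z)) z₀ := J_continuous.continuousAt.comp (hv k)
    have h3 := Metric.continuousAt_iff'.1 h2 _ hpos
    filter_upwards [h1, h3] with z hz hz'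
    rw [dist_eq_norm, norm_sub_rev] at hz hz'
    exact ⟨hz.le, hz'.le⟩
  refine ⟨4 * (2 ^ Fintype.card F * (4 * (r + 1) ^ 2)), ?_, ?_⟩
  · have : 0 ≤ r := norm_nonneg _
    positivity
  filter_upwards [hev] with z hz Q hQ u
  have hr0 : 0 ≤ r := norm_nonneg _
  refine hQ.le_of_approx (fun k => v k z) (r := r + 1) ?_ u
  intro w hw
  refine ⟨R w, (hRu w hw).trans (by linarith), ?_⟩
  have h1 : w = comb (fun k => v k z₀) (R w) := by
    have := congrArg (fun f => f w) hR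
    simpa using this.symm
  have h2 : w - comb (fun k => v k z) (R w) =
      ∑ k, ((R w).1 k • (v k z₀ - v k z) + (R w).2 k • (J (v k z₀) - J (v k z))) := by
    have h0 : w - comb (fun k => v k z) (R w) =
        comb (fun k => v k z₀) (R w) - comb (fun k => v k z) (R w) := by rw [← h1]
    rw [h0, comb_apply, comb_apply, ← Finset.sum_sub_distrib]
    refine Finset.sum_congr rfl fun k _ => ?_
    rw [smul_sub, smul_sub]
    abel
  rw [h2]
  have h3 : ∀ k, ‖(R w).1 k • (v k z₀ - v k z) + (R w).2 k • (J (v k z₀) - J (v k z))‖ ≤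
      1 / (2 * (Fintype.card F + 1)) := by
    intro k
    obtain ⟨g1, g2⟩ := hz k
    have e1 : |(R w).1 k| ≤ r := ((norm_le_pi_norm (R w).1 k).trans (norm_fst_le _)).trans (hRu w hw)
    have e2 : |(R w).2 k| ≤ r := ((norm_le_pi_norm (R w).2 k).trans (norm_snd_le _)).trans (hRu w hw)
    refine (norm_add_le _ _).trans ?_
    rw [norm_smul, norm_smul, Real.norm_eq_abs, Real.norm_eq_abs]
    have f1 := mul_le_mul e1 g1 (norm_nonneg _) hr0
    have f2 := mul_le_mul e2 g2 (norm_nonneg _) hr0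
    have h5 : r * (1 / (4 * (r + 1) * ((Fintype.card F : ℝ) + 1))) ≤
        1 / (4 * ((Fintype.card F : ℝ) + 1)) := by
      rw [mul_one_div, div_le_div_iff₀ (by positivity) (by positivity)]
      nlinarith [show (0 : ℝ) ≤ (Fintype.card F : ℝ) from Nat.cast_nonneg _]
    have h6 : 1 / (4 * ((Fintype.card F : ℝ) + 1)) + 1 / (4 * ((Fintype.card F : ℝ) + 1)) =
        1 / (2 * ((Fintype.card F : ℝ) + 1)) := by
      field_simp
      norm_num
    linarith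
  refine (norm_sum_le _ _).trans ((Finset.sum_le_sum fun k _ => h3 k).trans ?_)
  rw [Finset.sum_const, Finset.card_univ, nsmul_eq_mul, mul_one_div,
    div_le_div_iff₀ (by positivity) (by norm_num)]
  linarith

end local_gen

section setup

variable {n N : ℕ} {M : Type} [TopologicalSpace M] {κ P F : Type} [Fintype F] {T : ℝ}
  (s : Setup n N M κ P F T)

theorem Setup.contDiffAt_ψ {c : κ} {t : ℝ} (ht : t ∈ Ico 0 T) {z : Cn n}
    (hz : z ∈ (s.e c).target) : ContDiffAt ℝ ∞ (s.ψ c) (t, z) := by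
  obtain ⟨U, hU, hsub, hs⟩ := s.krf.smooth c
  exact hs.contDiffAt (hU.mem_nhds (hsub ⟨ht, hz⟩))

theorem Setup.lev_pos {c : κ} {t : ℝ} (ht : t ∈ Ico 0 T) {z : Cn n}
    (hz : z ∈ (s.e c).target) {u : Cn n} (hu : u ≠ 0) : 0 < lev (s.ψ c) u (t, z) := by
  obtain ⟨U, hU, hsub, hs⟩ := s.krf.smooth c
  exact G.lev_pos hU hs (hsub ⟨ht, hz⟩) (s.krf.pos c t ht z hz) hu

theorem lev_zero {n : ℕ} (f : ℝ × Cn n → ℝ) (p : ℝ × Cn n) : lev f 0 p = 0 := by
  have h : ((0 : ℝ), (0 : Cn n)) = 0 := rfl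
  have hJ : J (0 : Cn n) = 0 := by simp [J, Prod.ext_iff]
  simp [lev, hJ, h, D_dir_zero]

theorem Setup.isQ {c : κ} {t : ℝ} (ht : t ∈ Ico 0 T) {z : Cn n}
    (hz : z ∈ (s.e c).target) : IsQ fun u => lev (s.ψ c) u (t, z) := by
  refine isQ_lev ((s.contDiffAt_ψ ht hz).of_le two_le_infty) fun u => ?_
  rcases eq_or_ne u 0 with hu | hu
  · rw [hu, lev_zero]
  · exact (s.lev_pos ht hz hu).le

theorem Setup.local_gen {c : κ} {z₀ : Cn n} (hz₀ : z₀ ∈ (s.e c).target)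
    (hZ : (s.e c).symm z₀ ∉ s.Z) :
    ∃ C > 0, ∀ᶠ z in 𝓝 z₀, ∀ Q : Cn n → ℝ, IsQ Q → ∀ u,
      Q u ≤ C * ‖u‖ ^ 2 * ∑ k, Q (s.ξ k c z) :=
  gen_local (fun k => ((s.ξ_holo k c).1.continuousOn.continuousAt
    ((s.e c).open_target.mem_nhds hz₀))) (s.gen c z₀ hz₀ hZ)

end setup

end Pool.Agent.KRFS
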