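import Pool.Agent.Work.MP_a2bf38_gt.H.Defs

/-!
# The general local setup

`M` is covered by pieces `V j`, `j : P`, the union of the sources of the charts `e c` with
`pc c = j`.  On `V j` there is a holomorphic map `h j` to the unit ball of `ℂ^N` (the coordinates of
the base of a fibration), and the limit class is represented by `i ∂ ∂bar (K j ∘ h j)`.  The
holomorphic vector fields `ξ k` on the pieces generate the tangent bundle outside of the closed set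
`Z`.
-/

open scoped ContDiff ENNReal ComplexOrder
open Set Pool.Agent.ToricKRF Pool.Agent.ToricKRF.G

namespace Pool.Agent.KRFS

structure Setup (n N : ℕ) (M : Type) [TopologicalSpace M] (κ P F : Type) [Fintype F] (T : ℝ) where
  e : κ → OpenPartialHomeomorph M (Cn n)
  ψ : κ → ℝ × Cn n → ℝ
  Ω : κ → Cn n → ℝ
  atlas : IsAtlas e
  krf : IsKRF e T ψ
  vol : IsVolume e ψ Ω
  pc : κ → P
  h : P → M → Cn N
  K : P → Cn N → ℝ
  ξ : F → κ → Cn n → Cn n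
  Z : Set M
  h_holo : ∀ c, HolOn (fun z => h (pc c) ((e c).symm z)) (e c).target
  h_lt : ∀ c, ∀ p ∈ (e c).source, nsq (h (pc c) p) < 1
  proper : ∀ j, ∀ r < 1, IsCompact {p | (∃ c, pc c = j ∧ p ∈ (e c).source) ∧ nsq (h j p) ≤ r}
  K_smooth : ∀ j, ContDiffOn ℝ ∞ (K j) {y | nsq y < 1}
  K_psh : ∀ j, ∀ y, nsq y < 1 → ∀ u, u ≠ 0 → 0 < levz (K j) u y
  theta : ∀ c, ∀ z ∈ (e c).target, ∀ u,
    lev (ψ c) u (0, z) + T * levz (fun z => Real.log (Ω c z)) u z =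
      levz (fun z => K (pc c) (h (pc c) ((e c).symm z))) u z
  core : ∀ p, ∃ c, p ∈ (e c).source ∧ nsq (h (pc c) p) < 1 / 2
  ξ_holo : ∀ k c, HolOn (ξ k c) (e c).target
  ξ_compat : ∀ k c c', pc c = pc c' → ∀ z ∈ dom e c c',
    ξ k c' (tr e c c' z) = fderiv ℝ (tr e c c') z (ξ k c z)
  gen : ∀ c, ∀ z ∈ (e c).target, (e c).symm z ∉ Z → ∀ u : Cn n, ∃ a b : F → ℝ,
    u = ∑ k, (a k • ξ k c z + b k • J (ξ k c z))
  isClosed_Z : IsClosed Z
  iso : ∀ c c', ∀ p ∈ Z, p ∈ (e c).source → p ∈ (e c').source → pc c = pc c'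

/-- `∑ m ∈ B, exp (2 <m, a>)` -/
noncomputable def rho {n : ℕ} (B : Finset (Fin n → ℝ)) (a : Fin n → ℝ) : ℝ :=
  ∑ m ∈ B, Real.exp (2 * (m ⬝ᵥ a))

/-- A toric piece: `τ` are the logarithmic coordinates of its open orbit, `ν i` the rays, and
`cexp ζ` are the coordinates of `τ w` in the chart `c`, where `w = ∑ ζ_k ν_{σ c k}`. -/
structure TPiece {n N : ℕ} {M : Type} [TopologicalSpace M] {κ P F : Type} [Fintype F] {T : ℝ}
    (s : Setup n N M κ P F T) (j : P) (ι : Type) where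
  ν : ι → Fin n → ℝ
  span_ν : Submodule.span ℝ (range ν) = ⊤
  ν_ne : ∀ i, ν i ≠ 0
  σ : κ → Fin n → ι
  indep : ∀ c, s.pc c = j → LinearIndependent ℝ (fun k => ν (σ c k))
  B : Finset (Fin n → ℝ)
  B_ne : B.Nonempty
  τ : Cn n → M
  nsq_τ : ∀ w : Cn n, rho B w.1 < 1 → nsq (s.h j (τ w)) = rho B w.1
  τ_mem : ∀ c, s.pc c = j → ∀ w : Cn n, rho B w.1 < 1 → τ w ∈ (s.e c).source ∧
    ∃ ζ : Cn n, w.1 = ∑ k, ζ.1 k • ν (σ c k) ∧ w.2 = ∑ k, ζ.2 k • ν (σ c k) ∧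
      s.e c (τ w) = cexp ζ
  dense : ∀ c, s.pc c = j → ∀ p ∈ (s.e c).source, (∀ k, (s.e c p).1 k ≠ 0 ∨ (s.e c p).2 k ≠ 0) →
    ∃ w : Cn n, rho B w.1 < 1 ∧ τ w = p
  periodic : ∀ (w : Cn n) (m : Fin n → ℤ), τ (w.1, fun k => w.2 k + 2 * Real.pi * m k) = τ w
  mem_Z : ∀ c, s.pc c = j → ∀ p ∈ (s.e c).source, p ∈ s.Z ↔ nsq (s.h j p) = 0

end Pool.Agent.KRFS
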