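import Pool.Agent.Work.MP_a2bf38_gt.H.Model
import Pool.Agent.Work.MP_a2bf38_gt.H.Setup

/-!
# From a contraction of a surface to the general setup
-/

open scoped ContDiff ENNReal ComplexOrder
open Set Filter Topology Pool.Agent.ToricKRF Pool.Agent.ToricKRF.G

namespace Pool.Agent.KRFS.Surf

theorem holOn_congr {n m : ℕ} {H H' : Cn n → Cn m} {S : Set (Cn n)} (hS : IsOpen S)
    (hH : HolOn H S) (h : EqOn H' H S) : HolOn H' S := by
  refine ⟨hH.1.congr h, fun z hz u => ?_⟩
  have h1 : H' =ᶠ[𝓝 z] H := by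
    filter_upwards [hS.mem_nhds hz] with x hx using h hx
  rw [h1.fderiv_eq]
  exact hH.2 z hz u

theorem levz_congr_nhds {n : ℕ} {f g : Cn n → ℝ} {z : Cn n} (h : f =ᶠ[𝓝 z] g) (u : Cn n) :
    levz f u z = levz g u z := by
  have h1 : ∀ w, D w f =ᶠ[𝓝 z] D w g := fun w => by
    filter_upwards [h.fderiv (𝕜 := ℝ)] with x hx
    simp only [D, hx]
  have h2 : ∀ w, D w (D w f) z = D w (D w g) z := fun w => by
    change fderiv ℝ (D w f) z w = fderiv ℝ (D w g) z w
    rw [(h1 w).fderiv_eq]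
  simp only [levz, h2]

theorem nsq_nonneg {n : ℕ} (z : Cn n) : 0 ≤ nsq z := by
  unfold nsq
  have h : ∀ x : Fin n → ℝ, 0 ≤ x ⬝ᵥ x := fun x =>
    Finset.sum_nonneg fun i _ => mul_self_nonneg _
  exact add_nonneg (h _) (h _)

theorem nsq_ofC_eq_zero {x : ℂ × ℂ} : nsq (ofC x) = 0 ↔ x = 0 := by
  rw [nsq_ofC]
  constructor
  · intro h
    have h1 : ‖x.1‖ ^ 2 = 0 := by nlinarith [sq_nonneg ‖x.1‖, sq_nonneg ‖x.2‖]
    have h2 : ‖x.2‖ ^ 2 = 0 := by nlinarith [sq_nonneg ‖x.1‖, sq_nonneg ‖x.2‖]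
    exact Prod.ext (by simpa using h1) (by simpa using h2)
  · rintro rfl
    simp

/-! ### The charts with small coordinates -/

/-- the coordinates in the compact parts of the charts -/
def good (a : Ch) (z : ℂ × ℂ) : Prop := ‖z.2‖ ≤ 1 ∧ (a = .n0 → ‖z.1‖ ≤ 1)

theorem exists_good {a : Ch} {z : ℂ × ℂ} (hz : nsq (ofC (a.base z)) < 1) :
    good a z ∨ ∃ a', a'.kind = a.kind ∧ a' ≠ a ∧ a.mem a' z ∧ good a' (a.tr a' z) := by
  have key : ∀ x : ℂ, ¬ ‖x‖ ≤ 1 → x ≠ 0 ∧ ‖1 / x‖ ≤ 1 := fun x hx => by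
    have h1 : 1 < ‖x‖ := not_le.1 hx
    have h0 : x ≠ 0 := fun h => by simp [h] at h1; linarith
    refine ⟨h0, ?_⟩
    rw [norm_div, norm_one]
    exact (div_le_one (by linarith)).2 h1.le
  rw [nsq_ofC] at hz
  cases a
  · left
    refine ⟨?_, by simp⟩
    simp only [Ch.base] at hz
    nlinarith [sq_nonneg ‖z.1‖, norm_nonneg z.2]
  · by_cases h : ‖z.2‖ ≤ 1
    · exact Or.inl ⟨h, by simp⟩
    · exact Or.inr ⟨.p1, rfl, by simp, (key _ h).1, (key _ h).2, by simp⟩
  · by_cases h : ‖z.2‖ ≤ 1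
    · exact Or.inl ⟨h, by simp⟩
    · exact Or.inr ⟨.p0, rfl, by simp, (key _ h).1, (key _ h).2, by simp⟩
  · by_cases h : ‖z.2‖ ≤ 1
    · exact Or.inl ⟨h, by simp⟩
    · exact Or.inr ⟨.r1, rfl, by simp, (key _ h).1, (key _ h).2, by simp⟩
  · by_cases h : ‖z.2‖ ≤ 1
    · exact Or.inl ⟨h, by simp⟩
    · exact Or.inr ⟨.r0, rfl, by simp, (key _ h).1, (key _ h).2, by simp⟩
  · by_cases h : ‖z.2‖ ≤ 1
    · by_cases h' : ‖z.1‖ ≤ 1
      · exact Or.inl ⟨h, fun _ => h'⟩
      · exact Or.inr ⟨.n2, rfl, by simp, (key _ h').1, (key _ h').2, by simp⟩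
    · exact Or.inr ⟨.n1, rfl, by simp, (key _ h).1, (key _ h).2, by simp⟩
  · by_cases h : ‖z.2‖ ≤ 1
    · exact Or.inl ⟨h, by simp⟩
    · by_cases h' : ‖z.1 * z.2‖ ≤ 1
      · exact Or.inr ⟨.n0, rfl, by simp, (key _ h).1, (key _ h).2, fun _ => h'⟩
      · exact Or.inr ⟨.n2, rfl, by simp, ⟨left_ne_zero_of_mul (key _ h').1,
          right_ne_zero_of_mul (key _ h').1⟩, (key _ h').2, by simp⟩
  · by_cases h : ‖z.2‖ ≤ 1
    · exact Or.inl ⟨h, by simp⟩
    · by_cases h' : ‖z.1 * z.2‖ ≤ 1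
      · exact Or.inr ⟨.n0, rfl, by simp, (key _ h).1, h', fun _ => (key _ h).2⟩
      · exact Or.inr ⟨.n1, rfl, by simp, ⟨left_ne_zero_of_mul (key _ h').1,
          right_ne_zero_of_mul (key _ h').1⟩, (key _ h').2, by simp⟩

theorem isCompact_good (a : Ch) {r : ℝ} (hr : r < 1) :
    IsCompact {z : Cn 2 | nsq (ofC (a.base (toC z))) ≤ r ∧ good a (toC z)} := by
  have hcl : IsClosed {z : ℂ × ℂ | ‖(a.base z).1‖ ^ 2 + ‖(a.base z).2‖ ^ 2 ≤ r ∧ good a z} := by
    have h1 : Continuous a.base := (contDiff_base a).continuous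
    have h2 : IsClosed {z : ℂ × ℂ | ‖(a.base z).1‖ ^ 2 + ‖(a.base z).2‖ ^ 2 ≤ r} :=
      isClosed_le (by fun_prop) continuous_const
    have h3 : IsClosed {z : ℂ × ℂ | good a z} := by
      by_cases ha : a = .n0
      · simp only [good, ha, forall_const]
        exact (isClosed_le continuous_snd.norm continuous_const).inter
          (isClosed_le continuous_fst.norm continuous_const)
      · simp only [good, ha, false_imp_iff, and_true]
        exact isClosed_le continuous_snd.norm continuous_const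
    exact h2.inter h3
  have hb : {z : ℂ × ℂ | ‖(a.base z).1‖ ^ 2 + ‖(a.base z).2‖ ^ 2 ≤ r ∧ good a z} ⊆
      Metric.closedBall 0 1 := by
    rintro z ⟨h1, h2, h3⟩
    rw [mem_closedBall_zero_iff, Prod.norm_def]
    refine max_le ?_ h2
    have key : ∀ x y : ℂ, ‖x‖ ^ 2 + ‖y‖ ^ 2 ≤ r → ‖x‖ ≤ 1 ∧ ‖y‖ ≤ 1 := fun x y h => by
      constructor <;> nlinarith [sq_nonneg ‖x‖, norm_nonneg x, sq_nonneg ‖y‖, norm_nonneg y]
    cases a
    · exact (key _ _ h1).1
    · exact (key _ _ h1).1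
    · exact (key _ _ h1).2
    · exact (key _ _ h1).1
    · exact (key _ _ h1).1
    · exact h3 rfl
    · exact (key _ _ h1).1
    · exact (key _ _ h1).1
  have hK : IsCompact {z : ℂ × ℂ | ‖(a.base z).1‖ ^ 2 + ‖(a.base z).2‖ ^ 2 ≤ r ∧ good a z} :=
    (isCompact_closedBall 0 1).of_isClosed_subset hcl hb
  have h4 := hK.image CL.symm.continuous
  convert h4 using 1
  ext z
  simp only [mem_ofPred_eq, mem_image, nsq_ofC]
  constructor
  · intro h
    exact ⟨toC z, h, ofC_toC z⟩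
  · rintro ⟨x, hx, rfl⟩
    simpa using hx

/-! ### The base coordinates as functions on `M` -/

section

variable {M : Type} [TopologicalSpace M] {κ P : Type}

/-- the base coordinates -/
noncomputable def bmap (e : κ → OpenPartialHomeomorph M (Cn 2)) (pc : κ → P) (ch : κ → Ch) (j : P)
    (p : M) : Cn 2 := by
  classical
  exact if h : ∃ c, pc c = j ∧ p ∈ (e c).source then
    ofC (Ch.base (ch h.choose) (toC (e h.choose p))) else 0

variable {e : κ → OpenPartialHomeomorph M (Cn 2)} {pc : κ → P} {ch : κ → Ch} {kind : P → Kind}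

theorem overlap_point (hc : IsContraction e pc ch kind) {c c' : κ} (hp : pc c = pc c')
    (hne : c ≠ c') {p : M} (h : p ∈ (e c).source) (h' : p ∈ (e c').source) :
    (ch c).mem (ch c') (toC (e c p)) ∧
      toC (e c' p) = (ch c).tr (ch c') (toC (e c p)) := by
  have h1 : e c p ∈ (e c).target := (e c).map_source h
  have h2 : (e c).symm (e c p) = p := (e c).left_inv h
  have h3 : (e c).symm (e c p) ∈ (e c').source := by rwa [h2]
  refine ⟨(hc.overlap c c' hp hne _ h1).1 h3, ?_⟩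
  have h4 := hc.trans c c' hp hne (e c p) ⟨h1, h3⟩
  rw [tr, h2] at h4
  rw [h4, toC_ofC]

theorem mem_source_of_mem (hc : IsContraction e pc ch kind) {c c' : κ} (hp : pc c = pc c')
    (hne : c ≠ c') {p : M} (h : p ∈ (e c).source) (h' : (ch c).mem (ch c') (toC (e c p))) :
    p ∈ (e c').source := by
  have h1 : e c p ∈ (e c).target := (e c).map_source h
  have h3 := (hc.overlap c c' hp hne _ h1).2 h'
  rwa [(e c).left_inv h] at h3

theorem bmap_eq (hc : IsContraction e pc ch kind) {c : κ} {p : M} (hp : p ∈ (e c).source) :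
    bmap e pc ch (pc c) p = ofC ((ch c).base (toC (e c p))) := by
  classical
  have h : ∃ c', pc c' = pc c ∧ p ∈ (e c').source := ⟨c, rfl, hp⟩
  rw [bmap, dif_pos h]
  obtain ⟨h1, h2⟩ := h.choose_spec
  by_cases hcc : c = h.choose
  · rw [← hcc]
  · obtain ⟨h3, h4⟩ := overlap_point hc h1.symm hcc hp h2
    rw [h4, base_tr h3]

theorem bmap_eq' (hc : IsContraction e pc ch kind) {j : P} {c : κ} (hj : pc c = j) {p : M}
    (hp : p ∈ (e c).source) : bmap e pc ch j p = ofC ((ch c).base (toC (e c p))) := by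
  rw [← hj]
  exact bmap_eq hc hp

theorem bmap_symm_eqOn (hc : IsContraction e pc ch kind) (c : κ) :
    EqOn (fun z => bmap e pc ch (pc c) ((e c).symm z)) (fun z => ofC ((ch c).base (toC z)))
      (e c).target := fun z hz => by
  change bmap e pc ch (pc c) ((e c).symm z) = _
  rw [bmap_eq hc ((e c).map_target hz), (e c).right_inv hz]

theorem bmap_holo (hc : IsContraction e pc ch kind) (c : κ) :
    HolOn (fun z => bmap e pc ch (pc c) ((e c).symm z)) (e c).target :=
  holOn_congr (e c).open_target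
    (holOn_lift (S := (e c).target) fun _ _ => (contDiff_base (ch c)).contDiffAt)
    (bmap_symm_eqOn hc c)

theorem nsq_bmap_lt (hc : IsContraction e pc ch kind) {c : κ} {p : M} (hp : p ∈ (e c).source) :
    nsq (bmap e pc ch (pc c) p) < 1 := by
  have h1 : e c p ∈ (e c).target := (e c).map_source hp
  rw [bmap_eq hc hp]
  rw [hc.target c] at h1
  exact h1

theorem finite_κ (hc : IsContraction e pc ch kind) [Finite P] : Finite κ := by
  have : Finite Ch := by
    refine Finite.of_injective (β := Fin 8) (fun a => match a with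
      | .b0 => 0 | .p0 => 1 | .p1 => 2 | .r0 => 3 | .r1 => 4 | .n0 => 5 | .n1 => 6 | .n2 => 7) ?_
    intro a b h
    cases a <;> cases b <;> first | rfl | (exfalso; revert h; decide)
  refine Finite.of_injective (fun c => (pc c, ch c)) fun c c' h => ?_
  exact hc.unique_chart c c' (congrArg Prod.fst h) (congrArg Prod.snd h)

theorem bmap_proper (hc : IsContraction e pc ch kind) [Finite P] (j : P) {r : ℝ} (hr : r < 1) :
    IsCompact {p | (∃ c, pc c = j ∧ p ∈ (e c).source) ∧ nsq (bmap e pc ch j p) ≤ r} := by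
  have := finite_κ hc
  have h1 : {p | (∃ c, pc c = j ∧ p ∈ (e c).source) ∧ nsq (bmap e pc ch j p) ≤ r} =
      ⋃ c : {c : κ // pc c = j}, (e c.1).symm ''
        {z : Cn 2 | nsq (ofC ((ch c.1).base (toC z))) ≤ r ∧ good (ch c.1) (toC z)} := by
    ext p
    simp only [mem_ofPred_eq, mem_iUnion, mem_image]
    constructor
    · rintro ⟨⟨c, hcj, hp⟩, h2⟩
      rw [bmap_eq' hc hcj hp] at h2
      have h3 := nsq_bmap_lt hc hp
      rw [bmap_eq hc hp] at h3
      rcases exists_good h3 with h4 | ⟨a', h4, h5, h6, h7⟩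
      · exact ⟨⟨c, hcj⟩, e c p, ⟨h2, h4⟩, (e c).left_inv hp⟩
      · rw [hc.kind_eq c, hcj] at h4
        obtain ⟨c', h8, rfl⟩ := hc.exists_chart j a' h4
        have hne : c ≠ c' := fun h => h5 (by rw [h])
        have h9 := mem_source_of_mem hc (hcj.trans h8.symm) hne hp h6
        obtain ⟨h10, h11⟩ := overlap_point hc (hcj.trans h8.symm) hne hp h9
        refine ⟨⟨c', h8⟩, e c' p, ⟨?_, ?_⟩, (e c').left_inv h9⟩
        · change nsq (ofC ((ch c').base (toC (e c' p)))) ≤ r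
          rw [h11, base_tr h10]
          exact h2
        · change good (ch c') (toC (e c' p))
          rw [h11]
          exact h7
    · rintro ⟨⟨c, hcj⟩, z, ⟨h2, h3⟩, rfl⟩
      have h4 : z ∈ (e c).target := by
        rw [hc.target c]
        exact h2.trans_lt hr
      refine ⟨⟨c, hcj, (e c).map_target h4⟩, ?_⟩
      rw [bmap_eq' hc hcj ((e c).map_target h4), (e c).right_inv h4]
      exact h2
  rw [h1]
  refine isCompact_iUnion fun c => ?_
  refine (isCompact_good _ hr).image_of_continuousOn ?_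
  refine (e c.1).continuousOn_symm.mono ?_
  rintro z ⟨h2, -⟩
  rw [hc.target c.1]
  exact h2.trans_lt hr

/-- the singular fibres -/
def Zs (e : κ → OpenPartialHomeomorph M (Cn 2)) (pc : κ → P) (ch : κ → Ch) (kind : P → Kind) :
    Set M :=
  {p | ∃ c, p ∈ (e c).source ∧ (kind (pc c)).Singular ∧ (ch c).base (toC (e c p)) = 0}

theorem mem_Zs_iff (hc : IsContraction e pc ch kind) {c : κ} {p : M} (hp : p ∈ (e c).source) :
    p ∈ Zs e pc ch kind ↔ (kind (pc c)).Singular ∧ (ch c).base (toC (e c p)) = 0 := by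
  constructor
  · rintro ⟨c', h1, h2, h3⟩
    have h4 := hc.isolated c' c p h2 h1 h3 hp
    refine ⟨by rw [h4]; exact h2, ?_⟩
    have h5 := bmap_eq hc hp
    have h6 := bmap_eq' hc h4.symm h1
    rw [h5, h3] at h6
    exact ofC_injective h6
  · rintro ⟨h1, h2⟩
    exact ⟨c, hp, h1, h2⟩

theorem isClosed_Zs (hc : IsContraction e pc ch kind) [Finite P] [T2Space M] :
    IsClosed (Zs e pc ch kind) := by
  have h1 : Zs e pc ch kind = ⋃ j : {j : P // (kind j).Singular},
      {p | (∃ c, pc c = j.1 ∧ p ∈ (e c).source) ∧ nsq (bmap e pc ch j.1 p) ≤ 0} := by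
    ext p
    simp only [mem_iUnion, mem_ofPred_eq]
    constructor
    · rintro ⟨c, h2, h3, h4⟩
      refine ⟨⟨pc c, h3⟩, ⟨c, rfl, h2⟩, ?_⟩
      rw [bmap_eq hc h2, h4]
      simp [nsq]
    · rintro ⟨⟨j, hj⟩, ⟨c, h2, h3⟩, h4⟩
      subst h2
      refine ⟨c, h3, hj, ?_⟩
      simp only at h4
      rw [bmap_eq hc h3] at h4
      exact nsq_ofC_eq_zero.1 (le_antisymm h4 (nsq_nonneg _))
  rw [h1]
  exact isClosed_iUnion_of_finite fun j => (bmap_proper hc j.1 one_pos).isClosed

/-! ### The vector fields -/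

/-- the vector fields in the charts -/
noncomputable def xi (ch : κ → Ch) (k : Fin 4) (c : κ) (z : Cn 2) : Cn 2 :=
  ofC (Ch.fld k (ch c) (toC z))

theorem xi_holo (k : Fin 4) (c : κ) : HolOn (xi ch k c) (e c).target :=
  holOn_lift (S := (e c).target) fun _ _ => (contDiff_fld k (ch c)).contDiffAt

theorem isOpen_dom' (e : κ → OpenPartialHomeomorph M (Cn 2)) (c c' : κ) : IsOpen (dom e c c') :=
  (e c).symm.isOpen_inter_preimage (e c').open_source

theorem xi_compat (hc : IsContraction e pc ch kind) (k : Fin 4) (c c' : κ) (hp : pc c = pc c')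
    (z : Cn 2) (hz : z ∈ dom e c c') :
    xi ch k c' (tr e c c' z) = fderiv ℝ (tr e c c') z (xi ch k c z) := by
  by_cases hcc : c = c'
  · subst hcc
    have h1 : tr e c c =ᶠ[𝓝 z] id := by
      filter_upwards [(e c).open_target.mem_nhds hz.1] with x hx
      exact (e c).right_inv hx
    rw [h1.fderiv_eq, h1.eq_of_nhds, fderiv_id]
    rfl
  · have hm : (ch c).mem (ch c') (toC z) := (hc.overlap c c' hp hcc z hz.1).1 hz.2
    have h1 : tr e c c' =ᶠ[𝓝 z] fun z => ofC ((ch c).tr (ch c') (toC z)) := by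
      filter_upwards [(isOpen_dom' e c c').mem_nhds hz] with x hx
      exact hc.trans c c' hp hcc x hx
    obtain ⟨g', h2, h3⟩ := exists_fderiv_tr hm
    rw [h1.fderiv_eq, h1.eq_of_nhds, fderiv_lift h2, h3]
    simp only [xi, toC_ofC]
    rw [fld_tr k hm]

theorem ofC_smulC (α : ℂ) (x : ℂ × ℂ) : ofC (α • x) = α.re • ofC x + α.im • J (ofC x) := by
  have h1 : α • x = α.re • x + α.im • (Complex.I • x) := by
    apply Prod.ext <;> apply Complex.ext <;> simp <;> ring
  rw [h1, ofC_add, ofC_smul, ofC_smul, ofC_I_smul]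

theorem ofC_sum {ι : Type*} (s : Finset ι) (f : ι → ℂ × ℂ) : ofC (∑ i ∈ s, f i) = ∑ i ∈ s, ofC (f i) :=
  map_sum CL.symm f s

theorem xi_gen (hc : IsContraction e pc ch kind) (c : κ) (z : Cn 2) (hz : z ∈ (e c).target)
    (hZ : (e c).symm z ∉ Zs e pc ch kind) (u : Cn 2) : ∃ a b : Fin 4 → ℝ,
      u = ∑ k, (a k • xi ch k c z + b k • J (xi ch k c z)) := by
  have h1 : (ch c).kind.Singular → (ch c).base (toC z) ≠ 0 := by
    intro h2 h3
    refine hZ ⟨c, (e c).map_target hz, ?_, ?_⟩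
    · rw [← hc.kind_eq c]
      exact h2
    · rw [(e c).right_inv hz]
      exact h3
  obtain ⟨α, h4⟩ := exists_gen h1 (toC u)
  refine ⟨fun k => (α k).re, fun k => (α k).im, ?_⟩
  have h5 : u = ofC (∑ k, α k • Ch.fld k (ch c) (toC z)) := by rw [← h4, ofC_toC]
  conv_lhs => rw [h5]
  rw [ofC_sum]
  exact Finset.sum_congr rfl fun k _ => ofC_smulC _ _

/-- the setup of a contraction -/
noncomputable def mkSetup [T2Space M] [Finite P] {T : ℝ} {ψ : κ → ℝ × Cn 2 → ℝ}
    {Ω : κ → Cn 2 → ℝ} {K : P → Cn 2 → ℝ} (hc : IsContraction e pc ch kind) (ha : IsAtlas e)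
    (hψ : IsKRF e T ψ) (hK : IsLimitClass e pc ch T ψ Ω K) : Setup 2 2 M κ P (Fin 4) T where
  e := e
  ψ := ψ
  Ω := Ω
  atlas := ha
  krf := hψ
  vol := hK.volume
  pc := pc
  h := bmap e pc ch
  K := K
  ξ := xi ch
  Z := Zs e pc ch kind
  h_holo := bmap_holo hc
  h_lt := fun c p hp => nsq_bmap_lt hc hp
  proper := fun j r hr => bmap_proper hc j hr
  K_smooth := hK.smooth
  K_psh := hK.psh
  theta := by
    intro c z hz u
    rw [hK.eq c z hz u]
    refine levz_congr_nhds ?_ u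
    filter_upwards [(e c).open_target.mem_nhds hz] with x hx
    have h1 := bmap_symm_eqOn hc c hx
    simp only at h1
    rw [h1]
  core := by
    intro p
    obtain ⟨c, h1, h2⟩ := hc.cover p
    refine ⟨c, h1, ?_⟩
    rw [bmap_eq hc h1]
    exact h2
  ξ_holo := xi_holo
  ξ_compat := xi_compat hc
  gen := xi_gen hc
  isClosed_Z := isClosed_Zs hc
  iso := by
    rintro c c' p ⟨c0, h0, h1, h2⟩ hp hp'
    rw [hc.isolated c0 c p h1 h0 h2 hp, hc.isolated c0 c' p h1 h0 h2 hp']

end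

end Pool.Agent.KRFS.Surf
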