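import Pool.Agent.Work.MP_a2bf38_gt.H.Build
import Mathlib.Analysis.Normed.Module.Connected

/-!
# The singular fibres of a contraction: density and connectedness of the complement
-/

open scoped ContDiff ENNReal ComplexOrder
open Set Filter Topology Pool.Agent.ToricKRF Pool.Agent.ToricKRF.G

namespace Pool.Agent.KRFS.Surf

/-- the points where the base coordinates do not vanish -/
theorem base_eq_zero_iff {a : Ch} (ha : a.kind.Singular) (z : ℂ × ℂ) :
    a.base z = 0 ↔ (z.1 = 0 ∨ (a = .n0 ∧ z.2 = 0)) := by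
  cases a
  · exact ha.elim
  · simp only [Ch.base, Prod.mk_eq_zero, reduceCtorEq, false_and, or_false]
    exact ⟨fun h => h.1, fun h => ⟨h, by simp [h]⟩⟩
  · simp only [Ch.base, Prod.mk_eq_zero, reduceCtorEq, false_and, or_false]
    exact ⟨fun h => h.2, fun h => ⟨by simp [h], h⟩⟩
  · exact ha.elim
  · exact ha.elim
  · simp [Ch.base]
  · simp [Ch.base]
  · simp [Ch.base]

theorem isPreconnected_punctured (ε : ℝ) :
    IsPreconnected (Metric.ball (0 : ℂ) ε \ {0}) := by
  rcases le_or_gt ε 0 with h | h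
  · rw [Metric.ball_eq_empty.2 h]
    simp [isPreconnected_empty]
  · have h1 : Metric.ball (0 : ℂ) ε \ {0} = Complex.exp '' {w | w.re < Real.log ε} := by
      ext x
      simp only [Set.mem_sdiff, mem_ball_zero_iff, mem_singleton_iff, mem_image, mem_ofPred_eq]
      constructor
      · rintro ⟨h2, h3⟩
        refine ⟨Complex.log x, ?_, Complex.exp_log h3⟩
        rw [Complex.log_re]
        exact Real.log_lt_log (norm_pos_iff.2 h3) h2
      · rintro ⟨w, h2, rfl⟩
        refine ⟨?_, Complex.exp_ne_zero _⟩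
        rw [Complex.norm_exp]
        exact (Real.lt_log_iff_exp_lt h).1 h2
    rw [h1]
    refine IsPreconnected.image ?_ _ Complex.continuous_exp.continuousOn
    exact (convex_halfSpace_re_lt _).isPreconnected

theorem exists_ball_punctured (x : ℂ) : ∃ ε > 0, ∀ δ ≤ ε, IsPreconnected (Metric.ball x δ \ {0}) := by
  by_cases hx : x = 0
  · subst hx
    exact ⟨1, one_pos, fun δ _ => isPreconnected_punctured δ⟩
  · refine ⟨‖x‖, norm_pos_iff.2 hx, fun δ hδ => ?_⟩
    have h1 : Metric.ball x δ \ {0} = Metric.ball x δ := by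
      apply sdiff_singleton_eq_self
      rw [Metric.mem_ball, dist_comm, dist_zero_right]
      exact not_lt.2 hδ
    rw [h1]
    exact (convex_ball _ _).isPreconnected

section

variable {M : Type} [TopologicalSpace M] {κ P : Type}
  {e : κ → OpenPartialHomeomorph M (Cn 2)} {pc : κ → P} {ch : κ → Ch} {kind : P → Kind}

theorem mem_Zs_iff' (hc : IsContraction e pc ch kind) {c : κ} {p : M} (hp : p ∈ (e c).source)
    (hs : (kind (pc c)).Singular) : p ∈ Zs e pc ch kind ↔
      ((toC (e c p)).1 = 0 ∨ (ch c = .n0 ∧ (toC (e c p)).2 = 0)) := by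
  rw [mem_Zs_iff hc hp, and_iff_right hs]
  refine base_eq_zero_iff ?_ _
  rw [hc.kind_eq c]
  exact hs

theorem dense_Zs (hc : IsContraction e pc ch kind) : Dense (Zs e pc ch kind)ᶜ := by
  intro p
  by_cases hp : p ∈ Zs e pc ch kind
  · obtain ⟨c, h1, h2, -⟩ := hp
    -- the points `z0 + ε (1,1)`
    have h3 : Tendsto (fun ε : ℝ => (e c).symm (e c p + ε • ofC (1, 1))) (𝓝[≠] 0) (𝓝 p) := by
      have h4 : ContinuousAt (fun ε : ℝ => (e c).symm (e c p + ε • ofC (1, 1))) 0 := by
        have h5 : ContinuousAt (e c).symm (e c p + (0 : ℝ) • ofC (1, 1)) := by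
          rw [zero_smul, add_zero]
          exact (e c).continuousAt_symm ((e c).map_source h1)
        exact ContinuousAt.comp (f := fun ε : ℝ => e c p + ε • ofC (1, 1)) h5
          (by fun_prop)
      have h5 : Tendsto (fun ε : ℝ => (e c).symm (e c p + ε • ofC (1, 1))) (𝓝 0)
          (𝓝 ((e c).symm (e c p + (0 : ℝ) • ofC (1, 1)))) := h4
      rw [zero_smul, add_zero, (e c).left_inv h1] at h5
      exact h5.mono_left nhdsWithin_le_nhds
    refine mem_closure_of_tendsto h3 ?_
    have h4 : ∀ x : ℂ, ∀ᶠ ε : ℝ in 𝓝[≠] 0, x + ε ≠ 0 := by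
      intro x
      by_cases hx : x = 0
      · filter_upwards [self_mem_nhdsWithin] with ε hε
        simpa [hx] using hε
      · have h5 : ContinuousAt (fun ε : ℝ => x + (ε : ℂ)) 0 := by fun_prop
        have h6 : ∀ᶠ ε : ℝ in 𝓝 0, x + (ε : ℂ) ≠ 0 := h5.eventually_ne (by simpa using hx)
        exact h6.filter_mono nhdsWithin_le_nhds
    have h5 : ∀ᶠ ε : ℝ in 𝓝[≠] 0, e c p + ε • ofC (1, 1) ∈ (e c).target := by
      have h6 : ContinuousAt (fun ε : ℝ => e c p + ε • ofC (1, 1)) 0 := by fun_prop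
      have h7 : ∀ᶠ ε : ℝ in 𝓝 0, e c p + ε • ofC (1, 1) ∈ (e c).target :=
        h6.eventually_mem ((e c).open_target.mem_nhds (by
          rw [zero_smul, add_zero]
          exact (e c).map_source h1))
      exact h7.filter_mono nhdsWithin_le_nhds
    filter_upwards [h4 (toC (e c p)).1, h4 (toC (e c p)).2, h5] with ε h6 h7 h8
    rw [mem_compl_iff, mem_Zs_iff' hc ((e c).map_target h8) h2, (e c).right_inv h8]
    rw [toC_add, toC_smul, toC_ofC]
    push Not
    refine ⟨?_, fun _ => ?_⟩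
    · simpa using h6
    · simpa using h7
  · exact subset_closure hp

theorem loc_Zs (hc : IsContraction e pc ch kind) {p : M} (hp : p ∈ Zs e pc ch kind) :
    ∃ W, IsOpen W ∧ p ∈ W ∧ IsPreconnected (W \ Zs e pc ch kind) := by
  obtain ⟨c, h1, h2, -⟩ := hp
  obtain ⟨ε1, h3, h4⟩ := exists_ball_punctured (toC (e c p)).1
  obtain ⟨ε2, h5, h6⟩ := exists_ball_punctured (toC (e c p)).2
  have h7 : (e c).target ∈ 𝓝 (ofC (toC (e c p))) := by
    rw [ofC_toC]
    exact (e c).open_target.mem_nhds ((e c).map_source h1)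
  obtain ⟨ε3, h8, h9⟩ := Metric.mem_nhds_iff.1 (continuous_ofC.continuousAt h7)
  obtain ⟨δ, hδ, hδ1, hδ2, hδ3⟩ : ∃ δ > 0, δ ≤ ε1 ∧ δ ≤ ε2 ∧ δ ≤ ε3 :=
    ⟨min ε1 (min ε2 ε3), lt_min h3 (lt_min h5 h8), min_le_left _ _,
      (min_le_right _ _).trans (min_le_left _ _), (min_le_right _ _).trans (min_le_right _ _)⟩
  set x := toC (e c p) with hx
  have h10 : ∀ y ∈ Metric.ball x δ, ofC y ∈ (e c).target := fun y hy =>
    h9 (Metric.ball_subset_ball hδ3 hy)
  refine ⟨(e c).source ∩ e c ⁻¹' (toC ⁻¹' Metric.ball x δ), ?_, ⟨h1, ?_⟩, ?_⟩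
  · exact (e c).isOpen_inter_preimage (Metric.isOpen_ball.preimage continuous_toC)
  · exact Metric.mem_ball_self hδ
  · have h11 : ((e c).source ∩ e c ⁻¹' (toC ⁻¹' Metric.ball x δ)) \ Zs e pc ch kind =
        (fun y => (e c).symm (ofC y)) ''
          ((Metric.ball x.1 δ \ {0}) ×ˢ (Metric.ball x.2 δ \ {y | ch c = .n0 ∧ y = 0})) := by
      ext q
      constructor
      · rintro ⟨⟨h12, h13⟩, h14⟩
        rw [mem_Zs_iff' hc h12 h2] at h14
        push Not at h14
        have h15 : toC (e c q) ∈ Metric.ball x δ := h13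
        rw [← ball_prod_same] at h15
        refine ⟨toC (e c q), ⟨⟨h15.1, h14.1⟩, ⟨h15.2, ?_⟩⟩, ?_⟩
        · rintro ⟨h16, h17⟩
          exact h14.2 h16 h17
        · simp only [ofC_toC]
          exact (e c).left_inv h12
      · rintro ⟨y, ⟨⟨h12, h13⟩, ⟨h14, h15⟩⟩, rfl⟩
        have h16 : y ∈ Metric.ball x δ := by
          rw [← ball_prod_same]
          exact ⟨h12, h14⟩
        have h17 := h10 y h16
        refine ⟨⟨(e c).map_target h17, ?_⟩, ?_⟩
        · change toC (e c ((e c).symm (ofC y))) ∈ Metric.ball x δ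
          rw [(e c).right_inv h17, toC_ofC]
          exact h16
        · rw [mem_Zs_iff' hc ((e c).map_target h17) h2, (e c).right_inv h17, toC_ofC]
          push Not
          exact ⟨h13, fun h18 h19 => h15 ⟨h18, h19⟩⟩
    rw [h11]
    refine IsPreconnected.image ?_ _ ?_
    · refine (h4 δ hδ1).prod ?_
      by_cases h12 : ch c = .n0
      · have h13 : {y : ℂ | ch c = .n0 ∧ y = 0} = {0} := by
          ext y
          simp [h12]
        rw [h13]
        exact h6 δ hδ2
      · have h13 : {y : ℂ | ch c = .n0 ∧ y = 0} = ∅ := by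
          ext y
          simp [h12]
        rw [h13, sdiff_empty]
        exact (convex_ball _ _).isPreconnected
    · refine (e c).continuousOn_symm.comp continuous_ofC.continuousOn ?_
      rintro y ⟨⟨h12, -⟩, ⟨h14, -⟩⟩
      exact h10 y (by
        rw [← ball_prod_same]
        exact ⟨h12, h14⟩)

end

end Pool.Agent.KRFS.Surf
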