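import Pool.Agent.Work.MP_a2bf38_gt.H.Build2

/-!
# The toric structure of the singular models
-/

open scoped ContDiff ENNReal ComplexOrder
open Set Filter Topology Pool.Agent.ToricKRF Pool.Agent.ToricKRF.G

namespace Pool.Agent.KRFS.Surf

/-- the rays of the fans -/
noncomputable def ray : Kind → Fin 4 → Fin 2 → ℝ
  | .node => ![![1, 0], ![0, 1], ![1, -1], ![-1, 1]]
  | _ => ![![1, 1], ![0, 1], ![1, 0], ![1, 0]]

/-- the cones of the charts -/
def sg : Ch → Fin 2 → Fin 4
  | .p1 => ![0, 2]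
  | .n1 => ![0, 2]
  | .n2 => ![1, 3]
  | _ => ![0, 1]

/-- the monomials of the base coordinates -/
noncomputable def Bs : Kind → Finset (Fin 2 → ℝ)
  | .node => {![1, 1]}
  | _ => {![1, 0], ![0, 1]}

/-- the logarithmic coordinates in the charts -/
noncomputable def lg : Ch → ℂ × ℂ → ℂ × ℂ
  | .p0, w => (w.1, w.2 - w.1)
  | .p1, w => (w.2, w.1 - w.2)
  | .n1, w => (w.1 + w.2, -w.2)
  | .n2, w => (w.1 + w.2, -w.1)
  | _, w => w

/-- the exponential -/
noncomputable def ex (x : ℂ × ℂ) : ℂ × ℂ := (Complex.exp x.1, Complex.exp x.2)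

theorem cexp_ofC (x : ℂ × ℂ) : cexp (ofC x) = ofC (ex x) := by
  apply Prod.ext <;> funext k <;> fin_cases k <;>
    simp [cexp, ofC, ex, Complex.exp_re, Complex.exp_im]

theorem nsq_base_ex {a : Ch} (ha : a.kind.Singular) (w : Cn 2) :
    nsq (ofC (a.base (ex (lg a (toC w))))) = rho (Bs a.kind) w.1 := by
  have key : ∀ x : ℝ, Real.exp x ^ 2 = Real.exp (2 * x) := fun x => by
    rw [← Real.exp_nat_mul]
    norm_num
  have hne : (![1, 0] : Fin 2 → ℝ) ≠ ![0, 1] := fun h => by
    have := congrFun h 0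
    simp at this
  rw [nsq_ofC]
  cases a
  · exact ha.elim
  · simp only [Ch.base, ex, lg, Ch.kind, Bs, rho, Finset.sum_pair hne, ← Complex.exp_add,
      Complex.norm_exp, toC, key]
    congr 2 <;> simp [dotProduct, Fin.sum_univ_two]
  · simp only [Ch.base, ex, lg, Ch.kind, Bs, rho, Finset.sum_pair hne, ← Complex.exp_add,
      Complex.norm_exp, toC, key]
    congr 2 <;> simp [dotProduct, Fin.sum_univ_two]
  · exact ha.elim
  · exact ha.elim
  · simp only [Ch.base, ex, lg, Ch.kind, Bs, rho, Finset.sum_singleton, ← Complex.exp_add,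
      Complex.norm_exp, toC, key]
    simp [dotProduct, Fin.sum_univ_two]
  · simp only [Ch.base, ex, lg, Ch.kind, Bs, rho, Finset.sum_singleton,
      Complex.norm_exp, toC, key]
    simp [dotProduct, Fin.sum_univ_two]
  · simp only [Ch.base, ex, lg, Ch.kind, Bs, rho, Finset.sum_singleton,
      Complex.norm_exp, toC, key]
    simp [dotProduct, Fin.sum_univ_two]

theorem tr_ex {a a' : Ch} (ha : a.kind.Singular) (h : a'.kind = a.kind) (hne : a ≠ a')
    (w : ℂ × ℂ) : a.mem a' (ex (lg a w)) ∧ a.tr a' (ex (lg a w)) = ex (lg a' w) := by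
  have h0 := Complex.exp_ne_zero
  cases a <;> cases a' <;>
    first
    | exact ha.elim
    | exact absurd rfl hne
    | (exfalso; simp [Ch.kind] at h; done)
    | (refine ⟨by simp [Ch.mem, ex, lg], ?_⟩
       simp only [Ch.tr, ex, lg, ← Complex.exp_add, one_div, ← Complex.exp_neg]
       first
       | done
       | (refine Prod.ext ?_ ?_ <;> first | rfl | (refine congrArg Complex.exp ?_; ring)))

theorem sum_lg {a : Ch} (ha : a.kind.Singular) (w : Cn 2) :
    w.1 = ∑ k, (ofC (lg a (toC w))).1 k • ray a.kind (sg a k) ∧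
      w.2 = ∑ k, (ofC (lg a (toC w))).2 k • ray a.kind (sg a k) := by
  cases a <;>
    first
    | exact ha.elim
    | (constructor <;> funext i <;> fin_cases i <;>
        simp [Fin.sum_univ_two, ofC, lg, toC, ray, Ch.kind, sg])

theorem exists_lg (a : Ch) {z : ℂ × ℂ} (h1 : z.1 ≠ 0) (h2 : z.2 ≠ 0) : ∃ w, ex (lg a w) = z := by
  have hz : ex (Complex.log z.1, Complex.log z.2) = z := by
    simp [ex, Complex.exp_log h1, Complex.exp_log h2]
  suffices h : ∃ w, lg a w = (Complex.log z.1, Complex.log z.2) by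
    obtain ⟨w, hw⟩ := h
    exact ⟨w, by rw [hw, hz]⟩
  generalize Complex.log z.1 = x
  generalize Complex.log z.2 = y
  cases a
  · exact ⟨(x, y), rfl⟩
  · exact ⟨(x, y + x), by simp [lg]⟩
  · exact ⟨(y + x, x), by simp [lg]⟩
  · exact ⟨(x, y), rfl⟩
  · exact ⟨(x, y), rfl⟩
  · exact ⟨(x, y), rfl⟩
  · exact ⟨(x + y, -y), by simp [lg]⟩
  · exact ⟨(-y, x + y), by simp [lg]⟩

theorem ex_periodic (a : Ch) (w : Cn 2) (m : Fin 2 → ℤ) :
    ex (lg a (toC (w.1, fun k => w.2 k + 2 * Real.pi * m k))) = ex (lg a (toC w)) := by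
  have h1 : toC (w.1, fun k => w.2 k + 2 * Real.pi * m k) =
      ((toC w).1 + m 0 * (2 * Real.pi * Complex.I), (toC w).2 + m 1 * (2 * Real.pi * Complex.I)) := by
    apply Prod.ext <;> apply Complex.ext <;> simp [toC] <;> ring
  rw [h1]
  have key : ∀ (x : ℂ) (k : ℤ), Complex.exp (x + k * (2 * Real.pi * Complex.I)) =
      Complex.exp x := fun x k => Complex.exp_periodic.int_mul k x
  generalize toC w = v
  have e1 : ∀ (x y : ℂ) (k l : ℤ), Complex.exp (x + k * (2 * Real.pi * Complex.I) -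
      (y + l * (2 * Real.pi * Complex.I))) = Complex.exp (x - y) := fun x y k l => by
    rw [← key (x - y) (k - l)]
    congr 1
    push_cast
    ring
  have e2 : ∀ (x y : ℂ) (k l : ℤ), Complex.exp (x + k * (2 * Real.pi * Complex.I) +
      (y + l * (2 * Real.pi * Complex.I))) = Complex.exp (x + y) := fun x y k l => by
    rw [← key (x + y) (k + l)]
    congr 1
    push_cast
    ring
  have e3 : ∀ (x : ℂ) (k : ℤ), Complex.exp (-(x + k * (2 * Real.pi * Complex.I))) =
      Complex.exp (-x) := fun x k => by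
    rw [← key (-x) (-k)]
    congr 1
    push_cast
    ring
  cases a <;> simp only [ex, lg, key, e1, e2, e3]

theorem indep_ray {a : Ch} (ha : a.kind.Singular) :
    LinearIndependent ℝ (fun k => ray a.kind (sg a k)) := by
  have key : ∀ x y : Fin 2 → ℝ, x 0 * y 1 - x 1 * y 0 ≠ 0 → LinearIndependent ℝ ![x, y] := by
    intro x y hxy
    rw [LinearIndependent.pair_iff]
    intro s t hst
    have h0 := congrFun hst 0
    have h1 := congrFun hst 1
    simp only [Pi.add_apply, Pi.smul_apply, smul_eq_mul, Pi.zero_apply] at h0 h1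
    constructor
    · have : s * (x 0 * y 1 - x 1 * y 0) = 0 := by linear_combination y 1 * h0 - y 0 * h1
      exact (mul_eq_zero.1 this).resolve_right hxy
    · have : t * (x 0 * y 1 - x 1 * y 0) = 0 := by linear_combination x 0 * h1 - x 1 * h0
      exact (mul_eq_zero.1 this).resolve_right hxy
  have key' : ∀ f : Fin 2 → Fin 2 → ℝ, f 0 0 * f 1 1 - f 0 1 * f 1 0 ≠ 0 →
      LinearIndependent ℝ f := by
    intro f hf
    have : f = ![f 0, f 1] := by
      funext k
      fin_cases k <;> rfl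
    rw [this]
    exact key _ _ hf
  cases a <;> first
    | exact ha.elim
    | (refine key' _ ?_; simp [ray, Ch.kind, sg])

theorem span_ray (K : Kind) : Submodule.span ℝ (range (ray K)) = ⊤ := by
  have key : ∀ f : Fin 4 → Fin 2 → ℝ, ∀ i j : Fin 4, f i 0 * f j 1 - f i 1 * f j 0 ≠ 0 →
      Submodule.span ℝ (range f) = ⊤ := by
    intro f i j hf
    rw [eq_top_iff]
    intro v _
    have h1 : v = ((v 0 * f j 1 - v 1 * f j 0) / (f i 0 * f j 1 - f i 1 * f j 0)) • f i +
        ((f i 0 * v 1 - f i 1 * v 0) / (f i 0 * f j 1 - f i 1 * f j 0)) • f j := by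
      funext k
      simp only [Pi.add_apply, Pi.smul_apply, smul_eq_mul]
      rw [div_mul_eq_mul_div, div_mul_eq_mul_div, ← add_div, eq_div_iff hf]
      fin_cases k <;> simp only [Fin.zero_eta, Fin.mk_one] <;> ring
    rw [h1]
    exact add_mem (Submodule.smul_mem _ _ (Submodule.subset_span ⟨i, rfl⟩))
      (Submodule.smul_mem _ _ (Submodule.subset_span ⟨j, rfl⟩))
  cases K <;> exact key _ 0 1 (by simp [ray])

theorem ray_ne (K : Kind) (i : Fin 4) : ray K i ≠ 0 := by
  intro h
  have h0 := congrFun h 0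
  have h1 := congrFun h 1
  cases K <;> fin_cases i <;> simp [ray] at h0 h1

theorem Bs_ne (K : Kind) : (Bs K).Nonempty := by
  cases K <;> simp [Bs]

section

variable {M : Type} [TopologicalSpace M] {κ P : Type}
  {e : κ → OpenPartialHomeomorph M (Cn 2)} {pc : κ → P} {ch : κ → Ch} {kind : P → Kind}

/-- the coordinates of the open orbit -/
noncomputable def tau (e : κ → OpenPartialHomeomorph M (Cn 2)) (ch : κ → Ch) (c0 : κ) (w : Cn 2) :
    M :=
  (e c0).symm (ofC (ex (lg (ch c0) (toC w))))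

theorem sing_ch (hc : IsContraction e pc ch kind) {c0 c : κ} (h0 : (kind (pc c0)).Singular)
    (hcc : pc c = pc c0) : (ch c).kind.Singular := by
  rw [hc.kind_eq c, hcc]
  exact h0

theorem tau_mem (hc : IsContraction e pc ch kind) {c0 c : κ} (h0 : (kind (pc c0)).Singular)
    (hcc : pc c = pc c0) {w : Cn 2} (hw : rho (Bs (kind (pc c0))) w.1 < 1) :
    tau e ch c0 w ∈ (e c).source ∧ e c (tau e ch c0 w) = ofC (ex (lg (ch c) (toC w))) := by
  have h1 : ofC (ex (lg (ch c0) (toC w))) ∈ (e c0).target := by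
    rw [hc.target c0]
    change nsq (ofC ((ch c0).base (toC (ofC (ex (lg (ch c0) (toC w))))))) < 1
    rw [toC_ofC, nsq_base_ex (sing_ch hc h0 rfl), hc.kind_eq c0]
    exact hw
  have h2 : tau e ch c0 w ∈ (e c0).source := (e c0).map_target h1
  have h3 : e c0 (tau e ch c0 w) = ofC (ex (lg (ch c0) (toC w))) := (e c0).right_inv h1
  by_cases hne : c0 = c
  · subst hne
    exact ⟨h2, h3⟩
  · have h4 : ch c0 ≠ ch c := fun h => hne (hc.unique_chart c0 c hcc.symm h)
    have h5 : (ch c).kind = (ch c0).kind := by rw [hc.kind_eq c, hc.kind_eq c0, hcc]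
    obtain ⟨h6, h7⟩ := tr_ex (sing_ch hc h0 rfl) h5 h4 (toC w)
    have h8 : tau e ch c0 w ∈ (e c).source := by
      refine mem_source_of_mem hc hcc.symm hne h2 ?_
      rw [h3, toC_ofC]
      exact h6
    refine ⟨h8, ?_⟩
    obtain ⟨-, h9⟩ := overlap_point hc hcc.symm hne h2 h8
    rw [h3, toC_ofC, h7] at h9
    rw [← h9, ofC_toC]

theorem tau_dense (hc : IsContraction e pc ch kind) {c0 c : κ} (h0 : (kind (pc c0)).Singular)
    (hcc : pc c = pc c0) {p : M} (hp : p ∈ (e c).source) (h1 : (toC (e c p)).1 ≠ 0)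
    (h2 : (toC (e c p)).2 ≠ 0) :
    ∃ w : Cn 2, rho (Bs (kind (pc c0))) w.1 < 1 ∧ tau e ch c0 w = p := by
  obtain ⟨v, hv⟩ := exists_lg (ch c) h1 h2
  obtain ⟨w, rfl⟩ : ∃ w, toC w = v := ⟨ofC v, toC_ofC v⟩
  have h3 : rho (Bs (kind (pc c0))) w.1 < 1 := by
    have h4 := nsq_bmap_lt hc hp
    rw [bmap_eq hc hp, ← hv, nsq_base_ex (sing_ch hc h0 hcc), hc.kind_eq c, hcc] at h4
    exact h4
  refine ⟨w, h3, ?_⟩
  obtain ⟨h4, h5⟩ := tau_mem hc h0 hcc h3
  refine (e c).injOn h4 hp ?_
  rw [h5, hv, ofC_toC]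

/-- the toric structure of a singular piece -/
noncomputable def mkPiece [T2Space M] [Finite P] {T : ℝ} {ψ : κ → ℝ × Cn 2 → ℝ}
    {Ω : κ → Cn 2 → ℝ} {K : P → Cn 2 → ℝ} (hc : IsContraction e pc ch kind) (ha : IsAtlas e)
    (hψ : IsKRF e T ψ) (hK : IsLimitClass e pc ch T ψ Ω K) (c0 : κ)
    (h0 : (kind (pc c0)).Singular) : TPiece (mkSetup hc ha hψ hK) (pc c0) (Fin 4) where
  ν := ray (kind (pc c0))
  span_ν := span_ray _
  ν_ne := ray_ne _
  σ := fun c => sg (ch c)
  indep := by
    intro c hcc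
    change pc c = pc c0 at hcc
    have h1 := indep_ray (sing_ch hc h0 hcc)
    rw [hc.kind_eq c, hcc] at h1
    exact h1
  B := Bs (kind (pc c0))
  B_ne := Bs_ne _
  τ := tau e ch c0
  nsq_τ := by
    intro w hw
    obtain ⟨h1, h2⟩ := tau_mem hc h0 rfl hw
    change nsq (bmap e pc ch (pc c0) (tau e ch c0 w)) = _
    rw [bmap_eq hc h1, h2, toC_ofC, nsq_base_ex (sing_ch hc h0 rfl), hc.kind_eq c0]
  τ_mem := by
    intro c hcc w hw
    change pc c = pc c0 at hcc
    obtain ⟨h1, h2⟩ := tau_mem hc h0 hcc hw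
    refine ⟨h1, ofC (lg (ch c) (toC w)), ?_⟩
    obtain ⟨h3, h4⟩ := sum_lg (sing_ch hc h0 hcc) w
    rw [hc.kind_eq c, hcc] at h3 h4
    refine ⟨h3, h4, ?_⟩
    rw [cexp_ofC]
    exact h2
  dense := by
    intro c hcc p hp hne
    change pc c = pc c0 at hcc
    refine tau_dense hc h0 hcc hp ?_ ?_
    · intro h
      have h1 := hne 0
      have h2 := congrArg Complex.re h
      have h3 := congrArg Complex.im h
      rcases h1 with h1 | h1
      · exact h1 h2
      · exact h1 h3
    · intro h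
      have h1 := hne 1
      have h2 := congrArg Complex.re h
      have h3 := congrArg Complex.im h
      rcases h1 with h1 | h1
      · exact h1 h2
      · exact h1 h3
  periodic := by
    intro w m
    simp only [tau]
    rw [ex_periodic]
  mem_Z := by
    intro c hcc p hp
    change pc c = pc c0 at hcc
    change p ∈ Zs e pc ch kind ↔ nsq (bmap e pc ch (pc c0) p) = 0
    change p ∈ (e c).source at hp
    rw [mem_Zs_iff hc hp, bmap_eq' hc hcc hp, nsq_ofC_eq_zero, hcc]
    exact and_iff_right h0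

end

end Pool.Agent.KRFS.Surf
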