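import Pool.Agent.Work.MP_a2bf38_gt.H.Dist

/-!
# From local bounds to a bound of the diameter

The complement of a closed set which does not separate locally is preconnected; if the metrics are
uniformly bounded near the points of the complement, and the points near `Z` are uniformly close to
compact subsets of the complement, then the diameters are bounded.
-/

open scoped ContDiff ENNReal ComplexOrder
open Set Filter Topology Pool.Agent.ToricKRF Pool.Agent.ToricKRF.G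

namespace Pool.Agent.KRFS

theorem isPreconnected_compl {M : Type} [TopologicalSpace M] [PreconnectedSpace M] {Z : Set M}
    (hZ : IsClosed Z) (hd : Dense Zᶜ)
    (hloc : ∀ p ∈ Z, ∃ W, IsOpen W ∧ p ∈ W ∧ IsPreconnected (W \ Z)) : IsPreconnected Zᶜ := by
  intro A' B' hA' hB' hsub hAne hBne
  by_contra hcon
  rw [Set.not_nonempty_iff_eq_empty] at hcon
  set A := Zᶜ ∩ A' with hA
  set B := Zᶜ ∩ B' with hB
  have hAo : IsOpen A := hZ.isOpen_compl.inter hA'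
  have hBo : IsOpen B := hZ.isOpen_compl.inter hB'
  have hdis : ∀ x, x ∈ A → x ∈ B → False := by
    intro x h1 h2
    have : x ∈ Zᶜ ∩ (A' ∩ B') := ⟨h1.1, h1.2, h2.2⟩
    rw [hcon] at this
    exact this
  have hcov : ∀ x ∈ Zᶜ, x ∈ A ∨ x ∈ B := fun x hx =>
    (hsub hx).imp (fun h => ⟨hx, h⟩) (fun h => ⟨hx, h⟩)
  have huniv : (univ : Set M) ⊆ closure A ∪ closure B := by
    rw [← closure_union]
    have h1 : Zᶜ ⊆ A ∪ B := fun x hx => hcov x hx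
    have h2 := closure_mono h1
    rwa [hd.closure_eq] at h2
  have hpre := (isPreconnected_closed_iff.mp (isPreconnected_univ (α := M))) (closure A)
    (closure B) isClosed_closure isClosed_closure huniv (by
      obtain ⟨x, hx⟩ := hAne
      exact ⟨x, trivial, subset_closure hx⟩) (by
      obtain ⟨x, hx⟩ := hBne
      exact ⟨x, trivial, subset_closure hx⟩)
  obtain ⟨p, -, hpA, hpB⟩ := hpre
  by_cases hp : p ∈ Z
  · obtain ⟨W, hWo, hpW, hW⟩ := hloc p hp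
    obtain ⟨a, haW, haA⟩ := mem_closure_iff.mp hpA W hWo hpW
    obtain ⟨b, hbW, hbB⟩ := mem_closure_iff.mp hpB W hWo hpW
    obtain ⟨x, hx1, hx2, hx3⟩ := hW A B hAo hBo (fun x hx => hcov x hx.2)
      ⟨a, ⟨haW, haA.1⟩, haA⟩ ⟨b, ⟨hbW, hbB.1⟩, hbB⟩
    exact hdis x hx2 hx3
  · rcases hcov p hp with h | h
    · obtain ⟨b, hb1, hb2⟩ := mem_closure_iff.mp hpB A hAo h
      exact hdis b hb1 hb2
    · obtain ⟨a, ha1, ha2⟩ := mem_closure_iff.mp hpA B hBo h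
      exact hdis a ha2 ha1

section

variable {n N : ℕ} {M : Type} [TopologicalSpace M] {κ P F : Type} [Fintype F] {T : ℝ}
  (s : Setup n N M κ P F T)

/-- neighbourhoods of the good points are uniformly bounded -/
theorem good_nhd {p : M}
    (hgood : ∃ c, p ∈ (s.e c).source ∧ ∃ r > 0, ∃ C : ℝ,
      Metric.closedBall (s.e c p) r ⊆ (s.e c).target ∧
      ∀ t ∈ Ico 0 T, ∀ z ∈ Metric.closedBall (s.e c p) r, ∀ u,
        lev (s.ψ c) u (t, z) ≤ C * ‖u‖ ^ 2) :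
    ∃ C : ℝ, ∀ᶠ q in 𝓝 p, ∀ t ∈ Ico 0 T, rdist s.e s.ψ t p q ≤ ENNReal.ofReal C := by
  obtain ⟨c, hpc, r, hr, C, hball, hb⟩ := hgood
  refine ⟨√(2 * max C 0) * r, ?_⟩
  have h3 : ∀ᶠ q in 𝓝 p, q ∈ (s.e c).source := (s.e c).open_source.mem_nhds hpc
  have hcont : Tendsto (s.e c) (𝓝 p) (𝓝 (s.e c p)) := (s.e c).continuousAt hpc
  have h4 : ∀ᶠ q in 𝓝 p, s.e c q ∈ Metric.closedBall (s.e c p) r :=
    hcont.eventually (Metric.closedBall_mem_nhds _ hr)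
  filter_upwards [h3, h4] with q hq1 hq2 t ht
  refine (rdist_ball s ht hpc (le_max_right C 0) hball (fun z hz u =>
    (hb t ht z hz u).trans (mul_le_mul_of_nonneg_right (le_max_left C 0) (by positivity))) hq1
    hq2).trans (ENNReal.ofReal_le_ofReal ?_)
  refine mul_le_mul_of_nonneg_left ?_ (Real.sqrt_nonneg _)
  rw [← dist_eq_norm]
  exact hq2

theorem Setup.diam_bounded [CompactSpace M]
    (hgood : ∀ p ∉ s.Z, ∃ c, p ∈ (s.e c).source ∧ ∃ r > 0, ∃ C : ℝ,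
      Metric.closedBall (s.e c p) r ⊆ (s.e c).target ∧
      ∀ t ∈ Ico 0 T, ∀ z ∈ Metric.closedBall (s.e c p) r, ∀ u, lev (s.ψ c) u (t, z) ≤ C * ‖u‖ ^ 2)
    (hconn : IsPreconnected s.Zᶜ)
    (hZ : ∀ p ∈ s.Z, ∃ W ∈ 𝓝 p, ∃ A : Set M, IsCompact A ∧ Disjoint A s.Z ∧ ∃ C : ℝ,
      ∀ t ∈ Ico 0 T, ∀ q ∈ W, ∃ q' ∈ A, rdist s.e s.ψ t q q' ≤ ENNReal.ofReal C) :
    ⨆ t ∈ Ico 0 T, rdiam s.e s.ψ t < ⊤ := by
  have add_le : ∀ {a b : ℝ≥0∞} {C C' : ℝ}, a ≤ ENNReal.ofReal C → b ≤ ENNReal.ofReal C' →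
      a + b ≤ ENNReal.ofReal (max C 0 + max C' 0) := by
    intro a b C C' h1 h2
    rw [ENNReal.ofReal_add (le_max_right _ _) (le_max_right _ _)]
    exact add_le_add (h1.trans (ENNReal.ofReal_le_ofReal (le_max_left _ _)))
      (h2.trans (ENNReal.ofReal_le_ofReal (le_max_left _ _)))
  by_cases hx : ∃ x0, x0 ∉ s.Z
  · obtain ⟨x0, hx0⟩ := hx
    -- the points of the complement
    have h1 : ∀ p ∈ s.Zᶜ, ∀ q ∈ s.Zᶜ, ∃ C : ℝ, ∀ t ∈ Ico 0 T,
        rdist s.e s.ψ t p q ≤ ENNReal.ofReal C := by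
      intro p hp q hq
      refine hconn.induction₂ (fun p q => ∃ C : ℝ, ∀ t ∈ Ico 0 T,
        rdist s.e s.ψ t p q ≤ ENNReal.ofReal C) ?_ ?_ ?_ hp hq
      · intro x hx
        obtain ⟨C, hC⟩ := good_nhd s (hgood x hx)
        exact (hC.filter_mono nhdsWithin_le_nhds).mono fun y hy => ⟨C, hy⟩
      · rintro x y z hx hy hz ⟨C, hC⟩ ⟨C', hC'⟩
        exact ⟨_, fun t ht => (rdist_triangle s x y z).trans (add_le (hC t ht) (hC' t ht))⟩
      · rintro x y hx hy ⟨C, hC⟩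
        exact ⟨C, fun t ht => by
          rw [rdist_comm s]
          exact hC t ht⟩
    -- induction on compact sets
    have hmono : ∀ ⦃S S' : Set M⦄, S ⊆ S' → (∃ C : ℝ, ∀ t ∈ Ico 0 T, ∀ q ∈ S',
        rdist s.e s.ψ t x0 q ≤ ENNReal.ofReal C) → ∃ C : ℝ, ∀ t ∈ Ico 0 T, ∀ q ∈ S,
        rdist s.e s.ψ t x0 q ≤ ENNReal.ofReal C := by
      rintro S S' hS ⟨C, hC⟩
      exact ⟨C, fun t ht q hq => hC t ht q (hS hq)⟩
    have hunion : ∀ ⦃S S' : Set M⦄, (∃ C : ℝ, ∀ t ∈ Ico 0 T, ∀ q ∈ S,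
        rdist s.e s.ψ t x0 q ≤ ENNReal.ofReal C) → (∃ C : ℝ, ∀ t ∈ Ico 0 T, ∀ q ∈ S',
        rdist s.e s.ψ t x0 q ≤ ENNReal.ofReal C) → ∃ C : ℝ, ∀ t ∈ Ico 0 T, ∀ q ∈ S ∪ S',
        rdist s.e s.ψ t x0 q ≤ ENNReal.ofReal C := by
      rintro S S' ⟨C, hC⟩ ⟨C', hC'⟩
      refine ⟨max C C', fun t ht q hq => ?_⟩
      rcases hq with hq | hq
      · exact (hC t ht q hq).trans (ENNReal.ofReal_le_ofReal (le_max_left _ _))
      · exact (hC' t ht q hq).trans (ENNReal.ofReal_le_ofReal (le_max_right _ _))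
    have hnear : ∀ x ∈ s.Zᶜ, ∃ S ∈ 𝓝 x, ∃ C : ℝ, ∀ t ∈ Ico 0 T, ∀ q ∈ S,
        rdist s.e s.ψ t x0 q ≤ ENNReal.ofReal C := by
      intro x hx
      obtain ⟨C, hC⟩ := good_nhd s (hgood x hx)
      obtain ⟨C', hC'⟩ := h1 x0 hx0 x hx
      exact ⟨_, hC, _, fun t ht q hq =>
        (rdist_triangle s x0 x q).trans (add_le (hC' t ht) (hq t ht))⟩
    have h2 : ∀ A : Set M, IsCompact A → Disjoint A s.Z → ∃ C : ℝ, ∀ t ∈ Ico 0 T, ∀ q ∈ A,
        rdist s.e s.ψ t x0 q ≤ ENNReal.ofReal C := by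
      intro A hA hAZ
      refine hA.induction_on (p := fun S => ∃ C : ℝ, ∀ t ∈ Ico 0 T, ∀ q ∈ S,
        rdist s.e s.ψ t x0 q ≤ ENNReal.ofReal C) ⟨0, fun t _ q hq => absurd hq (by simp)⟩
        hmono hunion ?_
      intro x hx
      obtain ⟨S, hS, hC⟩ := hnear x (fun h => (disjoint_left.mp hAZ) hx h)
      exact ⟨S, mem_nhdsWithin_of_mem_nhds hS, hC⟩
    obtain ⟨C, hC⟩ : ∃ C : ℝ, ∀ t ∈ Ico 0 T, ∀ q ∈ (univ : Set M),
        rdist s.e s.ψ t x0 q ≤ ENNReal.ofReal C := by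
      refine isCompact_univ.induction_on (p := fun S => ∃ C : ℝ, ∀ t ∈ Ico 0 T, ∀ q ∈ S,
        rdist s.e s.ψ t x0 q ≤ ENNReal.ofReal C) ⟨0, fun t _ q hq => absurd hq (by simp)⟩
        hmono hunion ?_
      intro x _
      by_cases hxZ : x ∈ s.Z
      · obtain ⟨W, hW, A, hA, hAZ, C, hC⟩ := hZ x hxZ
        obtain ⟨C', hC'⟩ := h2 A hA hAZ
        refine ⟨W, mem_nhdsWithin_of_mem_nhds hW, max C' 0 + max C 0, fun t ht q hq => ?_⟩
        obtain ⟨q', hq', hqq⟩ := hC t ht q hq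
        rw [rdist_comm s] at hqq
        exact (rdist_triangle s x0 q' q).trans (add_le (hC' t ht q' hq') hqq)
      · obtain ⟨S, hS, hC⟩ := hnear x hxZ
        exact ⟨S, mem_nhdsWithin_of_mem_nhds hS, hC⟩
    refine lt_of_le_of_lt (b := ENNReal.ofReal (max C 0 + max C 0)) ?_ ENNReal.ofReal_lt_top
    refine iSup₂_le fun t ht => iSup_le fun p => iSup_le fun q => ?_
    refine (rdist_triangle s p x0 q).trans (add_le ?_ (hC t ht q trivial))
    rw [rdist_comm s]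
    exact hC t ht p trivial
  · refine lt_of_le_of_lt (b := 0) ?_ ENNReal.zero_lt_top
    refine iSup₂_le fun t ht => iSup_le fun p => ?_
    exfalso
    push Not at hx
    obtain ⟨W, hW, A, hA, hAZ, C, hC⟩ := hZ p (hx p)
    obtain ⟨q', hq', -⟩ := hC t ht p (mem_of_mem_nhds hW)
    exact (disjoint_left.mp hAZ) hq' (hx q')

end

end Pool.Agent.KRFS
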