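import Pool.Agent.Work.MP_a2bf38_gt.H.Gen
import Pool.Agent.Work.MP_a2bf38_gt.H.Bound
import Pool.Agent.Work.MP_a2bf38_gt.G.EvolField

/-!
# The local holomorphic vector fields stay bounded
-/

open scoped ContDiff ENNReal ComplexOrder
open Set Filter Topology Pool.Agent.ToricKRF Pool.Agent.ToricKRF.G

namespace Pool.Agent.KRFS

section cut

/-- a cut-off function, `1` for `r ≤ 1/2` and `0` for `r ≥ 3/4` -/
noncomputable def cut (r : ℝ) : ℝ := Real.smoothTransition ((3 / 4 - r) * 4)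

theorem cut_contDiff : ContDiff ℝ ∞ cut :=
  Real.smoothTransition.contDiff.comp (by fun_prop)

theorem cut_one {r : ℝ} (h : r ≤ 1 / 2) : cut r = 1 :=
  Real.smoothTransition.one_of_one_le (by linarith)

theorem cut_zero {r : ℝ} (h : 3 / 4 ≤ r) : cut r = 0 :=
  Real.smoothTransition.zero_of_nonpos (by linarith)

theorem cut_pos {r : ℝ} (h : r < 3 / 4) : 0 < cut r :=
  Real.smoothTransition.pos_of_pos (by linarith)

theorem cut_nonneg (r : ℝ) : 0 ≤ cut r := Real.smoothTransition.nonneg _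

theorem cut_le_one (r : ℝ) : cut r ≤ 1 := Real.smoothTransition.le_one _

variable {m : ℕ}

theorem contDiff_nsq : ContDiff ℝ ∞ (nsq (n := m)) := by
  unfold nsq dotProduct
  fun_prop

theorem norm_le_of_nsq {y : Cn m} (h : nsq y ≤ 1) : ‖y‖ ≤ 1 := by
  unfold nsq dotProduct at h
  have h1 : 0 ≤ ∑ i, y.1 i * y.1 i := Finset.sum_nonneg fun i _ => mul_self_nonneg _
  have h2 : 0 ≤ ∑ i, y.2 i * y.2 i := Finset.sum_nonneg fun i _ => mul_self_nonneg _
  rw [norm_prod_le_iff, pi_norm_le_iff_of_nonneg zero_le_one, pi_norm_le_iff_of_nonneg zero_le_one]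
  constructor
  · intro i
    have h3 : y.1 i * y.1 i ≤ ∑ i, y.1 i * y.1 i :=
      Finset.single_le_sum (f := fun i => y.1 i * y.1 i) (fun i _ => mul_self_nonneg _)
        (Finset.mem_univ i)
    rw [Real.norm_eq_abs]
    exact abs_le_of_sq_le_sq (by nlinarith) zero_le_one
  · intro i
    have h3 : y.2 i * y.2 i ≤ ∑ i, y.2 i * y.2 i :=
      Finset.single_le_sum (f := fun i => y.2 i * y.2 i) (fun i _ => mul_self_nonneg _)
        (Finset.mem_univ i)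
    rw [Real.norm_eq_abs]
    exact abs_le_of_sq_le_sq (by nlinarith) zero_le_one

/-- the logarithm of the cut-off on the base -/
noncomputable def Lcut (y : Cn m) : ℝ := Real.log (cut (nsq y))

theorem isOpen_lt (r : ℝ) : IsOpen {y : Cn m | nsq y < r} :=
  isOpen_lt' contDiff_nsq.continuous r
where
  isOpen_lt' {f : Cn m → ℝ} (hf : Continuous f) (r : ℝ) : IsOpen {y | f y < r} :=
    isOpen_Iio.preimage hf

theorem Lcut_smooth : ContDiffOn ℝ ∞ (Lcut (m := m)) {y | nsq y < 3 / 4} :=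
  ((cut_contDiff.comp contDiff_nsq).contDiffOn).log fun _ hy => (cut_pos hy).ne'

end cut

section lin

variable {n : ℕ} {f g : ℝ × Cn n → ℝ} {p : ℝ × Cn n}

theorem lev_add' (hf : ContDiffAt ℝ 2 f p) (hg : ContDiffAt ℝ 2 g p) (u : Cn n) :
    lev (fun x => f x + g x) u p = lev f u p + lev g u p := by
  unfold lev
  rw [LC.D_D_add _ _ hf hg, LC.D_D_add _ _ hf hg]
  ring

theorem lev_sub' (hf : ContDiffAt ℝ 2 f p) (hg : ContDiffAt ℝ 2 g p) (u : Cn n) :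
    lev (fun x => f x - g x) u p = lev f u p - lev g u p := by
  unfold lev
  rw [LC.D_D_sub _ _ hf hg, LC.D_D_sub _ _ hf hg]
  ring

theorem lev_const_mul' (c : ℝ) (hf : ContDiffAt ℝ 2 f p) (u : Cn n) :
    lev (fun x => c * f x) u p = c * lev f u p := by
  unfold lev
  rw [LC.D_D_const_mul _ _ _ hf, LC.D_D_const_mul _ _ _ hf]
  ring

theorem lev_time (u : Cn n) (p : ℝ × Cn n) : lev (fun q : ℝ × Cn n => q.1) u p = 0 := by
  have h : ∀ w : Cn n, D ((0 : ℝ), w) (fun q : ℝ × Cn n => q.1) = fun _ => (0 : ℝ) := by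
    intro w
    funext q
    have h3 : fderiv ℝ (fun q : ℝ × Cn n => q.1) q = ContinuousLinearMap.fst ℝ ℝ (Cn n) :=
      hasFDerivAt_fst.fderiv
    simp [D, h3]
  unfold lev
  rw [h, h, D_const, D_const]
  norm_num

theorem dt_snd {g : Cn n → ℝ} {t : ℝ} {z : Cn n} (hg : DifferentiableAt ℝ g z) :
    G.dt (fun q : ℝ × Cn n => g q.2) (t, z) = 0 := by
  unfold G.dt D
  have h1 : HasFDerivAt (fun q : ℝ × Cn n => g q.2)
      ((fderiv ℝ g z).comp (ContinuousLinearMap.snd ℝ ℝ (Cn n))) (t, z) :=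
    HasFDerivAt.comp (t, z) (g := g) hg.hasFDerivAt hasFDerivAt_snd
  rw [h1.fderiv]
  simp

end lin

variable {n N : ℕ} {M : Type} [TopologicalSpace M] {κ P F : Type} [Fintype F] {T : ℝ}
  (s : Setup n N M κ P F T)

/-- the piece `j` -/
def Setup.V (j : P) : Set M := {p | ∃ c, s.pc c = j ∧ p ∈ (s.e c).source}

theorem Setup.h_continuousAt {j : P} {p : M} (hp : p ∈ s.V j) : ContinuousAt (s.h j) p := by
  obtain ⟨c, rfl, hc⟩ := hp
  have h1 : ContinuousAt (fun z => s.h (s.pc c) ((s.e c).symm z)) (s.e c p) :=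
    (s.h_holo c).1.continuousOn.continuousAt ((s.e c).open_target.mem_nhds ((s.e c).map_source hc))
  have h2 : ContinuousAt (fun q => s.h (s.pc c) ((s.e c).symm (s.e c q))) p :=
    ContinuousAt.comp (g := fun z => s.h (s.pc c) ((s.e c).symm z)) h1 ((s.e c).continuousAt hc)
  refine h2.congr ?_
  filter_upwards [(s.e c).open_source.mem_nhds hc] with q hq
  rw [(s.e c).left_inv hq]

open Classical in
/-- `|ξ_k|^2` on the piece `j` -/
noncomputable def Setup.Fn (j : P) (k : F) (q : ℝ × M) : ℝ :=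
  if h : q.2 ∈ s.V j then
    lev (s.ψ h.choose) (s.ξ k h.choose (s.e h.choose q.2)) (q.1, s.e h.choose q.2) else 0

theorem Setup.Fn_eq {c : κ} {k : F} {t : ℝ} (ht : t ∈ Ico 0 T) {p : M}
    (hp : p ∈ (s.e c).source) :
    s.Fn (s.pc c) k (t, p) = lev (s.ψ c) (s.ξ k c (s.e c p)) (t, s.e c p) := by
  have h : p ∈ s.V (s.pc c) := ⟨c, rfl, hp⟩
  unfold Setup.Fn
  rw [dif_pos h]
  obtain ⟨h1, h2⟩ := h.choose_spec
  set c₀ := h.choose
  have hd := mem_dom h2 hp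
  rw [s.krf.compat c₀ c t ht _ hd, ← s.ξ_compat k c₀ c h1 _ hd, tr_apply h2]

theorem Setup.Fn_nonneg (j : P) (k : F) {t : ℝ} (ht : t ∈ Ico 0 T) (p : M) :
    0 ≤ s.Fn j k (t, p) := by
  by_cases h : p ∈ s.V j
  · obtain ⟨c, rfl, hc⟩ := h
    rw [s.Fn_eq ht hc]
    exact (s.isQ ht ((s.e c).map_source hc)).nonneg _
  · unfold Setup.Fn
    rw [dif_neg h]

theorem Setup.Fn_continuousOn (j : P) (k : F) : ContinuousOn (s.Fn j k) (Ico 0 T ×ˢ s.V j) := by
  rintro ⟨t, p⟩ ⟨ht, c, rfl, hc⟩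
  obtain ⟨U, hU, hsub, hψ⟩ := s.krf.smooth c
  have hz := (s.e c).map_source hc
  have h0 : ContinuousAt (fun q => lev (s.ψ c) (s.ξ k c q.2) q) (t, s.e c p) :=
    ((contDiffOn_lev_field hU hψ (s.ξ_holo k c).1).continuousOn).continuousAt
      ((hU.inter (isOpen_univ.prod (s.e c).open_target)).mem_nhds
        ⟨hsub ⟨ht, hz⟩, mem_univ _, hz⟩)
  have h2 : ContinuousAt (fun q : ℝ × M => (q.1, s.e c q.2)) (t, p) :=
    continuousAt_fst.prodMk (((s.e c).continuousAt hc).comp continuousAt_snd)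
  have h1 : ContinuousAt (fun q : ℝ × M => lev (s.ψ c) (s.ξ k c (s.e c q.2)) (q.1, s.e c q.2))
      (t, p) :=
    ContinuousAt.comp (f := fun q : ℝ × M => (q.1, s.e c q.2))
      (g := fun q => lev (s.ψ c) (s.ξ k c q.2) q) h0 h2
  refine h1.continuousWithinAt.congr_of_eventuallyEq ?_ (s.Fn_eq ht hc)
  have hev : ∀ᶠ q : ℝ × M in 𝓝[Ico 0 T ×ˢ s.V (s.pc c)] (t, p), q.2 ∈ (s.e c).source :=
    (continuousAt_snd.eventually_mem ((s.e c).open_source.mem_nhds hc)).filter_mono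
      nhdsWithin_le_nhds
  filter_upwards [hev, self_mem_nhdsWithin] with q hq hq'
  exact s.Fn_eq hq'.1 hq

/-- local domination -/
theorem Setup.dom_local {j i : P} (hij : j ≠ i) {p₀ : M} (hj : p₀ ∈ s.V j) (hi : p₀ ∈ s.V i) :
    ∃ C : ℝ, 0 ≤ C ∧ ∀ᶠ p in 𝓝 p₀, ∀ t ∈ Ico 0 T, ∀ k,
      s.Fn j k (t, p) ≤ C * ∑ k', s.Fn i k' (t, p) := by
  obtain ⟨c, rfl, hc⟩ := hj
  obtain ⟨c', rfl, hc'⟩ := hi
  have hZ : p₀ ∉ s.Z := fun h => hij (s.iso c c' p₀ h hc hc')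
  have hz' := (s.e c').map_source hc'
  obtain ⟨C₁, hC₁, hev⟩ := s.local_gen hz' (by rwa [(s.e c').left_inv hc'])
  -- the fields of the piece `pc c` in the chart `c'`
  set u : F → M → Cn n := fun k p => fderiv ℝ (tr s.e c c') (s.e c p) (s.ξ k c (s.e c p)) with hu
  have hd := mem_dom hc hc'
  have hucont : ∀ k, ContinuousAt (u k) p₀ := by
    intro k
    have h1 : ContDiffOn ℝ ∞ (fderiv ℝ (tr s.e c c')) (dom s.e c c') :=
      ((contDiffOn_infty_iff_fderiv_of_isOpen (isOpen_dom c c')).1 (s.atlas.holo c c').1).2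
    have h2 : ContinuousAt (fderiv ℝ (tr s.e c c')) (s.e c p₀) :=
      h1.continuousOn.continuousAt ((isOpen_dom c c').mem_nhds hd)
    have h3 : ContinuousAt (s.ξ k c) (s.e c p₀) :=
      (s.ξ_holo k c).1.continuousOn.continuousAt ((s.e c).open_target.mem_nhds hd.1)
    have h4 : ContinuousAt (fun z => fderiv ℝ (tr s.e c c') z (s.ξ k c z)) (s.e c p₀) :=
      h2.clm_apply h3
    exact ContinuousAt.comp (g := fun z => fderiv ℝ (tr s.e c c') z (s.ξ k c z)) h4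
      ((s.e c).continuousAt hc)
  set C₂ : ℝ := (∑ k, ‖u k p₀‖) + 1 with hC₂
  have hub : ∀ᶠ p in 𝓝 p₀, ∀ k, ‖u k p‖ ≤ C₂ := by
    rw [eventually_all]
    intro k
    have h1 := (hucont k).norm.eventually_lt (continuousAt_const (y := ‖u k p₀‖ + 1)) (by linarith)
    filter_upwards [h1] with p hp
    have h2 : ‖u k p₀‖ ≤ ∑ k, ‖u k p₀‖ :=
      Finset.single_le_sum (f := fun k => ‖u k p₀‖) (fun _ _ => norm_nonneg _) (Finset.mem_univ k)
    linarith
  refine ⟨C₁ * C₂ ^ 2, by positivity, ?_⟩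
  filter_upwards [hub, ((s.e c').continuousAt hc').eventually hev,
    (s.e c).open_source.mem_nhds hc, (s.e c').open_source.mem_nhds hc'] with p h1 h2 h3 h4 t ht k
  have hzp' := (s.e c').map_source h4
  have h5 := h2 _ (s.isQ ht hzp') (u k p)
  have h6 : ∀ k', s.Fn (s.pc c') k' (t, p) = lev (s.ψ c') (s.ξ k' c' (s.e c' p)) (t, s.e c' p) :=
    fun k' => s.Fn_eq ht h4
  have h7 : s.Fn (s.pc c) k (t, p) = lev (s.ψ c') (u k p) (t, s.e c' p) := by
    rw [s.Fn_eq ht h3, s.krf.compat c c' t ht _ (mem_dom h3 h4), tr_apply h3]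
  rw [h7]
  simp_rw [h6]
  refine h5.trans ?_
  have h8 : 0 ≤ ∑ k', lev (s.ψ c') (s.ξ k' c' (s.e c' p)) (t, s.e c' p) :=
    Finset.sum_nonneg fun k' _ => (s.isQ ht hzp').nonneg _
  refine mul_le_mul_of_nonneg_right ?_ h8
  exact mul_le_mul_of_nonneg_left (pow_le_pow_left₀ (norm_nonneg _) (h1 k) 2) hC₁.le

theorem Setup.domination [T2Space M] [Finite P] : ∃ C : ℝ, 1 ≤ C ∧ ∀ j i : P, j ≠ i → ∀ p,
    p ∈ s.V j → nsq (s.h j p) ≤ 3 / 4 → p ∈ s.V i → nsq (s.h i p) ≤ 1 / 2 →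
    ∀ t ∈ Ico 0 T, ∀ k, s.Fn j k (t, p) ≤ C * ∑ k', s.Fn i k' (t, p) := by
  have key : ∀ x : P × P, ∃ C : ℝ, 0 ≤ C ∧ (x.1 ≠ x.2 → ∀ p,
    p ∈ s.V x.1 → nsq (s.h x.1 p) ≤ 3 / 4 → p ∈ s.V x.2 → nsq (s.h x.2 p) ≤ 1 / 2 →
    ∀ t ∈ Ico 0 T, ∀ k, s.Fn x.1 k (t, p) ≤ C * ∑ k', s.Fn x.2 k' (t, p)) := by
    rintro ⟨j, i⟩
    by_cases hij : j = i
    · exact ⟨0, le_rfl, fun h => absurd hij h⟩
    have hK : IsCompact ({p | (∃ c, s.pc c = j ∧ p ∈ (s.e c).source) ∧ nsq (s.h j p) ≤ 3 / 4} ∩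
        {p | (∃ c, s.pc c = i ∧ p ∈ (s.e c).source) ∧ nsq (s.h i p) ≤ 1 / 2}) :=
      (s.proper j (3 / 4) (by norm_num)).inter (s.proper i (1 / 2) (by norm_num))
    have hmono : ∀ C C' : ℝ, C ≤ C' → ∀ t ∈ Ico 0 T, ∀ p, C * ∑ k', s.Fn i k' (t, p) ≤
        C' * ∑ k', s.Fn i k' (t, p) := fun C C' hCC t ht p =>
      mul_le_mul_of_nonneg_right hCC (Finset.sum_nonneg fun k' _ => s.Fn_nonneg i k' ht p)
    obtain ⟨C, hC, h⟩ := hK.induction_on
      (p := fun S => ∃ C : ℝ, 0 ≤ C ∧ ∀ p ∈ S, ∀ t ∈ Ico 0 T, ∀ k,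
        s.Fn j k (t, p) ≤ C * ∑ k', s.Fn i k' (t, p))
      ⟨0, le_rfl, fun p hp => absurd hp (notMem_empty p)⟩
      (fun S S' hSS ⟨C, hC, h⟩ => ⟨C, hC, fun p hp => h p (hSS hp)⟩)
      (fun S S' ⟨C, hC, h⟩ ⟨C', hC', h'⟩ => ⟨max C C', le_max_of_le_left hC, fun p hp t ht k => by
        rcases hp with hp | hp
        · exact (h p hp t ht k).trans (hmono _ _ (le_max_left _ _) t ht p)
        · exact (h' p hp t ht k).trans (hmono _ _ (le_max_right _ _) t ht p)⟩)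
      (fun p₀ hp₀ => by
        obtain ⟨C, hC, h⟩ := s.dom_local hij hp₀.1.1 hp₀.2.1
        exact ⟨_, mem_nhdsWithin_of_mem_nhds h, C, hC, fun p hp => hp⟩)
    exact ⟨C, hC, fun _ p h1 h2 h3 h4 => h p ⟨⟨h1, h2⟩, ⟨h3, h4⟩⟩⟩
  choose C hC h using key
  obtain ⟨B, hB⟩ := (Set.finite_range C).bddAbove
  refine ⟨max B 1, le_max_right _ _, fun j i hij p h1 h2 h3 h4 t ht k => ?_⟩
  refine (h (j, i) hij p h1 h2 h3 h4 t ht k).trans ?_
  refine mul_le_mul_of_nonneg_right ?_ (Finset.sum_nonneg fun k' _ => s.Fn_nonneg i k' ht p)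
  exact (hB (mem_range_self (j, i))).trans (le_max_left _ _)

theorem Setup.exists_A [Finite P] {c₁ : ℝ} (hc : 0 < c₁) : ∃ A : ℝ, 0 ≤ A ∧ ∀ j : P, ∀ y : Cn N,
    nsq y < 3 / 4 → c₁ ≤ cut (nsq y) → ∀ v, -2 * levz Lcut v y ≤ A * levz (s.K j) v y := by
  have hopen : IsOpen {y : Cn N | nsq y < 3 / 4} := isOpen_lt _
  have hKs : ∀ j, ContDiffOn ℝ ∞ (s.K j) {y | nsq y < 3 / 4} := fun j =>
    (s.K_smooth j).mono fun y hy =>
      lt_trans (show nsq y < 3 / 4 from hy) (by norm_num : (3 / 4 : ℝ) < 1)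
  have hKpos : ∀ j, ∀ y : Cn N, nsq y < 3 / 4 → ∀ v, 0 ≤ levz (s.K j) v y := by
    intro j y hy v
    rcases eq_or_ne v 0 with hv | hv
    · have h0 := Bd.levz_smul hopen (hKs j) hy 0 v
      rw [hv] at h0 ⊢
      simpa using h0.ge
    · exact (s.K_psh j y (lt_trans hy (by norm_num)) v hv).le
  have key : ∀ j : P, ∃ A : ℝ, 0 ≤ A ∧ ∀ y : Cn N,
      nsq y < 3 / 4 → c₁ ≤ cut (nsq y) → ∀ v, -2 * levz Lcut v y ≤ A * levz (s.K j) v y := by
    intro j
    have hcomp : IsCompact {y : Cn N | nsq y ≤ 3 / 4 ∧ c₁ ≤ cut (nsq y)} := by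
      refine Metric.isCompact_of_isClosed_isBounded ?_ ?_
      · exact (isClosed_le contDiff_nsq.continuous continuous_const).inter
          (isClosed_le continuous_const (cut_contDiff.continuous.comp contDiff_nsq.continuous))
      · refine (Metric.isBounded_closedBall (x := (0 : Cn N)) (r := 1)).subset fun y hy => ?_
        rw [mem_closedBall_zero_iff]
        exact norm_le_of_nsq (hy.1.trans (by norm_num))
    obtain ⟨A, hA, h⟩ := hcomp.induction_on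
      (p := fun S => ∃ A : ℝ, 0 ≤ A ∧ ∀ y ∈ S, nsq y < 3 / 4 → ∀ v,
        -2 * levz Lcut v y ≤ A * levz (s.K j) v y)
      ⟨0, le_rfl, fun p hp => absurd hp (notMem_empty p)⟩
      (fun S S' hSS ⟨C, hC, h⟩ => ⟨C, hC, fun p hp => h p (hSS hp)⟩)
      (fun S S' ⟨C, hC, h⟩ ⟨C', hC', h'⟩ => ⟨max C C', le_max_of_le_left hC, fun p hp hp' v => by
        rcases hp with hp | hp
        · exact (h p hp hp' v).trans (mul_le_mul_of_nonneg_right (le_max_left _ _) (hKpos j p hp' v))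
        · exact (h' p hp hp' v).trans
            (mul_le_mul_of_nonneg_right (le_max_right _ _) (hKpos j p hp' v))⟩)
      (fun y hy => by
        have hy' : nsq y < 3 / 4 := by
          by_contra hcon
          have := cut_zero (not_lt.1 hcon)
          linarith [hy.2]
        obtain ⟨C, hC, h⟩ := Bd.levz_le_local (f := fun y => (-2) * Lcut y) (g := s.K j) hopen
          (contDiffOn_const.mul Lcut_smooth) (hKs j) hy'
          (fun x hx u hu => s.K_psh j x (lt_trans hx (by norm_num)) u hu)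
        refine ⟨_, mem_nhdsWithin_of_mem_nhds h, C, hC, fun x hx hx' v => ?_⟩
        have h2 := hx v
        rwa [Bd.levz_const_mul (-2) ((Lcut_smooth.contDiffAt (hopen.mem_nhds hx')).of_le
          two_le_infty)] at h2)
    refine ⟨A, hA, fun y h1 h2 v => h y ⟨h1.le, h2⟩ h1 v⟩
  choose A hA h using key
  obtain ⟨B, hB⟩ := (Set.finite_range A).bddAbove
  refine ⟨max B 0, le_max_right _ _, fun j y h1 h2 v => ?_⟩
  refine (h j y h1 h2 v).trans (mul_le_mul_of_nonneg_right ?_ (hKpos j y h1 v))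
  exact (hB (mem_range_self j)).trans (le_max_left _ _)

/-- the function of the maximum principle, in the chart `c` -/
noncomputable def Setup.ff (A ε : ℝ) (c : κ) (k : F) : ℝ × Cn n → ℝ := fun q =>
  2 * Lcut (s.h (s.pc c) ((s.e c).symm q.2)) + Real.log (lev (s.ψ c) (s.ξ k c q.2) q) -
    A * s.Uc c q - ε * q.1

theorem Setup.crit {c : κ} {t : ℝ} (ht : t ∈ Ioo 0 T) {z : Cn n} (hz : z ∈ (s.e c).target) {k : F}
    {A ε : ℝ} (hε : 0 < ε) (hy : nsq (s.h (s.pc c) ((s.e c).symm z)) < 3 / 4)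
    (hA : ∀ v, -2 * levz Lcut v (s.h (s.pc c) ((s.e c).symm z)) ≤
      A * levz (s.K (s.pc c)) v (s.h (s.pc c) ((s.e c).symm z)))
    (hξ : s.ξ k c z ≠ 0)
    (hx : ∀ᶠ x in 𝓝 z, s.ff A ε c k (t, x) ≤ s.ff A ε c k (t, z))
    (hr : ∀ᶠ r in 𝓝[<] t, s.ff A ε c k (r, z) ≤ s.ff A ε c k (t, z)) : False := by
  have ht' : t ∈ Ico 0 T := ⟨ht.1.le, ht.2⟩
  obtain ⟨U, hU, hsub, hψ⟩ := s.krf.smooth c
  set U₁ : Set (ℝ × Cn n) := U ∩ (Ioo 0 T ×ˢ (s.e c).target) with hU₁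
  have hU₁o : IsOpen U₁ := hU.inter (isOpen_Ioo.prod (s.e c).open_target)
  have hψ₁ : ContDiffOn ℝ ∞ (s.ψ c) U₁ := hψ.mono inter_subset_left
  have hpU : (t, z) ∈ U₁ := ⟨hsub ⟨ht', hz⟩, ht, hz⟩
  have hpos₁ : ∀ p ∈ U₁, (cHess (s.ψ c) p).PosDef := fun p hp =>
    s.krf.pos c p.1 ⟨hp.2.1.1.le, hp.2.1.2⟩ p.2 hp.2.2
  have hflow₁ : ∀ p ∈ U₁, G.dt (s.ψ c) p = Real.log (cHess (s.ψ c) p).det.re := fun p hp =>
    s.krf.flow c p.1 hp.2.1 p.2 hp.2.2
  obtain ⟨W, hW, hev⟩ := evol_field hU₁o hψ₁ hpos₁ hflow₁ hpU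
  have h1 := hev (s.ξ k c) (s.e c).target (s.e c).open_target hz (s.ξ_holo k c) hξ
  have h2 := s.Uc_evol ht hz hW
  -- smoothness of the parts
  set H : Cn n → Cn N := fun z => s.h (s.pc c) ((s.e c).symm z) with hH
  have hHh : HolOn H (s.e c).target := s.h_holo c
  have hSo : IsOpen ((s.e c).target ∩ H ⁻¹' {y | nsq y < 3 / 4}) :=
    hHh.1.continuousOn.isOpen_inter_preimage (s.e c).open_target (isOpen_lt _)
  have hzS : z ∈ (s.e c).target ∩ H ⁻¹' {y | nsq y < 3 / 4} := ⟨hz, hy⟩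
  have hLs : ContDiffOn ℝ ∞ (fun x => Lcut (H x)) ((s.e c).target ∩ H ⁻¹' {y | nsq y < 3 / 4}) :=
    Lcut_smooth.comp (hHh.1.mono inter_subset_left) fun x hx => hx.2
  have hHS : HolOn H ((s.e c).target ∩ H ⁻¹' {y | nsq y < 3 / 4}) :=
    ⟨hHh.1.mono inter_subset_left, fun x hx => hHh.2 x hx.1⟩
  have ha : ContDiffAt ℝ ∞ (fun q : ℝ × Cn n => Lcut (H q.2)) (t, z) :=
    ContDiffAt.comp (t, z) (g := fun x => Lcut (H x)) (hLs.contDiffAt (hSo.mem_nhds hzS))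
      contDiffAt_snd
  have hF0 : 0 < lev (s.ψ c) (s.ξ k c z) (t, z) := s.lev_pos ht' hz hξ
  have hb : ContDiffAt ℝ ∞ (fun q : ℝ × Cn n => Real.log (lev (s.ψ c) (s.ξ k c q.2) q)) (t, z) := by
    refine ContDiffAt.log ?_ hF0.ne'
    exact (contDiffOn_lev_field hU hψ (s.ξ_holo k c).1).contDiffAt
      ((hU.inter (isOpen_univ.prod (s.e c).open_target)).mem_nhds
        ⟨hsub ⟨ht', hz⟩, mem_univ _, hz⟩)
  have hu : ContDiffAt ℝ ∞ (s.Uc c) (t, z) := s.Uc_isFun.contDiffAt ht' hz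
  have hτ : ContDiffAt ℝ ∞ (fun q : ℝ × Cn n => q.1) (t, z) := contDiffAt_fst
  have hff : ContDiffAt ℝ ∞ (s.ff A ε c k) (t, z) :=
    (((contDiffAt_const.mul ha).add hb).sub (contDiffAt_const.mul hu)).sub
      (contDiffAt_const.mul hτ)
  have hdt := dt_nonneg_of_max hff hr
  have hlev : ∀ v, lev (s.ff A ε c k) v (t, z) ≤ 0 := lev_nonpos_of_max hff hx
  have two := two_le_infty
  -- the time derivative
  have d1 : G.dt (s.ff A ε c k) (t, z) =
      G.dt (fun q : ℝ × Cn n => Real.log (lev (s.ψ c) (s.ξ k c q.2) q)) (t, z) -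
        A * G.dt (s.Uc c) (t, z) - ε := by
    have e1 : DifferentiableAt ℝ (fun q : ℝ × Cn n => Lcut (H q.2)) (t, z) :=
      (ha.of_le two).differentiableAt (by norm_num)
    have e2 := (hb.of_le two).differentiableAt (by norm_num)
    have e3 := (hu.of_le two).differentiableAt (by norm_num)
    have e4 := dt_snd (t := t) (g := fun x => Lcut (H x))
      (((hLs.contDiffAt (hSo.mem_nhds hzS)).of_le two).differentiableAt (by norm_num))
    unfold G.dt at e4 ⊢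
    have f1 : DifferentiableAt ℝ (fun q : ℝ × Cn n => 2 * Lcut (H q.2)) (t, z) := e1.const_mul 2
    have f2 : DifferentiableAt ℝ (fun q : ℝ × Cn n => 2 * Lcut (H q.2) +
      Real.log (lev (s.ψ c) (s.ξ k c q.2) q)) (t, z) := f1.add e2
    have f3 : DifferentiableAt ℝ (fun q : ℝ × Cn n => A * s.Uc c q) (t, z) := e3.const_mul A
    have f4 : DifferentiableAt ℝ (fun q : ℝ × Cn n => 2 * Lcut (H q.2) +
      Real.log (lev (s.ψ c) (s.ξ k c q.2) q) - A * s.Uc c q) (t, z) := f2.sub f3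
    have e5 := dt_sub_time f4 ε
    unfold G.dt at e5
    change D (1, 0) (fun q => (2 * Lcut (H q.2) + Real.log (lev (s.ψ c) (s.ξ k c q.2) q) -
      A * s.Uc c q) - ε * q.1) (t, z) = _
    rw [e5, D_sub f2 f3, D_add f1 e2, D_const_mul _ e1, D_const_mul _ e3, e4]
    ring
  -- the Levi form
  have d2 : ∀ v, lev (s.ff A ε c k) v (t, z) = 2 * levz (fun x => Lcut (H x)) v z +
      lev (fun q : ℝ × Cn n => Real.log (lev (s.ψ c) (s.ξ k c q.2) q)) v (t, z) -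
        A * lev (s.Uc c) v (t, z) := by
    intro v
    have e1 : ContDiffAt ℝ 2 (fun q : ℝ × Cn n => Lcut (H q.2)) (t, z) := ha.of_le two
    have e2 := hb.of_le two
    have e3 := hu.of_le two
    have e4 : ContDiffAt ℝ 2 (fun q : ℝ × Cn n => q.1) (t, z) := contDiffAt_fst
    change lev (fun q => ((2 * Lcut (H q.2) + Real.log (lev (s.ψ c) (s.ξ k c q.2) q)) -
      A * s.Uc c q) - ε * q.1) v (t, z) = _
    rw [lev_sub' (((contDiffAt_const.mul e1).add e2).sub (contDiffAt_const.mul e3))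
      (contDiffAt_const.mul e4), lev_const_mul' _ e4, lev_time, lev_sub'
      ((contDiffAt_const.mul e1).add e2) (contDiffAt_const.mul e3), lev_const_mul' _ e3,
      lev_add' (contDiffAt_const.mul e1) e2, lev_const_mul' _ e1, lev_snd hSo hLs hzS]
    ring
  -- the cut-off
  have d3 : ∀ v, levz (fun x => Lcut (H x)) v z = levz Lcut (fderiv ℝ H z v) (H z) := fun v =>
    levz_comp (isOpen_lt _) Lcut_smooth hSo hHS hzS hy v
  have d4 : ∀ v, levz (fun x => s.K (s.pc c) (H x)) v z =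
      levz (s.K (s.pc c)) (fderiv ℝ H z v) (H z) := fun v =>
    levz_comp (isOpen_lt _) (s.K_smooth (s.pc c)) (s.e c).open_target hHh hz
      (lt_trans hy (by norm_num)) v
  have d5 : ∀ v, -2 * levz (fun x => Lcut (H x)) v z ≤
      A * levz (fun x => s.K (s.pc c) (H x)) v z := by
    intro v
    rw [d3, d4]
    exact hA _
  have h3 : ∑ c', lev (fun q : ℝ × Cn n => Real.log (lev (s.ψ c) (s.ξ k c q.2) q)) (W c') (t, z) ≤
      ∑ c', (A * levz (fun x => s.K (s.pc c) (H x)) (W c') z + A * lev (s.Uc c) (W c') (t, z)) := by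
    refine Finset.sum_le_sum fun c' _ => ?_
    have g1 := hlev (W c')
    rw [d2] at g1
    have g2 := d5 (W c')
    linarith
  rw [Finset.sum_add_distrib, ← Finset.mul_sum, ← Finset.mul_sum] at h3
  rw [d1, h2] at hdt
  have h4 : (∑ k, levz (fun z => s.K (s.pc c) (s.h (s.pc c) ((s.e c).symm z))) (W k) z) =
    ∑ c', levz (fun x => s.K (s.pc c) (H x)) (W c') z := rfl
  rw [h4] at hdt
  nlinarith

/-- the function of the maximum principle -/
noncomputable def Setup.Sf (A : ℝ) (j : P) (k : F) (q : ℝ × M) : ℝ :=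
  cut (nsq (s.h j q.2)) ^ 2 * s.Fn j k q * Real.exp (-A * glob s.atlas s.Uc q - q.1)

theorem Setup.Sf_continuousOn (A : ℝ) (j : P) (k : F) :
    ContinuousOn (s.Sf A j k) (Ico 0 T ×ˢ s.V j) := by
  have h1 : ContinuousOn (fun q : ℝ × M => cut (nsq (s.h j q.2))) (Ico 0 T ×ˢ s.V j) := by
    rintro ⟨t, p⟩ ⟨-, hp⟩
    have h2 : ContinuousAt (fun q : ℝ × M => s.h j q.2) (t, p) :=
      (s.h_continuousAt hp).comp continuousAt_snd
    exact (ContinuousAt.comp (g := fun y => cut (nsq y))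
      (cut_contDiff.continuous.comp contDiff_nsq.continuous).continuousAt h2).continuousWithinAt
  have h3 : ContinuousOn (glob s.atlas s.Uc) (Ico 0 T ×ˢ s.V j) :=
    (glob_continuousOn s.atlas s.Uc_isFun).mono (prod_mono Subset.rfl (subset_univ _))
  refine ((h1.pow 2).mul (s.Fn_continuousOn j k)).mul ?_
  exact Real.continuous_exp.comp_continuousOn ((continuousOn_const.mul h3).sub continuousOn_fst)

theorem Setup.log_Sf (A : ℝ) {c : κ} {k : F} {t : ℝ} (ht : t ∈ Ico 0 T) {x : Cn n}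
    (hx : x ∈ (s.e c).target) (hy : nsq (s.h (s.pc c) ((s.e c).symm x)) < 3 / 4)
    (hξ : s.ξ k c x ≠ 0) : 0 < s.Sf A (s.pc c) k (t, (s.e c).symm x) ∧
      Real.log (s.Sf A (s.pc c) k (t, (s.e c).symm x)) = s.ff A 1 c k (t, x) := by
  have h1 := cut_pos hy
  have h2 := s.lev_pos ht hx hξ
  have hsrc := (s.e c).map_target hx
  have h3 : s.Sf A (s.pc c) k (t, (s.e c).symm x) =
      cut (nsq (s.h (s.pc c) ((s.e c).symm x))) ^ 2 * lev (s.ψ c) (s.ξ k c x) (t, x) *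
        Real.exp (-A * s.Uc c (t, x) - t) := by
    unfold Setup.Sf
    rw [s.Fn_eq ht hsrc, glob_eq s.atlas s.Uc_isFun ht hsrc, (s.e c).right_inv hx]
  rw [h3]
  refine ⟨by positivity, ?_⟩
  rw [Real.log_mul (by positivity) (Real.exp_pos _).ne', Real.log_mul (by positivity) h2.ne',
    Real.log_exp, Real.log_pow]
  unfold Setup.ff Lcut
  push_cast
  ring

theorem Setup.Sf_le [CompactSpace M] [T2Space M] [Finite P] (hT : 0 < T) {A C : ℝ}
    (hC : 1 ≤ C) (hdom : ∀ j i : P, j ≠ i → ∀ p,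
      p ∈ s.V j → nsq (s.h j p) ≤ 3 / 4 → p ∈ s.V i → nsq (s.h i p) ≤ 1 / 2 →
      ∀ t ∈ Ico 0 T, ∀ k, s.Fn j k (t, p) ≤ C * ∑ k', s.Fn i k' (t, p))
    (hA : ∀ j : P, ∀ y : Cn N, nsq y < 3 / 4 → 1 / (C * (Fintype.card F + 1)) ≤ cut (nsq y) →
      ∀ v, -2 * levz Lcut v y ≤ A * levz (s.K j) v y) :
    ∃ K : ℝ, 0 ≤ K ∧ ∀ j k, ∀ t ∈ Ico 0 T, ∀ p ∈ s.V j, nsq (s.h j p) ≤ 3 / 4 →
      s.Sf A j k (t, p) ≤ K := by
  have hKc : ∀ j : P, IsCompact {p | p ∈ s.V j ∧ nsq (s.h j p) ≤ 3 / 4} := fun j =>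
    s.proper j (3 / 4) (by norm_num)
  -- the bound at the initial time
  obtain ⟨K, hK0, hK⟩ : ∃ K : ℝ, 0 ≤ K ∧ ∀ j k, ∀ p ∈ s.V j, nsq (s.h j p) ≤ 3 / 4 →
      s.Sf A j k (0, p) ≤ K := by
    have h1 : ∀ x : P × F, ∃ K : ℝ, ∀ p ∈ s.V x.1, nsq (s.h x.1 p) ≤ 3 / 4 →
        s.Sf A x.1 x.2 (0, p) ≤ K := by
      rintro ⟨j, k⟩
      have h2 : ContinuousOn (fun p => s.Sf A j k (0, p)) {p | p ∈ s.V j ∧ nsq (s.h j p) ≤ 3 / 4} :=
        (s.Sf_continuousOn A j k).comp (by fun_prop) fun p hp => ⟨⟨le_rfl, hT⟩, hp.1⟩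
      obtain ⟨K, hK⟩ := ((hKc j).image_of_continuousOn h2).bddAbove
      exact ⟨K, fun p hp hp' => hK (mem_image_of_mem _ ⟨hp, hp'⟩)⟩
    choose K hK using h1
    obtain ⟨B, hB⟩ := (Set.finite_range K).bddAbove
    exact ⟨max B 0, le_max_right _ _, fun j k p hp hp' =>
      (hK (j, k) p hp hp').trans ((hB (mem_range_self (j, k))).trans (le_max_left _ _))⟩
  refine ⟨K, hK0, fun j₁ k₁ t₁ ht₁ p₁ hp₁ hp₁' => ?_⟩
  by_contra hcon
  push Not at hcon
  -- the maximum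
  set S : Set ℝ := ⋃ x : P × F, (s.Sf A x.1 x.2) ''
    (Icc 0 t₁ ×ˢ {p | p ∈ s.V x.1 ∧ nsq (s.h x.1 p) ≤ 3 / 4}) with hS
  have hIco : ∀ t ∈ Icc 0 t₁, t ∈ Ico 0 T := fun t ht => ⟨ht.1, lt_of_le_of_lt ht.2 ht₁.2⟩
  have hScomp : IsCompact S := by
    refine isCompact_iUnion fun x => ?_
    refine (isCompact_Icc.prod (hKc x.1)).image_of_continuousOn ?_
    exact (s.Sf_continuousOn A x.1 x.2).mono (prod_mono (fun t ht => hIco t ht) fun p hp => hp.1)
  have hmem : ∀ j k, ∀ t ∈ Icc 0 t₁, ∀ p ∈ s.V j, nsq (s.h j p) ≤ 3 / 4 →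
      s.Sf A j k (t, p) ∈ S := fun j k t ht p hp hp' =>
    mem_iUnion.2 ⟨(j, k), mem_image_of_mem _ ⟨ht, hp, hp'⟩⟩
  have h1mem := hmem j₁ k₁ t₁ ⟨ht₁.1, le_rfl⟩ p₁ hp₁ hp₁'
  obtain ⟨y, hyS, hymax⟩ := hScomp.exists_isGreatest ⟨_, h1mem⟩
  obtain ⟨⟨j, k⟩, ⟨t, p⟩, ⟨htI, hpV, hp34⟩, hyeq⟩ := mem_iUnion.1 hyS
  simp only at hpV hp34 hyeq htI
  have hmax : ∀ j' k', ∀ t' ∈ Icc 0 t₁, ∀ p' ∈ s.V j', nsq (s.h j' p') ≤ 3 / 4 →
      s.Sf A j' k' (t', p') ≤ s.Sf A j k (t, p) := by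
    intro j' k' t' ht' p' hp' hp''
    rw [hyeq]
    exact hymax (hmem j' k' t' ht' p' hp' hp'')
  have hbig : K < s.Sf A j k (t, p) := hcon.trans_le (hmax j₁ k₁ t₁ ⟨ht₁.1, le_rfl⟩ p₁ hp₁ hp₁')
  have htT := hIco t htI
  have htpos : 0 < t := by
    rcases htI.1.eq_or_lt with h | h
    · exfalso
      rw [← h] at hbig
      exact absurd (hK j k p hpV hp34) (not_le.2 hbig)
    · exact h
  have hSpos : 0 < s.Sf A j k (t, p) := lt_of_le_of_lt hK0 hbig
  have hEpos : 0 < Real.exp (-A * glob s.atlas s.Uc (t, p) - t) := Real.exp_pos _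
  have hXF : 0 < cut (nsq (s.h j p)) ^ 2 * s.Fn j k (t, p) := by
    have : 0 < cut (nsq (s.h j p)) ^ 2 * s.Fn j k (t, p) *
      Real.exp (-A * glob s.atlas s.Uc (t, p) - t) := hSpos
    exact (pos_iff_pos_of_mul_pos this).2 hEpos
  have hFpos : 0 < s.Fn j k (t, p) := by
    rcases (s.Fn_nonneg j k htT p).eq_or_lt with h | h
    · rw [← h, mul_zero] at hXF
      exact absurd hXF (lt_irrefl 0)
    · exact h
  have hp34' : nsq (s.h j p) < 3 / 4 := by
    by_contra h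
    rw [cut_zero (not_lt.1 h)] at hXF
    simp at hXF
  obtain ⟨c, hcj, hc⟩ := hpV
  subst hcj
  -- the cut-off is not small
  have hX : 1 / (C * (Fintype.card F + 1)) ≤ cut (nsq (s.h (s.pc c) p)) := by
    have hCF : (1 : ℝ) ≤ C * (Fintype.card F + 1) := by
      nlinarith [show (0 : ℝ) ≤ (Fintype.card F : ℝ) from Nat.cast_nonneg _]
    obtain ⟨c'', hc'', hlt⟩ := s.core p
    by_cases hpc : s.pc c = s.pc c''
    · rw [hpc, cut_one hlt.le, div_le_one (by linarith)]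
      exact hCF
    · have g1 := hdom (s.pc c) (s.pc c'') hpc p ⟨c, rfl, hc⟩ hp34 ⟨c'', rfl, hc''⟩ hlt.le t htT k
      have g2 : ∀ k', s.Fn (s.pc c'') k' (t, p) ≤
          cut (nsq (s.h (s.pc c) p)) ^ 2 * s.Fn (s.pc c) k (t, p) := by
        intro k'
        have g3 := hmax (s.pc c'') k' t htI p ⟨c'', rfl, hc''⟩ (hlt.le.trans (by norm_num))
        unfold Setup.Sf at g3
        rw [cut_one (show nsq (s.h (s.pc c'') (t, p).2) ≤ 1 / 2 from hlt.le)] at g3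
        have g4 := le_of_mul_le_mul_right g3 hEpos
        simpa using g4
      have g5 : ∑ k', s.Fn (s.pc c'') k' (t, p) ≤
          Fintype.card F * (cut (nsq (s.h (s.pc c) p)) ^ 2 * s.Fn (s.pc c) k (t, p)) := by
        refine (Finset.sum_le_sum fun k' _ => g2 k').trans ?_
        rw [Finset.sum_const, Finset.card_univ, nsmul_eq_mul]
      have hX0 := cut_nonneg (nsq (s.h (s.pc c) p))
      have hX1 := cut_le_one (nsq (s.h (s.pc c) p))
      set X := cut (nsq (s.h (s.pc c) p)) with hXdef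
      set Φ := s.Fn (s.pc c) k (t, p) with hΦ
      have g6 : Φ ≤ (C * Fintype.card F * X ^ 2) * Φ := by
        calc Φ ≤ C * ∑ k', s.Fn (s.pc c'') k' (t, p) := g1
          _ ≤ C * (Fintype.card F * (X ^ 2 * Φ)) := mul_le_mul_of_nonneg_left g5 (by linarith)
          _ = _ := by ring
      have g7 : 1 ≤ C * Fintype.card F * X ^ 2 := by
        by_contra hlt'
        push Not at hlt'
        nlinarith
      rw [div_le_iff₀ (by linarith)]
      have g8 : X ^ 2 ≤ X := by nlinarith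
      have g9 : (0 : ℝ) ≤ Fintype.card F := Nat.cast_nonneg _
      nlinarith [mul_le_mul_of_nonneg_left g8 (mul_nonneg (by linarith : (0:ℝ) ≤ C) g9)]
  -- the contradiction in the chart `c`
  set z : Cn n := s.e c p with hz
  have hzt : z ∈ (s.e c).target := (s.e c).map_source hc
  have hzp : (s.e c).symm z = p := (s.e c).left_inv hc
  have hξ : s.ξ k c z ≠ 0 := by
    intro h0
    rw [s.Fn_eq htT hc, ← hz, h0, lev_zero] at hFpos
    exact lt_irrefl _ hFpos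
  have hHc : ContinuousAt (fun x => s.h (s.pc c) ((s.e c).symm x)) z :=
    (s.h_holo c).1.continuousOn.continuousAt ((s.e c).open_target.mem_nhds hzt)
  have hS0 := s.log_Sf A htT hzt (by rw [hzp]; exact hp34') hξ
  rw [hzp] at hS0
  refine s.crit (A := A) (ε := 1) (k := k) ⟨htpos, htT.2⟩ hzt one_pos (by rw [hzp]; exact hp34')
    ?_ hξ ?_ ?_
  · rw [hzp]
    exact hA _ _ hp34' hX
  · have e1 : ∀ᶠ x in 𝓝 z, nsq (s.h (s.pc c) ((s.e c).symm x)) < 3 / 4 := by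
      have : ContinuousAt (fun x => nsq (s.h (s.pc c) ((s.e c).symm x))) z :=
        ContinuousAt.comp (g := nsq) contDiff_nsq.continuous.continuousAt hHc
      exact this.eventually_lt continuousAt_const (by rw [hzp]; exact hp34')
    have e2 : ∀ᶠ x in 𝓝 z, s.ξ k c x ≠ 0 :=
      ((s.ξ_holo k c).1.continuousOn.continuousAt
        ((s.e c).open_target.mem_nhds hzt)).eventually_ne hξ
    filter_upwards [e1, e2, (s.e c).open_target.mem_nhds hzt] with x h1 h2 h3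
    obtain ⟨g1, g2⟩ := s.log_Sf A htT h3 h1 h2
    rw [← g2, ← hS0.2]
    exact Real.log_le_log g1 (hmax (s.pc c) k t htI _ ⟨c, rfl, (s.e c).map_target h3⟩ h1.le)
  · filter_upwards [Ioo_mem_nhdsLT htpos] with r hr
    have hrT : r ∈ Ico 0 T := ⟨hr.1.le, hr.2.trans htT.2⟩
    obtain ⟨g1, g2⟩ := s.log_Sf A hrT hzt (by rw [hzp]; exact hp34') hξ
    rw [hzp] at g1 g2
    rw [← g2, ← hS0.2]
    exact Real.log_le_log g1 (hmax (s.pc c) k r ⟨hr.1.le, hr.2.le.trans htI.2⟩ _ ⟨c, rfl, hc⟩ hp34)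

theorem Setup.fields_bounded [CompactSpace M] [T2Space M] [Finite κ] [Finite P] :
    ∃ C : ℝ, ∀ t ∈ Ico 0 T, ∀ c, ∀ z ∈ (s.e c).target,
      nsq (s.h (s.pc c) ((s.e c).symm z)) ≤ 1 / 2 → ∀ k, lev (s.ψ c) (s.ξ k c z) (t, z) ≤ C := by
  by_cases hT : 0 < T
  swap
  · exact ⟨0, fun t ht => absurd (lt_of_le_of_lt ht.1 ht.2) hT⟩
  obtain ⟨C, hC1, hdom⟩ := s.domination
  obtain ⟨A, hA0, hA⟩ := s.exists_A (c₁ := 1 / (C * (Fintype.card F + 1))) (by positivity)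
  obtain ⟨K, hK0, hK⟩ := s.Sf_le hT hC1 hdom hA
  obtain ⟨B, hB⟩ := s.Uc_le
  refine ⟨K * Real.exp (A * B + T), fun t ht c z hz hy k => ?_⟩
  have hsrc := (s.e c).map_target hz
  have h1 := hK (s.pc c) k t ht _ ⟨c, rfl, hsrc⟩ (hy.trans (by norm_num))
  unfold Setup.Sf at h1
  rw [s.Fn_eq ht hsrc, glob_eq s.atlas s.Uc_isFun ht hsrc, (s.e c).right_inv hz, cut_one hy] at h1
  have h2 : Real.exp (-A * s.Uc c (t, z) - t) * Real.exp (A * s.Uc c (t, z) + t) = 1 := by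
    rw [← Real.exp_add]
    simp
  have h3 : lev (s.ψ c) (s.ξ k c z) (t, z) ≤ K * Real.exp (A * s.Uc c (t, z) + t) := by
    have h4 := mul_le_mul_of_nonneg_right h1 (Real.exp_pos (A * s.Uc c (t, z) + t)).le
    have h5 : 1 ^ 2 * lev (s.ψ c) (s.ξ k c z) (t, z) * Real.exp (-A * s.Uc c (t, z) - t) *
        Real.exp (A * s.Uc c (t, z) + t) = lev (s.ψ c) (s.ξ k c z) (t, z) := by
      rw [mul_assoc, h2]
      ring
    linarith
  refine h3.trans (mul_le_mul_of_nonneg_left (Real.exp_le_exp.2 ?_) hK0)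
  have h6 := mul_le_mul_of_nonneg_left (hB c t ht z hz) hA0
  linarith [ht.2]

end Pool.Agent.KRFS
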