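import Pool.Agent.Work.MP_a2bf38_gt.H.Setup

/-!
# The Riemannian distance of a Kähler-Ricci flow

The distance `rdist` is symmetric, satisfies the triangle inequality and is locally bounded by the
norm in a chart.
-/

open scoped ContDiff ENNReal ComplexOrder
open Set Filter Topology Pool.Agent.ToricKRF Pool.Agent.ToricKRF.G

namespace Pool.Agent.KRFS

section

variable {M : Type} [TopologicalSpace M] {n : ℕ} {κ : Type}
  {e : κ → OpenPartialHomeomorph M (Cn n)} {ψ : κ → ℝ × Cn n → ℝ} {t : ℝ}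

theorem rdist_le_chain {p q : M} (m : ℕ) (x : ℕ → M) (c : ℕ → κ) (γ : ℕ → ℝ → Cn n)
    (h : x 0 = p ∧ x m = q ∧ ∀ i < m, ChartCurve e (c i) (γ i) (x i) (x (i + 1))) :
    rdist e ψ t p q ≤ ∑ i ∈ Finset.range m, ENNReal.ofReal (clen ψ t (c i) (γ i)) :=
  iInf_le_of_le m (iInf_le_of_le x (iInf_le_of_le c (iInf_le_of_le γ (iInf_le_of_le h le_rfl))))

theorem exists_chain {p q : M} {a : ℝ≥0∞} (h : rdist e ψ t p q < a) :
    ∃ (m : ℕ) (x : ℕ → M) (c : ℕ → κ) (γ : ℕ → ℝ → Cn n)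
      (_ : x 0 = p ∧ x m = q ∧ ∀ i < m, ChartCurve e (c i) (γ i) (x i) (x (i + 1))),
      ∑ i ∈ Finset.range m, ENNReal.ofReal (clen ψ t (c i) (γ i)) < a := by
  simpa only [rdist, iInf_lt_iff] using h

theorem rdist_self_of_cover (hc : ∀ p : M, ∃ c, p ∈ (e c).source) (p : M) :
    rdist e ψ t p p = 0 := by
  obtain ⟨c, -⟩ := hc p
  have := rdist_le_chain (e := e) (ψ := ψ) (t := t) (p := p) (q := p) 0 (fun _ => p) (fun _ => c)
    (fun _ _ => 0) ⟨rfl, rfl, fun i hi => absurd hi (Nat.not_lt_zero i)⟩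
  simpa using this

theorem lev_neg (f : ℝ × Cn n → ℝ) (u : Cn n) (p : ℝ × Cn n) : lev f (-u) p = lev f u p := by
  have hD : ∀ (v : ℝ × Cn n) (g : ℝ × Cn n → ℝ), D (-v) g = fun q => - D v g q := by
    intro v g
    ext q
    simp only [D, map_neg]
  have hDD : ∀ v : ℝ × Cn n, D (-v) (D (-v) f) p = D v (D v f) p := by
    intro v
    rw [hD v f, hD v]
    have : D v (fun q => - D v f q) p = - D v (D v f) p := by
      simp only [D]
      rw [show (fun q => - (fderiv ℝ f q) v) = - (fun q => (fderiv ℝ f q) v) from rfl, fderiv_neg]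
      rfl
    change - D v (fun q => - D v f q) p = _
    rw [this, neg_neg]
  have h1 : ((0 : ℝ), -u) = -((0 : ℝ), u) := by simp
  have h2 : ((0 : ℝ), J (-u)) = -((0 : ℝ), J u) := by simp [J]
  simp only [lev]
  rw [h1, h2, hDD, hDD]

theorem ChartCurve.reverse {c : κ} {γ : ℝ → Cn n} {p q : M} (h : ChartCurve e c γ p q) :
    ChartCurve e c (fun s => γ (1 - s)) q p where
  smooth := by
    refine h.smooth.comp (by fun_prop) ?_
    intro s hs
    exact ⟨by linarith [hs.2], by linarith [hs.1]⟩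
  mem := fun s hs => h.mem (1 - s) ⟨by linarith [hs.2], by linarith [hs.1]⟩
  left := ⟨h.right.1, by simpa using h.right.2⟩
  right := ⟨h.left.1, by simpa using h.left.2⟩

theorem clen_reverse (c : κ) (γ : ℝ → Cn n) :
    clen ψ t c (fun s => γ (1 - s)) = clen ψ t c γ := by
  unfold clen
  have h := intervalIntegral.integral_comp_sub_left (a := 0) (b := 1)
    (fun s => √(2 * lev (ψ c) (deriv γ s) (t, γ s))) 1
  simp only [sub_self, sub_zero] at h
  rw [← h]
  refine intervalIntegral.integral_congr fun s _ => ?_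
  simp only
  rw [deriv_comp_const_sub, lev_neg]

theorem rdist_comm_le (p q : M) : rdist e ψ t p q ≤ rdist e ψ t q p := by
  refine le_of_forall_gt fun a ha => ?_
  obtain ⟨m, x, c, γ, ⟨h0, hm, hγ⟩, hlt⟩ := exists_chain ha
  refine lt_of_le_of_lt (rdist_le_chain m (fun i => x (m - i)) (fun i => c (m - 1 - i))
    (fun i s => γ (m - 1 - i) (1 - s)) ⟨?_, ?_, ?_⟩) ?_
  · simpa using hm
  · simpa using h0
  · intro i hi
    have h1 := (hγ (m - 1 - i) (by omega)).reverse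
    have e1 : m - 1 - i + 1 = m - i := by omega
    have e2 : m - 1 - i = m - (i + 1) := by omega
    rw [e1] at h1
    rw [← e2]
    exact h1
  · simp only [clen_reverse]
    rw [Finset.sum_range_reflect (fun i => ENNReal.ofReal (clen ψ t (c i) (γ i))) m]
    exact hlt

theorem rdist_comm' (p q : M) : rdist e ψ t p q = rdist e ψ t q p :=
  le_antisymm (rdist_comm_le p q) (rdist_comm_le q p)

theorem rdist_triangle' (p q r : M) :
    rdist e ψ t p r ≤ rdist e ψ t p q + rdist e ψ t q r := by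
  by_cases h1 : rdist e ψ t p q = ⊤
  · simp [h1]
  by_cases h2 : rdist e ψ t q r = ⊤
  · simp [h2]
  refine ENNReal.le_of_forall_pos_le_add fun ε hε _ => ?_
  have hε2 : (0 : ℝ≥0∞) < (ε : ℝ≥0∞) / 2 := ENNReal.half_pos (by exact_mod_cast hε.ne')
  obtain ⟨m, x, c, γ, ⟨h0, hm, hγ⟩, hlt⟩ := exists_chain (ENNReal.lt_add_right h1 hε2.ne')
  obtain ⟨m', x', c', γ', ⟨h0', hm', hγ'⟩, hlt'⟩ := exists_chain (ENNReal.lt_add_right h2 hε2.ne')
  refine (rdist_le_chain (m + m') (fun i => if i ≤ m then x i else x' (i - m))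
    (fun i => if i < m then c i else c' (i - m)) (fun i => if i < m then γ i else γ' (i - m))
    ⟨?_, ?_, ?_⟩).trans ?_
  · simpa using h0
  · rcases Nat.eq_zero_or_pos m' with hm0 | hm0
    · subst hm0
      simp only [add_zero, le_refl, if_true]
      rw [hm, ← h0', hm']
    · rw [if_neg (by omega), Nat.add_sub_cancel_left]
      exact hm'
  · intro i hi
    by_cases hi1 : i < m
    · rw [if_pos hi1, if_pos hi1, if_pos hi1.le, if_pos (by omega)]
      exact hγ i hi1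
    · have h3 := hγ' (i - m) (by omega)
      rw [if_neg hi1, if_neg hi1, if_neg (by omega : ¬ i + 1 ≤ m)]
      have e1 : i + 1 - m = i - m + 1 := by omega
      rw [e1]
      by_cases hi2 : i ≤ m
      · have : i = m := by omega
        subst this
        rw [if_pos le_rfl, hm]
        rw [Nat.sub_self] at h3 ⊢
        rwa [h0'] at h3
      · rw [if_neg hi2]
        exact h3
  · rw [Finset.sum_range_add]
    have s1 : ∑ i ∈ Finset.range m, ENNReal.ofReal (clen ψ t (if i < m then c i else c' (i - m))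
        (if i < m then γ i else γ' (i - m))) =
        ∑ i ∈ Finset.range m, ENNReal.ofReal (clen ψ t (c i) (γ i)) := by
      refine Finset.sum_congr rfl fun i hi => ?_
      rw [if_pos (Finset.mem_range.mp hi), if_pos (Finset.mem_range.mp hi)]
    have s2 : ∑ i ∈ Finset.range m', ENNReal.ofReal (clen ψ t
        (if m + i < m then c (m + i) else c' (m + i - m))
        (if m + i < m then γ (m + i) else γ' (m + i - m))) =
        ∑ i ∈ Finset.range m', ENNReal.ofReal (clen ψ t (c' i) (γ' i)) := by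
      refine Finset.sum_congr rfl fun i hi => ?_
      rw [if_neg (by omega), if_neg (by omega), Nat.add_sub_cancel_left]
    rw [s1, s2]
    calc _ ≤ (rdist e ψ t p q + (ε : ℝ≥0∞) / 2) + (rdist e ψ t q r + (ε : ℝ≥0∞) / 2) :=
          add_le_add hlt.le hlt'.le
      _ = rdist e ψ t p q + rdist e ψ t q r + ((ε : ℝ≥0∞) / 2 + (ε : ℝ≥0∞) / 2) := by
          ring
      _ = _ := by rw [ENNReal.add_halves]

theorem rdist_le' {c : κ} {γ : ℝ → Cn n} {p q : M} (h : ChartCurve e c γ p q) :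
    rdist e ψ t p q ≤ ENNReal.ofReal (clen ψ t c γ) := by
  have := rdist_le_chain (e := e) (ψ := ψ) (t := t) (p := p) (q := q) 1
    (fun i => if i = 0 then p else q) (fun _ => c) (fun _ => γ) ⟨by simp, by simp, ?_⟩
  · simpa using this
  · intro i hi
    have : i = 0 := by omega
    subst this
    simpa using h

/-- segments -/
theorem rdist_ball' {c : κ} {p : M} (hp : p ∈ (e c).source) {r C : ℝ}
    (hC : 0 ≤ C) (hball : Metric.closedBall (e c p) r ⊆ (e c).target)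
    (hb : ∀ z ∈ Metric.closedBall (e c p) r, ∀ u, lev (ψ c) u (t, z) ≤ C * ‖u‖ ^ 2) {q : M}
    (hq : q ∈ (e c).source) (hqr : e c q ∈ Metric.closedBall (e c p) r) :
    rdist e ψ t p q ≤ ENNReal.ofReal (√(2 * C) * ‖e c q - e c p‖) := by
  set v := e c q - e c p with hv
  set γ : ℝ → Cn n := fun s => e c p + s • v with hγ
  have hr : ‖v‖ ≤ r := by
    rw [hv, ← dist_eq_norm]
    exact hqr
  have hmem : ∀ s ∈ Icc (0 : ℝ) 1, γ s ∈ Metric.closedBall (e c p) r := by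
    intro s hs
    rw [Metric.mem_closedBall, dist_eq_norm, hγ]
    simp only [add_sub_cancel_left]
    rw [norm_smul, Real.norm_of_nonneg hs.1]
    calc s * ‖v‖ ≤ 1 * ‖v‖ := mul_le_mul_of_nonneg_right hs.2 (norm_nonneg _)
      _ ≤ r := by rwa [one_mul]
  have hder : ∀ s, deriv γ s = v := by
    intro s
    have : HasDerivAt γ v s := by
      have h1 := ((hasDerivAt_id s).smul_const v).const_add (e c p)
      rw [hγ]
      simpa using h1
    exact this.deriv
  have hcc : ChartCurve e c γ p q := by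
    refine ⟨?_, fun s hs => hball (hmem s hs), ⟨hp, ?_⟩, ⟨hq, ?_⟩⟩
    · apply ContDiff.contDiffOn
      rw [hγ]
      fun_prop
    · simp [hγ]
    · simp [hγ, hv]
  refine (rdist_le' hcc).trans (ENNReal.ofReal_le_ofReal ?_)
  have h1 : ‖∫ s in (0 : ℝ)..1, √(2 * lev (ψ c) (deriv γ s) (t, γ s))‖ ≤
      √(2 * C) * ‖v‖ * |1 - 0| := by
    apply intervalIntegral.norm_integral_le_of_norm_le_const
    intro s hs
    rw [uIoc_of_le zero_le_one] at hs
    rw [Real.norm_of_nonneg (Real.sqrt_nonneg _), hder]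
    have h2 := hb (γ s) (hmem s ⟨hs.1.le, hs.2⟩) v
    calc √(2 * lev (ψ c) v (t, γ s)) ≤ √(2 * (C * ‖v‖ ^ 2)) := Real.sqrt_le_sqrt (by linarith)
      _ = √(2 * C) * ‖v‖ := by
          rw [← mul_assoc, Real.sqrt_mul (by positivity), Real.sqrt_sq (norm_nonneg _)]
  rw [sub_zero, abs_one, mul_one] at h1
  exact (le_abs_self _).trans h1

theorem norm_J (u : Cn n) : ‖J u‖ = ‖u‖ := by
  rw [J, Prod.norm_def, Prod.norm_def, norm_neg, max_comm]

/-- local bound of the metric -/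
theorem lev_bound {f : ℝ × Cn n → ℝ} {U : Set (ℝ × Cn n)} (hU : IsOpen U)
    (hf : ContDiffOn ℝ ∞ f U) {p : ℝ × Cn n} (hp : p ∈ U) :
    ∃ C : ℝ, 0 ≤ C ∧ ∀ᶠ q in 𝓝 p, ∀ u, lev f u q ≤ C * ‖u‖ ^ 2 := by
  have h1 : ContDiffOn ℝ ∞ (fderiv ℝ f) U := hf.fderiv_of_isOpen hU (by simp)
  have h2 : ContinuousOn (fderiv ℝ (fderiv ℝ f)) U := h1.continuousOn_fderiv_of_isOpen hU (by simp)
  have hn : Continuous (fun A : (ℝ × Cn n →L[ℝ] ℝ × Cn n →L[ℝ] ℝ) => ‖A‖) :=
    continuous_norm (E := ℝ × Cn n →L[ℝ] ℝ × Cn n →L[ℝ] ℝ)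
  have h3 : ContinuousAt (fun q => ‖fderiv ℝ (fderiv ℝ f) q‖) p :=
    hn.continuousAt.comp (f := fderiv ℝ (fderiv ℝ f)) (h2.continuousAt (hU.mem_nhds hp))
  have h4 : ∀ᶠ q in 𝓝 p, ‖fderiv ℝ (fderiv ℝ f) q‖ < ‖fderiv ℝ (fderiv ℝ f) p‖ + 1 :=
    h3.eventually_lt_const (by linarith)
  refine ⟨(‖fderiv ℝ (fderiv ℝ f) p‖ + 1) / 2, by positivity, ?_⟩
  filter_upwards [h4, hU.mem_nhds hp] with q hq hqU u
  have hd : DifferentiableAt ℝ (fderiv ℝ f) q :=
    (h1.differentiableOn (by simp)).differentiableAt (hU.mem_nhds hqU)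
  have key : ∀ v : ℝ × Cn n, D v (D v f) q ≤ (‖fderiv ℝ (fderiv ℝ f) p‖ + 1) * ‖v‖ ^ 2 := by
    intro v
    have e1 : D v (D v f) q = fderiv ℝ (fderiv ℝ f) q v v := by
      have h5 : HasFDerivAt (fun z => fderiv ℝ f z v)
          ((ContinuousLinearMap.apply ℝ ℝ v).comp (fderiv ℝ (fderiv ℝ f) q)) q :=
        (ContinuousLinearMap.apply ℝ ℝ v).hasFDerivAt.comp q hd.hasFDerivAt
      have h6 : D v (D v f) q = fderiv ℝ (fun z => fderiv ℝ f z v) q v := rfl
      rw [h6, h5.fderiv]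
      rfl
    rw [e1]
    calc fderiv ℝ (fderiv ℝ f) q v v ≤ ‖fderiv ℝ (fderiv ℝ f) q v v‖ := Real.le_norm_self _
      _ ≤ ‖fderiv ℝ (fderiv ℝ f) q v‖ * ‖v‖ := ContinuousLinearMap.le_opNorm _ _
      _ ≤ ‖fderiv ℝ (fderiv ℝ f) q‖ * ‖v‖ * ‖v‖ :=
          mul_le_mul_of_nonneg_right (ContinuousLinearMap.le_opNorm _ _) (norm_nonneg _)
      _ ≤ (‖fderiv ℝ (fderiv ℝ f) p‖ + 1) * ‖v‖ ^ 2 := by
          rw [mul_assoc, ← pow_two]
          exact mul_le_mul_of_nonneg_right hq.le (by positivity)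
  have n1 : ‖((0 : ℝ), u)‖ = ‖u‖ := by simp [Prod.norm_def]
  have n2 : ‖((0 : ℝ), J u)‖ = ‖u‖ := by
    rw [Prod.norm_def]
    simp [norm_J]
  have k1 := key ((0 : ℝ), u)
  have k2 := key ((0 : ℝ), J u)
  rw [n1] at k1
  rw [n2] at k2
  simp only [lev]
  linarith

end

section

variable {n N : ℕ} {M : Type} [TopologicalSpace M] {κ P F : Type} [Fintype F] {T : ℝ}
  (s : Setup n N M κ P F T)

theorem rdist_self (t : ℝ) (p : M) : rdist s.e s.ψ t p p = 0 :=
  rdist_self_of_cover s.atlas.cover p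

theorem rdist_comm {t : ℝ} (p q : M) : rdist s.e s.ψ t p q = rdist s.e s.ψ t q p :=
  rdist_comm' p q

theorem rdist_triangle {t : ℝ} (p q r : M) :
    rdist s.e s.ψ t p r ≤ rdist s.e s.ψ t p q + rdist s.e s.ψ t q r :=
  rdist_triangle' p q r

theorem rdist_le {t : ℝ} {c : κ} {γ : ℝ → Cn n} {p q : M} (h : ChartCurve s.e c γ p q) :
    rdist s.e s.ψ t p q ≤ ENNReal.ofReal (clen s.ψ t c γ) :=
  rdist_le' h

/-- segments -/
theorem rdist_ball {t : ℝ} (ht : t ∈ Ico 0 T) {c : κ} {p : M} (hp : p ∈ (s.e c).source) {r C : ℝ}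
    (hC : 0 ≤ C) (hball : Metric.closedBall (s.e c p) r ⊆ (s.e c).target)
    (hb : ∀ z ∈ Metric.closedBall (s.e c p) r, ∀ u, lev (s.ψ c) u (t, z) ≤ C * ‖u‖ ^ 2) {q : M}
    (hq : q ∈ (s.e c).source) (hqr : s.e c q ∈ Metric.closedBall (s.e c p) r) :
    rdist s.e s.ψ t p q ≤ ENNReal.ofReal (√(2 * C) * ‖s.e c q - s.e c p‖) :=
  rdist_ball' hp hC hball hb hq hqr

theorem rdist_small {t : ℝ} (ht : t ∈ Ico 0 T) (p : M) {ε : ℝ} (hε : 0 < ε) :
    ∀ᶠ q in 𝓝 p, rdist s.e s.ψ t p q ≤ ENNReal.ofReal ε := by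
  obtain ⟨c, hc⟩ := s.atlas.cover p
  obtain ⟨U, hU, hsub, hψ⟩ := s.krf.smooth c
  have ht1 : s.e c p ∈ (s.e c).target := (s.e c).map_source hc
  obtain ⟨C, hC, hev⟩ := lev_bound hU hψ (p := (t, s.e c p)) (hsub ⟨ht, ht1⟩)
  have h1 : ∀ᶠ z in 𝓝 (s.e c p), ∀ u, lev (s.ψ c) u (t, z) ≤ C * ‖u‖ ^ 2 := by
    have : Tendsto (fun z => (t, z)) (𝓝 (s.e c p)) (𝓝 (t, s.e c p)) :=
      (continuous_const.prodMk continuous_id).tendsto' _ _ rfl
    exact this.eventually hev
  have h2 : ∀ᶠ z in 𝓝 (s.e c p), z ∈ (s.e c).target := (s.e c).open_target.mem_nhds ht1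
  obtain ⟨r, hr, hrs⟩ := Metric.nhds_basis_closedBall.eventually_iff.mp (h1.and h2)
  have h3 : ∀ᶠ q in 𝓝 p, q ∈ (s.e c).source := (s.e c).open_source.mem_nhds hc
  have hcont : Tendsto (s.e c) (𝓝 p) (𝓝 (s.e c p)) := (s.e c).continuousAt hc
  have h4 : ∀ᶠ q in 𝓝 p, s.e c q ∈ Metric.closedBall (s.e c p) r :=
    hcont.eventually (Metric.closedBall_mem_nhds _ hr)
  have h5 : ∀ᶠ q in 𝓝 p, √(2 * C) * ‖s.e c q - s.e c p‖ < ε := by
    have : Tendsto (fun q => √(2 * C) * ‖s.e c q - s.e c p‖) (𝓝 p) (𝓝 0) := by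
      have h6 : Tendsto (fun q => √(2 * C) * ‖s.e c q - s.e c p‖) (𝓝 p)
          (𝓝 (√(2 * C) * ‖s.e c p - s.e c p‖)) :=
        ((hcont.sub_const _).norm).const_mul _
      simpa using h6
    exact this.eventually_lt_const hε
  filter_upwards [h3, h4, h5] with q hq1 hq2 hq3
  exact (rdist_ball s ht hc hC (fun z hz => (hrs hz).2) (fun z hz => (hrs hz).1) hq1 hq2).trans
    (ENNReal.ofReal_le_ofReal hq3.le)

end

end Pool.Agent.KRFS
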