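import Pool.Agent.Work.MP_a2bf38_gt.H.Setup
import Pool.Agent.Work.MP_a2bf38_gt.G.Ode

/-!
# The path from a point to the bounded region or to the level set `{rho = 1/3}`
-/

open scoped ContDiff NNReal
open Set Filter Topology Pool.Agent.ToricKRF Pool.Agent.ToricKRF.G

namespace Pool.Agent.KRFS

theorem contDiff_rho {n : ℕ} (B : Finset (Fin n → ℝ)) : ContDiff ℝ ∞ (rho B) := by
  have h1 : ∀ m : Fin n → ℝ, ContDiff ℝ ∞ (fun a : Fin n → ℝ => Real.exp (2 * (m ⬝ᵥ a))) := by
    intro m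
    have h2 : ContDiff ℝ ∞ (fun a : Fin n → ℝ => Real.exp (2 * (dotL n m a))) :=
      (contDiff_const.mul (dotL n m).contDiff).exp
    simpa only [dotL_apply] using h2
  unfold rho
  exact ContDiff.sum fun m _ => h1 m

namespace Ex

variable {n : ℕ} {B : Finset (Fin n → ℝ)}

/-- the cutoff in `rho` -/
noncomputable def cut (B : Finset (Fin n → ℝ)) (a : Fin n → ℝ) : ℝ :=
  Real.smoothTransition ((1 / 2 - rho B a) * 6)

theorem contDiff_cut : ContDiff ℝ ∞ (cut B) :=
  Real.smoothTransition.contDiff.comp ((contDiff_const.sub (contDiff_rho B)).mul contDiff_const)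

theorem cut_nonneg (a : Fin n → ℝ) : 0 ≤ cut B a := Real.smoothTransition.nonneg _

theorem cut_one {a : Fin n → ℝ} (h : rho B a ≤ 1 / 3) : cut B a = 1 :=
  Real.smoothTransition.one_of_one_le (by linarith)

theorem cut_zero {a : Fin n → ℝ} (h : 1 / 2 ≤ rho B a) : cut B a = 0 :=
  Real.smoothTransition.zero_of_nonpos (by linarith)

variable {G : (Fin n → ℝ) → (Fin n → ℝ) →L[ℝ] (Fin n → ℝ) →L[ℝ] ℝ}

theorem contDiffAt_inverse_ell {a : Fin n → ℝ} (hG : ContDiffAt ℝ 1 G a)
    (hpos : ∀ v, v ≠ 0 → 0 < G a v v) :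
    ContDiffAt ℝ 1 (fun a => (G a).inverse (ell a)) a := by
  obtain ⟨e, he⟩ := exists_form_equiv hpos
  have h1 : ContDiffAt ℝ 1 ContinuousLinearMap.inverse (G a) := by
    rw [← he]
    exact contDiffAt_map_inverse e
  have h2 : ContDiffAt ℝ 1 (fun a => (G a).inverse) a := h1.comp a hG
  exact h2.clm_apply ((contDiff_ell n).of_le (by exact_mod_cast le_top)).contDiffAt

end Ex

open Ex

/-- the path until the bounded region or until the exit -/
theorem exists_exit_path {n : ℕ} {B : Finset (Fin n → ℝ)}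
    {G : (Fin n → ℝ) → (Fin n → ℝ) →L[ℝ] (Fin n → ℝ) →L[ℝ] ℝ}
    (hG : ContDiffOn ℝ 1 G {a | rho B a < 1}) (hpos : ∀ a, rho B a < 1 → ∀ v, v ≠ 0 → 0 < G a v v)
    {K M : ℝ} (hM : 0 < M) (hK : 0 ≤ K)
    (hq : ∀ a, rho B a ≤ 1 / 2 → K < 2 * rad a →
      Real.exp ((2 * rad a - K) / M) ≤ ell a ((G a).inverse (ell a))) {a0 : Fin n → ℝ}
    (ha0 : rho B a0 < 1 / 4) :
    ∃ γ : ℝ → Fin n → ℝ, γ 0 = a0 ∧ (rho B (γ 1) = 1 / 3 ∨ rad (γ 1) ≤ K / 2 + 1) ∧
      (∀ s ∈ Icc (0 : ℝ) 1, rho B (γ s) ≤ 1 / 3) ∧ (∀ s ∈ Icc (0 : ℝ) 1, ContDiffAt ℝ 1 γ s) ∧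
      ∫ s in (0 : ℝ)..1, √(G (γ s) (deriv γ s) (deriv γ s)) ≤ M := by
  by_cases hr : rad a0 ≤ K / 2 + 1
  · refine ⟨fun _ => a0, rfl, Or.inr hr, fun s _ => by linarith, fun s _ => contDiffAt_const, ?_⟩
    simp [hM.le]
  rw [not_le] at hr
  have hopen : IsOpen {a : Fin n → ℝ | rho B a < 1} :=
    isOpen_lt (contDiff_rho B).continuous continuous_const
  set r0 := rad a0 with hr0
  set Y : (Fin n → ℝ) → (Fin n → ℝ) := fun a => (G a).inverse (ell a) with hY
  set q : (Fin n → ℝ) → ℝ := fun a => ell a (Y a) with hqdef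
  have hGY : ∀ a, rho B a < 1 → G a (Y a) = ell a := fun a ha => form_inverse (hpos a ha) _
  have hq0 : ∀ a, rho B a < 1 → 0 ≤ q a := by
    intro a ha
    simp only [hqdef]
    rw [← hGY a ha]
    exact form_nonneg (hpos a ha) _
  have hYc : ∀ a, rho B a < 1 → ContDiffAt ℝ 1 Y a := fun a ha =>
    contDiffAt_inverse_ell (hG.contDiffAt (hopen.mem_nhds ha)) (hpos a ha)
  have hqc : ∀ a, rho B a < 1 → ContDiffAt ℝ 1 q a := fun a ha =>
    ((contDiff_ell n).of_le (by exact_mod_cast le_top)).contDiffAt.clm_apply (hYc a ha)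
  let χ : ContDiffBump (0 : Fin n → ℝ) := ⟨r0, r0 + 1, rad_pos a0, by linarith⟩
  set X : (Fin n → ℝ) → (Fin n → ℝ) := fun a => -(χ a * cut B a * (1 + q a)⁻¹) • Y a with hX
  have hXc : ContDiff ℝ 1 X := by
    rw [contDiff_iff_contDiffAt]
    intro a
    by_cases ha : rho B a < 1
    · have h1 : ContDiffAt ℝ 1 (fun a => (1 + q a)⁻¹) a :=
        (contDiffAt_const.add (hqc a ha)).inv (by
          have := hq0 a ha
          change 1 + q a ≠ 0
          linarith)
      have h2 : ContDiffAt ℝ 1 (fun a => χ a * cut B a) a :=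
        (χ.contDiff.contDiffAt).mul ((contDiff_cut (B := B)).of_le
          (by exact_mod_cast le_top)).contDiffAt
      exact ((h2.mul h1).neg).smul (hYc a ha)
    · rw [not_lt] at ha
      have h1 : X =ᶠ[𝓝 a] fun _ => 0 := by
        have h2 : {a : Fin n → ℝ | 1 / 2 < rho B a} ∈ 𝓝 a :=
          (isOpen_lt continuous_const (contDiff_rho B).continuous).mem_nhds (by
            change 1 / 2 < rho B a
            linarith)
        filter_upwards [h2] with x hx
        have h3 : 1 / 2 < rho B x := hx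
        simp [hX, cut_zero h3.le]
      exact contDiffAt_const.congr_of_eventuallyEq h1
  have hXs : HasCompactSupport X := by
    refine χ.hasCompactSupport.mono' ?_
    refine Function.support_subset_iff'.2 ?_ |>.trans (subset_tsupport _)
    intro a ha
    simp only [Function.mem_support, not_not] at ha
    simp [hX, ha]
  obtain ⟨Kl, hKl⟩ := hXc.lipschitzWith_of_hasCompactSupport hXs one_ne_zero
  obtain ⟨Lb, hLb⟩ := hXs.exists_bound_of_continuous hXc.continuous
  have hLb' : ∀ x, ‖X x‖ ≤ (Real.toNNReal Lb : ℝ) := fun x =>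
    (hLb x).trans (Real.le_coe_toNNReal _)
  set S : ℝ := 2 * r0 with hS
  have hr0pos : 0 < r0 := rad_pos a0
  obtain ⟨α, hα0, hα⟩ := exists_solution hKl hLb' a0 (show 0 ≤ S by rw [hS]; linarith)
  -- the radius along the curve
  set ρ : ℝ → ℝ := fun s => rad (α s) with hρ
  have hρd : ∀ s ∈ Ioo (-1) (S + 1),
      HasDerivAt ρ (-(χ (α s) * cut B (α s) * (q (α s) * (1 + q (α s))⁻¹))) s := by
    intro s hs
    refine (hasDerivAt_rad (hα s hs)).congr_deriv ?_
    simp only [hX, map_smul, smul_eq_mul]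
    ring
  have hSI : Icc 0 S ⊆ Ioo (-1) (S + 1) := fun s hs =>
    ⟨by linarith [hs.1], by linarith [hs.2]⟩
  have hS0 : 0 ≤ S := by rw [hS]; linarith
  have hρc : ContinuousOn ρ (Icc 0 S) := fun s hs =>
    (hρd s (hSI hs)).continuousAt.continuousWithinAt
  have hρd' : DifferentiableOn ℝ ρ (interior (Icc 0 S)) := fun s hs =>
    (hρd s (hSI (interior_subset hs))).differentiableAt.differentiableWithinAt
  have hqq : ∀ a, 0 ≤ χ a * cut B a * (q a * (1 + q a)⁻¹) := by
    intro a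
    by_cases ha : rho B a < 1
    · have h1 := hq0 a ha
      have h2 : 0 ≤ (1 + q a)⁻¹ := inv_nonneg.2 (by linarith)
      exact mul_nonneg (mul_nonneg χ.nonneg (cut_nonneg a)) (mul_nonneg h1 h2)
    · rw [cut_zero (by linarith [not_lt.1 ha])]
      simp
  have hanti : AntitoneOn ρ (Icc 0 S) := by
    refine antitoneOn_of_deriv_nonpos (convex_Icc 0 S) hρc hρd' fun s hs => ?_
    rw [(hρd s (hSI (interior_subset hs))).deriv]
    exact neg_nonpos.2 (hqq _)
  have h0S : (0 : ℝ) ∈ Icc 0 S := ⟨le_rfl, hS0⟩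
  have hSS : S ∈ Icc 0 S := ⟨hS0, le_rfl⟩
  have hρ0 : ρ 0 = r0 := by simp only [hρ, hα0, hr0]
  -- `rho` along the curve
  have hrc : ContinuousOn (fun s => rho B (α s)) (Icc 0 S) :=
    (contDiff_rho B).continuous.comp_continuousOn fun s hs =>
      (hα s (hSI hs)).continuousAt.continuousWithinAt
  have hχ1' : ∀ s ∈ Icc 0 S, rho B (α s) ≤ 1 / 3 → χ (α s) * cut B (α s) = 1 := by
    intro s hs h3
    rw [cut_one h3, mul_one]
    apply χ.one_of_mem_closedBall
    rw [mem_closedBall_zero_iff]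
    have h1 : ρ s ≤ r0 := hρ0 ▸ hanti h0S hs hs.1
    exact (norm_le_rad (α s)).trans h1
  have hqe' : ∀ s ∈ Icc 0 S, rho B (α s) ≤ 1 / 3 → K / 2 + 1 ≤ ρ s →
      Real.exp ((2 * ρ s - K) / M) ≤ q (α s) := by
    intro s hs h3 h1
    exact hq (α s) (by linarith) (by linarith)
  -- the exit time
  set Q : Set ℝ := {s | s ∈ Icc 0 S ∧ (1 / 3 ≤ rho B (α s) ∨ ρ s ≤ K / 2 + 1)} with hQ
  have hQc : IsCompact Q := by
    have h1 : Q = (Icc 0 S ∩ (fun s => rho B (α s)) ⁻¹' Ici (1 / 3)) ∪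
        (Icc 0 S ∩ ρ ⁻¹' Iic (K / 2 + 1)) := by
      ext s
      simp only [hQ, mem_setOf_eq, mem_union, mem_inter_iff, mem_preimage, mem_Ici, mem_Iic]
      tauto
    rw [h1]
    refine IsCompact.union ?_ ?_
    · exact isCompact_Icc.of_isClosed_subset
        (hrc.preimage_isClosed_of_isClosed isClosed_Icc isClosed_Ici) inter_subset_left
    · exact isCompact_Icc.of_isClosed_subset
        (hρc.preimage_isClosed_of_isClosed isClosed_Icc isClosed_Iic) inter_subset_left
  have hQn : Q.Nonempty := by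
    by_contra hne
    rw [not_nonempty_iff_eq_empty] at hne
    have hout : ∀ s ∈ Icc 0 S, rho B (α s) < 1 / 3 ∧ K / 2 + 1 < ρ s := by
      intro s hs
      constructor
      · by_contra h
        have : s ∈ Q := ⟨hs, Or.inl (not_lt.1 h)⟩
        rw [hne] at this
        exact this
      · by_contra h
        have : s ∈ Q := ⟨hs, Or.inr (not_lt.1 h)⟩
        rw [hne] at this
        exact this
    have h1 : ρ S - ρ 0 ≤ -(1 / 2) * (S - 0) := by
      refine (convex_Icc 0 S).image_sub_le_mul_sub_of_deriv_le hρc hρd' (fun s hs => ?_) 0 h0S S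
        hSS hS0
      have hs' := interior_subset hs
      obtain ⟨h4, h2⟩ := hout s hs'
      rw [(hρd s (hSI hs')).deriv, hχ1' s hs' h4.le, one_mul]
      have h3 : 1 ≤ q (α s) := by
        refine le_trans (Real.one_le_exp ?_) (hqe' s hs' h4.le h2.le)
        apply div_nonneg _ hM.le
        linarith
      rw [neg_le_neg_iff, ← div_eq_mul_inv, div_le_div_iff₀ (by norm_num) (by linarith)]
      linarith
    rw [hρ0, hS] at h1
    have h2 : ρ (2 * r0) ≤ 0 := by linarith
    have h3 := rad_pos (α (2 * r0))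
    have h4 : ρ (2 * r0) = rad (α (2 * r0)) := rfl
    linarith
  obtain ⟨s1, hs1Q, hs1min⟩ := hQc.exists_isLeast hQn
  have hs1 : s1 ∈ Icc 0 S := hs1Q.1
  have hbefore : ∀ s ∈ Ico 0 s1, rho B (α s) < 1 / 3 ∧ K / 2 + 1 < ρ s := by
    intro s hs
    have hsS : s ∈ Icc 0 S := ⟨hs.1, hs.2.le.trans hs1.2⟩
    constructor
    · by_contra h
      exact absurd (hs1min ⟨hsS, Or.inl (not_lt.1 h)⟩) (not_le.2 hs.2)
    · by_contra h
      exact absurd (hs1min ⟨hsS, Or.inr (not_lt.1 h)⟩) (not_le.2 hs.2)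
  have hs1pos : 0 < s1 := by
    rcases hs1.1.eq_or_lt with h | h
    · exfalso
      rw [← h] at hs1Q
      rcases hs1Q.2 with h1 | h1
      · rw [hα0] at h1
        linarith
      · rw [hρ0] at h1
        linarith
    · exact h
  have hcl : closure (Ico 0 s1) = Icc 0 s1 := closure_Ico hs1pos.ne
  have hIccS : Icc 0 s1 ⊆ Icc 0 S := Icc_subset_Icc_right hs1.2
  have hrho : ∀ s ∈ Icc 0 s1, rho B (α s) ≤ 1 / 3 := by
    intro s hs
    rw [← hcl] at hs
    have h1 : ContinuousOn (fun s => rho B (α s)) (closure (Ico 0 s1)) := by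
      rw [hcl]
      exact hrc.mono hIccS
    exact le_on_closure (f := fun s => rho B (α s)) (g := fun _ => 1 / 3)
      (fun x hx => (hbefore x hx).1.le) h1 continuousOn_const hs
  have hρge : ∀ s ∈ Icc 0 s1, K / 2 + 1 ≤ ρ s := by
    intro s hs
    rw [← hcl] at hs
    have h1 : ContinuousOn ρ (closure (Ico 0 s1)) := by
      rw [hcl]
      exact hρc.mono hIccS
    exact le_on_closure (f := fun _ => K / 2 + 1) (g := ρ)
      (fun x hx => (hbefore x hx).2.le) continuousOn_const h1 hs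
  have hs1mem : s1 ∈ Icc 0 s1 := ⟨hs1.1, le_rfl⟩
  have hend : rho B (α s1) = 1 / 3 ∨ ρ s1 ≤ K / 2 + 1 := by
    rcases hs1Q.2 with h | h
    · exact Or.inl (le_antisymm (hrho s1 hs1mem) h)
    · exact Or.inr h
  have hscale : ∀ s ∈ Icc (0 : ℝ) 1, s1 * s ∈ Icc 0 s1 := fun s hs =>
    ⟨mul_nonneg hs1.1 hs.1, mul_le_of_le_one_right hs1.1 hs.2⟩
  have hscale' : ∀ s ∈ Icc (0 : ℝ) 1, s1 * s ∈ Icc 0 S := fun s hs =>
    ⟨(hscale s hs).1, (hscale s hs).2.trans hs1.2⟩
  have hlt : ∀ s ∈ Icc (0 : ℝ) 1, rho B (α (s1 * s)) < 1 := fun s hs => by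
    linarith [hrho _ (hscale s hs)]
  -- smoothness of `α`
  have hαC : ContDiffOn ℝ 1 α (Ioo (-1) (S + 1)) := by
    have h1 : (1 : WithTop ℕ∞) = 0 + 1 := by norm_num
    rw [h1, contDiffOn_succ_iff_deriv_of_isOpen isOpen_Ioo]
    refine ⟨fun s hs => (hα s hs).differentiableAt.differentiableWithinAt, by simp, ?_⟩
    rw [contDiffOn_zero]
    have h2 : ContinuousOn (fun s => X (α s)) (Ioo (-1) (S + 1)) :=
      hXc.continuous.comp_continuousOn fun s hs => (hα s hs).continuousAt.continuousWithinAt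
    exact h2.congr fun s hs => (hα s hs).deriv
  set γ : ℝ → Fin n → ℝ := fun s => α (s1 * s) with hγ
  have hγC : ∀ s ∈ Icc (0 : ℝ) 1, ContDiffAt ℝ 1 γ s := by
    intro s hs
    have h1 : ContDiffAt ℝ 1 α (s1 * s) :=
      hαC.contDiffAt (isOpen_Ioo.mem_nhds (hSI (hscale' s hs)))
    exact h1.comp s (by fun_prop)
  have hγd : ∀ s ∈ Icc (0 : ℝ) 1, HasDerivAt γ (s1 • X (α (s1 * s))) s := by
    intro s hs
    have h1 := hα (s1 * s) (hSI (hscale' s hs))
    have h2 : HasDerivAt (fun s : ℝ => s1 * s) s1 s := by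
      simpa using (hasDerivAt_id s).const_mul s1
    exact h1.scomp s h2
  -- the primitive
  set P : ℝ → ℝ := fun s => M * Real.exp (-((2 * ρ (s1 * s) - K) / (2 * M))) with hP
  set P' : ℝ → ℝ := fun s => s1 * (Real.exp (-((2 * ρ (s1 * s) - K) / (2 * M))) *
    (q (α (s1 * s)) * (1 + q (α (s1 * s)))⁻¹)) with hP'
  have hPd : ∀ s ∈ Icc (0 : ℝ) 1, HasDerivAt P (P' s) s := by
    intro s hs
    have h1 := hρd (s1 * s) (hSI (hscale' s hs))
    rw [hχ1' _ (hscale' s hs) (hrho _ (hscale s hs)), one_mul] at h1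
    have h2 : HasDerivAt (fun s : ℝ => s1 * s) s1 s := by
      simpa using (hasDerivAt_id s).const_mul s1
    have h3 : HasDerivAt (fun s => ρ (s1 * s))
        (-(q (α (s1 * s)) * (1 + q (α (s1 * s)))⁻¹) * s1) s := h1.comp s h2
    have h4 : HasDerivAt P (M * (Real.exp (-((2 * ρ (s1 * s) - K) / (2 * M))) *
        -(2 * (-(q (α (s1 * s)) * (1 + q (α (s1 * s)))⁻¹) * s1) / (2 * M)))) s :=
      ((((h3.const_mul 2).sub_const K).div_const (2 * M)).neg.exp).const_mul M
    refine h4.congr_deriv ?_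
    simp only [hP']
    field_simp
  have hγc : ContinuousOn (fun s => α (s1 * s)) (Icc 0 1) := fun s hs =>
    (hγd s hs).continuousAt.continuousWithinAt
  have hρc' : ContinuousOn (fun s => ρ (s1 * s)) (Icc 0 1) :=
    (contDiff_rad n).continuous.comp_continuousOn hγc
  have hqc' : ContinuousOn (fun s => q (α (s1 * s))) (Icc 0 1) := fun s hs =>
    ContinuousAt.comp_continuousWithinAt (f := fun s => α (s1 * s)) (g := q)
      (hqc _ (hlt s hs)).continuousAt (hγc s hs)
  have hP'c : ContinuousOn P' (Icc 0 1) := by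
    apply ContinuousOn.mul continuousOn_const
    apply ContinuousOn.mul
    · apply ContinuousOn.rexp
      exact (((continuousOn_const.mul hρc').sub continuousOn_const).div_const _).neg
    · apply hqc'.mul
      exact (continuousOn_const.add hqc').inv₀ fun s hs =>
        (show 0 < 1 + q (α (s1 * s)) by linarith [hq0 (α (s1 * s)) (hlt s hs)]).ne'
  -- the speed
  have hspeed : ∀ s ∈ Icc (0 : ℝ) 1, √(G (γ s) (deriv γ s) (deriv γ s)) ≤ P' s := by
    intro s hs
    rw [(hγd s hs).deriv]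
    have hal := hlt s hs
    set a := α (s1 * s) with ha
    have h1 : G a (s1 • X a) (s1 • X a) = (s1 * (1 + q a)⁻¹) ^ 2 * q a := by
      simp only [hX]
      rw [hχ1' _ (hscale' s hs) (hrho _ (hscale s hs)), one_mul]
      simp only [map_smul, smul_apply, smul_eq_mul, hGY a hal]
      simp only [hqdef]
      ring
    change √(G a (s1 • X a) (s1 • X a)) ≤ _
    have h2 : 0 < 1 + q a := by linarith [hq0 a hal]
    have h3 : 0 ≤ s1 * (1 + q a)⁻¹ := mul_nonneg hs1.1 (inv_pos.2 h2).le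
    rw [h1, Real.sqrt_mul (sq_nonneg _), Real.sqrt_sq h3]
    have h4 : Real.exp ((2 * ρ (s1 * s) - K) / (2 * M)) ≤ √(q a) := by
      apply Real.le_sqrt_of_sq_le
      rw [← Real.exp_nat_mul]
      refine le_trans (le_of_eq ?_) (hqe' _ (hscale' s hs) (hrho _ (hscale s hs))
        (hρge _ (hscale s hs)))
      congr 1
      push_cast
      field_simp
    have h5 : √(q a) ≤ Real.exp (-((2 * ρ (s1 * s) - K) / (2 * M))) * q a := by
      have h6 : q a = √(q a) * √(q a) := (Real.mul_self_sqrt (hq0 a hal)).symm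
      rw [Real.exp_neg]
      have h7 := Real.exp_pos ((2 * ρ (s1 * s) - K) / (2 * M))
      rw [inv_mul_eq_div, le_div_iff₀ h7]
      calc √(q a) * Real.exp ((2 * ρ (s1 * s) - K) / (2 * M)) ≤ √(q a) * √(q a) :=
            mul_le_mul_of_nonneg_left h4 (Real.sqrt_nonneg _)
        _ = q a := Real.mul_self_sqrt (hq0 a hal)
    simp only [hP']
    rw [← ha]
    calc s1 * (1 + q a)⁻¹ * √(q a) ≤
          s1 * (1 + q a)⁻¹ * (Real.exp (-((2 * ρ (s1 * s) - K) / (2 * M))) * q a) :=
          mul_le_mul_of_nonneg_left h5 h3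
      _ = _ := by ring
  have hγ'c : ContinuousOn (fun s => √(G (γ s) (deriv γ s) (deriv γ s))) (Icc 0 1) := by
    have h1 : ContinuousOn (fun s => √(G (γ s) (s1 • X (γ s)) (s1 • X (γ s)))) (Icc 0 1) := by
      have h2 : ContinuousOn (fun s => s1 • X (γ s)) (Icc 0 1) :=
        (hXc.continuous.comp_continuousOn hγc).const_smul s1
      have h3 : ContinuousOn (fun s => G (γ s)) (Icc 0 1) :=
        hG.continuousOn.comp hγc fun s hs => hlt s hs
      exact ((h3.clm_apply h2).clm_apply h2).sqrt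
    refine h1.congr fun s hs => ?_
    simp only [(hγd s hs).deriv]
    rfl
  refine ⟨γ, by simp [hγ, hα0], ?_, fun s hs => hrho _ (hscale s hs), hγC, ?_⟩
  · simp only [hγ, mul_one]
    exact hend
  have h1 : ∫ s in (0 : ℝ)..1, √(G (γ s) (deriv γ s) (deriv γ s)) ≤ ∫ s in (0 : ℝ)..1, P' s := by
    apply intervalIntegral.integral_mono_on zero_le_one
    · exact (hγ'c.mono (by rw [uIcc_of_le zero_le_one])).intervalIntegrable
    · exact (hP'c.mono (by rw [uIcc_of_le zero_le_one])).intervalIntegrable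
    · exact hspeed
  have h2 : ∫ s in (0 : ℝ)..1, P' s = P 1 - P 0 := by
    apply intervalIntegral.integral_eq_sub_of_hasDerivAt
    · intro s hs
      rw [uIcc_of_le zero_le_one] at hs
      exact hPd s hs
    · exact (hP'c.mono (by rw [uIcc_of_le zero_le_one])).intervalIntegrable
  have h3 : P 1 ≤ M := by
    simp only [hP, mul_one]
    apply mul_le_of_le_one_right hM.le
    rw [Real.exp_le_one_iff, neg_nonpos]
    apply div_nonneg _ (by linarith)
    have h5 := hρge s1 hs1mem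
    linarith
  have h4 : 0 ≤ P 0 := mul_nonneg hM.le (Real.exp_pos _).le
  linarith

end Pool.Agent.KRFS
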