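import Pool.Agent.Work.MP_a2bf38_gt.H.Gen
import Pool.Agent.Work.MP_a2bf38_gt.H.Bound

/-!
# The metrics are bounded outside of `Z`
-/

open scoped ContDiff ENNReal ComplexOrder
open Set Filter Topology Pool.Agent.ToricKRF Pool.Agent.ToricKRF.G

namespace Pool.Agent.KRFS

/-- a positive Levi form is locally uniformly positive -/
theorem Bd.levz_lower {n : ℕ} {g : Cn n → ℝ} {z : Cn n} {S : Set (Cn n)} (hS : IsOpen S)
    (hg : ContDiffOn ℝ ∞ g S) (hz : z ∈ S) (hpos : ∀ u : Cn n, u ≠ 0 → 0 < levz g u z) :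
    ∃ m : ℝ, 0 < m ∧ ∀ᶠ x in 𝓝 z, ∀ u : Cn n, m * ‖u‖ ^ 2 ≤ levz g u x := by
  have hK : IsCompact (Metric.sphere (0 : Cn n) 1) := isCompact_sphere _ _
  have hcg : ∀ u, ContinuousAt (fun q : Cn n × Cn n => levz g q.2 q.1) (z, u) :=
    Bd.levz_continuousAt hS hg hz
  have hsl : Continuous fun u => levz g u z := by
    rw [continuous_iff_continuousAt]
    intro u
    exact ContinuousAt.comp (f := fun u : Cn n => ((z, u) : Cn n × Cn n)) (x := u) (hcg u)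
      (continuousAt_const.prodMk continuousAt_id)
  have hne : ∀ u ∈ Metric.sphere (0 : Cn n) 1, u ≠ 0 := by
    intro u hu h
    rw [h] at hu
    simp at hu
  obtain ⟨m, hm, hmle⟩ : ∃ m : ℝ, 0 < m ∧ ∀ u ∈ Metric.sphere (0 : Cn n) 1, m ≤ levz g u z := by
    rcases (Metric.sphere (0 : Cn n) 1).eq_empty_or_nonempty with h | h
    · exact ⟨1, one_pos, fun u hu => by
        rw [h] at hu
        exact absurd hu (notMem_empty _)⟩
    · obtain ⟨u, hu, hmin⟩ := hK.exists_isMinOn h hsl.continuousOn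
      exact ⟨levz g u z, hpos u (hne u hu), fun v hv => hmin hv⟩
  refine ⟨m / 2, by positivity, ?_⟩
  have hev : ∀ᶠ x in 𝓝 z, ∀ u ∈ Metric.sphere (0 : Cn n) 1, m / 2 < levz g u x := by
    apply hK.eventually_forall_of_forall_eventually
    intro u hu
    exact (hcg u).eventually_const_lt (by
      have := hmle u hu
      change m / 2 < levz g u z
      linarith)
  filter_upwards [hev, hS.mem_nhds hz] with x hx hxS u
  by_cases hu : u = 0
  · rw [hu]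
    have := Bd.levz_smul hS hg hxS 0 0
    simp only [smul_zero] at this
    rw [this]
    simp
  · have hr : 0 < ‖u‖ := norm_pos_iff.2 hu
    have h1 : u = ‖u‖ • (‖u‖⁻¹ • u) := by
      rw [smul_smul, mul_inv_cancel₀ hr.ne', one_smul]
    have h2 : ‖u‖⁻¹ • u ∈ Metric.sphere (0 : Cn n) 1 := by
      rw [mem_sphere_zero_iff_norm, norm_smul, norm_inv, norm_norm, inv_mul_cancel₀ hr.ne']
    have h3 := (hx _ h2).le
    calc m / 2 * ‖u‖ ^ 2 = ‖u‖ ^ 2 * (m / 2) := by ring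
      _ ≤ ‖u‖ ^ 2 * levz g (‖u‖⁻¹ • u) x := mul_le_mul_of_nonneg_left h3 (by positivity)
      _ = levz g u x := by rw [← Bd.levz_smul hS hg hxS, ← h1]

theorem continuous_nsq {n : ℕ} : Continuous (nsq (n := n)) := by
  unfold nsq
  exact (continuous_fst.dotProduct continuous_fst).add (continuous_snd.dotProduct continuous_snd)

variable {n N : ℕ} {M : Type} [TopologicalSpace M] {κ P F : Type} [Fintype F] {T : ℝ}
  (s : Setup n N M κ P F T)

theorem Setup.good (hb : ∃ C : ℝ, ∀ t ∈ Ico 0 T, ∀ c, ∀ z ∈ (s.e c).target,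
      nsq (s.h (s.pc c) ((s.e c).symm z)) ≤ 1 / 2 → ∀ k, lev (s.ψ c) (s.ξ k c z) (t, z) ≤ C)
    {p : M} (hp : p ∉ s.Z) : ∃ c, p ∈ (s.e c).source ∧ ∃ r > 0, ∃ C : ℝ,
      Metric.closedBall (s.e c p) r ⊆ (s.e c).target ∧
      ∀ t ∈ Ico 0 T, ∀ z ∈ Metric.closedBall (s.e c p) r, ∀ u,
        lev (s.ψ c) u (t, z) ≤ C * ‖u‖ ^ 2 := by
  obtain ⟨C0, hC0⟩ := hb
  obtain ⟨c, hc, hlt⟩ := s.core p
  have hz0 : s.e c p ∈ (s.e c).target := (s.e c).map_source hc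
  have hsymm : (s.e c).symm (s.e c p) = p := (s.e c).left_inv hc
  obtain ⟨C1, hC1, hev⟩ := s.local_gen hz0 (by rw [hsymm]; exact hp)
  have hev2 : ∀ᶠ z in 𝓝 (s.e c p), nsq (s.h (s.pc c) ((s.e c).symm z)) < 1 / 2 := by
    have h1 : ContinuousAt (fun z => s.h (s.pc c) ((s.e c).symm z)) (s.e c p) :=
      (s.h_holo c).1.continuousOn.continuousAt ((s.e c).open_target.mem_nhds hz0)
    have h2 : ContinuousAt (fun z => nsq (s.h (s.pc c) ((s.e c).symm z))) (s.e c p) :=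
      continuous_nsq.continuousAt.comp h1
    exact h2.eventually_lt_const (by
      change nsq (s.h (s.pc c) ((s.e c).symm (s.e c p))) < 1 / 2
      rw [hsymm]
      exact hlt)
  obtain ⟨r, hr, hball⟩ := Metric.nhds_basis_closedBall.mem_iff.1
    (inter_mem (inter_mem hev hev2) ((s.e c).open_target.mem_nhds hz0))
  refine ⟨c, hc, r, hr, C1 * ∑ _k : F, max C0 0, fun z hz => (hball hz).2,
    fun t ht z hz u => ?_⟩
  obtain ⟨⟨h1, h2⟩, h3⟩ := hball hz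
  have h4 := h1 _ (s.isQ ht h3) u
  refine h4.trans ?_
  have h5 : ∑ k, lev (s.ψ c) (s.ξ k c z) (t, z) ≤ ∑ _k : F, max C0 0 :=
    Finset.sum_le_sum fun k _ => (hC0 t ht c z h3 (le_of_lt h2) k).trans (le_max_left _ _)
  calc C1 * ‖u‖ ^ 2 * ∑ k, lev (s.ψ c) (s.ξ k c z) (t, z) ≤
        C1 * ‖u‖ ^ 2 * ∑ _k : F, max C0 0 := mul_le_mul_of_nonneg_left h5 (by positivity)
    _ = _ := by ring

theorem Setup.compare (hb : ∃ C : ℝ, ∀ t ∈ Ico 0 T, ∀ c, ∀ z ∈ (s.e c).target,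
      nsq (s.h (s.pc c) ((s.e c).symm z)) ≤ 1 / 2 → ∀ k, lev (s.ψ c) (s.ξ k c z) (t, z) ≤ C)
    (hT : 0 < T) {A : Set M} (hA : IsCompact A) (hAZ : Disjoint A s.Z) :
    ∃ C : ℝ, 0 < C ∧ ∀ t ∈ Ico 0 T, ∀ p ∈ A, ∀ c, p ∈ (s.e c).source → ∀ u,
      lev (s.ψ c) u (t, s.e c p) ≤ C * lev (s.ψ c) u (0, s.e c p) := by
  have h0 : (0 : ℝ) ∈ Ico 0 T := ⟨le_rfl, hT⟩
  refine hA.induction_on (p := fun S : Set M => ∃ C : ℝ, 0 < C ∧ ∀ t ∈ Ico 0 T, ∀ p ∈ S, ∀ c,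
    p ∈ (s.e c).source → ∀ u,
      lev (s.ψ c) u (t, s.e c p) ≤ C * lev (s.ψ c) u (0, s.e c p)) ?_ ?_ ?_ ?_
  · exact ⟨1, one_pos, fun t _ p hp => absurd hp (notMem_empty _)⟩
  · rintro S S' hSS' ⟨C, hC, h⟩
    exact ⟨C, hC, fun t ht p hp => h t ht p (hSS' hp)⟩
  · rintro S S' ⟨C, hC, h⟩ ⟨C', hC', h'⟩
    refine ⟨max C C', lt_max_of_lt_left hC, fun t ht p hp c hc u => ?_⟩
    have hnn : 0 ≤ lev (s.ψ c) u (0, s.e c p) := (s.isQ h0 ((s.e c).map_source hc)).nonneg u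
    rcases hp with hp | hp
    · exact (h t ht p hp c hc u).trans (mul_le_mul_of_nonneg_right (le_max_left _ _) hnn)
    · exact (h' t ht p hp c hc u).trans (mul_le_mul_of_nonneg_right (le_max_right _ _) hnn)
  · intro x hx
    obtain ⟨c0, hc0, r, hr, C, hball, hC⟩ := s.good hb (disjoint_left.1 hAZ hx)
    have hz0 : s.e c0 x ∈ (s.e c0).target := (s.e c0).map_source hc0
    obtain ⟨m, hm, hev⟩ := Bd.levz_lower (s.e c0).open_target (Bd.smooth_psi0 s hT c0) hz0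
      (fun u hu => by
        rw [Bd.levz_psi0 s hT hz0]
        exact s.lev_pos h0 hz0 hu)
    have hcont := (s.e c0).continuousAt hc0
    have hev1 : ∀ᶠ y in 𝓝 x, y ∈ (s.e c0).source ∧ s.e c0 y ∈ Metric.closedBall (s.e c0 x) r ∧
        ∀ u : Cn n, m * ‖u‖ ^ 2 ≤ levz (fun x => s.ψ c0 (0, x)) u (s.e c0 y) := by
      filter_upwards [(s.e c0).open_source.mem_nhds hc0,
        hcont.eventually (Metric.closedBall_mem_nhds _ hr), hcont.eventually hev] with y h1 h2 h3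
      exact ⟨h1, h2, h3⟩
    refine ⟨{y | y ∈ (s.e c0).source ∧ s.e c0 y ∈ Metric.closedBall (s.e c0 x) r ∧
        ∀ u : Cn n, m * ‖u‖ ^ 2 ≤ levz (fun x => s.ψ c0 (0, x)) u (s.e c0 y)},
      mem_nhdsWithin_of_mem_nhds hev1, max C 0 / m + 1, by positivity,
      fun t ht y hy c hc u => ?_⟩
    obtain ⟨hy1, hy2, hy3⟩ := hy
    have hd : s.e c y ∈ dom s.e c c0 := mem_dom hc hy1
    have htr : tr s.e c c0 (s.e c y) = s.e c0 y := tr_apply hc
    rw [s.krf.compat c c0 t ht _ hd u, s.krf.compat c c0 0 h0 _ hd u, htr]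
    set u' := fderiv ℝ (tr s.e c c0) (s.e c y) u with hu'
    have h1 := hC t ht _ hy2 u'
    have h2 := hy3 u'
    rw [Bd.levz_psi0 s hT ((s.e c0).map_source hy1)] at h2
    have h3 : C * ‖u'‖ ^ 2 ≤ max C 0 * ‖u'‖ ^ 2 :=
      mul_le_mul_of_nonneg_right (le_max_left _ _) (by positivity)
    have h4 : max C 0 * ‖u'‖ ^ 2 = max C 0 / m * (m * ‖u'‖ ^ 2) := by
      field_simp
    have h5 : max C 0 / m * (m * ‖u'‖ ^ 2) ≤ max C 0 / m * lev (s.ψ c0) u' (0, s.e c0 y) :=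
      mul_le_mul_of_nonneg_left h2 (by positivity)
    have h6 : 0 ≤ lev (s.ψ c0) u' (0, s.e c0 y) := (s.isQ h0 ((s.e c0).map_source hy1)).nonneg u'
    linarith

end Pool.Agent.KRFS
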