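import Pool.Agent.Work.MP_a2bf38_gt.H.Surf
import Pool.Agent.Work.MP_a2bf38_gt.G.Herm

/-!
# Holomorphic maps of `ℂ^2` in complex coordinates
-/

open scoped ContDiff ENNReal ComplexOrder
open Set Pool.Agent.ToricKRF Pool.Agent.ToricKRF.G

namespace Pool.Agent.KRFS

@[simp] theorem toC_ofC (x : ℂ × ℂ) : toC (ofC x) = x := by
  apply Prod.ext <;> apply Complex.ext <;> simp [toC, ofC]

@[simp] theorem ofC_toC (z : Cn 2) : ofC (toC z) = z := by
  apply Prod.ext <;> funext k <;> fin_cases k <;> simp [toC, ofC]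

theorem toC_injective : Function.Injective toC := fun a b h => by
  rw [← ofC_toC a, h, ofC_toC]

theorem ofC_injective : Function.Injective ofC := fun a b h => by
  rw [← toC_ofC a, h, toC_ofC]

/-- complex coordinates of `ℂ^2` as a real linear equivalence -/
noncomputable def CL : Cn 2 ≃L[ℝ] ℂ × ℂ :=
  LinearEquiv.toContinuousLinearEquiv
    { toFun := toC
      invFun := ofC
      left_inv := ofC_toC
      right_inv := toC_ofC
      map_add' := by
        intro a b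
        apply Prod.ext <;> apply Complex.ext <;> simp [toC]
      map_smul' := by
        intro c a
        apply Prod.ext <;> apply Complex.ext <;> simp [toC] }

@[simp] theorem CL_apply (z : Cn 2) : CL z = toC z := rfl

@[simp] theorem CL_symm_apply (x : ℂ × ℂ) : CL.symm x = ofC x := rfl

theorem toC_add (a b : Cn 2) : toC (a + b) = toC a + toC b := CL.map_add a b

theorem toC_smul (c : ℝ) (a : Cn 2) : toC (c • a) = c • toC a := CL.map_smul c a

theorem ofC_add (a b : ℂ × ℂ) : ofC (a + b) = ofC a + ofC b := CL.symm.map_add a b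

theorem ofC_smul (c : ℝ) (a : ℂ × ℂ) : ofC (c • a) = c • ofC a := CL.symm.map_smul c a

@[simp] theorem ofC_zero : ofC 0 = 0 := CL.symm.map_zero

@[simp] theorem toC_zero : toC 0 = 0 := CL.map_zero

theorem toC_J (u : Cn 2) : toC (J u) = Complex.I • toC u := by
  apply Prod.ext <;> apply Complex.ext <;> simp [toC, J]

theorem ofC_I_smul (x : ℂ × ℂ) : ofC (Complex.I • x) = J (ofC x) := by
  apply toC_injective
  rw [toC_J, toC_ofC, toC_ofC]

theorem continuous_toC : Continuous toC := CL.continuous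

theorem continuous_ofC : Continuous ofC := CL.symm.continuous

theorem hasFDerivAt_lift {g : ℂ × ℂ → ℂ × ℂ} {g' : ℂ × ℂ →L[ℂ] ℂ × ℂ} {z : Cn 2}
    (h : HasFDerivAt g g' (toC z)) :
    HasFDerivAt (fun z => ofC (g (toC z)))
      (((CL.symm : ℂ × ℂ →L[ℝ] Cn 2).comp (g'.restrictScalars ℝ)).comp (CL : Cn 2 →L[ℝ] ℂ × ℂ))
      z := by
  have h1 : HasFDerivAt g (g'.restrictScalars ℝ) (CL z) := h.restrictScalars ℝ
  exact (CL.symm.hasFDerivAt.comp z (h1.comp z CL.hasFDerivAt))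

theorem fderiv_lift {g : ℂ × ℂ → ℂ × ℂ} {g' : ℂ × ℂ →L[ℂ] ℂ × ℂ} {z : Cn 2}
    (h : HasFDerivAt g g' (toC z)) (u : Cn 2) :
    fderiv ℝ (fun z => ofC (g (toC z))) z u = ofC (g' (toC u)) := by
  rw [(hasFDerivAt_lift h).fderiv]
  rfl

theorem holOn_lift {g : ℂ × ℂ → ℂ × ℂ} {S : Set (Cn 2)} (hg : ∀ z ∈ S, ContDiffAt ℂ ∞ g (toC z)) :
    HolOn (fun z => ofC (g (toC z))) S := by
  refine ⟨fun z hz => ?_, fun z hz u => ?_⟩
  · have h1 : ContDiffAt ℝ ∞ g (CL z) := (hg z hz).restrict_scalars ℝ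
    exact (CL.symm.contDiff.contDiffAt.comp z (h1.comp z CL.contDiff.contDiffAt)).contDiffWithinAt
  · have h1 : HasFDerivAt g (fderiv ℂ g (toC z)) (toC z) :=
      ((hg z hz).differentiableAt (by simp)).hasFDerivAt
    rw [fderiv_lift h1, fderiv_lift h1, toC_J, map_smul, ofC_I_smul]

theorem nsq_ofC (x : ℂ × ℂ) : nsq (ofC x) = ‖x.1‖ ^ 2 + ‖x.2‖ ^ 2 := by
  rw [← Complex.normSq_eq_norm_sq, ← Complex.normSq_eq_norm_sq, Complex.normSq_apply,
    Complex.normSq_apply]
  simp [nsq, ofC, dotProduct, Fin.sum_univ_two]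
  ring

theorem nsq_eq_toC (z : Cn 2) : nsq z = ‖(toC z).1‖ ^ 2 + ‖(toC z).2‖ ^ 2 := by
  rw [← nsq_ofC, ofC_toC]

end Pool.Agent.KRFS
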