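import Pool.Agent.Work.MP_a2bf38_gt.H.TEst
import Pool.Agent.Work.MP_a2bf38_gt.H.Exit
import Pool.Agent.Work.MP_a2bf38_gt.H.Dist

/-!
# Paths from the points near `Z` to a compact set away from `Z`
-/

open scoped ContDiff ENNReal ComplexOrder
open Set Filter Topology Pool.Agent.ToricKRF Pool.Agent.ToricKRF.G

namespace Pool.Agent.KRFS

namespace TP

/-! ### The metric in the direction of the real part -/

section form

variable {n : ℕ}

/-- `x ↦ (0, (x, 0))` -/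
noncomputable def i1 (n : ℕ) : (Fin n → ℝ) →L[ℝ] ℝ × Cn n :=
  (ContinuousLinearMap.inr ℝ ℝ (Cn n)).comp
    (ContinuousLinearMap.inl ℝ (Fin n → ℝ) (Fin n → ℝ))

/-- `x ↦ (0, (0, x))` -/
noncomputable def i2 (n : ℕ) : (Fin n → ℝ) →L[ℝ] ℝ × Cn n :=
  (ContinuousLinearMap.inr ℝ ℝ (Cn n)).comp
    (ContinuousLinearMap.inr ℝ (Fin n → ℝ) (Fin n → ℝ))

/-- the metric on the real directions -/
noncomputable def Gf (φ : ℝ × Cn n → ℝ) (q : ℝ × Cn n) :
    (Fin n → ℝ) →L[ℝ] (Fin n → ℝ) →L[ℝ] ℝ :=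
  (1 / 4 : ℝ) • ((fderiv ℝ (fderiv ℝ φ) q).bilinearComp (i1 n) (i1 n) +
    (fderiv ℝ (fderiv ℝ φ) q).bilinearComp (i2 n) (i2 n))

theorem Gf_apply (φ : ℝ × Cn n → ℝ) (q : ℝ × Cn n) (x y : Fin n → ℝ) :
    Gf φ q x y = (fderiv ℝ (fderiv ℝ φ) q (0, (x, 0)) (0, (y, 0)) +
      fderiv ℝ (fderiv ℝ φ) q (0, (0, x)) (0, (0, y))) / 4 := by
  simp [Gf, i1, i2]
  ring

variable {φ : ℝ × Cn n → ℝ} {U : Set (ℝ × Cn n)} (hU : IsOpen U) (hφ : ContDiffOn ℝ ∞ φ U)

include hU hφ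

theorem Gf_self {q : ℝ × Cn n} (hq : q ∈ U) (x : Fin n → ℝ) : Gf φ q x x = Fv φ x q := by
  have h1 : J ((x, 0) : Cn n) = (0, x) := by
    ext k <;> simp [J]
  rw [Gf_apply, ← DD_eq_fderiv_of_mem hU hφ hq, ← DD_eq_fderiv_of_mem hU hφ hq]
  simp only [Fv, lev, h1]

theorem Gf_symm {q : ℝ × Cn n} (hq : q ∈ U) (x y : Fin n → ℝ) : Gf φ q x y = Gf φ q y x := by
  rw [Gf_apply, Gf_apply, ← DD_eq_fderiv_of_mem hU hφ hq, ← DD_eq_fderiv_of_mem hU hφ hq,
    ← DD_eq_fderiv_of_mem hU hφ hq, ← DD_eq_fderiv_of_mem hU hφ hq, D_comm hU hφ hq,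
    D_comm hU hφ hq (0, (0, x))]

theorem contDiffOn_Gf : ContDiffOn ℝ 1 (Gf φ) U := by
  have h1 : ContDiffOn ℝ ∞ (fderiv ℝ φ) U := hφ.fderiv_of_isOpen hU (by simp)
  have h2 : ContDiffOn ℝ ∞ (fderiv ℝ (fderiv ℝ φ)) U := h1.fderiv_of_isOpen hU (by simp)
  have h3 : ContDiffOn ℝ 1 (fderiv ℝ (fderiv ℝ φ)) U := h2.of_le (by exact_mod_cast le_top)
  rw [contDiffOn_clm_apply]
  intro x
  rw [contDiffOn_clm_apply]
  intro y
  have h : (fun q => Gf φ q x y) = fun q =>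
      (fderiv ℝ (fderiv ℝ φ) q (0, (x, 0)) (0, (y, 0)) +
      fderiv ℝ (fderiv ℝ φ) q (0, (0, x)) (0, (0, y))) / 4 := by
    funext q
    exact Gf_apply φ q x y
  rw [h]
  exact (((h3.clm_apply contDiffOn_const).clm_apply contDiffOn_const).add
    ((h3.clm_apply contDiffOn_const).clm_apply contDiffOn_const)).div_const 4

end form

theorem continuous_nsq {n : ℕ} : Continuous (nsq (n := n)) := by
  have : nsq (n := n) = fun z => dotL n z.1 z.1 + dotL n z.2 z.2 := by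
    funext z
    simp only [nsq, dotL_apply]
  rw [this]
  fun_prop

/-- a compact set and a closed condition -/
theorem isCompact_inter {X Y : Type*} [TopologicalSpace X] [TopologicalSpace Y] {K : Set X}
    (hK : IsCompact K) {f : X → Y} (hf : ContinuousOn f K) {C : Set Y} (hC : IsClosed C) :
    IsCompact {x | x ∈ K ∧ f x ∈ C} := by
  have : CompactSpace K := isCompact_iff_compactSpace.1 hK
  have h1 : IsClosed ((K.domRestrict f) ⁻¹' C) := hC.preimage (continuousOn_iff_continuous_domRestrict.1 hf)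
  have h2 : IsCompact ((Subtype.val : K → X) '' ((K.domRestrict f) ⁻¹' C)) :=
    h1.isCompact.image continuous_subtype_val
  convert h2 using 1
  ext x
  constructor
  · rintro ⟨hx, hfx⟩
    exact ⟨⟨x, hx⟩, hfx, rfl⟩
  · rintro ⟨⟨y, hy⟩, hfy, rfl⟩
    exact ⟨hy, hfy⟩

/-- near every point there are points with nonzero coordinates -/
theorem exists_near {n : ℕ} {S : Set (Cn n)} (hS : IsOpen S) {z : Cn n} (hz : z ∈ S) :
    ∃ z' ∈ S, ∀ k, z'.1 k ≠ 0 ∨ z'.2 k ≠ 0 := by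
  have h1 : ∀ᶠ ε : ℝ in 𝓝[>] 0, ((fun k => z.1 k + ε, z.2) : Cn n) ∈ S := by
    have hc : ContinuousAt (fun ε : ℝ => ((fun k => z.1 k + ε, z.2) : Cn n)) 0 := by
      apply Continuous.continuousAt
      fun_prop
    have h2 : ∀ᶠ ε : ℝ in 𝓝 0, ((fun k => z.1 k + ε, z.2) : Cn n) ∈ S := by
      apply hc.eventually_mem (hS.mem_nhds _)
      simpa using hz
    exact nhdsWithin_le_nhds h2
  have h3 : ∀ᶠ ε : ℝ in 𝓝[>] 0, ∀ k, z.1 k + ε ≠ 0 := by
    rw [eventually_all]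
    intro k
    by_cases hk : z.1 k = 0
    · filter_upwards [self_mem_nhdsWithin] with ε hε
      rw [hk, zero_add]
      exact (ne_of_gt hε)
    · have hc : ContinuousAt (fun ε : ℝ => z.1 k + ε) 0 := by fun_prop
      have h2 : ∀ᶠ ε : ℝ in 𝓝 0, z.1 k + ε ≠ 0 := by
        apply hc.eventually_ne
        simpa using hk
      exact nhdsWithin_le_nhds h2
  obtain ⟨ε, h4, h5⟩ := (h1.and h3).exists
  exact ⟨_, h4, fun k => Or.inl (h5 k)⟩

end TP

open TP TB

section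

variable {n N : ℕ} {M : Type} [TopologicalSpace M] {κ P F : Type} [Fintype F] {T : ℝ}
  {s : Setup n N M κ P F T} {j : P} {ι : Type}

theorem Setup.continuousOn_nsq (s : Setup n N M κ P F T) (c : κ) :
    ContinuousOn (fun p => nsq (s.h (s.pc c) p)) (s.e c).source := by
  have h1 : ContinuousOn (fun z => s.h (s.pc c) ((s.e c).symm z)) (s.e c).target :=
    (s.h_holo c).1.continuousOn
  have h2 : ContinuousOn (fun p => s.h (s.pc c) ((s.e c).symm (s.e c p))) (s.e c).source :=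
    h1.comp (s.e c).continuousOn fun p hp => (s.e c).map_source hp
  have h3 : ContinuousOn (fun p => s.h (s.pc c) p) (s.e c).source :=
    h2.congr fun p hp => by simp only [(s.e c).left_inv hp]
  exact continuous_nsq.comp_continuousOn h3

theorem TPiece.Dat.continuousOn_τ {d : TPiece s j ι} {c : κ} (D : d.Dat c) :
    ContinuousOn d.τ d.reg := by
  have h1 : ContinuousOn (fun w => (s.e c).symm (eL D.L w)) d.reg :=
    (s.e c).symm.continuousOn.comp (contDiff_eL D.L).continuous.continuousOn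
      fun w hw => D.mem_target hw
  exact h1.congr fun w hw => (D.symm_eq hw).symm

/-- the length of the image of a curve in the real directions -/
theorem TPiece.Dat.exists_curve [Fintype ι] {d : TPiece s j ι} {c : κ} (D : d.Dat c) {C : ℝ}
    (hC : 0 < C) {t : ℝ} (ht : t ∈ Ico 0 T) (hgood : GoodOn d.ν d.B C (d.φ c) t) {w : Cn n}
    (hw : rho d.B w.1 < 1 / 4) :
    ∃ a : Fin n → ℝ, rho d.B a ≤ 1 / 3 ∧ (rho d.B a = 1 / 3 ∨
      rad a ≤ (2 + 2 * (Fintype.card ι : ℝ) + max C 0 * (1 + ∑ i, rad (d.ν i))) / 2 + 1) ∧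
      rdist s.e s.ψ t (d.τ w) (d.τ (a, w.2)) ≤
        ENNReal.ofReal (√2 * (1 + ∑ i, rad (d.ν i))) := by
  set b := w.2 with hb
  have hM0 : 0 < 1 + ∑ i, rad (d.ν i) := by
    have : 0 ≤ ∑ i, rad (d.ν i) := Finset.sum_nonneg fun i _ => (rad_pos _).le
    linarith
  have hK0 : 0 ≤ 2 + 2 * (Fintype.card ι : ℝ) + max C 0 * (1 + ∑ i, rad (d.ν i)) := by
    have : 0 ≤ max C 0 := le_max_right _ _
    positivity
  have hmem : ∀ a : Fin n → ℝ, rho d.B a < 1 → (t, (a, b)) ∈ D.V := fun a ha =>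
    D.sub_V ⟨ht, ha⟩
  have hpos : ∀ a : Fin n → ℝ, rho d.B a < 1 → ∀ v, v ≠ 0 → 0 < Gf (d.φ c) (t, (a, b)) v v := by
    intro a ha v hv
    rw [Gf_self D.isOpen_V D.smooth (hmem a ha)]
    exact lev_pos D.isOpen_V D.smooth (hmem a ha) (D.pos ht ha)
      fun h => hv (congrArg Prod.fst h)
  have hG : ContDiffOn ℝ 1 (fun a => Gf (d.φ c) (t, (a, b))) {a | rho d.B a < 1} := by
    refine (contDiffOn_Gf D.isOpen_V D.smooth).comp ?_ hmem
    exact (contDiff_const.prodMk (contDiff_id.prodMk contDiff_const)).contDiffOn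
  obtain ⟨γ, hγ0, hexit, hle, hγC, hL⟩ := exists_exit_path hG hpos hM0 hK0 (by
    intro a ha hKa
    have ha1 : rho d.B a < 1 := by linarith
    refine q_lower (hpos a ha1) (Gf_symm D.isOpen_V D.smooth (hmem a ha1)) d.ν a ?_ hKa
    intro e
    simp only [Gf_self D.isOpen_V D.smooth (hmem a ha1)]
    exact hgood.B_le (a, b) ha e) hw
  have hreg : ∀ r ∈ Icc (0 : ℝ) 1, ((γ r, b) : Cn n) ∈ d.reg := fun r hr =>
    lt_of_le_of_lt (hle r hr) (by norm_num)
  have h0 : (0 : ℝ) ∈ Icc (0 : ℝ) 1 := ⟨le_rfl, zero_le_one⟩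
  have h1 : (1 : ℝ) ∈ Icc (0 : ℝ) 1 := ⟨zero_le_one, le_rfl⟩
  refine ⟨γ 1, hle 1 h1, hexit, ?_⟩
  have hcurve : ChartCurve s.e c (fun r => eL D.L (γ r, b)) (d.τ w) (d.τ (γ 1, b)) := by
    have hw' : ((γ 0, b) : Cn n) = w := by rw [hγ0]
    refine ⟨fun r hr => ?_, fun r hr => D.mem_target (hreg r hr), ⟨?_, ?_⟩, ⟨?_, ?_⟩⟩
    · have h2 : ContDiffAt ℝ 1 (fun r => ((γ r, b) : Cn n)) r := (hγC r hr).prodMk contDiffAt_const
      have h3 : ContDiffAt ℝ 1 (eL D.L) (γ r, b) :=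
        ((contDiff_eL D.L).of_le (WithTop.coe_le_coe.2 le_top)).contDiffAt
      exact (h3.comp r h2).contDiffWithinAt
    · rw [← hw']
      exact D.mem _ (hreg 0 h0)
    · rw [← hw']
      exact (D.eq _ (hreg 0 h0)).symm
    · exact D.mem _ (hreg 1 h1)
    · exact (D.eq _ (hreg 1 h1)).symm
  refine (rdist_le s hcurve).trans (ENNReal.ofReal_le_ofReal ?_)
  have h2 : clen s.ψ t c (fun r => eL D.L (γ r, b)) =
      √2 * ∫ r in (0 : ℝ)..1, √(Gf (d.φ c) (t, (γ r, b)) (deriv γ r) (deriv γ r)) := by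
    rw [← intervalIntegral.integral_const_mul]
    apply intervalIntegral.integral_congr
    intro r hr
    rw [uIcc_of_le zero_le_one] at hr
    have h3 : HasDerivAt (fun r => ((γ r, b) : Cn n)) (deriv γ r, 0) r :=
      ((hγC r hr).differentiableAt one_ne_zero).hasDerivAt.prodMk (hasDerivAt_const r b)
    have h4 : HasFDerivAt (eL D.L) (fderiv ℝ (eL D.L) (γ r, b)) (γ r, b) :=
      ((contDiff_eL D.L).differentiable (by simp) _).hasFDerivAt
    have h5 := h4.comp_hasDerivAt r h3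
    have h6 : deriv (fun r => eL D.L (γ r, b)) r = fderiv ℝ (eL D.L) (γ r, b) (deriv γ r, 0) :=
      h5.deriv
    simp only
    rw [h6, ← D.lev_eq ht (hreg r hr), Gf_self D.isOpen_V D.smooth (hmem _ (hreg r hr)),
      Real.sqrt_mul (by norm_num)]
    rfl
  rw [h2]
  exact mul_le_mul_of_nonneg_left hL (Real.sqrt_nonneg _)

theorem TPiece.near_Z [Fintype ι] (d : TPiece s j ι) {c : κ} (hc : s.pc c = j)
    (hgood : ∃ C : ℝ, 0 < C ∧ ∀ t ∈ Ico 0 T, GoodOn d.ν d.B C (d.φ c) t)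
    {p : M} (hp : p ∈ s.Z) (hpj : ∃ c, s.pc c = j ∧ p ∈ (s.e c).source) :
    ∃ W ∈ 𝓝 p, ∃ A : Set M, IsCompact A ∧ Disjoint A s.Z ∧ ∃ C : ℝ,
      ∀ t ∈ Ico 0 T, ∀ q ∈ W, ∃ q' ∈ A, rdist s.e s.ψ t q q' ≤ ENNReal.ofReal C := by
  obtain ⟨C, hC, hgood⟩ := hgood
  obtain ⟨c1, hc1, hpc1⟩ := hpj
  obtain ⟨D⟩ := d.exists_dat hc
  set M0 : ℝ := 1 + ∑ i, rad (d.ν i) with hM0
  have hM0pos : 0 < M0 := by
    have : 0 ≤ ∑ i, rad (d.ν i) := Finset.sum_nonneg fun i _ => (rad_pos _).le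
    rw [hM0]
    linarith
  set R : ℝ := (2 + 2 * (Fintype.card ι : ℝ) + max C 0 * M0) / 2 + 1 with hR
  -- the neighborhood
  set W : Set M := {q | q ∈ (s.e c1).source ∧ nsq (s.h j q) < 1 / 4} with hW
  have hWopen : IsOpen W := by
    have h1 := (s.continuousOn_nsq c1).isOpen_inter_preimage (s.e c1).open_source
      (isOpen_Iio (a := (1 / 4 : ℝ)))
    rw [hc1] at h1
    exact h1
  have hpW : p ∈ W := by
    refine ⟨hpc1, ?_⟩
    rw [(d.mem_Z c1 hc1 p hpc1).1 hp]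
    norm_num
  -- the compact sets
  set A1 : Set M := {q | q ∈ {q | (∃ c, s.pc c = j ∧ q ∈ (s.e c).source) ∧ nsq (s.h j q) ≤ 1 / 3} ∧
    nsq (s.h j q) ∈ ({1 / 3} : Set ℝ)} with hA1
  have hA1c : IsCompact A1 := by
    refine isCompact_inter (s.proper j (1 / 3) (by norm_num)) ?_ isClosed_singleton
    rintro q ⟨⟨c', hc', hq⟩, -⟩
    have h1 := (s.continuousOn_nsq c').continuousAt ((s.e c').open_source.mem_nhds hq)
    rw [hc'] at h1
    exact h1.continuousWithinAt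
  set S : Set (Cn n) := {w : Cn n | rad w.1 ≤ R ∧ rho d.B w.1 ≤ 1 / 3 ∧
    ∀ k, w.2 k ∈ Icc (0 : ℝ) (2 * Real.pi)} with hS
  have hSc : IsCompact S := by
    have h1 : IsClosed S := by
      have e1 : IsClosed {w : Cn n | rad w.1 ≤ R} :=
        isClosed_le ((contDiff_rad n).continuous.comp continuous_fst) continuous_const
      have e2 : IsClosed {w : Cn n | rho d.B w.1 ≤ 1 / 3} :=
        isClosed_le ((TB.continuous_rho d.B).comp continuous_fst) continuous_const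
      have e3 : IsClosed {w : Cn n | ∀ k, w.2 k ∈ Icc (0 : ℝ) (2 * Real.pi)} := by
        have : {w : Cn n | ∀ k, w.2 k ∈ Icc (0 : ℝ) (2 * Real.pi)} =
            ⋂ k, {w : Cn n | w.2 k ∈ Icc (0 : ℝ) (2 * Real.pi)} := by
          ext w
          simp
        rw [this]
        refine isClosed_iInter fun k => ?_
        exact isClosed_Icc.preimage (by fun_prop)
      exact e1.inter (e2.inter e3)
    refine IsCompact.of_isClosed_subset ((isCompact_closedBall (0 : Fin n → ℝ) R).prod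
      (isCompact_univ_pi fun _ => isCompact_Icc (a := (0 : ℝ)) (b := 2 * Real.pi))) h1 ?_
    rintro w ⟨hw1, -, hw2⟩
    refine ⟨?_, fun k _ => hw2 k⟩
    rw [mem_closedBall_zero_iff]
    exact (norm_le_rad w.1).trans hw1
  have hSreg : S ⊆ d.reg := fun w hw => lt_of_le_of_lt hw.2.1 (by norm_num)
  have hA2c : IsCompact (d.τ '' S) := hSc.image_of_continuousOn (D.continuousOn_τ.mono hSreg)
  refine ⟨W, hWopen.mem_nhds hpW, A1 ∪ d.τ '' S, hA1c.union hA2c, ?_, √2 * M0 + 1, ?_⟩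
  · rw [disjoint_union_left]
    constructor
    · rw [disjoint_left]
      rintro q ⟨⟨⟨c', hc', hq⟩, -⟩, hq2⟩ hqZ
      have h1 := (d.mem_Z c' hc' q hq).1 hqZ
      rw [mem_singleton_iff, h1] at hq2
      norm_num at hq2
    · rw [disjoint_left]
      rintro _ ⟨w, hw, rfl⟩ hqZ
      have h1 := (d.mem_Z c hc _ (D.mem w (hSreg hw))).1 hqZ
      rw [d.nsq_τ w (hSreg hw)] at h1
      have h2 : 0 < rho d.B w.1 := by
        unfold rho
        exact Finset.sum_pos (fun m _ => Real.exp_pos _) d.B_ne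
      linarith
  intro t ht q hq
  -- the points of the open orbit
  have horb : ∀ q ∈ W, (∀ k, (s.e c1 q).1 k ≠ 0 ∨ (s.e c1 q).2 k ≠ 0) →
      ∃ q' ∈ A1 ∪ d.τ '' S, rdist s.e s.ψ t q q' ≤ ENNReal.ofReal (√2 * M0) := by
    intro q hq hk
    obtain ⟨w0, hw0, hτ0⟩ := d.dense c1 hc1 q hq.1 hk
    -- reduce the second component
    set m : Fin n → ℤ := fun k => -⌊w0.2 k / (2 * Real.pi)⌋ with hm
    set w : Cn n := (w0.1, fun k => w0.2 k + 2 * Real.pi * m k) with hw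
    have hτ : d.τ w = q := by
      rw [hw, d.periodic w0 m, hτ0]
    have hpi : 0 < 2 * Real.pi := by positivity
    have hw2 : ∀ k, w.2 k ∈ Icc (0 : ℝ) (2 * Real.pi) := by
      intro k
      have h1 : w.2 k = 2 * Real.pi * Int.fract (w0.2 k / (2 * Real.pi)) := by
        simp only [hw, hm, Int.fract]
        push_cast
        field_simp
        ring
      rw [h1]
      have h2 := (Int.fract_lt_one (w0.2 k / (2 * Real.pi))).le
      have h3 := Int.fract_nonneg (w0.2 k / (2 * Real.pi))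
      constructor
      · positivity
      · nlinarith
    have hρ : rho d.B w.1 < 1 / 4 := by
      have h1 := d.nsq_τ w hw0
      rw [hτ] at h1
      rw [← h1]
      exact hq.2
    obtain ⟨a, ha1, ha2, ha3⟩ := D.exists_curve hC ht (hgood t ht) hρ
    refine ⟨d.τ (a, w.2), ?_, by rw [← hτ]; exact ha3⟩
    have hareg : ((a, w.2) : Cn n) ∈ d.reg := lt_of_le_of_lt ha1 (by norm_num)
    rcases ha2 with h | h
    · left
      refine ⟨⟨⟨c, hc, D.mem _ hareg⟩, ?_⟩, ?_⟩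
      · rw [d.nsq_τ _ hareg]
        exact ha1
      · rw [mem_singleton_iff, d.nsq_τ _ hareg]
        exact h
    · right
      exact ⟨(a, w.2), ⟨h, ha1, hw2⟩, rfl⟩
  -- a nearby point of the open orbit
  have hsm := rdist_small s ht q (ε := 1) one_pos
  obtain ⟨O, hO, hOo, hqO⟩ := mem_nhds_iff.1 hsm
  set O' : Set M := O ∩ W with hO'
  have hO'o : IsOpen O' := hOo.inter hWopen
  set Z' : Set (Cn n) := (s.e c1).target ∩ (s.e c1).symm ⁻¹' O' with hZ'
  have hZo : IsOpen Z' := (s.e c1).isOpen_inter_preimage_symm hO'o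
  have hqZ : s.e c1 q ∈ Z' := by
    refine ⟨(s.e c1).map_source hq.1, ?_⟩
    rw [mem_preimage, (s.e c1).left_inv hq.1]
    exact ⟨hqO, hq⟩
  obtain ⟨z', hz', hk⟩ := exists_near hZo hqZ
  have hq1 : (s.e c1).symm z' ∈ O' := hz'.2
  have hez : s.e c1 ((s.e c1).symm z') = z' := (s.e c1).right_inv hz'.1
  obtain ⟨q', hq', hd'⟩ := horb _ hq1.2 (by rw [hez]; exact hk)
  refine ⟨q', hq', ?_⟩
  have h1 : rdist s.e s.ψ t q ((s.e c1).symm z') ≤ ENNReal.ofReal 1 := hO hq1.1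
  calc rdist s.e s.ψ t q q' ≤ rdist s.e s.ψ t q ((s.e c1).symm z') +
        rdist s.e s.ψ t ((s.e c1).symm z') q' := rdist_triangle s _ _ _
    _ ≤ ENNReal.ofReal 1 + ENNReal.ofReal (√2 * M0) := add_le_add h1 hd'
    _ = ENNReal.ofReal (√2 * M0 + 1) := by
        rw [← ENNReal.ofReal_add zero_le_one (by positivity), add_comm]

end

end Pool.Agent.KRFS
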