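import Pool.Agent.Work.MP_a2bf38_gt.H.Cut
import Pool.Agent.Work.MP_a2bf38_gt.H.Good
import Pool.Agent.Work.MP_a2bf38_gt.H.Conn
import Pool.Agent.Work.MP_a2bf38_gt.H.TPath
import Pool.Agent.Work.MP_a2bf38_gt.H.Build3

/-!
# The diameter bound
-/

open scoped ContDiff ENNReal ComplexOrder
open Set Filter Topology Pool.Agent.ToricKRF Pool.Agent.ToricKRF.G

namespace Pool.Agent.KRFS

theorem Setup.main {n N : ℕ} {M : Type} [TopologicalSpace M] {κ P F : Type} [Fintype F] {T : ℝ}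
    [CompactSpace M] [T2Space M] [PreconnectedSpace M] [Finite κ] [Finite P]
    (s : Setup n N M κ P F T) (hd : Dense s.Zᶜ)
    (hloc : ∀ p ∈ s.Z, ∃ W, IsOpen W ∧ p ∈ W ∧ IsPreconnected (W \ s.Z))
    (htor : ∀ p ∈ s.Z, ∃ (j : P) (ι : Type) (_ : Fintype ι) (_ : TPiece s j ι) (c : κ),
      s.pc c = j ∧ p ∈ (s.e c).source) :
    ⨆ t ∈ Ico 0 T, rdiam s.e s.ψ t < ⊤ := by
  by_cases hT : 0 < T
  · have hb := s.fields_bounded
    refine s.diam_bounded (fun p hp => s.good hb hp) (isPreconnected_compl s.isClosed_Z hd hloc) ?_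
    intro p hp
    obtain ⟨j, ι, _, d, c, hc, hpc⟩ := htor p hp
    exact d.near_Z hc (d.uniform hc hT fun A hA hAZ => s.compare hb hT hA hAZ) hp ⟨c, hc, hpc⟩
  · have : Ico (0 : ℝ) T = ∅ := Ico_eq_empty hT
    simp [this]

/-- The diameter is bounded along a Kähler-Ricci flow on a compact complex surface whose limit class
is the pull-back of a Kähler class under a contraction. -/
theorem surface_diam_bounded {M : Type} [TopologicalSpace M] [CompactSpace M] [T2Space M]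
    [ConnectedSpace M] {κ P : Type} [Finite P] {e : κ → OpenPartialHomeomorph M (Cn 2)}
    {pc : κ → P} {ch : κ → Ch} {kind : P → Kind} {T : ℝ} {ψ : κ → ℝ × Cn 2 → ℝ}
    {Ω : κ → Cn 2 → ℝ} {K : P → Cn 2 → ℝ} (hc : IsContraction e pc ch kind) (ha : IsAtlas e)
    (hψ : IsKRF e T ψ) (hK : IsLimitClass e pc ch T ψ Ω K) :
    ⨆ t ∈ Ico 0 T, rdiam e ψ t < ⊤ := by
  have := Surf.finite_κ hc
  refine (Surf.mkSetup hc ha hψ hK).main (Surf.dense_Zs hc) (fun p hp => Surf.loc_Zs hc hp) ?_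
  rintro p ⟨c, h1, h2, h3⟩
  exact ⟨pc c, Fin 4, inferInstance, Surf.mkPiece hc ha hψ hK c h2, c, rfl, h1⟩

end Pool.Agent.KRFS
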