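import Pool.Agent.Work.MP_a2bf38_gt.H.Lift

/-!
# The local models: changes of charts and vector fields
-/

open scoped ContDiff ENNReal ComplexOrder
open Set Pool.Agent.ToricKRF Pool.Agent.ToricKRF.G

namespace Pool.Agent.KRFS

theorem contDiff_base (a : Ch) : ContDiff ℂ ∞ a.base := by
  cases a
  · exact (by fun_prop : ContDiff ℂ ∞ fun z : ℂ × ℂ => (z.1, z.2))
  · exact (by fun_prop : ContDiff ℂ ∞ fun z : ℂ × ℂ => (z.1, z.1 * z.2))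
  · exact (by fun_prop : ContDiff ℂ ∞ fun z : ℂ × ℂ => (z.1 * z.2, z.1))
  · exact (by fun_prop : ContDiff ℂ ∞ fun z : ℂ × ℂ => (z.1, (0 : ℂ)))
  · exact (by fun_prop : ContDiff ℂ ∞ fun z : ℂ × ℂ => (z.1, (0 : ℂ)))
  · exact (by fun_prop : ContDiff ℂ ∞ fun z : ℂ × ℂ => (z.1 * z.2, (0 : ℂ)))
  · exact (by fun_prop : ContDiff ℂ ∞ fun z : ℂ × ℂ => (z.1, (0 : ℂ)))
  · exact (by fun_prop : ContDiff ℂ ∞ fun z : ℂ × ℂ => (z.1, (0 : ℂ)))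

/-- the derivative of the change of charts -/
noncomputable def Ch.dtr : Ch → Ch → ℂ × ℂ → ℂ × ℂ → ℂ × ℂ
  | p0, p1, z, u => (z.1 * u.2 + z.2 * u.1, -((z.2 ^ 2)⁻¹ * u.2))
  | p1, p0, z, u => (z.1 * u.2 + z.2 * u.1, -((z.2 ^ 2)⁻¹ * u.2))
  | r0, r1, z, u => (u.1, -((z.2 ^ 2)⁻¹ * u.2))
  | r1, r0, z, u => (u.1, -((z.2 ^ 2)⁻¹ * u.2))
  | n0, n1, z, u => (z.1 * u.2 + z.2 * u.1, -((z.2 ^ 2)⁻¹ * u.2))
  | n1, n0, z, u => (z.1 * u.2 + z.2 * u.1, -((z.2 ^ 2)⁻¹ * u.2))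
  | n0, n2, z, u => (z.1 * u.2 + z.2 * u.1, -((z.1 ^ 2)⁻¹ * u.1))
  | n2, n0, z, u => (-((z.2 ^ 2)⁻¹ * u.2), z.1 * u.2 + z.2 * u.1)
  | n1, n2, z, u => (u.1, -(((z.1 * z.2) ^ 2)⁻¹ * (z.1 * u.2 + z.2 * u.1)))
  | n2, n1, z, u => (u.1, -(((z.1 * z.2) ^ 2)⁻¹ * (z.1 * u.2 + z.2 * u.1)))
  | _, _, _, u => u

theorem hasFDerivAt_mul' (p : ℂ × ℂ) : HasFDerivAt (fun p : ℂ × ℂ => p.1 * p.2)
    (p.1 • (ContinuousLinearMap.snd ℂ ℂ ℂ) + p.2 • (ContinuousLinearMap.fst ℂ ℂ ℂ)) p :=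
  hasFDerivAt_fst.mul hasFDerivAt_snd

theorem hasFDerivAt_inv' {f : ℂ × ℂ → ℂ} {f' : ℂ × ℂ →L[ℂ] ℂ} {p : ℂ × ℂ}
    (hf : HasFDerivAt f f' p) (h : f p ≠ 0) :
    HasFDerivAt (fun p => 1 / f p) ((-((f p) ^ 2)⁻¹) • f') p := by
  have h1 := (hasDerivAt_inv h).comp_hasFDerivAt p hf
  have h2 : (fun p => 1 / f p) = (fun y => y⁻¹) ∘ f := by
    funext p
    simp
  rw [h2]
  exact h1

/-- the change of charts is complex differentiable, with the derivative `dtr` -/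
theorem exists_fderiv_tr {a a' : Ch} {p : ℂ × ℂ} (h : a.mem a' p) :
    ∃ g' : ℂ × ℂ →L[ℂ] ℂ × ℂ, HasFDerivAt (a.tr a') g' p ∧ ∀ u, g' u = a.dtr a' p u := by
  have h1 : HasFDerivAt (fun p : ℂ × ℂ => p.1) (ContinuousLinearMap.fst ℂ ℂ ℂ) p :=
    hasFDerivAt_fst
  have h2 : HasFDerivAt (fun p : ℂ × ℂ => p.2) (ContinuousLinearMap.snd ℂ ℂ ℂ) p :=
    hasFDerivAt_snd
  have h3 := hasFDerivAt_mul' p
  cases a <;> cases a' <;> simp only [Ch.mem] at h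
  · exact ⟨_, h3.prodMk (hasFDerivAt_inv' h2 h), fun u => by simp [Ch.dtr]⟩
  · exact ⟨_, h3.prodMk (hasFDerivAt_inv' h2 h), fun u => by simp [Ch.dtr]⟩
  · exact ⟨_, h1.prodMk (hasFDerivAt_inv' h2 h), fun u => by simp [Ch.dtr]⟩
  · exact ⟨_, h1.prodMk (hasFDerivAt_inv' h2 h), fun u => by simp [Ch.dtr]⟩
  · exact ⟨_, h3.prodMk (hasFDerivAt_inv' h2 h), fun u => by simp [Ch.dtr]⟩
  · exact ⟨_, h3.prodMk (hasFDerivAt_inv' h1 h), fun u => by simp [Ch.dtr]⟩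
  · exact ⟨_, h3.prodMk (hasFDerivAt_inv' h2 h), fun u => by simp [Ch.dtr]⟩
  · exact ⟨_, h1.prodMk (hasFDerivAt_inv' h3 (mul_ne_zero h.1 h.2)), fun u => by
      simp only [Ch.dtr, ContinuousLinearMap.prod_apply, smul_apply, add_apply, smul_eq_mul,
        ContinuousLinearMap.coe_fst', ContinuousLinearMap.coe_snd', neg_mul]⟩
  · exact ⟨_, (hasFDerivAt_inv' h2 h).prodMk h3, fun u => by simp [Ch.dtr]⟩
  · exact ⟨_, h1.prodMk (hasFDerivAt_inv' h3 (mul_ne_zero h.1 h.2)), fun u => by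
      simp only [Ch.dtr, ContinuousLinearMap.prod_apply, smul_apply, add_apply, smul_eq_mul,
        ContinuousLinearMap.coe_fst', ContinuousLinearMap.coe_snd', neg_mul]⟩

/-- the base coordinates do not depend on the chart -/
theorem base_tr {a a' : Ch} {p : ℂ × ℂ} (h : a.mem a' p) : a'.base (a.tr a' p) = a.base p := by
  cases a <;> cases a' <;> simp only [Ch.mem] at h <;> simp only [Ch.tr, Ch.base] <;>
    first
    | rfl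
    | (refine Prod.ext ?_ ?_ <;> field_simp)

/-- The vector fields on the local models:
`∂_1, ∂_2`; `x ∂_x, y ∂_y, x ∂_y, y ∂_x`; `∂_t, ∂_u, ∂_v`; `x ∂_x, y ∂_y, ∂_u, ∂_v`. -/
noncomputable def Ch.fld : Fin 4 → Ch → ℂ × ℂ → ℂ × ℂ
  | 0, b0, _ => (1, 0)
  | 1, b0, _ => (0, 1)
  | 2, b0, _ => (0, 0)
  | 3, b0, _ => (0, 0)
  | 0, p0, z => (z.1, -z.2)
  | 0, p1, z => (0, z.2)
  | 1, p0, z => (0, z.2)
  | 1, p1, z => (z.1, -z.2)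
  | 2, p0, _ => (0, 1)
  | 2, p1, z => (z.1 * z.2, -z.2 ^ 2)
  | 3, p0, z => (z.1 * z.2, -z.2 ^ 2)
  | 3, p1, _ => (0, 1)
  | 0, r0, _ => (1, 0)
  | 0, r1, _ => (1, 0)
  | 1, r0, _ => (0, 1)
  | 1, r1, z => (0, -z.2 ^ 2)
  | 2, r0, z => (0, -z.2 ^ 2)
  | 2, r1, _ => (0, 1)
  | 3, r0, _ => (0, 0)
  | 3, r1, _ => (0, 0)
  | 0, n0, z => (z.1, 0)
  | 0, n1, z => (z.1, 0)
  | 0, n2, z => (z.1, -z.2)
  | 1, n0, z => (0, z.2)
  | 1, n1, z => (z.1, -z.2)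
  | 1, n2, z => (z.1, 0)
  | 2, n0, z => (z.1 * z.2, -z.2 ^ 2)
  | 2, n1, _ => (0, 1)
  | 2, n2, z => (0, -(z.1 * z.2 ^ 2))
  | 3, n0, z => (-z.1 ^ 2, z.1 * z.2)
  | 3, n1, z => (0, -(z.1 * z.2 ^ 2))
  | 3, n2, _ => (0, 1)

theorem contDiff_fld (k : Fin 4) (a : Ch) : ContDiff ℂ ∞ (Ch.fld k a) := by
  have h1 : ContDiff ℂ ∞ fun z : ℂ × ℂ => z.1 := contDiff_fst
  have h2 : ContDiff ℂ ∞ fun z : ℂ × ℂ => z.2 := contDiff_snd
  have h0 : ∀ c : ℂ, ContDiff ℂ ∞ fun _ : ℂ × ℂ => c := fun c => contDiff_const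
  match k, a with
  | 0, .b0 => exact (h0 1).prodMk (h0 0)
  | 1, .b0 => exact (h0 0).prodMk (h0 1)
  | 2, .b0 => exact (h0 0).prodMk (h0 0)
  | 3, .b0 => exact (h0 0).prodMk (h0 0)
  | 0, .p0 => exact h1.prodMk h2.neg
  | 0, .p1 => exact (h0 0).prodMk h2
  | 1, .p0 => exact (h0 0).prodMk h2
  | 1, .p1 => exact h1.prodMk h2.neg
  | 2, .p0 => exact (h0 0).prodMk (h0 1)
  | 2, .p1 => exact (h1.mul h2).prodMk (h2.pow 2).neg
  | 3, .p0 => exact (h1.mul h2).prodMk (h2.pow 2).neg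
  | 3, .p1 => exact (h0 0).prodMk (h0 1)
  | 0, .r0 => exact (h0 1).prodMk (h0 0)
  | 0, .r1 => exact (h0 1).prodMk (h0 0)
  | 1, .r0 => exact (h0 0).prodMk (h0 1)
  | 1, .r1 => exact (h0 0).prodMk (h2.pow 2).neg
  | 2, .r0 => exact (h0 0).prodMk (h2.pow 2).neg
  | 2, .r1 => exact (h0 0).prodMk (h0 1)
  | 3, .r0 => exact (h0 0).prodMk (h0 0)
  | 3, .r1 => exact (h0 0).prodMk (h0 0)
  | 0, .n0 => exact h1.prodMk (h0 0)
  | 0, .n1 => exact h1.prodMk (h0 0)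
  | 0, .n2 => exact h1.prodMk h2.neg
  | 1, .n0 => exact (h0 0).prodMk h2
  | 1, .n1 => exact h1.prodMk h2.neg
  | 1, .n2 => exact h1.prodMk (h0 0)
  | 2, .n0 => exact (h1.mul h2).prodMk (h2.pow 2).neg
  | 2, .n1 => exact (h0 0).prodMk (h0 1)
  | 2, .n2 => exact (h0 0).prodMk (h1.mul (h2.pow 2)).neg
  | 3, .n0 => exact (h1.pow 2).neg.prodMk (h1.mul h2)
  | 3, .n1 => exact (h0 0).prodMk (h1.mul (h2.pow 2)).neg
  | 3, .n2 => exact (h0 0).prodMk (h0 1)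

/-- the fields do not depend on the chart -/
theorem fld_tr (k : Fin 4) {a a' : Ch} {p : ℂ × ℂ} (h : a.mem a' p) :
    Ch.fld k a' (a.tr a' p) = a.dtr a' p (Ch.fld k a p) := by
  fin_cases k <;> cases a <;> cases a' <;> simp only [Ch.mem] at h <;>
    simp only [Ch.tr, Ch.fld, Ch.dtr] <;>
    first
    | (refine Prod.ext ?_ ?_ <;> field_simp <;> ring1)
    | (obtain ⟨h1, h2⟩ := h; refine Prod.ext ?_ ?_ <;> field_simp <;> ring1)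

/-- the fields generate the tangent space where `f` is not at the centre of a singular model -/
theorem exists_gen {a : Ch} {p : ℂ × ℂ} (h : a.kind.Singular → a.base p ≠ 0) (u : ℂ × ℂ) :
    ∃ α : Fin 4 → ℂ, u = ∑ k, α k • Ch.fld k a p := by
  cases a
  · refine ⟨![u.1, u.2, 0, 0], ?_⟩
    simp [Fin.sum_univ_four, Ch.fld]
  · have h1 : p.1 ≠ 0 := fun h0 => h trivial (by simp [Ch.base, h0])
    refine ⟨![u.1 / p.1, 0, u.2 + p.2 * u.1 / p.1, 0], ?_⟩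
    simp only [Fin.sum_univ_four, Ch.fld]
    refine Prod.ext ?_ ?_ <;> simp <;> field_simp <;> ring
  · have h1 : p.1 ≠ 0 := fun h0 => h trivial (by simp [Ch.base, h0])
    refine ⟨![0, u.1 / p.1, 0, u.2 + p.2 * u.1 / p.1], ?_⟩
    simp only [Fin.sum_univ_four, Ch.fld]
    refine Prod.ext ?_ ?_ <;> simp <;> field_simp <;> ring
  · refine ⟨![u.1, u.2, 0, 0], ?_⟩
    simp [Fin.sum_univ_four, Ch.fld]
  · refine ⟨![u.1, 0, u.2, 0], ?_⟩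
    simp [Fin.sum_univ_four, Ch.fld]
  · have h1 : p.1 ≠ 0 := fun h0 => h trivial (by simp [Ch.base, h0])
    have h2 : p.2 ≠ 0 := fun h0 => h trivial (by simp [Ch.base, h0])
    refine ⟨![u.1 / p.1, u.2 / p.2, 0, 0], ?_⟩
    simp only [Fin.sum_univ_four, Ch.fld]
    refine Prod.ext ?_ ?_ <;> simp <;> field_simp
  · have h1 : p.1 ≠ 0 := fun h0 => h trivial (by simp [Ch.base, h0])
    refine ⟨![u.1 / p.1, 0, u.2, 0], ?_⟩
    simp only [Fin.sum_univ_four, Ch.fld]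
    refine Prod.ext ?_ ?_ <;> simp <;> field_simp
  · have h1 : p.1 ≠ 0 := fun h0 => h trivial (by simp [Ch.base, h0])
    refine ⟨![0, u.1 / p.1, 0, u.2], ?_⟩
    simp only [Fin.sum_univ_four, Ch.fld]
    refine Prod.ext ?_ ?_ <;> simp <;> field_simp

end Pool.Agent.KRFS
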