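import Pool.Agent.Work.MP_a2bf38_gt.H.Defs

/-!
# Contractions of compact complex surfaces: the four local models

Let `f : M → Y` be the contraction of a compact complex surface `M` at the first singular time of a
Kähler-Ricci flow (other than the extinction of a del Pezzo surface).  Over a coordinate ball (a
disc, if `Y` is a curve) of `Y`, `f` is one of the following maps, given by the charts below with
coordinates `(x, y)` of `ℂ^2` and by the base coordinates in these charts:

* `ball`: the identity of the ball, one chart with `f = (x, y)`;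
* `blowup`: the blow-up of the centre of the ball, two charts, `f = (x, x y)` and `f = (x y, x)`;
* `ruled`: the projection of disc `×` `ℙ^1`, two charts, `f = x`;
* `node`: the conic bundle over the disc whose central fibre is the union of two `ℙ^1` that meet in
  a node, three charts, `f = x y`, `f = x` and `f = x`.
-/

open scoped ContDiff ENNReal ComplexOrder
open Set Pool.Agent.ToricKRF Pool.Agent.ToricKRF.G

namespace Pool.Agent.KRFS

/-- The complex coordinates of a point of `ℂ^2`. -/
def toC (z : Cn 2) : ℂ × ℂ := (⟨z.1 0, z.2 0⟩, ⟨z.1 1, z.2 1⟩)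

/-- The point of `ℂ^2` with given complex coordinates. -/
def ofC (x : ℂ × ℂ) : Cn 2 := (![x.1.re, x.2.re], ![x.1.im, x.2.im])

/-- The kinds of local models. -/
inductive Kind
  | ball
  | blowup
  | ruled
  | node

/-- The charts of the local models. -/
inductive Ch
  | b0
  | p0
  | p1
  | r0
  | r1
  | n0
  | n1
  | n2

/-- The kind of model to which a chart belongs. -/
def Ch.kind : Ch → Kind
  | b0 => .ball
  | p0 => .blowup
  | p1 => .blowup
  | r0 => .ruled
  | r1 => .ruled
  | n0 => .node
  | n1 => .node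
  | n2 => .node

/-- The base coordinates of the point with the coordinates `z = (z.1, z.2)` in the given chart (the
second one is `0` over curves). -/
def Ch.base : Ch → ℂ × ℂ → ℂ × ℂ
  | b0, z => (z.1, z.2)
  | p0, z => (z.1, z.1 * z.2)
  | p1, z => (z.1 * z.2, z.1)
  | r0, z => (z.1, 0)
  | r1, z => (z.1, 0)
  | n0, z => (z.1 * z.2, 0)
  | n1, z => (z.1, 0)
  | n2, z => (z.1, 0)

/-- The point with the coordinates `z` in the first chart belongs to the second chart. -/
def Ch.mem : Ch → Ch → ℂ × ℂ → Prop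
  | p0, p1, z => z.2 ≠ 0
  | p1, p0, z => z.2 ≠ 0
  | r0, r1, z => z.2 ≠ 0
  | r1, r0, z => z.2 ≠ 0
  | n0, n1, z => z.2 ≠ 0
  | n1, n0, z => z.2 ≠ 0
  | n0, n2, z => z.1 ≠ 0
  | n2, n0, z => z.2 ≠ 0
  | n1, n2, z => z.1 ≠ 0 ∧ z.2 ≠ 0
  | n2, n1, z => z.1 ≠ 0 ∧ z.2 ≠ 0
  | _, _, _ => False

/-- The coordinates in the second chart of the point with the coordinates `z` in the first
chart. -/
noncomputable def Ch.tr : Ch → Ch → ℂ × ℂ → ℂ × ℂ
  | p0, p1, z => (z.1 * z.2, 1 / z.2)
  | p1, p0, z => (z.1 * z.2, 1 / z.2)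
  | r0, r1, z => (z.1, 1 / z.2)
  | r1, r0, z => (z.1, 1 / z.2)
  | n0, n1, z => (z.1 * z.2, 1 / z.2)
  | n1, n0, z => (z.1 * z.2, 1 / z.2)
  | n0, n2, z => (z.1 * z.2, 1 / z.1)
  | n2, n0, z => (1 / z.2, z.1 * z.2)
  | n1, n2, z => (z.1, 1 / (z.1 * z.2))
  | n2, n1, z => (z.1, 1 / (z.1 * z.2))
  | _, _, z => z

/-- The models whose central fibre is singular. -/
def Kind.Singular : Kind → Prop
  | ball => False
  | blowup => True
  | ruled => False
  | node => True

/-- The charts `e c` are those of finitely many open sets of `M`, indexed by `P`, each identified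
with a local model over the unit ball (or disc), `c` being the chart `ch c` of the open set `pc c`.
The parts of the open sets over the half-size balls cover `M`, and the singular central fibre of
a model does not meet the other open sets. -/
structure IsContraction {M : Type} [TopologicalSpace M] {κ P : Type}
    (e : κ → OpenPartialHomeomorph M (Cn 2)) (pc : κ → P) (ch : κ → Ch) (kind : P → Kind) :
    Prop where
  kind_eq : ∀ c, (ch c).kind = kind (pc c)
  exists_chart : ∀ j a, a.kind = kind j → ∃ c, pc c = j ∧ ch c = a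
  unique_chart : ∀ c c', pc c = pc c' → ch c = ch c' → c = c'
  target : ∀ c, (e c).target = {z | nsq (ofC ((ch c).base (toC z))) < 1}
  overlap : ∀ c c', pc c = pc c' → c ≠ c' → ∀ z ∈ (e c).target,
    ((e c).symm z ∈ (e c').source ↔ (ch c).mem (ch c') (toC z))
  trans : ∀ c c', pc c = pc c' → c ≠ c' → ∀ z ∈ dom e c c',
    tr e c c' z = ofC ((ch c).tr (ch c') (toC z))
  cover : ∀ p : M, ∃ c, p ∈ (e c).source ∧ nsq (ofC ((ch c).base (toC (e c p)))) < 1 / 2
  isolated : ∀ c c' p, (kind (pc c)).Singular → p ∈ (e c).source →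
    (ch c).base (toC (e c p)) = 0 → p ∈ (e c').source → pc c' = pc c

/-- The class of `ω(0)` minus `2πT c_1(M)` is the pull-back of the Kähler class of the base with
the local potentials `K j`: there is a volume form `Ω` with
`ω(0) + T i ∂ ∂bar log Ω = i ∂ ∂bar (K ∘ f)`. -/
structure IsLimitClass {M : Type} [TopologicalSpace M] {κ P : Type}
    (e : κ → OpenPartialHomeomorph M (Cn 2)) (pc : κ → P) (ch : κ → Ch) (T : ℝ)
    (ψ : κ → ℝ × Cn 2 → ℝ) (Ω : κ → Cn 2 → ℝ) (K : P → Cn 2 → ℝ) : Prop where
  volume : IsVolume e ψ Ω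
  smooth : ∀ j, ContDiffOn ℝ ∞ (K j) {y | nsq y < 1}
  psh : ∀ j, ∀ y, nsq y < 1 → ∀ u, u ≠ 0 → 0 < levz (K j) u y
  eq : ∀ c, ∀ z ∈ (e c).target, ∀ u,
    lev (ψ c) u (0, z) + T * levz (fun z => Real.log (Ω c z)) u z =
      levz (fun z => K (pc c) (ofC ((ch c).base (toC z)))) u z

end Pool.Agent.KRFS
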