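import Pool.Agent.Work.MP_a2bf38_gt.H.Setup
import Pool.Agent.Work.MP_a2bf38_gt.G.Evol
import Pool.Agent.Work.MP_a2bf38_gt.G.Chart2

/-!
# The coordinates `w` of a toric piece
-/

open scoped ContDiff ENNReal ComplexOrder
open Set Filter Topology Pool.Agent.ToricKRF Pool.Agent.ToricKRF.G

namespace Pool.Agent.KRFS

namespace TB

/-! ### The chain rule for the Levi form -/

section chain

variable {n m : ℕ}

/-- multiplication by `i` as a linear map -/
noncomputable def JL (n : ℕ) : Cn n →L[ℝ] Cn n :=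
  (-(ContinuousLinearMap.snd ℝ (Fin n → ℝ) (Fin n → ℝ))).prod
    (ContinuousLinearMap.fst ℝ (Fin n → ℝ) (Fin n → ℝ))

theorem JL_apply (u : Cn n) : JL n u = J u := rfl

/-- the second derivative of a holomorphic map is complex bilinear -/
theorem hess_hol {H : Cn n → Cn m} {S : Set (Cn n)} (hS : IsOpen S) (hH : HolOn H S) {z : Cn n}
    (hz : z ∈ S) (u v : Cn n) :
    fderiv ℝ (fderiv ℝ H) z (J u) (J v) = -fderiv ℝ (fderiv ℝ H) z u v := by
  have h1 : ContDiffOn ℝ ∞ (fderiv ℝ H) S :=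
    ((contDiffOn_infty_iff_fderiv_of_isOpen hS).1 hH.1).2
  have hd : DifferentiableAt ℝ (fderiv ℝ H) z :=
    (h1.differentiableOn (by simp)).differentiableAt (hS.mem_nhds hz)
  have key : ∀ a b : Cn n, fderiv ℝ (fderiv ℝ H) z a (J b) = J (fderiv ℝ (fderiv ℝ H) z a b) := by
    intro a b
    have e1 : HasFDerivAt (fun x => fderiv ℝ H x (J b))
        ((fderiv ℝ (fderiv ℝ H) z).flip (J b)) z := by
      have := hd.hasFDerivAt.clm_apply (hasFDerivAt_const (J b) z)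
      simpa using this
    have e2 : HasFDerivAt (fun x => fderiv ℝ H x b) ((fderiv ℝ (fderiv ℝ H) z).flip b) z := by
      have := hd.hasFDerivAt.clm_apply (hasFDerivAt_const b z)
      simpa using this
    have e3 : HasFDerivAt (fun x => JL m (fderiv ℝ H x b))
        ((JL m).comp ((fderiv ℝ (fderiv ℝ H) z).flip b)) z := (JL m).hasFDerivAt.comp z e2
    have e4 : (fun x => fderiv ℝ H x (J b)) =ᶠ[𝓝 z] fun x => JL m (fderiv ℝ H x b) := by
      filter_upwards [hS.mem_nhds hz] with x hx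
      exact hH.2 x hx b
    have e5 := (e3.congr_of_eventuallyEq e4).unique e1
    have e6 := congrArg (fun L : Cn n →L[ℝ] Cn m => L a) e5
    simpa [JL_apply] using e6.symm
  have hfa : ContDiffAt ℝ ∞ H z := hH.1.contDiffAt (hS.mem_nhds hz)
  have hs : IsSymmSndFDerivAt ℝ H z := by
    apply hfa.isSymmSndFDerivAt
    rw [minSmoothness_of_isRCLikeNormedField]
    exact WithTop.coe_le_coe.2 le_top
  rw [key, hs (J u) v, key, J_J, hs v u]

theorem sf_chain {f : ℝ × Cn m → ℝ} {U : Set (ℝ × Cn m)} (hU : IsOpen U)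
    (hf : ContDiffOn ℝ ∞ f U) {H : Cn n → Cn m} {S : Set (Cn n)} (hS : IsOpen S) (hH : HolOn H S)
    {t : ℝ} {z : Cn n} (hz : z ∈ S) (hp : (t, H z) ∈ U) (u v : Cn n) :
    sf (fun q => f (q.1, H q.2)) u v (t, z) =
      sf f (fderiv ℝ H z u) (fderiv ℝ H z v) (t, H z) := by
  have hG : ∀ q : ℝ × Cn n, q.2 ∈ S → HasFDerivAt (fun q : ℝ × Cn n => (q.1, H q.2))
      ((ContinuousLinearMap.fst ℝ ℝ (Cn n)).prod
        ((fderiv ℝ H q.2).comp (ContinuousLinearMap.snd ℝ ℝ (Cn n)))) q := by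
    intro q hq
    have h1 : HasFDerivAt H (fderiv ℝ H q.2) q.2 :=
      ((hH.1.differentiableOn (by simp)).differentiableAt (hS.mem_nhds hq)).hasFDerivAt
    exact hasFDerivAt_fst.prodMk (h1.comp q hasFDerivAt_snd)
  have hV : ∀ᶠ q : ℝ × Cn n in 𝓝 (t, z), q.2 ∈ S ∧ (q.1, H q.2) ∈ U := by
    have h1 : ∀ᶠ q : ℝ × Cn n in 𝓝 (t, z), q.2 ∈ S :=
      continuous_snd.continuousAt.eventually_mem (hS.mem_nhds hz)
    have h2 : ∀ᶠ q : ℝ × Cn n in 𝓝 (t, z), (q.1, H q.2) ∈ U :=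
      (hG (t, z) hz).continuousAt.eventually_mem (hU.mem_nhds hp)
    exact h1.and h2
  have hf' : ContDiffOn ℝ ∞ (fderiv ℝ f) U :=
    ((contDiffOn_infty_iff_fderiv_of_isOpen hU).1 hf).2
  have hH' : ContDiffOn ℝ ∞ (fderiv ℝ H) S :=
    ((contDiffOn_infty_iff_fderiv_of_isOpen hS).1 hH.1).2
  have hdH' : DifferentiableAt ℝ (fderiv ℝ H) z :=
    (hH'.differentiableOn (by simp)).differentiableAt (hS.mem_nhds hz)
  have hdf' : DifferentiableAt ℝ (fderiv ℝ f) (t, H z) :=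
    (hf'.differentiableOn (by simp)).differentiableAt (hU.mem_nhds hp)
  have h1 : ∀ v : Cn n, D (0, v) (fun q : ℝ × Cn n => f (q.1, H q.2)) =ᶠ[𝓝 (t, z)]
      fun q => fderiv ℝ f (q.1, H q.2) ((0 : ℝ), fderiv ℝ H q.2 v) := by
    intro v
    filter_upwards [hV] with q hq
    have e1 := (diffAt_of_contDiffOn hU hf hq.2).hasFDerivAt.comp q (hG q hq.1)
    have e2 : (fun q : ℝ × Cn n => f (q.1, H q.2)) = f ∘ fun q => (q.1, H q.2) := rfl
    simp only [D]
    rw [e2, e1.fderiv]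
    simp
  have h2 : ∀ u v : Cn n, D (0, u) (D (0, v) (fun q : ℝ × Cn n => f (q.1, H q.2))) (t, z) =
      fderiv ℝ (fderiv ℝ f) (t, H z) (0, fderiv ℝ H z u) (0, fderiv ℝ H z v) +
        fderiv ℝ f (t, H z) (0, fderiv ℝ (fderiv ℝ H) z u v) := by
    intro u v
    have e0 : D (0, u) (D (0, v) (fun q : ℝ × Cn n => f (q.1, H q.2))) (t, z) =
        D (0, u) (fun q => fderiv ℝ f (q.1, H q.2) ((0 : ℝ), fderiv ℝ H q.2 v)) (t, z) := by
      simp only [D]
      rw [(h1 v).fderiv_eq]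
    rw [e0]
    have e1 : HasFDerivAt (fun q : ℝ × Cn n => fderiv ℝ f (q.1, H q.2)) _ (t, z) :=
      hdf'.hasFDerivAt.comp (t, z) (hG (t, z) hz)
    have e2 : HasFDerivAt (fun q : ℝ × Cn n => fderiv ℝ H q.2) _ (t, z) :=
      hdH'.hasFDerivAt.comp (t, z) hasFDerivAt_snd
    have e3 : HasFDerivAt (fun q : ℝ × Cn n => fderiv ℝ H q.2 v) _ (t, z) :=
      e2.clm_apply (hasFDerivAt_const v (t, z))
    have e4 : HasFDerivAt (fun q : ℝ × Cn n => ((0 : ℝ), fderiv ℝ H q.2 v)) _ (t, z) :=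
      (hasFDerivAt_const (0 : ℝ) (t, z)).prodMk e3
    have e5 := e1.clm_apply e4
    simp only [D]
    rw [e5.fderiv]
    simp
    ring
  have hE : ∀ a b : Cn m, D (0, a) (D (0, b) f) (t, H z) =
      fderiv ℝ (fderiv ℝ f) (t, H z) (0, a) (0, b) := fun a b =>
    DD_eq_fderiv_of_mem hU hf hp _ _
  have hJ : ∀ u, fderiv ℝ H z (J u) = J (fderiv ℝ H z u) := hH.2 z hz
  simp only [sf]
  rw [h2, h2, hE, hE, hess_hol hS hH hz, hJ, hJ]
  have e7 : ((0 : ℝ), -fderiv ℝ (fderiv ℝ H) z u v) = -((0 : ℝ), fderiv ℝ (fderiv ℝ H) z u v) := by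
    simp
  rw [e7, map_neg]
  ring

theorem lev_chain {f : ℝ × Cn m → ℝ} {U : Set (ℝ × Cn m)} (hU : IsOpen U)
    (hf : ContDiffOn ℝ ∞ f U) {H : Cn n → Cn m} {S : Set (Cn n)} (hS : IsOpen S) (hH : HolOn H S)
    {t : ℝ} {z : Cn n} (hz : z ∈ S) (hp : (t, H z) ∈ U) (u : Cn n) :
    lev (fun q => f (q.1, H q.2)) u (t, z) = lev f (fderiv ℝ H z u) (t, H z) :=
  sf_chain hU hf hS hH hz hp u u

theorem sf_congr {f g : ℝ × Cn n → ℝ} {U : Set (ℝ × Cn n)} (hU : IsOpen U) (h : EqOn f g U)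
    {p : ℝ × Cn n} (hp : p ∈ U) (u v : Cn n) : sf f u v p = sf g u v p := by
  have h1 : ∀ a b : ℝ × Cn n, D a (D b f) p = D a (D b g) p := fun a b =>
    D_congr hU (D_congr hU h b) a hp
  simp only [sf, h1]

/-- the complex Hessian in terms of the polarised Levi form -/
theorem cHess_eq_sf {f : ℝ × Cn n → ℝ} {U : Set (ℝ × Cn n)} (hU : IsOpen U)
    (hf : ContDiffOn ℝ ∞ f U) {p : ℝ × Cn n} (hp : p ∈ U) (k l : Fin n) :
    cHess f p k l = ⟨sf f (Pi.single k 1, 0) (Pi.single l 1, 0) p,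
      sf f (Pi.single k 1, 0) (J (Pi.single l 1, 0)) p⟩ := by
  rw [sf_eq hU hf hp]
  have h1 : ∀ k k' : Fin n, cc ((Pi.single k (1 : ℝ), 0) : Cn n) k' = if k' = k then 1 else 0 := by
    intro k k'
    apply Complex.ext
    · by_cases h : k' = k
      · subst h; simp [cc]
      · simp [cc, h]
    · by_cases h : k' = k
      · subst h; simp [cc]
      · simp [cc, h]
  simp only [h1]
  rw [Finset.sum_eq_single k, Finset.sum_eq_single l]
  · simp
  · intro b _ hb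
    simp [hb]
  · simp
  · intro b _ hb
    simp [hb]
  · simp

/-- the complex Hessian of a composition with a holomorphic map -/
theorem cHess_chain {f : ℝ × Cn n → ℝ} {U : Set (ℝ × Cn n)} (hU : IsOpen U)
    (hf : ContDiffOn ℝ ∞ f U) {H : Cn n → Cn n} {S : Set (Cn n)} (hS : IsOpen S) (hH : HolOn H S)
    {g : ℝ × Cn n → ℝ} {V : Set (ℝ × Cn n)} (hV : IsOpen V) (hg : ContDiffOn ℝ ∞ g V)
    (hgf : EqOn g (fun q => f (q.1, H q.2)) V)
    {t : ℝ} {z : Cn n} (hz : z ∈ S) (hp : (t, H z) ∈ U) (hq : (t, z) ∈ V) :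
    cHess g (t, z) =
      (Matrix.of fun k' k => cc (fderiv ℝ H z (Pi.single k 1, 0)) k').transpose *
        cHess f (t, H z) *
        (Matrix.of fun k' k => cc (fderiv ℝ H z (Pi.single k 1, 0)) k').map (starRingEnd ℂ) := by
  ext k l
  rw [cHess_eq_sf hV hg hq, sf_congr hV hgf hq, sf_congr hV hgf hq, sf_chain hU hf hS hH hz hp,
    sf_chain hU hf hS hH hz hp, hH.2 z hz, sf_eq hU hf hp]
  simp only [Matrix.mul_apply, Matrix.transpose_apply, Matrix.of_apply, Matrix.map_apply]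
  rw [Finset.sum_comm]
  refine Finset.sum_congr rfl fun l' _ => ?_
  rw [Finset.sum_mul]
  refine Finset.sum_congr rfl fun k' _ => ?_
  ring

end chain


section lin

variable {n : ℕ}

/-- the holomorphic map `w ↦ exp (L w)` -/
noncomputable def eL (L : (Fin n → ℝ) →L[ℝ] (Fin n → ℝ)) (w : Cn n) : Cn n := cexp (L.prodMap L w)

theorem eL_apply (L : (Fin n → ℝ) →L[ℝ] (Fin n → ℝ)) (w : Cn n) : eL L w = cexp (L w.1, L w.2) :=
  rfl

theorem contDiff_eL (L : (Fin n → ℝ) →L[ℝ] (Fin n → ℝ)) : ContDiff ℝ ∞ (eL L) := by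
  have h3 : ContDiff ℝ ∞ (cexp (n := n)) := by
    unfold cexp
    fun_prop
  exact h3.comp (L.prodMap L).contDiff

theorem fderiv_eL (L : (Fin n → ℝ) →L[ℝ] (Fin n → ℝ)) (w u : Cn n) :
    fderiv ℝ (eL L) w u = cmul (eL L w) (L u.1, L u.2) := by
  have h := (hasFDerivAt_cexp (L.prodMap L w)).comp w (L.prodMap L).hasFDerivAt
  have h2 : eL L = cexp ∘ (L.prodMap L) := rfl
  rw [h2, h.fderiv]
  rfl

theorem cmul_J (z u : Cn n) : cmul z (J u) = J (cmul z u) := by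
  ext k <;> simp [cmul, J] <;> ring

theorem holOn_eL (L : (Fin n → ℝ) →L[ℝ] (Fin n → ℝ)) : HolOn (eL L) univ := by
  refine ⟨(contDiff_eL L).contDiffOn, fun z _ u => ?_⟩
  rw [fderiv_eL, fderiv_eL, ← cmul_J]
  congr 1
  simp [J]

theorem cc_cmul (z u : Cn n) (k : Fin n) : cc (cmul z u) k = cc z k * cc u k := by
  apply Complex.ext
  · simp [cc, cmul]
  · simp [cc, cmul]

theorem normSq_cc_cexp (ζ : Cn n) (k : Fin n) :
    Complex.normSq (cc (cexp ζ) k) = Real.exp (2 * ζ.1 k) := by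
  have h1 : Complex.normSq (cc (cexp ζ) k) = Real.exp (ζ.1 k) ^ 2 := by
    simp only [cc, cexp, Complex.normSq_mk]
    have := Real.sin_sq_add_cos_sq (ζ.2 k)
    linear_combination Real.exp (ζ.1 k) ^ 2 * this
  rw [h1, ← Real.exp_nat_mul]
  push_cast
  rfl

/-- the determinant of the Jacobian of `w ↦ exp (L w)` -/
theorem normSq_det (L : (Fin n → ℝ) →L[ℝ] (Fin n → ℝ)) (w : Cn n) :
    Complex.normSq (Matrix.of fun k' k => cc (fderiv ℝ (eL L) w (Pi.single k 1, 0)) k').det =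
      Real.exp (2 * ∑ k, L w.1 k) * (Matrix.of fun k' k => L (Pi.single k 1) k').det ^ 2 := by
  have h1 : (Matrix.of fun k' k => cc (fderiv ℝ (eL L) w (Pi.single k 1, 0)) k') =
      Matrix.of fun k' k => cc (eL L w) k' *
        ((Matrix.of fun k' k => L (Pi.single k 1) k').map (fun x : ℝ => (x : ℂ))) k' k := by
    ext k' k
    simp only [Matrix.of_apply, Matrix.map_apply]
    rw [fderiv_eL, cc_cmul]
    congr 1
    apply Complex.ext <;> simp [cc]
  rw [h1, Matrix.det_mul_column, map_mul, map_prod]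
  have h2 : ((Matrix.of fun k' k => L (Pi.single k (1 : ℝ)) k').map (fun x : ℝ => (x : ℂ))).det =
      (((Matrix.of fun k' k => L (Pi.single k (1 : ℝ)) k').det : ℝ) : ℂ) := by
    have := RingHom.map_det Complex.ofRealHom (Matrix.of fun k' k => L (Pi.single k (1 : ℝ)) k')
    exact this.symm
  rw [h2, Complex.normSq_ofReal, ← sq]
  congr 1
  rw [Finset.mul_sum, Real.exp_sum]
  exact Finset.prod_congr rfl fun k _ => normSq_cc_cexp _ _

/-- commuting three derivatives -/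
theorem D3_swap {V : Type*} [NormedAddCommGroup V] [NormedSpace ℝ V] {f : V → ℝ} {U : Set V}
    (hU : IsOpen U) (hf : ContDiffOn ℝ ∞ f U) {p : V} (hp : p ∈ U) (x a b : V) :
    D x (D a (D b f)) p = D a (D b (D x f)) p := by
  rw [D_comm hU (contDiffOn_D hU hf b) hp x a]
  have e : EqOn (D x (D b f)) (D b (D x f)) U := fun y hy => D_comm hU hf hy x b
  exact D_congr hU e a hp

/-- second derivatives of a difference with an affine function -/
theorem D_D_sub_affine {V : Type*} [NormedAddCommGroup V] [NormedSpace ℝ V] {f : V → ℝ} {U : Set V}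
    (hU : IsOpen U) (hf : ContDiffOn ℝ ∞ f U) {p : V} (hp : p ∈ U) (Λ : V →L[ℝ] ℝ) (c : ℝ)
    (a b : V) : D a (D b (fun q => f q - (Λ q + c))) p = D a (D b f) p := by
  have e : EqOn (D b (fun q => f q - (Λ q + c))) (fun q => D b f q - Λ b) U := by
    intro q hq
    have h1 : DifferentiableAt ℝ (fun q => Λ q + c) q := Λ.differentiableAt.add_const c
    change D b (fun q => f q - (fun q => Λ q + c) q) q = _
    rw [D_sub (diffAt_of_contDiffOn hU hf hq) h1]
    congr 1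
    simp only [D]
    rw [fderiv_add_const, ContinuousLinearMap.fderiv]
  rw [D_congr hU e a hp, D_sub (diffAt_of_contDiffOn hU (contDiffOn_D hU hf b) hp)
    (differentiableAt_const _), D_const, sub_zero]

end lin

end TB

section

open TB

variable {n N : ℕ} {M : Type} [TopologicalSpace M] {κ P F : Type} [Fintype F] {T : ℝ}
  {s : Setup n N M κ P F T} {j : P} {ι : Type}

/-- the potential in the coordinate `w` -/
noncomputable def TPiece.φ (d : TPiece s j ι) (c : κ) : ℝ × Cn n → ℝ := fun q =>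
  s.ψ c (q.1, s.e c (d.τ q.2))

/-- `w`-region -/
def TPiece.reg (d : TPiece s j ι) : Set (Cn n) := {w | rho d.B w.1 < 1}

theorem TB.continuous_rho (B : Finset (Fin n → ℝ)) : Continuous (rho B) := by
  unfold rho dotProduct
  fun_prop

theorem TPiece.isOpen_reg (d : TPiece s j ι) : IsOpen d.reg :=
  isOpen_lt ((TB.continuous_rho d.B).comp continuous_fst) continuous_const

/-- the data of a chart of a toric piece -/
structure TPiece.Dat (d : TPiece s j ι) (c : κ) where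
  hc : s.pc c = j
  L : (Fin n → ℝ) →L[ℝ] (Fin n → ℝ)
  sum_L : ∀ a, ∑ k, L a k • d.ν (d.σ c k) = a
  L_sum : ∀ y : Fin n → ℝ, L (∑ k, y k • d.ν (d.σ c k)) = y
  mem : ∀ w ∈ d.reg, d.τ w ∈ (s.e c).source
  eq : ∀ w ∈ d.reg, s.e c (d.τ w) = eL L w
  U : Set (ℝ × Cn n)
  isOpen_U : IsOpen U
  sub_U : Ico 0 T ×ˢ (s.e c).target ⊆ U
  smooth_ψ : ContDiffOn ℝ ∞ (s.ψ c) U

theorem TPiece.exists_dat (d : TPiece s j ι) {c : κ} (hc : s.pc c = j) : Nonempty (d.Dat c) := by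
  have hli := d.indep c hc
  have hsp := hli.span_eq_top_of_card_eq_finrank' (by simp)
  let b : Module.Basis (Fin n) ℝ (Fin n → ℝ) := Module.Basis.mk hli hsp.ge
  have hb : ∀ k, b k = d.ν (d.σ c k) := fun k => by simp [b]
  let L : (Fin n → ℝ) →L[ℝ] (Fin n → ℝ) := LinearMap.toContinuousLinearMap b.equivFun.toLinearMap
  have hL : ∀ a, L a = b.equivFun a := fun a => rfl
  have h1 : ∀ a, ∑ k, L a k • d.ν (d.σ c k) = a := by
    intro a
    simp only [hL, ← hb]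
    exact b.sum_equivFun a
  have h2 : ∀ y : Fin n → ℝ, L (∑ k, y k • d.ν (d.σ c k)) = y := by
    intro y
    simp only [hL, ← hb]
    have := b.equivFun.apply_symm_apply y
    rwa [b.equivFun_symm_apply] at this
  obtain ⟨U, hU, hsub, hψ⟩ := s.krf.smooth c
  refine ⟨⟨hc, L, h1, h2, fun w hw => (d.τ_mem c hc w hw).1, fun w hw => ?_, U, hU, hsub, hψ⟩⟩
  obtain ⟨-, ζ, e1, e2, e3⟩ := d.τ_mem c hc w hw
  rw [e3, eL_apply, e1, e2, h2, h2]

namespace TPiece.Dat

variable {d : TPiece s j ι} {c : κ} (D : d.Dat c)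

include D

theorem mem_target {w : Cn n} (hw : w ∈ d.reg) : eL D.L w ∈ (s.e c).target := by
  rw [← D.eq w hw]
  exact (s.e c).map_source (D.mem w hw)

theorem symm_eq {w : Cn n} (hw : w ∈ d.reg) : (s.e c).symm (eL D.L w) = d.τ w := by
  rw [← D.eq w hw]
  exact (s.e c).left_inv (D.mem w hw)

/-- the domain of smoothness of `φ` -/
def V : Set (ℝ × Cn n) := {q | q.2 ∈ d.reg ∧ (q.1, eL D.L q.2) ∈ D.U}

theorem isOpen_V : IsOpen D.V := by
  have h1 : Continuous fun q : ℝ × Cn n => (q.1, eL D.L q.2) :=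
    continuous_fst.prodMk ((contDiff_eL D.L).continuous.comp continuous_snd)
  exact (d.isOpen_reg.preimage continuous_snd).inter (D.isOpen_U.preimage h1)

theorem sub_V : Ico 0 T ×ˢ d.reg ⊆ D.V := by
  rintro ⟨t, w⟩ ⟨ht, hw⟩
  exact ⟨hw, D.sub_U ⟨ht, D.mem_target hw⟩⟩

theorem eqOn : EqOn (d.φ c) (fun q => s.ψ c (q.1, eL D.L q.2)) D.V := by
  intro q hq
  change s.ψ c (q.1, s.e c (d.τ q.2)) = _
  rw [D.eq q.2 hq.1]

theorem smooth : ContDiffOn ℝ ∞ (d.φ c) D.V := by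
  have h1 : ContDiff ℝ ∞ fun q : ℝ × Cn n => (q.1, eL D.L q.2) :=
    contDiff_fst.prodMk ((contDiff_eL D.L).comp contDiff_snd)
  have h2 : ContDiffOn ℝ ∞ (fun q : ℝ × Cn n => s.ψ c (q.1, eL D.L q.2)) D.V :=
    D.smooth_ψ.comp h1.contDiffOn fun q hq => hq.2
  exact h2.congr D.eqOn

theorem lev_eq {t : ℝ} (ht : t ∈ Ico 0 T) {w : Cn n} (hw : w ∈ d.reg) (u : Cn n) :
    lev (d.φ c) u (t, w) = lev (s.ψ c) (fderiv ℝ (eL D.L) w u) (t, eL D.L w) := by
  have hq : (t, w) ∈ D.V := D.sub_V ⟨ht, hw⟩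
  rw [lev_eq_sf, sf_congr D.isOpen_V D.eqOn hq]
  exact lev_chain D.isOpen_U D.smooth_ψ isOpen_univ (holOn_eL D.L) (mem_univ w) hq.2 u

theorem L_ne {a : Fin n → ℝ} (ha : a ≠ 0) : D.L a ≠ 0 := by
  intro h
  apply ha
  rw [← D.sum_L a, h]
  simp

theorem fderiv_ne {w u : Cn n} (hu : u ≠ 0) : fderiv ℝ (eL D.L) w u ≠ 0 := by
  rw [fderiv_eL]
  apply ChartG.cmul_ne_zero
  intro h
  apply hu
  have h1 : D.L u.1 = 0 := congrArg Prod.fst h
  have h2 : D.L u.2 = 0 := congrArg Prod.snd h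
  refine Prod.ext ?_ ?_
  · by_contra h3
    exact D.L_ne h3 h1
  · by_contra h3
    exact D.L_ne h3 h2

theorem pos {t : ℝ} (ht : t ∈ Ico 0 T) {w : Cn n} (hw : w ∈ d.reg) :
    (cHess (d.φ c) (t, w)).PosDef := by
  have hq : (t, w) ∈ D.V := D.sub_V ⟨ht, hw⟩
  refine posDef_of_lev D.isOpen_V D.smooth hq fun u hu => ?_
  rw [D.lev_eq ht hw]
  exact lev_pos D.isOpen_U D.smooth_ψ hq.2 (s.krf.pos c t ht _ (D.mem_target hw)) (D.fderiv_ne hu)

/-- the determinant of the metric in the coordinate `w` -/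
theorem det_eq {t : ℝ} (ht : t ∈ Ico 0 T) {w : Cn n} (hw : w ∈ d.reg) :
    (cHess (d.φ c) (t, w)).det.re = (cHess (s.ψ c) (t, eL D.L w)).det.re *
      (Real.exp (2 * ∑ k, D.L w.1 k) * (Matrix.of fun k' k => D.L (Pi.single k 1) k').det ^ 2) := by
  have hq : (t, w) ∈ D.V := D.sub_V ⟨ht, hw⟩
  rw [cHess_chain D.isOpen_U D.smooth_ψ isOpen_univ (holOn_eL D.L) D.isOpen_V D.smooth D.eqOn
    (mem_univ w) hq.2 hq, Matrix.det_mul, Matrix.det_mul, Matrix.det_transpose, ← normSq_det]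
  set B := Matrix.of fun k' k => cc (fderiv ℝ (eL D.L) w (Pi.single k 1, 0)) k' with hB
  have h1 : (B.map (starRingEnd ℂ)).det = (starRingEnd ℂ) B.det :=
    (RingHom.map_det (starRingEnd ℂ) B).symm
  rw [h1]
  have h2 : B.det * (cHess (s.ψ c) (t, eL D.L w)).det * (starRingEnd ℂ) B.det =
      (cHess (s.ψ c) (t, eL D.L w)).det * ((Complex.normSq B.det : ℝ) : ℂ) := by
    rw [← Complex.mul_conj]
    ring
  rw [h2, Complex.re_mul_ofReal]

theorem detL_ne : (Matrix.of fun k' k => D.L (Pi.single k 1) k').det ≠ 0 := by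
  intro h
  obtain ⟨v, hv, hv0⟩ := Matrix.exists_mulVec_eq_zero_iff.2 h
  refine D.L_ne hv ?_
  ext k'
  have h1 := congrFun hv0 k'
  simp only [Matrix.mulVec, dotProduct, Matrix.of_apply] at h1
  have h2 : v = ∑ k, v k • (Pi.single k (1 : ℝ) : Fin n → ℝ) := by
    ext i
    simp [Finset.sum_apply, Pi.single_apply]
  rw [h2, map_sum]
  simp only [map_smul, Finset.sum_apply, Pi.smul_apply, smul_eq_mul, Pi.zero_apply]
  refine Eq.trans ?_ h1
  exact Finset.sum_congr rfl fun k _ => mul_comm _ _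

/-- the pluriharmonic correction -/
noncomputable def lam : (ℝ × Cn n) →L[ℝ] ℝ :=
  ∑ k, (2 : ℝ) • ((ContinuousLinearMap.proj (R := ℝ) (φ := fun _ : Fin n => ℝ) k).comp
    (D.L.comp ((ContinuousLinearMap.fst ℝ (Fin n → ℝ) (Fin n → ℝ)).comp
      (ContinuousLinearMap.snd ℝ ℝ (Cn n)))))

theorem lam_apply (q : ℝ × Cn n) : D.lam q = 2 * ∑ k, D.L q.2.1 k := by
  unfold lam
  rw [sum_apply, Finset.mul_sum]
  exact Finset.sum_congr rfl fun k _ => by simp

theorem flow {t : ℝ} (ht : t ∈ Ioo 0 T) {w : Cn n} (hw : w ∈ d.reg) :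
    dt (d.φ c) (t, w) = Real.log (cHess (d.φ c) (t, w)).det.re -
      (D.lam (t, w) + Real.log ((Matrix.of fun k' k => D.L (Pi.single k 1) k').det ^ 2)) := by
  have ht' : t ∈ Ico 0 T := ⟨ht.1.le, ht.2⟩
  have hq : (t, w) ∈ D.V := D.sub_V ⟨ht', hw⟩
  have h1 : 0 < (cHess (s.ψ c) (t, eL D.L w)).det.re :=
    det_re_pos (s.krf.pos c t ht' _ (D.mem_target hw))
  rw [D.det_eq ht' hw, Real.log_mul h1.ne' (mul_ne_zero (Real.exp_pos _).ne'
    (pow_ne_zero 2 D.detL_ne)), Real.log_mul (Real.exp_pos _).ne' (pow_ne_zero 2 D.detL_ne),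
    Real.log_exp, D.lam_apply, ← s.krf.flow c t ht _ (D.mem_target hw)]
  have h2 : dt (d.φ c) (t, w) = dt (fun q => s.ψ c (q.1, eL D.L q.2)) (t, w) :=
    D_congr D.isOpen_V D.eqOn _ hq
  have h3 : dt (fun q => s.ψ c (q.1, eL D.L q.2)) (t, w) = dt (s.ψ c) (t, eL D.L w) := by
    have e1 : HasFDerivAt (fun q : ℝ × Cn n => (q.1, eL D.L q.2))
        ((ContinuousLinearMap.fst ℝ ℝ (Cn n)).prod
          ((fderiv ℝ (eL D.L) w).comp (ContinuousLinearMap.snd ℝ ℝ (Cn n)))) (t, w) := by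
      have h1 : HasFDerivAt (eL D.L) (fderiv ℝ (eL D.L) w) w :=
        ((contDiff_eL D.L).differentiable (by simp) w).hasFDerivAt
      have h2 : HasFDerivAt (fun q : ℝ × Cn n => eL D.L q.2)
          ((fderiv ℝ (eL D.L) w).comp (ContinuousLinearMap.snd ℝ ℝ (Cn n))) (t, w) :=
        HasFDerivAt.comp (f := Prod.snd) (t, w) h1 hasFDerivAt_snd
      exact hasFDerivAt_fst.prodMk h2
    have e2 := (diffAt_of_contDiffOn D.isOpen_U D.smooth_ψ hq.2).hasFDerivAt.comp (t, w) e1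
    have e3 : (fun q : ℝ × Cn n => s.ψ c (q.1, eL D.L q.2)) =
      s.ψ c ∘ fun q => (q.1, eL D.L q.2) := rfl
    simp only [G.dt, ToricKRF.D]
    rw [e3, e2.fderiv]
    simp
  rw [h2, h3]
  ring

end TPiece.Dat

theorem TPiece.smooth_φ (d : TPiece s j ι) {c : κ} (hc : s.pc c = j) :
    ∃ U : Set (ℝ × Cn n), IsOpen U ∧ Ico 0 T ×ˢ d.reg ⊆ U ∧ ContDiffOn ℝ ∞ (d.φ c) U := by
  obtain ⟨D⟩ := d.exists_dat hc
  exact ⟨D.V, D.isOpen_V, D.sub_V, D.smooth⟩

theorem TPiece.pos_φ (d : TPiece s j ι) {c : κ} (hc : s.pc c = j) {t : ℝ} (ht : t ∈ Ico 0 T)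
    {w : Cn n} (hw : w ∈ d.reg) : (cHess (d.φ c) (t, w)).PosDef := by
  obtain ⟨D⟩ := d.exists_dat hc
  exact D.pos ht hw

theorem TB.dt_add_div {f g : ℝ × Cn n → ℝ} {p : ℝ × Cn n} (hf : DifferentiableAt ℝ f p)
    (hg : DifferentiableAt ℝ g p) : G.dt (fun q => (f q + g q) / 4) p =
      (ToricKRF.D (1, 0) f p + ToricKRF.D (1, 0) g p) / 4 := by
  have h : (fun q => (f q + g q) / 4) = fun q => (1 / 4 : ℝ) * (f q + g q) := by
    funext q
    ring
  rw [G.dt, h, D_const_mul _ (hf.fun_add hg), D_add hf hg]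
  ring

theorem TB.dt_sub_div {f g : ℝ × Cn n → ℝ} {p : ℝ × Cn n} (hf : DifferentiableAt ℝ f p)
    (hg : DifferentiableAt ℝ g p) : G.dt (fun q => (f q - g q) / 4) p =
      (ToricKRF.D (1, 0) f p - ToricKRF.D (1, 0) g p) / 4 := by
  have h : (fun q => (f q - g q) / 4) = fun q => (1 / 4 : ℝ) * (f q - g q) := by
    funext q
    ring
  rw [G.dt, h, D_const_mul _ (hf.fun_sub hg), D_sub hf hg]
  ring

theorem TB.isOpen_dom (e : κ → OpenPartialHomeomorph M (Cn n)) (c c' : κ) :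
    IsOpen (dom e c c') :=
  (e c).isOpen_inter_preimage_symm (e c').open_source

/-- `g(v, v)` in the coordinate `w` and in a chart -/
theorem TPiece.lev_φ (d : TPiece s j ι) {c c' : κ} (hc : s.pc c = j) (hc' : s.pc c' = j) {t : ℝ}
    (ht : t ∈ Ico 0 T) {w : Cn n} (hw : w ∈ d.reg) (u : Cn n) :
    lev (d.φ c) u (t, w) = lev (s.ψ c') (fderiv ℝ (fun w => s.e c' (d.τ w)) w u)
      (t, s.e c' (d.τ w)) := by
  obtain ⟨D⟩ := d.exists_dat hc
  obtain ⟨D'⟩ := d.exists_dat hc'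
  have hdom : eL D.L w ∈ dom s.e c c' := by
    refine ⟨D.mem_target hw, ?_⟩
    rw [D.symm_eq hw]
    exact D'.mem w hw
  have htr : ∀ x ∈ d.reg, tr s.e c c' (eL D.L x) = s.e c' (d.τ x) := by
    intro x hx
    change s.e c' ((s.e c).symm (eL D.L x)) = _
    rw [D.symm_eq hx]
  have hd : DifferentiableAt ℝ (tr s.e c c') (eL D.L w) :=
    ((s.atlas.holo c c').1.differentiableOn (by simp)).differentiableAt
      ((TB.isOpen_dom s.e c c').mem_nhds hdom)
  have hL : DifferentiableAt ℝ (eL D.L) w := (contDiff_eL D.L).differentiable (by simp) w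
  have h1 : (fun x => s.e c' (d.τ x)) =ᶠ[𝓝 w] tr s.e c c' ∘ eL D.L := by
    filter_upwards [d.isOpen_reg.mem_nhds hw] with x hx
    exact (htr x hx).symm
  rw [D.lev_eq ht hw, s.krf.compat c c' t ht _ hdom, htr w hw, h1.fderiv_eq,
    fderiv_comp w hd hL]
  rfl

theorem TPiece.flow_φ (d : TPiece s j ι) {c : κ} (hc : s.pc c = j) {t : ℝ} (ht : t ∈ Ioo 0 T)
    {w : Cn n} (hw : w ∈ d.reg) (k l : Fin n) :
    dt (fun q => (cHess (d.φ c) q k l).re) (t, w) =
      (cHess (fun q => Real.log (cHess (d.φ c) q).det.re) (t, w) k l).re ∧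
    dt (fun q => (cHess (d.φ c) q k l).im) (t, w) =
      (cHess (fun q => Real.log (cHess (d.φ c) q).det.re) (t, w) k l).im := by
  obtain ⟨D⟩ := d.exists_dat hc
  set U : Set (ℝ × Cn n) := Ioo 0 T ×ˢ d.reg with hUdef
  have hU : IsOpen U := isOpen_Ioo.prod d.isOpen_reg
  have hUV : U ⊆ D.V := fun q hq => D.sub_V ⟨⟨hq.1.1.le, hq.1.2⟩, hq.2⟩
  have hφ : ContDiffOn ℝ ∞ (d.φ c) U := D.smooth.mono hUV
  have hpos : ∀ p ∈ U, (cHess (d.φ c) p).PosDef := fun p hp => D.pos ⟨hp.1.1.le, hp.1.2⟩ hp.2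
  have hp : (t, w) ∈ U := ⟨ht, hw⟩
  have hlog := contDiffOn_logdet hU hφ hpos
  have hflow : EqOn (ToricKRF.D (1, 0) (d.φ c)) (fun q => Real.log (cHess (d.φ c) q).det.re -
      (D.lam q + Real.log ((Matrix.of fun k' k => D.L (Pi.single k 1) k').det ^ 2))) U :=
    fun q hq => D.flow hq.1 hq.2
  have key : ∀ a b : ℝ × Cn n, ToricKRF.D (1, 0) (ToricKRF.D a (ToricKRF.D b (d.φ c))) (t, w) =
      ToricKRF.D a (ToricKRF.D b (fun q => Real.log (cHess (d.φ c) q).det.re)) (t, w) := by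
    intro a b
    rw [D3_swap hU hφ hp, D_congr hU (D_congr hU hflow b) a hp,
      D_D_sub_affine hU hlog hp]
  have hd : ∀ a b : ℝ × Cn n, DifferentiableAt ℝ (ToricKRF.D a (ToricKRF.D b (d.φ c))) (t, w) :=
    fun a b => diffAt_of_contDiffOn hU (contDiffOn_D hU (contDiffOn_D hU hφ b) a) hp
  constructor
  · refine (TB.dt_add_div (hd (0, (Pi.single k 1, 0)) (0, (Pi.single l 1, 0)))
      (hd (0, (0, Pi.single k 1)) (0, (0, Pi.single l 1)))).trans ?_
    rw [key, key]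
    rfl
  · refine (TB.dt_sub_div (hd (0, (Pi.single k 1, 0)) (0, (0, Pi.single l 1)))
      (hd (0, (0, Pi.single k 1)) (0, (Pi.single l 1, 0)))).trans ?_
    rw [key, key]
    rfl

theorem TPiece.periodic_φ (d : TPiece s j ι) {c : κ} (_hc : s.pc c = j) {t : ℝ} (v : Fin n → ℝ)
    (a b : Fin n → ℝ) (m : Fin n → ℤ) (_hw : rho d.B a < 1) (_ht : t ∈ Ico 0 T) :
    Fv (d.φ c) v (t, (a, fun k => b k + 2 * Real.pi * m k)) = Fv (d.φ c) v (t, (a, b)) := by
  set c0 : ℝ × Cn n := (0, (0, fun k => 2 * Real.pi * m k)) with hc0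
  have hper : (fun q => d.φ c (q + c0)) = d.φ c := by
    funext q
    have h1 := d.periodic q.2 m
    have h2 : (q + c0).2 = (q.2.1, fun k => q.2.2 k + 2 * Real.pi * m k) := by
      ext k <;> simp [hc0]
    have h3 : (q + c0).1 = q.1 := by simp [hc0]
    change s.ψ c ((q + c0).1, s.e c (d.τ (q + c0).2)) = s.ψ c (q.1, s.e c (d.τ q.2))
    rw [h2, h1, h3]
  have h1 : ∀ (g : ℝ × Cn n → ℝ) (u z : ℝ × Cn n),
      ToricKRF.D u g (z + c0) = ToricKRF.D u (fun y => g (y + c0)) z := by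
    intro g u z
    simp only [ToricKRF.D]
    rw [fderiv_comp_add_right]
  have h2 : ∀ (u z : ℝ × Cn n), ToricKRF.D u (ToricKRF.D u (d.φ c)) (z + c0) =
      ToricKRF.D u (ToricKRF.D u (d.φ c)) z := by
    intro u z
    rw [h1]
    have h3 : (fun y => ToricKRF.D u (d.φ c) (y + c0)) = ToricKRF.D u (d.φ c) := by
      funext y
      rw [h1, hper]
    rw [h3]
  have h4 : ((t, (a, fun k => b k + 2 * Real.pi * m k)) : ℝ × Cn n) = (t, (a, b)) + c0 := by
    ext k <;> simp [hc0]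
  rw [h4]
  simp only [Fv, lev, h2]

/-- the bound near a point of a chart -/
theorem TPiece.Dat.local_bound [Fintype ι] {d : TPiece s j ι} {c c' : κ} (D' : d.Dat c')
    (hc : s.pc c = j) {z0 : Cn n} (hz0 : z0 ∈ (s.e c').target) {t' : ℝ} (ht' : t' ∈ Ico 0 T) :
    ∃ ε > 0, ∃ C : ℝ, 1 ≤ C ∧ ∀ w ∈ d.reg, s.e c' (d.τ w) ∈ Metric.closedBall z0 ε →
      ∃ (k : ι → ℝ) (a0 : Fin n → ℝ),
      (∀ i, 0 ≤ k i) ∧ ‖a0‖ ≤ C ∧ w.1 = a0 - ∑ i, k i • d.ν i ∧
      ∀ t ∈ Icc 0 t', ∀ i, Fv (d.φ c) (d.ν i) (t, w) ≤ C * Real.exp (-(2 * k i)) := by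
  classical
  obtain ⟨ε, hε, hball⟩ := Metric.nhds_basis_closedBall.mem_iff.1 ((s.e c').open_target.mem_nhds hz0)
  set R : ℝ := ‖z0‖ + ε with hR
  have hR0 : 0 ≤ R := by positivity
  have hRz : ∀ z ∈ Metric.closedBall z0 ε, ‖z‖ ≤ R := by
    intro z hz
    have h1 : ‖z - z0‖ ≤ ε := by simpa [dist_eq_norm] using hz
    have h2 : z = z0 + (z - z0) := by abel
    rw [h2]
    exact (norm_add_le _ _).trans (add_le_add le_rfl h1)
  set R2 : ℝ := 1 + R * ∑ i, ‖D'.L (d.ν i)‖ with hR2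
  have hS : 0 ≤ ∑ i, ‖D'.L (d.ν i)‖ := Finset.sum_nonneg fun i _ => norm_nonneg _
  -- the bound of the metric on the compact ball
  obtain ⟨C1, hC1, hlev⟩ : ∃ C1 : ℝ, 1 ≤ C1 ∧ ∀ t ∈ Icc 0 t', ∀ z ∈ Metric.closedBall z0 ε,
      ∀ u : Cn n, ‖u‖ ≤ R2 → lev (s.ψ c') u (t, z) ≤ C1 := by
    set K : Set ((ℝ × Cn n) × Cn n) :=
      (Icc 0 t' ×ˢ Metric.closedBall z0 ε) ×ˢ Metric.closedBall 0 R2 with hK
    have hKc : IsCompact K :=
      (isCompact_Icc.prod (isCompact_closedBall _ _)).prod (isCompact_closedBall _ _)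
    have hcont : ContinuousOn (fun q : (ℝ × Cn n) × Cn n => lev (s.ψ c') q.2 q.1) K := by
      refine (continuousOn_lev D'.isOpen_U D'.smooth_ψ).mono ?_
      rintro ⟨⟨t, z⟩, u⟩ ⟨⟨ht, hz⟩, _⟩
      exact ⟨D'.sub_U ⟨⟨ht.1, lt_of_le_of_lt ht.2 ht'.2⟩, hball hz⟩, mem_univ _⟩
    obtain ⟨C, hC⟩ := hKc.exists_bound_of_continuousOn hcont
    refine ⟨|C| + 1, by linarith [abs_nonneg C], fun t ht z hz u hu => ?_⟩
    have h1 := hC ((t, z), u) ⟨⟨ht, hz⟩, by simpa using hu⟩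
    rw [Real.norm_eq_abs] at h1
    have h2 := le_abs_self (lev (s.ψ c') u (t, z))
    have h3 := le_abs_self C
    simp only at h1
    linarith
  set R1 : ℝ := 1 + 2 * R with hR1
  have hR1' : 1 ≤ R1 := by linarith
  set S : ℝ := ∑ k, ‖d.ν (d.σ c' k)‖ with hSdef
  have hS0 : 0 ≤ S := Finset.sum_nonneg fun k _ => norm_nonneg _
  set C : ℝ := C1 * R1 ^ 2 + Real.log R1 * S + 1 with hC
  have hlog : 0 ≤ Real.log R1 := Real.log_nonneg hR1'
  have hC1R : 1 ≤ C1 * R1 ^ 2 := one_le_mul_of_one_le_of_one_le hC1 (one_le_pow₀ hR1')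
  have hlS : 0 ≤ Real.log R1 * S := mul_nonneg hlog hS0
  refine ⟨ε, hε, C, by linarith, fun w hw hwz => ?_⟩
  have hσ : Function.Injective (d.σ c') := by
    have h1 := (d.indep c' D'.hc).injective
    intro x y hxy
    apply h1
    simp only [hxy]
  set y : Fin n → ℝ := D'.L w.1 with hy
  have hzn : ‖eL D'.L w‖ ≤ R := by
    rw [← D'.eq w hw]
    exact hRz _ hwz
  have hexp : ∀ k, Real.exp (y k) ≤ R1 := by
    intro k
    have e1 : |(eL D'.L w).1 k| ≤ R := ((norm_le_pi_norm _ k).trans (norm_fst_le _)).trans hzn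
    have e2 : |(eL D'.L w).2 k| ≤ R := ((norm_le_pi_norm _ k).trans (norm_snd_le _)).trans hzn
    have e3 : Real.exp (y k) ^ 2 = (eL D'.L w).1 k ^ 2 + (eL D'.L w).2 k ^ 2 := by
      simp only [eL_apply, cexp, ← hy]
      have := Real.sin_sq_add_cos_sq (D'.L w.2 k)
      linear_combination -Real.exp (y k) ^ 2 * this
    have e4 : Real.exp (y k) ^ 2 ≤ R1 ^ 2 := by
      rw [e3, ← sq_abs ((eL D'.L w).1 k), ← sq_abs ((eL D'.L w).2 k)]
      have f1 : |(eL D'.L w).1 k| ^ 2 ≤ R ^ 2 := pow_le_pow_left₀ (abs_nonneg _) e1 2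
      have f2 : |(eL D'.L w).2 k| ^ 2 ≤ R ^ 2 := pow_le_pow_left₀ (abs_nonneg _) e2 2
      nlinarith
    exact le_of_sq_le_sq e4 (by linarith)
  have hmax : ∀ k, max (y k) 0 ≤ Real.log R1 := by
    intro k
    refine max_le ?_ hlog
    rw [Real.le_log_iff_exp_le (by linarith)]
    exact hexp k
  have hsumL : ∑ k, y k • d.ν (d.σ c' k) = w.1 := D'.sum_L w.1
  refine ⟨fun i => ∑ k, if d.σ c' k = i then max (-(y k)) 0 else 0,
    ∑ k, max (y k) 0 • d.ν (d.σ c' k), fun i => ?_, ?_, ?_, ?_⟩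
  · refine Finset.sum_nonneg fun k _ => ?_
    split_ifs
    · exact le_max_right _ _
    · exact le_rfl
  · have h1 : ‖∑ k, max (y k) 0 • d.ν (d.σ c' k)‖ ≤ Real.log R1 * S := by
      refine (norm_sum_le _ _).trans ?_
      rw [hSdef, Finset.mul_sum]
      refine Finset.sum_le_sum fun k _ => ?_
      rw [norm_smul, Real.norm_eq_abs, abs_of_nonneg (le_max_right _ _)]
      exact mul_le_mul_of_nonneg_right (hmax k) (norm_nonneg _)
    linarith
  · have h1 : ∑ i, (∑ k, if d.σ c' k = i then max (-(y k)) 0 else 0) • d.ν i =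
        ∑ k, max (-(y k)) 0 • d.ν (d.σ c' k) := by
      simp only [Finset.sum_smul]
      rw [Finset.sum_comm]
      refine Finset.sum_congr rfl fun k _ => ?_
      rw [Finset.sum_eq_single (d.σ c' k)]
      · simp
      · intro i _ hi
        rw [if_neg (Ne.symm hi), zero_smul]
      · simp
    rw [h1, ← Finset.sum_sub_distrib, ← hsumL]
    refine Finset.sum_congr rfl fun k _ => ?_
    rw [← sub_smul]
    congr 1
    rcases le_total (y k) 0 with h | h
    · rw [max_eq_right h, max_eq_left (by linarith)]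
      ring
    · rw [max_eq_left h, max_eq_right (by linarith)]
      ring
  · intro t ht i
    have htT : t ∈ Ico 0 T := ⟨ht.1, lt_of_le_of_lt ht.2 ht'.2⟩
    have hmemU : (t, eL D'.L w) ∈ D'.U := D'.sub_U ⟨htT, D'.mem_target hw⟩
    have hball' : eL D'.L w ∈ Metric.closedBall z0 ε := by
      rw [← D'.eq w hw]
      exact hwz
    have hF : Fv (d.φ c) (d.ν i) (t, w) =
        lev (s.ψ c') (cmul (eL D'.L w) (D'.L (d.ν i), 0)) (t, eL D'.L w) := by
      have h1 := d.lev_φ hc D'.hc htT hw ((d.ν i, 0) : Cn n)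
      have h2 : (fun w => s.e c' (d.τ w)) =ᶠ[𝓝 w] eL D'.L := by
        filter_upwards [d.isOpen_reg.mem_nhds hw] with x hx
        exact D'.eq x hx
      rw [h2.fderiv_eq, fderiv_eL, D'.eq w hw] at h1
      have h3 : ((D'.L (d.ν i), D'.L 0) : Cn n) = (D'.L (d.ν i), 0) := by rw [map_zero]
      rw [← h3]
      exact h1
    rw [hF]
    change _ ≤ C * Real.exp (-(2 * ∑ k, if d.σ c' k = i then max (-(y k)) 0 else 0))
    by_cases hi : i ∈ range (d.σ c')
    · obtain ⟨k, rfl⟩ := hi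
      have h1 : (∑ k', if d.σ c' k' = d.σ c' k then max (-(y k')) 0 else 0) = max (-(y k)) 0 := by
        rw [Finset.sum_eq_single k]
        · simp
        · intro k' _ hk'
          rw [if_neg]
          intro h2
          exact hk' (hσ h2)
        · simp
      rw [h1]
      have hLk : D'.L (d.ν (d.σ c' k)) = Pi.single k 1 := by
        have h2 : d.ν (d.σ c' k) = ∑ k', (Pi.single k (1 : ℝ) : Fin n → ℝ) k' • d.ν (d.σ c' k') := by
          rw [Finset.sum_eq_single k]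
          · simp
          · intro k' _ hk'
            rw [Pi.single_eq_of_ne hk', zero_smul]
          · simp
        rw [h2, D'.L_sum]
      rw [hLk]
      set b' : Fin n → ℝ := D'.L w.2 with hb'
      set û : Cn n := (Real.cos (b' k) • Pi.single k (1 : ℝ), Real.sin (b' k) • Pi.single k (1 : ℝ))
        with hû
      have h3 : cmul (eL D'.L w) (Pi.single k 1, 0) = Real.exp (y k) • û := by
        rw [eL_apply]
        refine Prod.ext ?_ ?_ <;> funext l <;> by_cases hl : l = k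
        · subst hl; simp [cmul, cexp, hû, ← hy, ← hb']
        · simp [cmul, cexp, hû, Pi.single_eq_of_ne hl]
        · subst hl; simp [cmul, cexp, hû, ← hy, ← hb']
        · simp [cmul, cexp, hû, Pi.single_eq_of_ne hl]
      have hs1 : ‖(Pi.single k (1 : ℝ) : Fin n → ℝ)‖ ≤ 1 := by
        rw [pi_norm_le_iff_of_nonneg zero_le_one]
        intro l
        by_cases hl : l = k
        · subst hl; simp
        · simp [Pi.single_eq_of_ne hl]
      have h4 : ‖û‖ ≤ 1 := by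
        rw [Prod.norm_def]
        refine max_le ?_ ?_
        · simp only [hû, norm_smul, Real.norm_eq_abs]
          exact mul_le_one₀ (Real.abs_cos_le_one _) (norm_nonneg _) hs1
        · simp only [hû, norm_smul, Real.norm_eq_abs]
          exact mul_le_one₀ (Real.abs_sin_le_one _) (norm_nonneg _) hs1
      rw [h3, lev_smul _ _ _ D'.isOpen_U D'.smooth_ψ hmemU]
      have h5 : lev (s.ψ c') û (t, eL D'.L w) ≤ C1 := by
        refine hlev t ht _ hball' û (h4.trans ?_)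
        rw [hR2]
        linarith [mul_nonneg hR0 hS]
      have h6 : Real.exp (y k) ^ 2 ≤ R1 ^ 2 * Real.exp (-(2 * max (-(y k)) 0)) := by
        rcases le_total (y k) 0 with h | h
        · rw [max_eq_left (by linarith), ← Real.exp_nat_mul]
          have : ((2 : ℕ) : ℝ) * y k = -(2 * -(y k)) := by push_cast; ring
          rw [this]
          exact le_mul_of_one_le_left (Real.exp_pos _).le (one_le_pow₀ hR1')
        · rw [max_eq_right (by linarith), mul_zero, neg_zero, Real.exp_zero, mul_one]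
          exact pow_le_pow_left₀ (Real.exp_pos _).le (hexp k) 2
      calc Real.exp (y k) ^ 2 * lev (s.ψ c') û (t, eL D'.L w)
          ≤ Real.exp (y k) ^ 2 * C1 := mul_le_mul_of_nonneg_left h5 (by positivity)
        _ ≤ (R1 ^ 2 * Real.exp (-(2 * max (-(y k)) 0))) * C1 :=
            mul_le_mul_of_nonneg_right h6 (by linarith)
        _ = C1 * R1 ^ 2 * Real.exp (-(2 * max (-(y k)) 0)) := by ring
        _ ≤ C * Real.exp (-(2 * max (-(y k)) 0)) :=
            mul_le_mul_of_nonneg_right (by linarith) (Real.exp_pos _).le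
    · have h1 : (∑ k, if d.σ c' k = i then max (-(y k)) 0 else 0) = 0 := by
        apply Finset.sum_eq_zero
        intro k _
        rw [if_neg]
        intro h2
        exact hi ⟨k, h2⟩
      rw [h1, mul_zero, neg_zero, Real.exp_zero, mul_one]
      have h2 : ‖cmul (eL D'.L w) (D'.L (d.ν i), 0)‖ ≤ R2 := by
        have hz1 : ∀ k, |(eL D'.L w).1 k| ≤ R := fun k =>
          ((norm_le_pi_norm _ k).trans (norm_fst_le _)).trans hzn
        have hz2 : ∀ k, |(eL D'.L w).2 k| ≤ R := fun k =>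
          ((norm_le_pi_norm _ k).trans (norm_snd_le _)).trans hzn
        have ha' : ∀ k, |D'.L (d.ν i) k| ≤ ‖D'.L (d.ν i)‖ := fun k =>
          norm_le_pi_norm (D'.L (d.ν i)) k
        have hb' : R * ‖D'.L (d.ν i)‖ ≤ R2 := by
          have h4 : ‖D'.L (d.ν i)‖ ≤ ∑ i, ‖D'.L (d.ν i)‖ :=
            Finset.single_le_sum (f := fun i => ‖D'.L (d.ν i)‖) (fun _ _ => norm_nonneg _)
              (Finset.mem_univ i)
          have := mul_le_mul_of_nonneg_left h4 hR0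
          linarith
        refine le_trans ?_ hb'
        have hn : 0 ≤ R * ‖D'.L (d.ν i)‖ := mul_nonneg hR0 (norm_nonneg _)
        rw [Prod.norm_def]
        refine max_le ?_ ?_ <;> rw [pi_norm_le_iff_of_nonneg hn] <;> intro k <;>
          rw [Real.norm_eq_abs]
        · simp only [cmul, Pi.zero_apply, mul_zero, sub_zero, abs_mul]
          exact mul_le_mul (hz1 k) (ha' k) (abs_nonneg _) hR0
        · simp only [cmul, Pi.zero_apply, mul_zero, zero_add, abs_mul]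
          exact mul_le_mul (hz2 k) (ha' k) (abs_nonneg _) hR0
      have h3 := hlev t ht _ hball' _ h2
      have h4 : C1 ≤ C1 * R1 ^ 2 := le_mul_of_one_le_right (by linarith) (one_le_pow₀ hR1')
      linarith

/-- the chart estimate on `{rho ≤ r}` -/
theorem TPiece.chart_bound [Fintype ι] (d : TPiece s j ι) {c : κ} (hc : s.pc c = j)
    {r : ℝ} (hr : r < 1) {t' : ℝ} (ht' : t' ∈ Ico 0 T) :
    ∃ C : ℝ, 1 ≤ C ∧ ∀ w : Cn n, rho d.B w.1 ≤ r → ∃ (k : ι → ℝ) (a0 : Fin n → ℝ),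
      (∀ i, 0 ≤ k i) ∧ ‖a0‖ ≤ C ∧ w.1 = a0 - ∑ i, k i • d.ν i ∧
      ∀ t ∈ Icc 0 t', ∀ i, Fv (d.φ c) (d.ν i) (t, w) ≤ C * Real.exp (-(2 * k i)) := by
  classical
  set K : Set M := {p | (∃ c, s.pc c = j ∧ p ∈ (s.e c).source) ∧ nsq (s.h j p) ≤ r} with hK
  have hKc : IsCompact K := s.proper j r hr
  have hloc : ∀ p : M, p ∈ K → ∃ V ∈ 𝓝 p, ∃ C : ℝ, 1 ≤ C ∧ ∀ w ∈ d.reg, d.τ w ∈ V →
      ∃ (k : ι → ℝ) (a0 : Fin n → ℝ),
      (∀ i, 0 ≤ k i) ∧ ‖a0‖ ≤ C ∧ w.1 = a0 - ∑ i, k i • d.ν i ∧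
      ∀ t ∈ Icc 0 t', ∀ i, Fv (d.φ c) (d.ν i) (t, w) ≤ C * Real.exp (-(2 * k i)) := by
    rintro p ⟨⟨c', hc', hpc⟩, -⟩
    obtain ⟨D'⟩ := d.exists_dat hc'
    obtain ⟨ε, hε, C, hC1, hC⟩ := D'.local_bound hc ((s.e c').map_source hpc) ht'
    refine ⟨(s.e c') ⁻¹' Metric.closedBall (s.e c' p) ε, ?_, C, hC1, fun w hw hwV => hC w hw hwV⟩
    exact ((s.e c').continuousAt hpc).preimage_mem_nhds (Metric.closedBall_mem_nhds _ hε)
  choose! V hV C hC1 hC using hloc
  obtain ⟨S, hSK, hScov⟩ := hKc.elim_nhds_subcover V hV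
  refine ⟨1 + ∑ p ∈ S, C p, ?_, fun w hw => ?_⟩
  · have : 0 ≤ ∑ p ∈ S, C p := Finset.sum_nonneg fun p hp => zero_le_one.trans (hC1 p (hSK p hp))
    linarith
  have hreg : w ∈ d.reg := lt_of_le_of_lt hw hr
  have hmem : d.τ w ∈ K := by
    refine ⟨⟨c, hc, (d.τ_mem c hc w hreg).1⟩, ?_⟩
    rw [d.nsq_τ w hreg]
    exact hw
  obtain ⟨p, hp, hwp⟩ := mem_iUnion₂.1 (hScov hmem)
  have hle : C p ≤ 1 + ∑ p ∈ S, C p := by
    have := Finset.single_le_sum (f := C) (s := S)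
      (fun q hq => zero_le_one.trans (hC1 q (hSK q hq))) hp
    linarith
  obtain ⟨k, a0, hk, ha0, hw1, hF⟩ := hC p (hSK p hp) w hreg hwp
  exact ⟨k, a0, hk, ha0.trans hle, hw1, fun t ht i =>
    (hF t ht i).trans (mul_le_mul_of_nonneg_right hle (Real.exp_pos _).le)⟩

end

end Pool.Agent.KRFS
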