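import Pool.Agent.Work.MP_a2bf38_gt.H.TBase
import Pool.Agent.Work.MP_a2bf38_gt.G.Estim
import Pool.Agent.Work.MP_a2bf38_gt.G.Evol

/-!
# The uniform estimates on a toric piece
-/

open scoped ContDiff ENNReal ComplexOrder
open Set Filter Topology Pool.Agent.ToricKRF Pool.Agent.ToricKRF.G

namespace Pool.Agent.KRFS

/-! ### The maximum principle on a region -/

theorem max_principle_region {n : ℕ} {t' : ℝ} (ht' : 0 < t') {u : ℝ × Cn n → ℝ}
    {U : Set (ℝ × Cn n)} (hU : IsOpen U) {R R' : Set (Fin n → ℝ)} (hR : IsClosed R)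
    (hR' : IsOpen R') (hRR : R' ⊆ R)
    (hsub : Icc 0 t' ×ˢ {w : Cn n | w.1 ∈ R} ⊆ U) (hu : ContDiffOn ℝ ∞ u U)
    (hper : ∀ (t : ℝ) (a b : Fin n → ℝ) (m : Fin n → ℤ), t ∈ Icc 0 t' → a ∈ R →
      u (t, (a, fun j => b j + 2 * Real.pi * m j)) = u (t, (a, b)))
    (hproper : ∀ c : ℝ, ∃ ρ : ℝ, ∀ t ∈ Icc 0 t', ∀ w : Cn n, w.1 ∈ R → c ≤ u (t, w) → ‖w.1‖ ≤ ρ)
    (K : ℝ) (h0 : ∀ w : Cn n, w.1 ∈ R → u (0, w) ≤ K)
    (hside : ∀ t ∈ Icc 0 t', ∀ w : Cn n, w.1 ∈ R → w.1 ∉ R' → u (t, w) ≤ K)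
    (hint : ∀ t ∈ Ioc 0 t', ∀ w : Cn n, w.1 ∈ R' →
      (∀ v : Cn n, D (0, v) (D (0, v) u) (t, w) ≤ 0) → D (1, 0) u (t, w) ≤ 0) :
    ∀ t ∈ Icc 0 t', ∀ w : Cn n, w.1 ∈ R → u (t, w) ≤ K := by
  suffices H : ∀ ε > 0, ∀ t ∈ Icc 0 t', ∀ w : Cn n, w.1 ∈ R → u (t, w) - ε * t ≤ K by
    intro t ht w hw
    refine le_of_forall_pos_le_add fun δ hδ => ?_
    have h1 := H (δ / t') (by positivity) t ht w hw
    have h2 : δ / t' * t ≤ δ := by
      calc δ / t' * t ≤ δ / t' * t' := mul_le_mul_of_nonneg_left ht.2 (by positivity)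
        _ = δ := div_mul_cancel₀ _ ht'.ne'
    linarith
  intro ε hε
  by_contra hcon
  push Not at hcon
  obtain ⟨t₁, ht₁, w₁, hw₁R, hw₁⟩ := hcon
  set v : ℝ × Cn n → ℝ := fun q => u q - ε * q.1 with hv
  have hvper : ∀ (t : ℝ) (a b : Fin n → ℝ) (m : Fin n → ℤ), t ∈ Icc 0 t' → a ∈ R →
      v (t, (a, fun j => b j + 2 * Real.pi * m j)) = v (t, (a, b)) := fun t a b m ht ha => by
    simp only [hv, hper t a b m ht ha]
  have hvc : ContinuousOn v (Icc (0 : ℝ) t' ×ˢ {w : Cn n | w.1 ∈ R}) :=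
    (hu.continuousOn.mono hsub).sub (by fun_prop)
  set c₁ := v (t₁, w₁) with hc₁
  -- a compact set of representatives
  obtain ⟨ρ, hρ⟩ := hproper c₁
  set Q : Set (ℝ × Cn n) := Icc (0 : ℝ) t' ×ˢ
    ((Metric.closedBall (0 : Fin n → ℝ) ρ ∩ R) ×ˢ
      Set.pi univ fun _ => Icc (0 : ℝ) (2 * Real.pi)) with hQ
  have hQc : IsCompact Q := isCompact_Icc.prod (((isCompact_closedBall _ _).inter_right hR).prod
    (isCompact_univ_pi fun _ => isCompact_Icc))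
  have hQs : Q ⊆ Icc (0 : ℝ) t' ×ˢ {w : Cn n | w.1 ∈ R} := fun q hq => ⟨hq.1, hq.2.1.2⟩
  have hrep : ∀ t ∈ Icc 0 t', ∀ w : Cn n, w.1 ∈ R → c₁ ≤ v (t, w) → ∃ w' : Cn n, (t, w') ∈ Q ∧
      v (t, w') = v (t, w) := by
    intro t ht w hwR hw
    choose m hm using fun j => exists_shift (w.2 j)
    refine ⟨(w.1, fun j => w.2 j + 2 * Real.pi * m j), ⟨ht, ⟨?_, hwR⟩, fun j _ => hm j⟩,
      hvper t w.1 w.2 m ht hwR⟩
    rw [mem_closedBall_zero_iff]
    refine hρ t ht w hwR ?_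
    have h1 : v (t, w) ≤ u (t, w) := by
      simp only [hv]
      have := mul_nonneg hε.le ht.1
      linarith
    exact hw.trans h1
  obtain ⟨w₁', hw1Q, hw1v⟩ := hrep t₁ ht₁ w₁ hw₁R le_rfl
  obtain ⟨p, hpQ, hpmax⟩ := hQc.exists_isMaxOn ⟨_, hw1Q⟩ (hvc.mono hQs)
  obtain ⟨t, w⟩ := p
  have htI : t ∈ Icc 0 t' := hpQ.1
  have hwR : w.1 ∈ R := hpQ.2.1.2
  have hp1 : c₁ ≤ v (t, w) := by
    rw [hc₁, ← hw1v]
    exact hpmax hw1Q
  have hmax : ∀ s ∈ Icc 0 t', ∀ z : Cn n, z.1 ∈ R → v (s, z) ≤ v (t, w) := by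
    intro s hs z hzR
    by_cases h : c₁ ≤ v (s, z)
    · obtain ⟨z', hz', hvz⟩ := hrep s hs z hzR h
      rw [← hvz]
      exact hpmax hz'
    · push Not at h
      exact h.le.trans hp1
  have hbig : K < v (t, w) := lt_of_lt_of_le hw₁ hp1
  have htpos : 0 < t := by
    rcases htI.1.eq_or_lt with h | h
    · exfalso
      rw [← h] at hbig
      have := h0 w hwR
      simp only [hv, mul_zero, sub_zero] at hbig
      linarith
    · exact h
  have hwR' : w.1 ∈ R' := by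
    by_contra h
    have h1 := hside t htI w hwR h
    have h2 : 0 ≤ ε * t := mul_nonneg hε.le htI.1
    simp only [hv] at hbig
    linarith
  have hpU : (t, w) ∈ U := hsub ⟨htI, hwR⟩
  have hcd : ContDiffAt ℝ 2 u (t, w) := (hu.contDiffAt (hU.mem_nhds hpU)).of_le (by norm_cast)
  have h2 : D (1, 0) u (t, w) ≤ 0 := by
    refine hint t ⟨htpos, htI.2⟩ w hwR' fun z => ?_
    obtain ⟨h1, -, h3⟩ := line_facts ((0 : ℝ), z) hcd
    change fderiv ℝ (fun q => fderiv ℝ u q (0, z)) (t, w) (0, z) ≤ 0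
    rw [← h3]
    apply deriv_deriv_nonpos_of_isLocalMax h1
    have hcont : Continuous fun s : ℝ => (w + s • z).1 := by fun_prop
    have hev : ∀ᶠ s : ℝ in 𝓝 0, (w + s • z).1 ∈ R' := by
      apply hcont.continuousAt.eventually_mem
      apply hR'.mem_nhds
      simpa using hwR'
    filter_upwards [hev] with s hs
    have := hmax t htI (w + s • z) (hRR hs)
    simp only [hv] at this
    simpa using this
  have h3 : ε ≤ D (1, 0) u (t, w) := by
    obtain ⟨g1, g2, -⟩ := line_facts ((1 : ℝ), (0 : Cn n)) hcd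
    have hd : HasDerivAt (fun s : ℝ => u ((t, w) + s • ((1 : ℝ), (0 : Cn n))) - ε * (t + s))
        (D (1, 0) u (t, w) - ε) 0 := by
      have e1 : HasDerivAt (fun s : ℝ => u ((t, w) + s • ((1 : ℝ), (0 : Cn n))))
          (D (1, 0) u (t, w)) 0 := by
        have := (g1.differentiableAt (by norm_num)).hasDerivAt
        rwa [g2] at this
      have e2 : HasDerivAt (fun s : ℝ => ε * (t + s)) ε 0 := by
        simpa using ((hasDerivAt_id (0 : ℝ)).const_add t).const_mul ε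
      exact e1.sub e2
    have := deriv_nonneg_of_left_max (g := fun s : ℝ =>
      u ((t, w) + s • ((1 : ℝ), (0 : Cn n))) - ε * (t + s)) (a := 0) (c := -t) (by linarith)
      hd.differentiableAt (by
        intro s hs
        have hts : t + s ∈ Icc 0 t' := ⟨by linarith [hs.1], by linarith [hs.2, htI.2]⟩
        have := hmax (t + s) hts w hwR
        simp only [hv] at this
        simpa using this)
    rw [hd.deriv] at this
    linarith
  linarith

/-! ### The region -/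

section

variable {n N : ℕ} {M : Type} [TopologicalSpace M] {κ P F : Type} [Fintype F] {T : ℝ}
  {s : Setup n N M κ P F T} {j : P} {ι : Type}

theorem TPiece.evol_φ (d : TPiece s j ι) {c : κ} (hc : s.pc c = j) {t : ℝ} (ht : t ∈ Ioo 0 T)
    {w : Cn n} (hw : w ∈ d.reg) : ∃ W : Fin n → Cn n, ∀ v : Fin n → ℝ, v ≠ 0 →
      dt (fun q => Real.log (Fv (d.φ c) v q)) (t, w) ≤
        ∑ k, lev (fun q => Real.log (Fv (d.φ c) v q)) (W k) (t, w) := by
  obtain ⟨U, hU, hsub, hφ⟩ := d.smooth_φ hc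
  have hU' : IsOpen (U ∩ Ioo 0 T ×ˢ d.reg) := hU.inter (isOpen_Ioo.prod d.isOpen_reg)
  refine evol hU' (hφ.mono inter_subset_left) ?_ ?_ ?_ (p := (t, w))
    ⟨hsub ⟨Ioo_subset_Ico_self ht, hw⟩, ht, hw⟩
  · rintro ⟨t, w⟩ ⟨-, ht, hw⟩
    exact d.pos_φ hc (Ioo_subset_Ico_self ht) hw
  · rintro ⟨t, w⟩ ⟨-, ht, hw⟩ k l
    exact (d.flow_φ hc ht hw k l).1
  · rintro ⟨t, w⟩ ⟨-, ht, hw⟩ k l
    exact (d.flow_φ hc ht hw k l).2

theorem lev_zero_vec {n : ℕ} (f : ℝ × Cn n → ℝ) (p : ℝ × Cn n) : lev f 0 p = 0 := by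
  have e1 : ((0 : ℝ), (0 : Cn n)) = 0 := rfl
  have e2 : (J 0 : Cn n) = 0 := by
    unfold J
    ext <;> simp
  unfold lev D
  rw [e2, e1, map_zero]
  simp

/-- the side of the region -/
theorem TPiece.side (d : TPiece s j ι) {c : κ} (hc : s.pc c = j)
    (hcomp : ∀ A : Set M, IsCompact A → Disjoint A s.Z →
      ∃ C : ℝ, 0 < C ∧ ∀ t ∈ Ico 0 T, ∀ p ∈ A, ∀ c, p ∈ (s.e c).source → ∀ u,
        lev (s.ψ c) u (t, s.e c p) ≤ C * lev (s.ψ c) u (0, s.e c p)) :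
    ∃ C : ℝ, 1 ≤ C ∧ ∀ t ∈ Ico 0 T, ∀ w : Cn n, rho d.B w.1 = 1 / 2 → ∀ v : Fin n → ℝ,
      Fv (d.φ c) v (t, w) ≤ C * Fv (d.φ c) v (0, w) := by
  -- the piece is open and `nsq ∘ h j` is continuous on it
  have hopen : IsOpen {p : M | ∃ c', (s.pc c' = j ∧ p ∈ (s.e c').source) ∧ nsq (s.h j p) < 1 / 2} := by
    have e1 : {p : M | ∃ c', (s.pc c' = j ∧ p ∈ (s.e c').source) ∧ nsq (s.h j p) < 1 / 2} =
        ⋃ (c' : κ) (_ : s.pc c' = j), (s.e c').source ∩ (s.e c') ⁻¹'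
          ((s.e c').target ∩ (fun z => nsq (s.h (s.pc c') ((s.e c').symm z))) ⁻¹' Iio (1 / 2)) := by
      ext p
      simp only [mem_ofPred_eq, mem_iUnion, mem_inter_iff, mem_preimage, mem_Iio, exists_prop]
      constructor
      · rintro ⟨c', ⟨h1, h2⟩, h3⟩
        refine ⟨c', h1, h2, (s.e c').map_source h2, ?_⟩
        rw [(s.e c').left_inv h2, h1]
        exact h3
      · rintro ⟨c', h1, h2, -, h3⟩
        rw [(s.e c').left_inv h2, h1] at h3
        exact ⟨c', ⟨h1, h2⟩, h3⟩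
    rw [e1]
    refine isOpen_iUnion fun c' => isOpen_iUnion fun _ => ?_
    refine (s.e c').isOpen_inter_preimage ?_
    have hc' : ContinuousOn (fun z => nsq (s.h (s.pc c') ((s.e c').symm z))) (s.e c').target := by
      have h1 : ContinuousOn (fun z => s.h (s.pc c') ((s.e c').symm z)) (s.e c').target :=
        (s.h_holo c').1.continuousOn
      have h2 : Continuous (nsq : Cn N → ℝ) := by
        unfold nsq dotProduct
        fun_prop
      exact h2.comp_continuousOn h1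
    exact hc'.isOpen_inter_preimage (s.e c').open_target isOpen_Iio
  set A : Set M := {p | (∃ c', s.pc c' = j ∧ p ∈ (s.e c').source) ∧ nsq (s.h j p) ≤ 1 / 2} \
    {p : M | ∃ c', (s.pc c' = j ∧ p ∈ (s.e c').source) ∧ nsq (s.h j p) < 1 / 2} with hA
  have hAc : IsCompact A := (s.proper j (1 / 2) (by norm_num)).diff hopen
  have hAm : ∀ p ∈ A, (∃ c', s.pc c' = j ∧ p ∈ (s.e c').source) ∧ nsq (s.h j p) = 1 / 2 := by
    rintro p ⟨⟨⟨c', h1, h2⟩, h3⟩, h4⟩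
    refine ⟨⟨c', h1, h2⟩, le_antisymm h3 ?_⟩
    by_contra h5
    exact h4 ⟨c', ⟨h1, h2⟩, not_le.1 h5⟩
  have hAZ : Disjoint A s.Z := by
    rw [Set.disjoint_left]
    intro p hp hpZ
    obtain ⟨⟨c', h1, h2⟩, h3⟩ := hAm p hp
    have := (d.mem_Z c' h1 p h2).1 hpZ
    rw [this] at h3
    norm_num at h3
  obtain ⟨C, hC0, hC⟩ := hcomp A hAc hAZ
  refine ⟨max C 1, le_max_right _ _, fun t ht w hw v => ?_⟩
  have hw1 : rho d.B w.1 < 1 := by rw [hw]; norm_num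
  have hreg : w ∈ d.reg := hw1
  have h0 : (0 : ℝ) ∈ Ico 0 T := ⟨le_rfl, ht.1.trans_lt ht.2⟩
  have hsrc : d.τ w ∈ (s.e c).source := (d.τ_mem c hc w hw1).1
  have hmem : d.τ w ∈ A := by
    refine ⟨⟨⟨c, hc, hsrc⟩, ?_⟩, ?_⟩
    · rw [d.nsq_τ w hw1, hw]
    · rintro ⟨c', -, h⟩
      rw [d.nsq_τ w hw1, hw] at h
      exact lt_irrefl _ h
  unfold Fv
  rw [d.lev_φ hc hc ht hreg, d.lev_φ hc hc h0 hreg]
  refine (hC t ht _ hmem c hsrc _).trans ?_
  refine mul_le_mul_of_nonneg_right (le_max_left _ _) ?_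
  rw [← d.lev_φ hc hc h0 hreg]
  obtain ⟨U, hU, hsub, hφ⟩ := d.smooth_φ hc
  rcases eq_or_ne ((v, 0) : Cn n) 0 with h | h
  · rw [h, lev_zero_vec]
  · exact (lev_pos hU hφ (hsub ⟨h0, hreg⟩) (d.pos_φ hc h0 hreg) h).le

theorem sum_abs_le_span [Fintype ι] {ν : ι → Fin n → ℝ} (h : Submodule.span ℝ (range ν) = ⊤) :
    ∃ C : ℝ, 0 ≤ C ∧ ∀ e : Fin n → ℝ, ∑ k, |e k| ≤ C * ∑ i, |e ⬝ᵥ ν i| := by
  have h1 : ∀ k : Fin n, ∃ c : ι → ℝ, ∑ i, c i • ν i = Pi.single k 1 := fun k => by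
    have : (Pi.single k (1 : ℝ) : Fin n → ℝ) ∈ Submodule.span ℝ (range ν) := by rw [h]; trivial
    exact (Submodule.mem_span_range_iff_exists_fun ℝ).1 this
  choose c hc using h1
  refine ⟨∑ k, ∑ i, |c k i|, Finset.sum_nonneg fun k _ => Finset.sum_nonneg fun i _ => abs_nonneg _,
    fun e => ?_⟩
  rw [Finset.sum_mul]
  refine Finset.sum_le_sum fun k _ => ?_
  have e1 : e k = ∑ i, c k i * (e ⬝ᵥ ν i) := by
    have : e ⬝ᵥ (Pi.single k (1 : ℝ) : Fin n → ℝ) = e k := by simp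
    rw [← this, ← hc k, dotProduct_sum]
    exact Finset.sum_congr rfl fun i _ => by rw [dotProduct_smul, smul_eq_mul]
  rw [e1]
  refine (Finset.abs_sum_le_sum_abs _ _).trans ?_
  rw [Finset.sum_mul]
  refine Finset.sum_le_sum fun i _ => ?_
  rw [abs_mul]
  refine mul_le_mul_of_nonneg_left ?_ (abs_nonneg _)
  exact Finset.single_le_sum (f := fun i => |e ⬝ᵥ ν i|) (fun i _ => abs_nonneg _)
    (Finset.mem_univ i)

theorem TPiece.key [Finite κ] [Fintype ι] (d : TPiece s j ι) {c : κ} (hc : s.pc c = j)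
    (hT : 0 < T)
    (hcomp : ∀ A : Set M, IsCompact A → Disjoint A s.Z →
      ∃ C : ℝ, 0 < C ∧ ∀ t ∈ Ico 0 T, ∀ p ∈ A, ∀ c, p ∈ (s.e c).source → ∀ u,
        lev (s.ψ c) u (t, s.e c p) ≤ C * lev (s.ψ c) u (0, s.e c p)) :
    ∃ C L : ℝ, 0 < C ∧ 0 ≤ L ∧
    ∀ (e : Fin n → ℝ) (α : ι → ℝ), (∀ i, 0 ≤ α i) → (∀ i, 0 ≤ e ⬝ᵥ d.ν i + α i) →
    ∀ t ∈ Ico 0 T, ∀ w : Cn n, rho d.B w.1 ≤ 1 / 2 →
      2 * (e ⬝ᵥ w.1) + ∑ i, α i * Real.log (Fv (d.φ c) (d.ν i) (t, w)) ≤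
        2 * C * ∑ k, |e k| + (∑ i, α i) * L := by
  obtain ⟨C, hC1, hC⟩ := d.chart_bound hc (r := 1 / 2) (by norm_num) (t' := 0) ⟨le_rfl, hT⟩
  obtain ⟨CA, hCA1, hCA⟩ := d.side hc hcomp
  have hlogC : 0 ≤ Real.log C := Real.log_nonneg hC1
  have hlogA : 0 ≤ Real.log CA := Real.log_nonneg hCA1
  refine ⟨C, Real.log C + Real.log CA, by linarith, by linarith,
    fun e α hα0 hα t₀ ht₀ w₀ hw₀ => ?_⟩
  have h0T : (0 : ℝ) ∈ Ico 0 T := ⟨le_rfl, hT⟩
  obtain ⟨U, hU, hUsub, hφ⟩ := d.smooth_φ hc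
  have hreg : ∀ w : Cn n, rho d.B w.1 ≤ 1 / 2 → w ∈ d.reg := fun w hw =>
    lt_of_le_of_lt hw (by norm_num)
  have hFpos : ∀ t ∈ Ico 0 T, ∀ w : Cn n, w ∈ d.reg → ∀ i, 0 < Fv (d.φ c) (d.ν i) (t, w) := by
    intro t ht w hw i
    refine lev_pos hU hφ (hUsub ⟨ht, hw⟩) (d.pos_φ hc ht hw) ?_
    intro h
    exact d.ν_ne i (congrArg Prod.fst h)
  have hea : ∀ (C' : ℝ) (a0 : Fin n → ℝ), ‖a0‖ ≤ C' → e ⬝ᵥ a0 ≤ C' * ∑ k, |e k| := by
    intro C' a0 h
    unfold dotProduct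
    rw [Finset.mul_sum]
    refine Finset.sum_le_sum fun k _ => ?_
    have h1 : |a0 k| ≤ C' := (norm_le_pi_norm a0 k).trans h
    calc e k * a0 k ≤ |e k * a0 k| := le_abs_self _
      _ = |e k| * |a0 k| := abs_mul _ _
      _ ≤ |e k| * C' := mul_le_mul_of_nonneg_left h1 (abs_nonneg _)
      _ = C' * |e k| := mul_comm _ _
  -- the bound for `B` from the chart
  have hB : ∀ (C' : ℝ), 1 ≤ C' → ∀ (t : ℝ), t ∈ Ico 0 T → ∀ (w : Cn n), w ∈ d.reg →
      ∀ (k : ι → ℝ) (a0 : Fin n → ℝ),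
      (∀ i, 0 ≤ k i) → ‖a0‖ ≤ C' → w.1 = a0 - ∑ i, k i • d.ν i →
      (∀ i, Fv (d.φ c) (d.ν i) (t, w) ≤ C' * Real.exp (-(2 * k i))) → ∀ ε : ℝ, 0 ≤ ε →
      linf e (t, w) + ∑ i, (α i + ε) * Real.log (Fv (d.φ c) (d.ν i) (t, w)) ≤
        2 * C' * ∑ k, |e k| + (∑ i, (α i + ε)) * Real.log C' - 2 * ε * ∑ i, k i := by
    intro C' hC' t ht w hwreg k a0 hk ha0 hw hF ε hε
    have hC0 : 0 < C' := by linarith
    have e1 : linf e (t, w) = 2 * (e ⬝ᵥ a0) + ∑ i, -(2 * (k i * (e ⬝ᵥ d.ν i))) := by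
      rw [linf_apply]
      change 2 * (e ⬝ᵥ w.1) = _
      rw [hw, dotProduct_sub, dotProduct_sum, mul_sub, Finset.mul_sum, Finset.sum_neg_distrib,
        sub_eq_add_neg]
      congr 2
      refine Finset.sum_congr rfl fun i _ => ?_
      rw [dotProduct_smul, smul_eq_mul]
    have e2 : ∀ i, Real.log (Fv (d.φ c) (d.ν i) (t, w)) ≤ Real.log C' - 2 * k i := by
      intro i
      have := Real.log_le_log (hFpos t ht w hwreg i) (hF i)
      rwa [Real.log_mul hC0.ne' (Real.exp_pos _).ne', Real.log_exp, ← sub_eq_add_neg] at this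
    have e3 : ∑ i, -(2 * (k i * (e ⬝ᵥ d.ν i))) +
        ∑ i, (α i + ε) * Real.log (Fv (d.φ c) (d.ν i) (t, w)) ≤
        (∑ i, (α i + ε)) * Real.log C' - 2 * ε * ∑ i, k i := by
      rw [← Finset.sum_add_distrib, Finset.sum_mul, Finset.mul_sum, ← Finset.sum_sub_distrib]
      refine Finset.sum_le_sum fun i _ => ?_
      have h1 := mul_le_mul_of_nonneg_left (e2 i) (add_nonneg (hα0 i) hε)
      have h2 := mul_nonneg (hk i) (hα i)
      nlinarith
    have e4 := hea C' a0 ha0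
    rw [e1]
    linarith
  -- the strict form
  have hstrict : ∀ ε : ℝ, 0 < ε → linf e (t₀, w₀) +
      ∑ i, (α i + ε) * Real.log (Fv (d.φ c) (d.ν i) (t₀, w₀)) ≤
      2 * C * ∑ k, |e k| + (∑ i, (α i + ε)) * (Real.log C + Real.log CA) := by
    intro ε hε
    have hαε : 0 ≤ ∑ i, (α i + ε) := Finset.sum_nonneg fun i _ => by
      have := hα0 i
      linarith
    set u : ℝ × Cn n → ℝ := fun q => linf e q +
      ∑ i, (α i + ε) * Real.log (Fv (d.φ c) (d.ν i) q) with hu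
    set K : ℝ := 2 * C * ∑ k, |e k| + (∑ i, (α i + ε)) * (Real.log C + Real.log CA) with hK
    -- initial time
    have h0' : ∀ w : Cn n, rho d.B w.1 ≤ 1 / 2 → u (0, w) ≤
        2 * C * ∑ k, |e k| + (∑ i, (α i + ε)) * Real.log C := by
      intro w hw
      obtain ⟨k, a0, hk, ha0, hac, hF⟩ := hC w hw
      have h1 := hB C hC1 0 h0T w (hreg w hw) k a0 hk ha0 hac
        (fun i => hF 0 ⟨le_rfl, le_rfl⟩ i) ε hε.le
      have h2 : 0 ≤ 2 * ε * ∑ i, k i :=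
        mul_nonneg (by positivity) (Finset.sum_nonneg fun i _ => hk i)
      simp only [hu]
      linarith
    have h0 : ∀ w : Cn n, rho d.B w.1 ≤ 1 / 2 → u (0, w) ≤ K := by
      intro w hw
      refine (h0' w hw).trans ?_
      rw [hK, mul_add]
      have := mul_nonneg hαε hlogA
      linarith
    rcases ht₀.1.eq_or_lt with h | hpos
    · rw [← h]
      exact h0 w₀ hw₀
    -- the open set
    have hFs : ∀ i, ContDiffOn ℝ ∞ (Fv (d.φ c) (d.ν i)) U := fun i =>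
      contDiffOn_lev hU hφ _
    set U' : Set (ℝ × Cn n) := ⋂ i, U ∩ (Fv (d.φ c) (d.ν i)) ⁻¹' Ioi 0 with hU'
    set U'' : Set (ℝ × Cn n) := U ∩ U' with hU''
    have hopen : IsOpen U'' := by
      refine hU.inter ?_
      exact isOpen_iInter_of_finite fun i =>
        (hFs i).continuousOn.isOpen_inter_preimage hU isOpen_Ioi
    have hsub0 : Ico 0 T ×ˢ d.reg ⊆ U'' := by
      rintro ⟨t, w⟩ ⟨ht, hw⟩
      have h1 : (t, w) ∈ U := hUsub ⟨ht, hw⟩
      exact ⟨h1, mem_iInter.2 fun i => ⟨h1, hFpos t ht w hw i⟩⟩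
    have hIcc : Icc 0 t₀ ⊆ Ico 0 T := fun t ht => ⟨ht.1, lt_of_le_of_lt ht.2 ht₀.2⟩
    have hsub : Icc 0 t₀ ×ˢ {w : Cn n | w.1 ∈ {a | rho d.B a ≤ 1 / 2}} ⊆ U'' := by
      rintro ⟨t, w⟩ ⟨ht, hw⟩
      exact hsub0 ⟨hIcc ht, hreg w hw⟩
    have hg : ∀ i, ContDiffOn ℝ ∞ (fun q => Real.log (Fv (d.φ c) (d.ν i) q)) U'' := by
      intro i
      refine ((hFs i).mono inter_subset_left).log ?_
      intro q hq
      exact ne_of_gt (mem_Ioi.1 (mem_iInter.1 hq.2 i).2)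
    have hus : ContDiffOn ℝ ∞ u U'' := by
      refine (linf e).contDiff.contDiffOn.add ?_
      exact ContDiffOn.sum fun i _ => contDiffOn_const.mul (hg i)
    refine max_principle_region hpos hopen (R := {a | rho d.B a ≤ 1 / 2})
      (R' := {a | rho d.B a < 1 / 2}) (isClosed_le (TB.continuous_rho d.B) continuous_const)
      (isOpen_lt (TB.continuous_rho d.B) continuous_const)
      (fun a ha => by simp only [mem_ofPred_eq] at ha ⊢; exact ha.le) hsub hus ?_ ?_ K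
      h0 ?_ ?_ t₀ ⟨hpos.le, le_rfl⟩ w₀ hw₀
    · intro t a b m ht ha
      simp only [hu, linf_apply]
      congr 1
      refine Finset.sum_congr rfl fun i _ => ?_
      rw [d.periodic_φ hc (d.ν i) a b m (lt_of_le_of_lt ha (by norm_num)) (hIcc ht)]
    · intro c₀
      obtain ⟨C', hC'1, hC'⟩ := d.chart_bound hc (r := 1 / 2) (by norm_num) ht₀
      refine ⟨C' + (∑ i, ‖d.ν i‖) *
        ((2 * C' * ∑ k, |e k| + (∑ i, (α i + ε)) * Real.log C' - c₀) / (2 * ε)), ?_⟩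
      intro t ht w hwR hw
      obtain ⟨k, a0, hk, ha0, hac, hF⟩ := hC' w hwR
      have h1 := hB C' hC'1 t (hIcc ht) w (hreg w hwR) k a0 hk ha0 hac
        (fun i => hF t ht i) ε hε.le
      have h2 : ∑ i, k i ≤
          (2 * C' * ∑ k, |e k| + (∑ i, (α i + ε)) * Real.log C' - c₀) / (2 * ε) := by
        rw [le_div_iff₀ (by positivity)]
        have h3 : c₀ ≤ linf e (t, w) + ∑ i, (α i + ε) * Real.log (Fv (d.φ c) (d.ν i) (t, w)) := hw
        linarith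
      rw [hac, sub_eq_add_neg]
      refine (norm_add_le _ _).trans (add_le_add ha0 ((norm_le_sum d.ν hk).trans ?_))
      exact mul_le_mul_of_nonneg_left h2 (Finset.sum_nonneg fun i _ => norm_nonneg _)
    · intro t ht w hwR hwR'
      have hw12 : rho d.B w.1 = 1 / 2 := le_antisymm hwR (not_lt.1 hwR')
      have hwreg := hreg w hwR
      have h1 : ∀ i, Real.log (Fv (d.φ c) (d.ν i) (t, w)) ≤
          Real.log (Fv (d.φ c) (d.ν i) (0, w)) + Real.log CA := by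
        intro i
        have h2 := Real.log_le_log (hFpos t (hIcc ht) w hwreg i) (hCA t (hIcc ht) w hw12 (d.ν i))
        rw [Real.log_mul (by linarith) (hFpos 0 h0T w hwreg i).ne'] at h2
        linarith
      have h2 : u (t, w) ≤ u (0, w) + (∑ i, (α i + ε)) * Real.log CA := by
        simp only [hu, linf_apply]
        rw [Finset.sum_mul, add_assoc, ← Finset.sum_add_distrib]
        refine add_le_add le_rfl (Finset.sum_le_sum fun i _ => ?_)
        rw [← mul_add]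
        exact mul_le_mul_of_nonneg_left (h1 i) (by have := hα0 i; linarith)
      have h3 := h0' w hwR
      rw [hK, mul_add]
      linarith
    · intro t ht w hwR' hneg
      have htT : t ∈ Ioo 0 T := ⟨ht.1, lt_of_le_of_lt ht.2 ht₀.2⟩
      have hwreg : w ∈ d.reg := hreg w (le_of_lt hwR')
      have hpU : (t, w) ∈ U'' := hsub ⟨⟨ht.1.le, ht.2⟩, (le_of_lt hwR' : rho d.B w.1 ≤ 1 / 2)⟩
      obtain ⟨W, hW⟩ := d.evol_φ hc htT hwreg
      have h1 : D (1, 0) u (t, w) =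
          ∑ i, (α i + ε) * dt (fun q => Real.log (Fv (d.φ c) (d.ν i) q)) (t, w) := by
        simp only [hu]
        rw [D_u (linf e) _ (fun i => diffAt_of_contDiffOn hopen (hg i) hpU)]
        have : linf e ((1 : ℝ), (0 : Cn n)) = 0 := by
          rw [linf_apply]
          simp
        rw [this, zero_add]
        rfl
      have h2 : ∀ k, lev u (W k) (t, w) =
          ∑ i, (α i + ε) * lev (fun q => Real.log (Fv (d.φ c) (d.ν i) q)) (W k) (t, w) :=
          fun k => by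
        simp only [hu]
        exact lev_u hopen hg (linf e) _ hpU (W k)
      have h3 : ∀ k, lev u (W k) (t, w) ≤ 0 := fun k => by
        unfold lev
        have := add_nonpos (hneg (W k)) (hneg (J (W k)))
        linarith
      rw [h1]
      calc ∑ i, (α i + ε) * dt (fun q => Real.log (Fv (d.φ c) (d.ν i) q)) (t, w)
          ≤ ∑ i, (α i + ε) * ∑ k, lev (fun q => Real.log (Fv (d.φ c) (d.ν i) q)) (W k) (t, w) :=
            Finset.sum_le_sum fun i _ => mul_le_mul_of_nonneg_left (hW _ (d.ν_ne i))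
              (add_nonneg (hα0 i) hε.le)
        _ = ∑ k, lev u (W k) (t, w) := by
            simp only [h2, Finset.mul_sum]
            exact Finset.sum_comm
        _ ≤ 0 := Finset.sum_nonpos fun k _ => h3 k
  -- let `ε → 0`
  have hlim : Filter.Tendsto (fun ε : ℝ =>
      2 * C * ∑ k, |e k| + (∑ i, (α i + ε)) * (Real.log C + Real.log CA) -
      (linf e (t₀, w₀) + ∑ i, (α i + ε) * Real.log (Fv (d.φ c) (d.ν i) (t₀, w₀))))
      (nhdsWithin 0 (Ioi 0))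
      (nhds (2 * C * ∑ k, |e k| + (∑ i, (α i + 0)) * (Real.log C + Real.log CA) -
      (linf e (t₀, w₀) + ∑ i, (α i + 0) * Real.log (Fv (d.φ c) (d.ν i) (t₀, w₀))))) := by
    refine (Continuous.tendsto ?_ (0 : ℝ)).mono_left nhdsWithin_le_nhds
    fun_prop
  have h := ge_of_tendsto hlim (Filter.eventually_of_mem self_mem_nhdsWithin fun ε hε => by
    have := hstrict ε hε
    change 0 ≤ _
    linarith)
  simp only [add_zero, linf_apply] at h
  linarith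

/-! ### The uniform estimates -/

/-- the estimates on `{rho ≤ 1/2}` at the time `t` -/
structure GoodOn {n : ℕ} {ι : Type} [Fintype ι] (ν : ι → Fin n → ℝ) (B : Finset (Fin n → ℝ))
    (C : ℝ) (φ : ℝ × Cn n → ℝ) (t : ℝ) : Prop where
  F_le : ∀ i, ∀ w : Cn n, rho B w.1 ≤ 1 / 2 → Fv φ (ν i) (t, w) ≤ C
  B_le : ∀ w : Cn n, rho B w.1 ≤ 1 / 2 → ∀ e : Fin n → ℝ,
    2 * (e ⬝ᵥ w.1) + ∑ i, max (-(e ⬝ᵥ ν i)) 0 * Real.log (Fv φ (ν i) (t, w)) ≤
      C * ∑ i, |e ⬝ᵥ ν i|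

theorem TPiece.uniform [Finite κ] [Fintype ι] (d : TPiece s j ι) {c : κ} (hc : s.pc c = j)
    (hT : 0 < T)
    (hcomp : ∀ A : Set M, IsCompact A → Disjoint A s.Z →
      ∃ C : ℝ, 0 < C ∧ ∀ t ∈ Ico 0 T, ∀ p ∈ A, ∀ c, p ∈ (s.e c).source → ∀ u,
        lev (s.ψ c) u (t, s.e c p) ≤ C * lev (s.ψ c) u (0, s.e c p)) :
    ∃ C : ℝ, 0 < C ∧ ∀ t ∈ Ico 0 T, GoodOn d.ν d.B C (d.φ c) t := by
  classical
  obtain ⟨C, L, hC0, hL0, hC⟩ := d.key hc hT hcomp
  obtain ⟨Cν, hCν0, hCν⟩ := sum_abs_le_span d.span_ν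
  obtain ⟨U, hU, hUsub, hφ⟩ := d.smooth_φ hc
  have hFpos : ∀ t ∈ Ico 0 T, ∀ w : Cn n, rho d.B w.1 ≤ 1 / 2 → ∀ i,
      0 < Fv (d.φ c) (d.ν i) (t, w) := by
    intro t ht w hw i
    have hreg : w ∈ d.reg := lt_of_le_of_lt hw (by norm_num)
    refine lev_pos hU hφ (hUsub ⟨ht, hreg⟩) (d.pos_φ hc ht hreg) ?_
    intro h
    exact d.ν_ne i (congrArg Prod.fst h)
  refine ⟨Real.exp L + (2 * C * Cν + L), by positivity, fun t ht => ⟨fun i w hw => ?_,
    fun w hw e => ?_⟩⟩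
  · have h := hC 0 (Pi.single i 1) (fun k => by
      rcases eq_or_ne k i with rfl | hk
      · simp
      · simp [hk]) (fun k => by
      rw [zero_dotProduct, zero_add]
      rcases eq_or_ne k i with rfl | hk
      · simp
      · simp [hk]) t ht w hw
    rw [zero_dotProduct, mul_zero, zero_add, Finset.sum_eq_single i] at h
    · rw [Finset.sum_eq_single (s := Finset.univ) (f := fun k => (Pi.single i (1 : ℝ) : ι → ℝ) k)
        i] at h
      · simp only [Pi.single_eq_same, one_mul, Pi.zero_apply, abs_zero, Finset.sum_const_zero,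
          mul_zero, zero_add] at h
        have h1 : Fv (d.φ c) (d.ν i) (t, w) ≤ Real.exp L := by
          rw [← Real.exp_log (hFpos t ht w hw i)]
          exact Real.exp_le_exp.2 h
        have h2 : 0 ≤ 2 * C * Cν + L := by positivity
        linarith
      · intro k _ hk
        simp [hk]
      · intro hi
        exact absurd (Finset.mem_univ i) hi
    · intro k _ hk
      simp [hk]
    · intro hi
      exact absurd (Finset.mem_univ i) hi
  · have h := hC e (fun i => max (-(e ⬝ᵥ d.ν i)) 0) (fun i => le_max_right _ _) (fun i => by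
      have := le_max_left (-(e ⬝ᵥ d.ν i)) 0
      linarith) t ht w hw
    refine h.trans ?_
    have h2 : ∑ i, max (-(e ⬝ᵥ d.ν i)) 0 ≤ ∑ i, |e ⬝ᵥ d.ν i| :=
      Finset.sum_le_sum fun i _ => max_le (neg_le_abs _) (abs_nonneg _)
    have h3 := hCν e
    have h4 : 0 ≤ ∑ i, |e ⬝ᵥ d.ν i| := Finset.sum_nonneg fun i _ => abs_nonneg _
    have h5 := mul_le_mul_of_nonneg_left h3 (show 0 ≤ 2 * C by positivity)
    have h6 := mul_le_mul_of_nonneg_right h2 hL0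
    have h7 : 0 ≤ Real.exp L * ∑ i, |e ⬝ᵥ d.ν i| := by positivity
    have h8 : (Real.exp L + (2 * C * Cν + L)) * ∑ i, |e ⬝ᵥ d.ν i| =
        Real.exp L * ∑ i, |e ⬝ᵥ d.ν i| + 2 * C * (Cν * ∑ i, |e ⬝ᵥ d.ν i|) +
          (∑ i, |e ⬝ᵥ d.ν i|) * L := by ring
    rw [h8]
    linarith

end

end Pool.Agent.KRFS
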