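import Pool.Agent.Work.MP_a2bf38_gt.H.Setup
import Pool.Agent.Work.MP_a2bf38_gt.G.Evol
import Pool.Agent.Work.MP_a2bf38_gt.G.Geom

/-! BLUEPRINT (nobody imports this file).  Each module imports `H/Setup.lean` and what it needs. -/

open scoped ContDiff ENNReal ComplexOrder
open Set Filter Topology Pool.Agent.ToricKRF Pool.Agent.ToricKRF.G

namespace Pool.Agent.KRFS

/-! ## G/EvolField.lean (helper20), namespace `Pool.Agent.ToricKRF.G` -/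

section EvolField

variable {n : ℕ} {ψ : ℝ × Cn n → ℝ} {U : Set (ℝ × Cn n)}

theorem evol_field (hU : IsOpen U) (hψ : ContDiffOn ℝ ∞ ψ U) (hpos : ∀ p ∈ U, (cHess ψ p).PosDef)
    (flow_re : ∀ p ∈ U, ∀ k l, dt (fun q => (cHess ψ q k l).re) p =
      (cHess (fun q => Real.log (cHess ψ q).det.re) p k l).re) {p : ℝ × Cn n} (hp : p ∈ U) :
    ∃ W : Fin n → Cn n, IsUFrame ψ p W ∧ ∀ (ξ : Cn n → Cn n) (S : Set (Cn n)), IsOpen S →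
      p.2 ∈ S → HolOn ξ S → ξ p.2 ≠ 0 →
      dt (fun q => Real.log (lev ψ (ξ q.2) q)) p ≤
        ∑ c, lev (fun q => Real.log (lev ψ (ξ q.2) q)) (W c) p := sorry

theorem trace_frame (hU : IsOpen U) (hψ : ContDiffOn ℝ ∞ ψ U) {p : ℝ × Cn n} (hp : p ∈ U)
    {W : Fin n → Cn n} (hW : IsUFrame ψ p W) : ∑ c, lev ψ (W c) p = n := sorry

/-- `∂_t log det g = Δ log det g` under the flow in potential form -/
theorem evol_logdet (hU : IsOpen U) (hψ : ContDiffOn ℝ ∞ ψ U) (hpos : ∀ p ∈ U, (cHess ψ p).PosDef)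
    (flow : ∀ p ∈ U, dt ψ p = Real.log (cHess ψ p).det.re) {p : ℝ × Cn n} (hp : p ∈ U)
    {W : Fin n → Cn n} (hW : IsUFrame ψ p W) :
    dt (fun q => Real.log (cHess ψ q).det.re) p =
      ∑ c, lev (fun q => Real.log (cHess ψ q).det.re) (W c) p := sorry

theorem flow_of_potential (hU : IsOpen U) (hψ : ContDiffOn ℝ ∞ ψ U)
    (hpos : ∀ p ∈ U, (cHess ψ p).PosDef)
    (flow : ∀ p ∈ U, dt ψ p = Real.log (cHess ψ p).det.re) {p : ℝ × Cn n} (hp : p ∈ U)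
    (k l : Fin n) :
    dt (fun q => (cHess ψ q k l).re) p =
      (cHess (fun q => Real.log (cHess ψ q).det.re) p k l).re ∧
    dt (fun q => (cHess ψ q k l).im) p =
      (cHess (fun q => Real.log (cHess ψ q).det.re) p k l).im := sorry

end EvolField

/-! ## H/Chain.lean -/

section Chain

variable {n m : ℕ}

theorem lev_comp {f : ℝ × Cn m → ℝ} {U : Set (ℝ × Cn m)} (hU : IsOpen U)
    (hf : ContDiffOn ℝ ∞ f U) {H : Cn n → Cn m} {S : Set (Cn n)} (hS : IsOpen S) (hH : HolOn H S)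
    {t : ℝ} {z : Cn n} (hz : z ∈ S) (hp : (t, H z) ∈ U) (u : Cn n) :
    lev (fun q => f (q.1, H q.2)) u (t, z) = lev f (fderiv ℝ H z u) (t, H z) := sorry

theorem levz_comp {f : Cn m → ℝ} {S' : Set (Cn m)} (hS' : IsOpen S') (hf : ContDiffOn ℝ ∞ f S')
    {H : Cn n → Cn m} {S : Set (Cn n)} (hS : IsOpen S) (hH : HolOn H S) {z : Cn n} (hz : z ∈ S)
    (hp : H z ∈ S') (u : Cn n) :
    levz (fun x => f (H x)) u z = levz f (fderiv ℝ H z u) (H z) := sorry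

theorem lev_snd {g : Cn n → ℝ} {S : Set (Cn n)} (hS : IsOpen S) (hg : ContDiffOn ℝ ∞ g S) {t : ℝ}
    {z : Cn n} (hz : z ∈ S) (u : Cn n) : lev (fun q => g q.2) u (t, z) = levz g u z := sorry

theorem levz_slice {f : ℝ × Cn n → ℝ} {U : Set (ℝ × Cn n)} (hU : IsOpen U)
    (hf : ContDiffOn ℝ ∞ f U) {t : ℝ} {z : Cn n} (hp : (t, z) ∈ U) (u : Cn n) :
    levz (fun x => f (t, x)) u z = lev f u (t, z) := sorry

theorem lev_nonpos_of_max {g : ℝ × Cn n → ℝ} {t : ℝ} {z : Cn n} (hg : ContDiffAt ℝ ∞ g (t, z))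
    (hmax : ∀ᶠ x in 𝓝 z, g (t, x) ≤ g (t, z)) (u : Cn n) : lev g u (t, z) ≤ 0 := sorry

theorem dt_nonneg_of_max {g : ℝ × Cn n → ℝ} {t : ℝ} {z : Cn n} (hg : ContDiffAt ℝ ∞ g (t, z))
    (hmax : ∀ᶠ r in 𝓝[<] t, g (r, z) ≤ g (t, z)) : 0 ≤ dt g (t, z) := sorry

variable {M : Type} [TopologicalSpace M] {κ : Type} {e : κ → OpenPartialHomeomorph M (Cn n)}

theorem isOpen_dom (c c' : κ) : IsOpen (dom e c c') := sorry

/-- a smooth function on `[0,T) × M`, in charts -/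
structure IsFun (e : κ → OpenPartialHomeomorph M (Cn n)) (T : ℝ) (f : κ → ℝ × Cn n → ℝ) :
    Prop where
  smooth : ∀ c, ∃ U : Set (ℝ × Cn n), IsOpen U ∧ Ico 0 T ×ˢ (e c).target ⊆ U ∧
    ContDiffOn ℝ ∞ (f c) U
  compat : ∀ c c', ∀ t ∈ Ico 0 T, ∀ z ∈ dom e c c', f c (t, z) = f c' (t, tr e c c' z)

theorem max_principle [CompactSpace M] (he : IsAtlas e) {T : ℝ} {f : κ → ℝ × Cn n → ℝ}
    (hf : IsFun e T f) {t' : ℝ} (ht' : t' ∈ Ico 0 T) {K : ℝ}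
    (h0 : ∀ c, ∀ z ∈ (e c).target, f c (0, z) ≤ K)
    (hint : ∀ c, ∀ t ∈ Ioc 0 t', ∀ z ∈ (e c).target, (∀ u, lev (f c) u (t, z) ≤ 0) →
      dt (f c) (t, z) ≤ 0) :
    ∀ c, ∀ t ∈ Icc 0 t', ∀ z ∈ (e c).target, f c (t, z) ≤ K := sorry

end Chain

section

variable {n N : ℕ} {M : Type} [TopologicalSpace M] {κ P F : Type} [Fintype F] {T : ℝ}
  (s : Setup n N M κ P F T)

/-! ## H/Bound.lean -/

/-- `u = (T - t) φ' + φ + n t`, `φ = ψ(t) - ψ(0) - t log Ω` -/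
noncomputable def Setup.Uc (c : κ) : ℝ × Cn n → ℝ := fun q =>
  (T - q.1) * (Real.log (cHess (s.ψ c) q).det.re - Real.log (s.Ω c q.2)) +
    (s.ψ c q - s.ψ c (0, q.2) - q.1 * Real.log (s.Ω c q.2)) + n * q.1

theorem Setup.Uc_isFun : IsFun s.e T s.Uc := sorry

theorem Setup.Uc_evol {c : κ} {t : ℝ} (ht : t ∈ Ioo 0 T) {z : Cn n} (hz : z ∈ (s.e c).target)
    {W : Fin n → Cn n} (hW : IsUFrame (s.ψ c) (t, z) W) :
    dt (s.Uc c) (t, z) = ∑ k, lev (s.Uc c) (W k) (t, z) +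
      ∑ k, levz (fun z => s.K (s.pc c) (s.h (s.pc c) ((s.e c).symm z))) (W k) z := sorry

theorem Setup.Uc_le [CompactSpace M] : ∃ C : ℝ, ∀ c, ∀ t ∈ Ico 0 T, ∀ z ∈ (s.e c).target,
    s.Uc c (t, z) ≤ C := sorry

/-! ## H/Cut.lean -/

theorem Setup.fields_bounded [CompactSpace M] [T2Space M] [Finite κ] [Finite P] :
    ∃ C : ℝ, ∀ t ∈ Ico 0 T, ∀ c, ∀ z ∈ (s.e c).target,
      nsq (s.h (s.pc c) ((s.e c).symm z)) ≤ 1 / 2 → ∀ k, lev (s.ψ c) (s.ξ k c z) (t, z) ≤ C := sorry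

/-! ## H/Good.lean (assumes `fields_bounded`) -/

theorem Setup.good (hb : ∃ C : ℝ, ∀ t ∈ Ico 0 T, ∀ c, ∀ z ∈ (s.e c).target,
      nsq (s.h (s.pc c) ((s.e c).symm z)) ≤ 1 / 2 → ∀ k, lev (s.ψ c) (s.ξ k c z) (t, z) ≤ C)
    {p : M} (hp : p ∉ s.Z) : ∃ c, p ∈ (s.e c).source ∧ ∃ r > 0, ∃ C : ℝ,
      Metric.closedBall (s.e c p) r ⊆ (s.e c).target ∧
      ∀ t ∈ Ico 0 T, ∀ z ∈ Metric.closedBall (s.e c p) r, ∀ u, lev (s.ψ c) u (t, z) ≤ C * ‖u‖ ^ 2 := sorry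

theorem Setup.compare (hb : ∃ C : ℝ, ∀ t ∈ Ico 0 T, ∀ c, ∀ z ∈ (s.e c).target,
      nsq (s.h (s.pc c) ((s.e c).symm z)) ≤ 1 / 2 → ∀ k, lev (s.ψ c) (s.ξ k c z) (t, z) ≤ C)
    (hT : 0 < T) {A : Set M} (hA : IsCompact A) (hAZ : Disjoint A s.Z) :
    ∃ C : ℝ, 0 < C ∧ ∀ t ∈ Ico 0 T, ∀ p ∈ A, ∀ c, p ∈ (s.e c).source → ∀ u,
      lev (s.ψ c) u (t, s.e c p) ≤ C * lev (s.ψ c) u (0, s.e c p) := sorry

/-! ## H/Dist.lean -/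

theorem rdist_self (t : ℝ) (p : M) : rdist s.e s.ψ t p p = 0 := sorry

theorem rdist_comm {t : ℝ} (p q : M) : rdist s.e s.ψ t p q = rdist s.e s.ψ t q p := sorry

theorem rdist_triangle {t : ℝ} (p q r : M) :
    rdist s.e s.ψ t p r ≤ rdist s.e s.ψ t p q + rdist s.e s.ψ t q r := sorry

theorem rdist_le {t : ℝ} {c : κ} {γ : ℝ → Cn n} {p q : M} (h : ChartCurve s.e c γ p q) :
    rdist s.e s.ψ t p q ≤ ENNReal.ofReal (clen s.ψ t c γ) := sorry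

/-- segments -/
theorem rdist_ball {t : ℝ} (ht : t ∈ Ico 0 T) {c : κ} {p : M} (hp : p ∈ (s.e c).source) {r C : ℝ}
    (hC : 0 ≤ C) (hball : Metric.closedBall (s.e c p) r ⊆ (s.e c).target)
    (hb : ∀ z ∈ Metric.closedBall (s.e c p) r, ∀ u, lev (s.ψ c) u (t, z) ≤ C * ‖u‖ ^ 2) {q : M}
    (hq : q ∈ (s.e c).source) (hqr : s.e c q ∈ Metric.closedBall (s.e c p) r) :
    rdist s.e s.ψ t p q ≤ ENNReal.ofReal (√(2 * C) * ‖s.e c q - s.e c p‖) := sorry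

theorem rdist_small {t : ℝ} (ht : t ∈ Ico 0 T) (p : M) {ε : ℝ} (hε : 0 < ε) :
    ∀ᶠ q in 𝓝 p, rdist s.e s.ψ t p q ≤ ENNReal.ofReal ε := sorry

/-! ## H/Conn.lean -/

theorem isPreconnected_compl [PreconnectedSpace M] {Z : Set M} (hZ : IsClosed Z) (hd : Dense Zᶜ)
    (hloc : ∀ p ∈ Z, ∃ W, IsOpen W ∧ p ∈ W ∧ IsPreconnected (W \ Z)) : IsPreconnected Zᶜ := sorry

theorem Setup.diam_bounded [CompactSpace M]
    (hgood : ∀ p ∉ s.Z, ∃ c, p ∈ (s.e c).source ∧ ∃ r > 0, ∃ C : ℝ,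
      Metric.closedBall (s.e c p) r ⊆ (s.e c).target ∧
      ∀ t ∈ Ico 0 T, ∀ z ∈ Metric.closedBall (s.e c p) r, ∀ u, lev (s.ψ c) u (t, z) ≤ C * ‖u‖ ^ 2)
    (hconn : IsPreconnected s.Zᶜ)
    (hZ : ∀ p ∈ s.Z, ∃ W ∈ 𝓝 p, ∃ A : Set M, IsCompact A ∧ Disjoint A s.Z ∧ ∃ C : ℝ,
      ∀ t ∈ Ico 0 T, ∀ q ∈ W, ∃ q' ∈ A, rdist s.e s.ψ t q q' ≤ ENNReal.ofReal C) :
    ⨆ t ∈ Ico 0 T, rdiam s.e s.ψ t < ⊤ := sorry

/-! ## H/TBase.lean: the coordinates `w` of a toric piece -/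

variable {s} {j : P} {ι : Type}

/-- the potential in the coordinate `w` -/
noncomputable def TPiece.φ (d : TPiece s j ι) (c : κ) : ℝ × Cn n → ℝ := fun q =>
  s.ψ c (q.1, s.e c (d.τ q.2))

/-- `w`-region -/
def TPiece.reg (d : TPiece s j ι) : Set (Cn n) := {w | rho d.B w.1 < 1}

theorem TPiece.smooth_φ (d : TPiece s j ι) {c : κ} (hc : s.pc c = j) :
    ∃ U : Set (ℝ × Cn n), IsOpen U ∧ Ico 0 T ×ˢ d.reg ⊆ U ∧ ContDiffOn ℝ ∞ (d.φ c) U := sorry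

theorem TPiece.pos_φ (d : TPiece s j ι) {c : κ} (hc : s.pc c = j) {t : ℝ} (ht : t ∈ Ico 0 T)
    {w : Cn n} (hw : w ∈ d.reg) : (cHess (d.φ c) (t, w)).PosDef := sorry

/-- `g(v, v)` in the coordinate `w` and in a chart -/
theorem TPiece.lev_φ (d : TPiece s j ι) {c c' : κ} (hc : s.pc c = j) (hc' : s.pc c' = j) {t : ℝ}
    (ht : t ∈ Ico 0 T) {w : Cn n} (hw : w ∈ d.reg) (u : Cn n) :
    lev (d.φ c) u (t, w) = lev (s.ψ c') (fderiv ℝ (fun w => s.e c' (d.τ w)) w u)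
      (t, s.e c' (d.τ w)) := sorry

theorem TPiece.flow_φ (d : TPiece s j ι) {c : κ} (hc : s.pc c = j) {t : ℝ} (ht : t ∈ Ioo 0 T)
    {w : Cn n} (hw : w ∈ d.reg) (k l : Fin n) :
    dt (fun q => (cHess (d.φ c) q k l).re) (t, w) =
      (cHess (fun q => Real.log (cHess (d.φ c) q).det.re) (t, w) k l).re ∧
    dt (fun q => (cHess (d.φ c) q k l).im) (t, w) =
      (cHess (fun q => Real.log (cHess (d.φ c) q).det.re) (t, w) k l).im := sorry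

theorem TPiece.periodic_φ (d : TPiece s j ι) {c : κ} (hc : s.pc c = j) {t : ℝ} (v : Fin n → ℝ)
    (a b : Fin n → ℝ) (m : Fin n → ℤ) (hw : rho d.B a < 1) (ht : t ∈ Ico 0 T) :
    Fv (d.φ c) v (t, (a, fun k => b k + 2 * Real.pi * m k)) = Fv (d.φ c) v (t, (a, b)) := sorry

/-- the chart estimate on `{rho ≤ r}` -/
theorem TPiece.chart_bound [Finite κ] [Fintype ι] (d : TPiece s j ι) {c : κ} (hc : s.pc c = j)
    {r : ℝ} (hr : r < 1) {t' : ℝ} (ht' : t' ∈ Ico 0 T) :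
    ∃ C : ℝ, 1 ≤ C ∧ ∀ a : Fin n → ℝ, rho d.B a ≤ r → ∃ (k : ι → ℝ) (a0 : Fin n → ℝ),
      (∀ i, 0 ≤ k i) ∧ ‖a0‖ ≤ C ∧ a = a0 - ∑ i, k i • d.ν i ∧
      ∀ t ∈ Icc 0 t', ∀ b : Fin n → ℝ, ∀ i,
        Fv (d.φ c) (d.ν i) (t, (a, b)) ≤ C * Real.exp (-(2 * k i)) := sorry

/-! ## H/TEst.lean -/

/-- the estimates on `{rho ≤ 1/2}` at the time `t` -/
structure GoodOn {n : ℕ} {ι : Type} [Fintype ι] (ν : ι → Fin n → ℝ) (B : Finset (Fin n → ℝ))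
    (C : ℝ) (φ : ℝ × Cn n → ℝ) (t : ℝ) : Prop where
  F_le : ∀ i, ∀ w : Cn n, rho B w.1 ≤ 1 / 2 → Fv φ (ν i) (t, w) ≤ C
  B_le : ∀ w : Cn n, rho B w.1 ≤ 1 / 2 → ∀ e : Fin n → ℝ,
    2 * (e ⬝ᵥ w.1) + ∑ i, max (-(e ⬝ᵥ ν i)) 0 * Real.log (Fv φ (ν i) (t, w)) ≤
      C * ∑ i, |e ⬝ᵥ ν i|

theorem TPiece.uniform [Finite κ] [Fintype ι] (d : TPiece s j ι) {c : κ} (hc : s.pc c = j)
    (hT : 0 < T)
    (hcomp : ∀ A : Set M, IsCompact A → Disjoint A s.Z →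
      ∃ C : ℝ, 0 < C ∧ ∀ t ∈ Ico 0 T, ∀ p ∈ A, ∀ c, p ∈ (s.e c).source → ∀ u,
        lev (s.ψ c) u (t, s.e c p) ≤ C * lev (s.ψ c) u (0, s.e c p)) :
    ∃ C : ℝ, 0 < C ∧ ∀ t ∈ Ico 0 T, GoodOn d.ν d.B C (d.φ c) t := sorry

/-! ## H/TPath.lean -/

/-- the path until exit (analytic part, cf. `G/Ode.lean`) -/
theorem exists_exit_path {B : Finset (Fin n → ℝ)}
    {G : (Fin n → ℝ) → (Fin n → ℝ) →L[ℝ] (Fin n → ℝ) →L[ℝ] ℝ}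
    (hG : ContDiffOn ℝ 1 G {a | rho B a < 1}) (hpos : ∀ a, rho B a < 1 → ∀ v, v ≠ 0 → 0 < G a v v)
    {K M : ℝ} (hM : 0 < M) (hK : 0 ≤ K)
    (hq : ∀ a, rho B a ≤ 1 / 2 → K < 2 * rad a →
      Real.exp ((2 * rad a - K) / M) ≤ ell a ((G a).inverse (ell a))) {a0 : Fin n → ℝ}
    (ha0 : rho B a0 < 1 / 4) :
    ∃ γ : ℝ → Fin n → ℝ, γ 0 = a0 ∧ (rho B (γ 1) = 1 / 3 ∨ rad (γ 1) ≤ K / 2 + 1) ∧
      (∀ s ∈ Icc (0 : ℝ) 1, rho B (γ s) ≤ 1 / 3) ∧ (∀ s ∈ Icc (0 : ℝ) 1, ContDiffAt ℝ 1 γ s) ∧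
      ∫ s in (0 : ℝ)..1, √(G (γ s) (deriv γ s) (deriv γ s)) ≤ M := sorry

theorem TPiece.near_Z [Finite κ] [Fintype ι] (d : TPiece s j ι) {c : κ} (hc : s.pc c = j)
    (hgood : ∃ C : ℝ, 0 < C ∧ ∀ t ∈ Ico 0 T, GoodOn d.ν d.B C (d.φ c) t)
    {p : M} (hp : p ∈ s.Z) (hpj : ∃ c, s.pc c = j ∧ p ∈ (s.e c).source) :
    ∃ W ∈ 𝓝 p, ∃ A : Set M, IsCompact A ∧ Disjoint A s.Z ∧ ∃ C : ℝ,
      ∀ t ∈ Ico 0 T, ∀ q ∈ W, ∃ q' ∈ A, rdist s.e s.ψ t q q' ≤ ENNReal.ofReal C := sorry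

/-! ## H/Master.lean -/

theorem Setup.main [CompactSpace M] [T2Space M] [PreconnectedSpace M] [Finite κ] [Finite P]
    (s : Setup n N M κ P F T) (hd : Dense s.Zᶜ)
    (hloc : ∀ p ∈ s.Z, ∃ W, IsOpen W ∧ p ∈ W ∧ IsPreconnected (W \ s.Z))
    (htor : ∀ p ∈ s.Z, ∃ (j : P) (ι : Type) (_ : Fintype ι) (_ : TPiece s j ι) (c : κ),
      s.pc c = j ∧ p ∈ (s.e c).source) :
    ⨆ t ∈ Ico 0 T, rdiam s.e s.ψ t < ⊤ := by
  by_cases hT : 0 < T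
  · have hb := s.fields_bounded
    refine s.diam_bounded (fun p hp => s.good hb hp) (isPreconnected_compl s.isClosed_Z hd hloc) ?_
    intro p hp
    obtain ⟨j, ι, _, d, c, hc, hpc⟩ := htor p hp
    exact d.near_Z hc (d.uniform hc hT fun A hA hAZ => s.compare hb hT hA hAZ) hp ⟨c, hc, hpc⟩
  · have : Ico (0 : ℝ) T = ∅ := Ico_eq_empty hT
    simp [this]

end

end Pool.Agent.KRFS
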